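import Pool.Agent.AQS.St

/-!
# AQS, module A1

Statement and proof: see `St_A1` in `Pool/Agent/AQS/St.lean`.
-/

set_option autoImplicit false
set_option linter.unusedSectionVars false
set_option linter.style.haveILetI false

namespace Pool.Agent.AQS

open Function Pool.Agent.Helper11 Pool.Agent.HPow Pool.Agent.Helper67.Bass TensorProduct

theorem A1_map_o {p : ℕ} {W W' : Type} [CommRing W] [CommRing W'] (φ : W →+* W') (h w : W) :
    AP.map (p := p) φ h (AP.o h w) = AP.o (φ h) (φ w) := AP.lift_o _ _ _ _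

theorem A1_map_y {p : ℕ} {W W' : Type} [CommRing W] [CommRing W'] (φ : W →+* W') (h : W) :
    AP.map (p := p) φ h (AP.y h) = AP.y (φ h) := AP.lift_y _ _ _

theorem A1_noeth {p : ℕ} {W : Type} [CommRing W] [IsNoetherianRing W] (h : W) :
    IsNoetherianRing (AP p W h) :=
  isNoetherianRing_of_surjective _ _ (AdjoinRoot.mk _) AdjoinRoot.mk_surjective

/-! ### (1) -/

theorem A1_add_pow {p : ℕ} [hp : Fact p.Prime] {B : Type} [CommRing B] (h0 : (p : B) = 0)
    (x y : B) : (x + y) ^ p = x ^ p + y ^ p := by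
  cases subsingleton_or_nontrivial B with
  | inl hB => exact Subsingleton.elim _ _
  | inr hB =>
    haveI : CharP B p := (CharP.charP_iff_prime_eq_zero hp.out).2 h0
    exact add_pow_char x y p

theorem A1_tr {p : ℕ} [Fact p.Prime] {W : Type} [CommRing W] (h0 : (p : W) = 0) (h h' g : W)
    (hg : h - h' = g ^ p - g) :
    (AP.y h' + AP.o h' g : AP p W h') ^ p - (AP.y h' + AP.o h' g) = AP.o h' h := by
  have h1 : ((p : ℕ) : AP p W h') = 0 := by
    have := congrArg (AP.o h' : W →+* AP p W h') h0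
    rwa [map_natCast, map_zero] at this
  rw [A1_add_pow h1, ← map_pow]
  have h2 := AP.eq (p := p) h'
  have h3 := congrArg (AP.o h' : W →+* AP p W h') hg
  rw [map_sub, map_sub] at h3
  linear_combination h2 - h3

theorem A1_one {p : ℕ} [Fact p.Prime] {W : Type} [CommRing W] (h0 : (p : W) = 0) (h h' : W)
    (hh : PE p h h') : Nonempty (AP p W h ≃+* AP p W h') := by
  obtain ⟨g, hg⟩ := hh
  have hp : p ≠ 0 := (Fact.out : p.Prime).ne_zero
  have hneg : (-g) ^ p = - g ^ p := by
    have h1 := A1_add_pow h0 g (-g)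
    rw [add_neg_cancel, zero_pow hp] at h1
    exact (neg_eq_of_add_eq_zero_right h1.symm).symm
  have hg' : h' - h = (-g) ^ p - (-g) := by
    rw [hneg]
    linear_combination -hg
  refine ⟨RingEquiv.ofRingHom (AP.lift (AP.o h') (AP.y h' + AP.o h' g) (A1_tr h0 h h' g hg))
    (AP.lift (AP.o h) (AP.y h + AP.o h (-g)) (A1_tr h0 h' h (-g) hg')) ?_ ?_⟩
  · refine AP.ext (fun w => ?_) ?_
    · rw [RingHom.comp_apply, AP.lift_o, AP.lift_o, RingHom.id_apply]
    · rw [RingHom.comp_apply, AP.lift_y, map_add, AP.lift_y, AP.lift_o, RingHom.id_apply, map_neg]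
      ring
  · refine AP.ext (fun w => ?_) ?_
    · rw [RingHom.comp_apply, AP.lift_o, AP.lift_o, RingHom.id_apply]
    · rw [RingHom.comp_apply, AP.lift_y, map_add, AP.lift_y, AP.lift_o, RingHom.id_apply, map_neg]
      ring

/-! ### (2) -/

theorem A1_two {p : ℕ} {W W' : Type} [CommRing W] [CommRing W'] (e : W ≃+* W') (h : W) (h' : W')
    (hh : e h = h') : Nonempty (AP p W h ≃+* AP p W' h') := by
  subst hh
  refine ⟨AdjoinRoot.mapRingEquiv e _ _ ?_⟩
  rw [Polynomial.map_sub, Polynomial.map_sub, Polynomial.map_pow, Polynomial.map_X,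
    Polynomial.map_C]
  exact Associated.refl _

/-! ### (3) -/

theorem A1_three {p : ℕ} {W : Type} [CommRing W] (σ : Type) (h : W) :
    Nonempty (MvPolynomial σ (AP p W h) ≃+*
      AP p (MvPolynomial σ W) (MvPolynomial.C h)) := by
  let a : AP p W h →+* AP p (MvPolynomial σ W) (MvPolynomial.C h) := AP.map MvPolynomial.C h
  let f : MvPolynomial σ (AP p W h) →+* AP p (MvPolynomial σ W) (MvPolynomial.C h) :=
    MvPolynomial.eval₂Hom a (fun i => AP.o _ (MvPolynomial.X i))
  have f_C : ∀ x, f (MvPolynomial.C x) = a x := fun x => MvPolynomial.eval₂Hom_C _ _ _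
  have f_X : ∀ i, f (MvPolynomial.X i) = AP.o _ (MvPolynomial.X i) :=
    fun i => MvPolynomial.eval₂Hom_X' _ _ _
  let g : AP p (MvPolynomial σ W) (MvPolynomial.C h) →+* MvPolynomial σ (AP p W h) :=
    AP.lift (MvPolynomial.map (AP.o h)) (MvPolynomial.C (AP.y h)) (by
      rw [MvPolynomial.map_C, ← AP.eq h, map_sub, map_pow])
  have g_o : ∀ x, g (AP.o _ x) = MvPolynomial.map (AP.o h) x := fun x => AP.lift_o _ _ _ _
  have g_y : g (AP.y _) = MvPolynomial.C (AP.y h) := AP.lift_y _ _ _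
  refine ⟨RingEquiv.ofRingHom f g ?_ ?_⟩
  · refine AP.ext (fun x => ?_) ?_
    · have h3 : (f.comp (g.comp (AP.o _))) = AP.o (MvPolynomial.C h) := by
        refine MvPolynomial.ringHom_ext (fun r => ?_) (fun i => ?_)
        · show f (g (AP.o _ (MvPolynomial.C r))) = AP.o _ (MvPolynomial.C r)
          rw [g_o, MvPolynomial.map_C, f_C]
          exact A1_map_o _ _ _
        · show f (g (AP.o _ (MvPolynomial.X i))) = AP.o _ (MvPolynomial.X i)
          rw [g_o, MvPolynomial.map_X, f_X]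
      exact congrArg (fun φ => φ x) h3
    · show f (g (AP.y _)) = AP.y _
      rw [g_y, f_C]
      exact A1_map_y _ _
  · refine MvPolynomial.ringHom_ext (fun x => ?_) (fun i => ?_)
    · have h3 : (g.comp (f.comp MvPolynomial.C)) =
          (MvPolynomial.C : AP p W h →+* MvPolynomial σ (AP p W h)) := by
        refine AP.ext (fun r => ?_) ?_
        · show g (f (MvPolynomial.C (AP.o h r))) = MvPolynomial.C (AP.o h r)
          rw [f_C, show a (AP.o h r) = AP.o _ (MvPolynomial.C r) from A1_map_o _ _ _, g_o,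
            MvPolynomial.map_C]
        · show g (f (MvPolynomial.C (AP.y h))) = MvPolynomial.C (AP.y h)
          rw [f_C, show a (AP.y h) = AP.y _ from A1_map_y _ _, g_y]
      exact congrArg (fun φ => φ x) h3
    · show g (f (MvPolynomial.X i)) = MvPolynomial.X i
      rw [f_X, g_o, MvPolynomial.map_X]

/-! ### (4) -/

theorem A1_four {p : ℕ} {W : Type} [CommRing W] (I : Ideal W) (h : W) :
    Nonempty ((AP p W h ⧸ I.map (AP.o h : W →+* AP p W h)) ≃+*
      AP p (W ⧸ I) (Ideal.Quotient.mk I h)) := by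
  let J : Ideal (AP p W h) := I.map (AP.o h : W →+* AP p W h)
  let f : (AP p W h ⧸ J) →+* AP p (W ⧸ I) (Ideal.Quotient.mk I h) :=
    Ideal.Quotient.lift J (AP.map (Ideal.Quotient.mk I) h) (by
      have h1 : J ≤ RingHom.ker (AP.map (p := p) (Ideal.Quotient.mk I) h) := by
        rw [Ideal.map_le_iff_le_comap]
        intro x hx
        rw [Ideal.mem_comap, RingHom.mem_ker, A1_map_o, Ideal.Quotient.eq_zero_iff_mem.2 hx,
          map_zero]
      exact fun a ha => h1 ha)
  have f_mk : ∀ x, f (Ideal.Quotient.mk J x) = AP.map (Ideal.Quotient.mk I) h x :=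
    fun x => Ideal.Quotient.lift_mk _ _ _
  let b : (W ⧸ I) →+* (AP p W h ⧸ J) :=
    Ideal.Quotient.lift I ((Ideal.Quotient.mk J).comp (AP.o h)) (fun a ha =>
      Ideal.Quotient.eq_zero_iff_mem.2 (Ideal.mem_map_of_mem _ ha))
  have b_mk : ∀ x, b (Ideal.Quotient.mk I x) = Ideal.Quotient.mk J (AP.o h x) :=
    fun x => Ideal.Quotient.lift_mk _ _ _
  let g : AP p (W ⧸ I) (Ideal.Quotient.mk I h) →+* (AP p W h ⧸ J) :=
    AP.lift b (Ideal.Quotient.mk J (AP.y h)) (by
      rw [b_mk, ← AP.eq h, map_sub, map_pow])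
  have g_o : ∀ x, g (AP.o _ x) = b x := fun x => AP.lift_o _ _ _ _
  have g_y : g (AP.y _) = Ideal.Quotient.mk J (AP.y h) := AP.lift_y _ _ _
  refine ⟨RingEquiv.ofRingHom f g ?_ ?_⟩
  · refine AP.ext (fun w => ?_) ?_
    · obtain ⟨w, rfl⟩ := Ideal.Quotient.mk_surjective w
      show f (g (AP.o _ (Ideal.Quotient.mk I w))) = AP.o _ (Ideal.Quotient.mk I w)
      rw [g_o, b_mk, f_mk, A1_map_o]
    · show f (g (AP.y _)) = AP.y _
      rw [g_y, f_mk, A1_map_y]
  · refine Ideal.Quotient.ringHom_ext (AP.ext (fun w => ?_) ?_)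
    · show g (f (Ideal.Quotient.mk J (AP.o h w))) = Ideal.Quotient.mk J (AP.o h w)
      rw [f_mk, A1_map_o, g_o, b_mk]
    · show g (f (Ideal.Quotient.mk J (AP.y h))) = Ideal.Quotient.mk J (AP.y h)
      rw [f_mk, A1_map_y, g_y]

/-! ### base change -/

theorem A1_bc {p : ℕ} {W W' : Type} [CommRing W] [CommRing W'] [Algebra W W'] (h : W) :
    Nonempty (AP p W' (algebraMap W W' h) ≃+* (AP p W h ⊗[W] W')) := by
  let D := AP p W' (algebraMap W W' h)
  let f1 : AP p W h →ₐ[W] D :=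
    { AP.map (algebraMap W W') h with
      commutes' := fun r => A1_map_o (algebraMap W W') h r }
  have f1_y : f1 (AP.y h) = AP.y _ := A1_map_y _ _
  let f2 : W' →ₐ[W] D :=
    { AP.o (algebraMap W W' h) with
      commutes' := fun r => rfl }
  have f2_a : ∀ x, f2 x = AP.o _ x := fun x => rfl
  let f : (AP p W h ⊗[W] W') →ₐ[W] D :=
    Algebra.TensorProduct.lift f1 f2 (fun x y => Commute.all _ _)
  have f_t : ∀ x y, f (x ⊗ₜ[W] y) = f1 x * f2 y := fun x y =>
    Algebra.TensorProduct.lift_tmul _ _ _ _ _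
  let i2 : W' →+* (AP p W h ⊗[W] W') :=
    (Algebra.TensorProduct.includeRight : W' →ₐ[W] (AP p W h ⊗[W] W')).toRingHom
  have i2_a : ∀ x, i2 x = (1 : AP p W h) ⊗ₜ[W] x := fun x => rfl
  have hbal : ∀ r : W, (1 : AP p W h) ⊗ₜ[W] (algebraMap W W' r) = (AP.o h r) ⊗ₜ[W] (1 : W') := by
    intro r
    rw [Algebra.algebraMap_eq_smul_one, ← TensorProduct.smul_tmul, ← Algebra.algebraMap_eq_smul_one]
    rfl
  let g : D →+* (AP p W h ⊗[W] W') :=
    AP.lift i2 ((AP.y h) ⊗ₜ[W] (1 : W')) (by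
      rw [i2_a, hbal, Algebra.TensorProduct.tmul_pow, one_pow, ← TensorProduct.sub_tmul, AP.eq])
  have g_o : ∀ x, g (AP.o _ x) = (1 : AP p W h) ⊗ₜ[W] x := fun x => AP.lift_o _ _ _ _
  have g_y : g (AP.y _) = (AP.y h) ⊗ₜ[W] (1 : W') := AP.lift_y _ _ _
  refine ⟨RingEquiv.ofRingHom g (f : (AP p W h ⊗[W] W') →+* D) ?_ ?_⟩
  · refine RingHom.ext fun x => ?_
    show g (f x) = x
    induction x using TensorProduct.induction_on with
    | zero => rw [map_zero, map_zero]
    | add x y hx hy => rw [map_add, map_add, hx, hy]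
    | tmul x y =>
      have h1 : (g.comp (f1 : AP p W h →+* D)) =
          (Algebra.TensorProduct.includeLeftRingHom : AP p W h →+* (AP p W h ⊗[W] W')) := by
        refine AP.ext (fun w => ?_) ?_
        · show g (f1 (AP.o h w)) = (AP.o h w) ⊗ₜ[W] (1 : W')
          rw [show f1 (AP.o h w) = AP.o _ (algebraMap W W' w) from A1_map_o _ _ _, g_o, hbal]
        · show g (f1 (AP.y h)) = (AP.y h) ⊗ₜ[W] (1 : W')
          rw [f1_y, g_y]
      have h2 : g (f1 x) = x ⊗ₜ[W] (1 : W') := congrArg (fun φ => φ x) h1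
      rw [f_t, map_mul, h2, f2_a, g_o, Algebra.TensorProduct.tmul_mul_tmul, mul_one, one_mul]
  · refine AP.ext (fun w => ?_) ?_
    · show f (g (AP.o _ w)) = AP.o _ w
      rw [g_o, f_t, map_one, one_mul]
      rfl
    · show f (g (AP.y _)) = AP.y _
      rw [g_y, f_t, map_one, mul_one, f1_y]

theorem A1_five {p : ℕ} {W W' : Type} [CommRing W] [CommRing W'] [Algebra W W'] (e : ℕ)
    (b : Module.Basis (Fin (p ^ e)) W W') (h : W)
    (hG : GoodP p (AP p W' (algebraMap W W' h))) : GoodP p (AP p W h) := by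
  obtain ⟨E⟩ := A1_bc (p := p) (W' := W') h
  have h1 : GoodP p (AP p W h ⊗[W] W') := GoodP.of_equiv E hG
  let b' : Module.Basis (Fin (p ^ e)) (AP p W h) (AP p W h ⊗[W] W') :=
    Algebra.TensorProduct.basis (AP p W h) b
  haveI : Module.Free (AP p W h) (AP p W h ⊗[W] W') := Module.Free.of_basis b'
  haveI : Module.Finite (AP p W h) (AP p W h ⊗[W] W') := Module.Finite.of_basis b'
  refine GoodP.of_map (resG (AP p W h) (AP p W h ⊗[W] W')) e (fun x => ?_) h1
  exact ⟨bcG (AP p W h) (AP p W h ⊗[W] W') x, res_bc_free b' x⟩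

theorem A1_six {p : ℕ} {W V : Type} [CommRing W] [CommRing V] [Algebra W V] [IsNoetherianRing W]
    (s : W) [IsLocalization.Away s V] (h : W)
    (h1 : GoodP p (AP p (W ⧸ Ideal.span {s}) (Ideal.Quotient.mk _ h)))
    (h2 : GoodP p (AP p V (algebraMap W V h))) : GoodP p (AP p W h) := by
  obtain ⟨E⟩ := A1_bc (p := p) (W' := V) h
  have h3 : GoodP p (AP p W h ⊗[W] V) := GoodP.of_equiv E h2
  haveI := A1_noeth (p := p) h
  haveI : IsLocalization.Away (algebraMap W (AP p W h) s) (AP p W h ⊗[W] V) :=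
    IsLocalization.Away.tensor (R := W) (S := AP p W h) (A := V) s
  obtain ⟨E2⟩ := A1_four (p := p) (Ideal.span {s}) h
  have h4 := GoodP.of_equiv E2.symm h1
  rw [Ideal.map_span, Set.image_singleton] at h4
  exact GoodP.of_away (V := AP p W h ⊗[W] V) (algebraMap W (AP p W h) s) h4 h3

theorem A1_seven {p : ℕ} {W : Type} [CommRing W] [IsNoetherianRing W] (s t h : W)
    (hs : GoodP p (AP p (W ⧸ Ideal.span {s}) (Ideal.Quotient.mk _ h)))
    (ht : GoodP p (AP p (W ⧸ Ideal.span {t}) (Ideal.Quotient.mk _ h))) :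
    GoodP p (AP p (W ⧸ Ideal.span {s * t}) (Ideal.Quotient.mk _ h)) := by
  have hle1 : Ideal.span {s * t} ≤ Ideal.span {s} := by
    rw [Ideal.span_singleton_le_span_singleton]
    exact dvd_mul_right _ _
  have hle2 : Ideal.span {s * t} ≤ Ideal.span {t} := by
    rw [Ideal.span_singleton_le_span_singleton]
    exact dvd_mul_left _ _
  haveI := A1_noeth (p := p) (Ideal.Quotient.mk (Ideal.span {s * t}) h)
  have key : ∀ K : Ideal W, Ideal.span {s * t} ≤ K →
      GoodP p (AP p (W ⧸ K) (Ideal.Quotient.mk _ h)) →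
      GoodP p (AP p (W ⧸ Ideal.span {s * t}) (Ideal.Quotient.mk _ h) ⧸
        (K.map (Ideal.Quotient.mk (Ideal.span {s * t}))).map
          (AP.o (Ideal.Quotient.mk (Ideal.span {s * t}) h) :
            (W ⧸ Ideal.span {s * t}) →+* AP p (W ⧸ Ideal.span {s * t}) (Ideal.Quotient.mk _ h))) := by
    intro K hK hG
    obtain ⟨E⟩ := A1_four (p := p) (K.map (Ideal.Quotient.mk (Ideal.span {s * t})))
      (Ideal.Quotient.mk (Ideal.span {s * t}) h)
    obtain ⟨E2⟩ := A1_two (p := p) (DoubleQuot.quotQuotEquivQuotOfLE hK)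
      (Ideal.Quotient.mk (K.map (Ideal.Quotient.mk (Ideal.span {s * t})))
        (Ideal.Quotient.mk (Ideal.span {s * t}) h)) (Ideal.Quotient.mk K h) rfl
    exact GoodP.of_equiv E.symm (GoodP.of_equiv E2.symm hG)
  refine GoodP.of_mul ?_ (key _ hle1 hs) (key _ hle2 ht)
  rw [← Ideal.map_mul, ← Ideal.map_mul, Ideal.span_singleton_mul_span_singleton,
    Ideal.map_quotient_self, Ideal.map_bot]

theorem thm_A1 : St_A1 := by
  intro p hp W _
  refine ⟨fun h0 h h' hh => A1_one h0 h h' hh, fun W' _ e h => A1_two e h _ rfl, ?_,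
    fun I h => A1_four I h, fun W' _ _ e b h hG => A1_five e b h hG, ?_, ?_⟩
  · intro hN σ hσ h hG
    haveI := hN
    haveI := A1_noeth (p := p) h
    obtain ⟨E⟩ := A1_three (p := p) σ h
    exact GoodP.of_equiv E (hG.mvPolynomial σ)
  · intro hN V _ _ s _ h h1 h2
    haveI := hN
    exact A1_six s h h1 h2
  · intro hN s t h hs ht
    haveI := hN
    exact A1_seven s t h hs ht

end Pool.Agent.AQS
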