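import Pool.Agent.AQS.St
import Pool.Agent.HPow.Line

/-!
# AQS, module A2

Statement and proof: see `St_A2` in `Pool/Agent/AQS/St.lean`. Adapted from `IsoL.lean`, `Line.lean`,
`ASr.lean` of `Pool/Agent/HPow`.
-/

set_option autoImplicit false
set_option linter.unusedSectionVars false
set_option linter.style.haveILetI false

namespace Pool.Agent.AQS

open Function Pool.Agent.Helper11 Pool.Agent.HPow Pool.Agent.Helper67.Bass

/-! ### the Frobenius -/

theorem A2_add_pow {p : ℕ} [Fact p.Prime] {B : Type} [CommRing B] [Algebra (ZMod p) B] (x y : B) :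
    (x + y) ^ p = x ^ p + y ^ p := by
  cases subsingleton_or_nontrivial B with
  | inl hB => exact Subsingleton.elim _ _
  | inr hB =>
    haveI : CharP B p :=
      charP_of_injective_algebraMap (algebraMap (ZMod p) B).injective p
    exact add_pow_char x y p

theorem A2_neg_pow {p : ℕ} [Fact p.Prime] {B : Type} [CommRing B] [Algebra (ZMod p) B] (x : B) :
    (-x) ^ p = - x ^ p := by
  have h1 := A2_add_pow (p := p) (-x) x
  rw [neg_add_cancel, zero_pow (Fact.out : p.Prime).ne_zero] at h1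
  exact eq_neg_of_add_eq_zero_left h1.symm

theorem A2_sub_pow {p : ℕ} [Fact p.Prime] {B : Type} [CommRing B] [Algebra (ZMod p) B] (x y : B) :
    (x - y) ^ p = x ^ p - y ^ p := by
  rw [sub_eq_add_neg, A2_add_pow, A2_neg_pow, ← sub_eq_add_neg]

/-! ### two equations -/

/-- `W[y, z] / (y ^ p - y - f, z ^ p - z - g)` -/
abbrev A2V (p : ℕ) (W : Type) [CommRing W] (f g : W) : Type :=
  AP p (AP p W f) (AP.o f g)

/-- the structure map -/
noncomputable def A2w (p : ℕ) {W : Type} [CommRing W] (f g : W) : W →+* A2V p W f g :=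
  (AP.o (AP.o f g : AP p W f)).comp (AP.o f)
/-- the element `y` -/
noncomputable def A2y (p : ℕ) {W : Type} [CommRing W] (f g : W) : A2V p W f g :=
  AP.o (AP.o f g : AP p W f) (AP.y f)
/-- the element `z` -/
noncomputable def A2z (p : ℕ) {W : Type} [CommRing W] (f g : W) : A2V p W f g :=
  AP.y (AP.o f g : AP p W f)

theorem A2y_eq (p : ℕ) {W : Type} [CommRing W] (f g : W) :
    A2y p f g ^ p - A2y p f g = A2w p f g f := by
  unfold A2y A2w
  rw [← map_pow, ← map_sub, AP.eq]
  rfl

theorem A2z_eq (p : ℕ) {W : Type} [CommRing W] (f g : W) :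
    A2z p f g ^ p - A2z p f g = A2w p f g g := by
  unfold A2z A2w
  rw [AP.eq]
  rfl

/-- homomorphisms agree if they agree on `W`, `y`, `z` -/
theorem A2_ext (p : ℕ) {W : Type} [CommRing W] {f g : W} {B : Type} [CommRing B]
    (φ ψ : A2V p W f g →+* B)
    (h0 : ∀ w, φ (A2w p f g w) = ψ (A2w p f g w)) (h1 : φ (A2y p f g) = ψ (A2y p f g))
    (h2 : φ (A2z p f g) = ψ (A2z p f g)) (x : A2V p W f g) : φ x = ψ x := by
  have h3 : φ.comp (AP.o (AP.o f g : AP p W f)) = ψ.comp (AP.o (AP.o f g : AP p W f)) :=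
    AP.ext h0 h1
  have h4 : φ = ψ := AP.ext (fun w => DFunLike.congr_fun h3 w) h2
  rw [h4]

/-- existence of homomorphisms -/
theorem A2_exists (p : ℕ) {W : Type} [CommRing W] {f g : W} {B : Type} [CommRing B] (ω : W →+* B)
    (y z : B) (hy : y ^ p - y = ω f) (hz : z ^ p - z = ω g) :
    ∃ φ : A2V p W f g →+* B, (∀ w, φ (A2w p f g w) = ω w) ∧ φ (A2y p f g) = y ∧
      φ (A2z p f g) = z := by
  obtain ⟨φ1, a1, a2⟩ : ∃ φ1 : AP p W f →+* B, (∀ w, φ1 (AP.o f w) = ω w) ∧ φ1 (AP.y f) = y :=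
    ⟨AP.lift ω y hy, fun w => AP.lift_o ω y hy w, AP.lift_y ω y hy⟩
  have e2 : z ^ p - z = φ1 (AP.o f g) := by rw [a1, hz]
  refine ⟨AP.lift φ1 z e2, fun w => ?_, ?_, ?_⟩
  · show AP.lift φ1 z e2 (AP.o _ (AP.o f w)) = ω w
    rw [AP.lift_o, a1]
  · show AP.lift φ1 z e2 (AP.o _ (AP.y f)) = y
    rw [AP.lift_o, a2]
  · show AP.lift φ1 z e2 (AP.y _) = z
    rw [AP.lift_y]

/-- inverse homomorphisms -/
theorem A2_equiv (p : ℕ) {W : Type} [CommRing W] {f g f' g' : W}
    (φ : A2V p W f g →+* A2V p W f' g')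
    (ψ : A2V p W f' g' →+* A2V p W f g) (h0 : ∀ w, φ (A2w p f g w) = A2w p f' g' w)
    (h0' : ∀ w, ψ (A2w p f' g' w) = A2w p f g w) (h1 : ψ (φ (A2y p f g)) = A2y p f g)
    (h2 : ψ (φ (A2z p f g)) = A2z p f g) (h1' : φ (ψ (A2y p f' g')) = A2y p f' g')
    (h2' : φ (ψ (A2z p f' g')) = A2z p f' g') :
    ∃ e : A2V p W f g ≃+* A2V p W f' g', ∀ x, e x = φ x := by
  refine ⟨RingEquiv.ofRingHom φ ψ (RingHom.ext fun x => ?_) (RingHom.ext fun x => ?_),
    fun x => rfl⟩
  · exact A2_ext p (φ.comp ψ) (RingHom.id _) (fun w => by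
      rw [RingHom.comp_apply, h0', h0, RingHom.id_apply]) h1' h2' x
  · exact A2_ext p (ψ.comp φ) (RingHom.id _) (fun w => by
      rw [RingHom.comp_apply, h0, h0', RingHom.id_apply]) h1 h2 x

section

variable {p : ℕ} [hp : Fact p.Prime] {W : Type} [CommRing W] [Algebra (ZMod p) W]

theorem A2_fix {B : Type} [CommRing B] (ω : W →+* B) (c : ZMod p) :
    (ω (algebraMap (ZMod p) W c)) ^ p = ω (algebraMap (ZMod p) W c) := by
  rw [← map_pow, ← map_pow, ZMod.pow_card]

/-- translations, the homomorphism -/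
theorem A2_tau (f g : W) (a b : ZMod p) :
    ∃ φ : A2V p W f g →+* A2V p W f g, (∀ w, φ (A2w p f g w) = A2w p f g w) ∧
      φ (A2y p f g) = A2y p f g + A2w p f g (algebraMap (ZMod p) W a) ∧
      φ (A2z p f g) = A2z p f g + A2w p f g (algebraMap (ZMod p) W b) := by
  refine A2_exists p (A2w p f g) _ _ ?_ ?_
  · rw [A2_add_pow, A2_fix, ← A2y_eq]
    ring
  · rw [A2_add_pow, A2_fix, ← A2z_eq]
    ring

/-- translations -/
theorem A2_tau2 (f g : W) (a b : ZMod p) :
    ∃ e : A2V p W f g ≃+* A2V p W f g, (∀ w, e (A2w p f g w) = A2w p f g w) ∧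
      e (A2y p f g) = A2y p f g + A2w p f g (algebraMap (ZMod p) W a) ∧
      e (A2z p f g) = A2z p f g + A2w p f g (algebraMap (ZMod p) W b) := by
  obtain ⟨φ, h0, h1, h2⟩ := A2_tau f g a b
  obtain ⟨ψ, h0', h1', h2'⟩ := A2_tau f g (-a) (-b)
  rw [map_neg, map_neg] at h1' h2'
  obtain ⟨e, he⟩ := A2_equiv p φ ψ h0 h0'
    (by rw [h1, map_add, h1', h0', neg_add_cancel_right])
    (by rw [h2, map_add, h2', h0', neg_add_cancel_right])
    (by rw [h1', map_add, map_neg, h1, h0, add_neg_cancel_right])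
    (by rw [h2', map_add, map_neg, h2, h0, add_neg_cancel_right])
  exact ⟨e, fun w => by rw [he, h0], by rw [he, h1], by rw [he, h2]⟩

/-- change of the first coordinate -/
theorem A2_line (f g : W) (c : ZMod p) :
    ∃ e : A2V p W (f + algebraMap (ZMod p) W c * g) g ≃+* A2V p W f g,
      (∀ w, e (A2w p _ _ w) = A2w p f g w) ∧
      e (A2y p _ _) = A2y p f g + A2w p f g (algebraMap (ZMod p) W c) * A2z p f g ∧
      e (A2z p _ _) = A2z p f g := by
  obtain ⟨φ, h0, h1, h2⟩ := A2_exists p (f := f + algebraMap (ZMod p) W c * g) (g := g)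
    (A2w p f g)
    (A2y p f g + A2w p f g (algebraMap (ZMod p) W c) * A2z p f g) (A2z p f g)
    (by
      rw [A2_add_pow, mul_pow, A2_fix, map_add, map_mul, ← A2y_eq, ← A2z_eq]
      ring)
    (A2z_eq p f g)
  obtain ⟨ψ, h0', h1', h2'⟩ := A2_exists p (f := f) (g := g)
    (A2w p (f + algebraMap (ZMod p) W c * g) g)
    (A2y p (f + algebraMap (ZMod p) W c * g) g -
      A2w p (f + algebraMap (ZMod p) W c * g) g (algebraMap (ZMod p) W c) *
      A2z p (f + algebraMap (ZMod p) W c * g) g) (A2z p (f + algebraMap (ZMod p) W c * g) g)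
    (by
      have e1 := A2y_eq p (f + algebraMap (ZMod p) W c * g) g
      have e2 := A2z_eq p (f + algebraMap (ZMod p) W c * g) g
      have e3 : ∀ F : W, A2w p F g (f + algebraMap (ZMod p) W c * g) =
          A2w p F g f + A2w p F g (algebraMap (ZMod p) W c) * A2w p F g g := fun F => by
        rw [map_add, map_mul]
      have e4 := e3 (f + algebraMap (ZMod p) W c * g)
      rw [A2_sub_pow, mul_pow, A2_fix]
      linear_combination e1 -
        A2w p (f + algebraMap (ZMod p) W c * g) g (algebraMap (ZMod p) W c) * e2 + e4)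
    (A2z_eq p (f + algebraMap (ZMod p) W c * g) g)
  obtain ⟨e, he⟩ := A2_equiv p φ ψ h0 h0'
    (by rw [h1, map_add, map_mul, h1', h0', h2', sub_add_cancel])
    (by rw [h2, h2'])
    (by rw [h1', map_sub, map_mul, h1, h0, h2, add_sub_cancel_right])
    (by rw [h2', h2])
  exact ⟨e, fun w => by rw [he, h0], by rw [he, h1], by rw [he, h2]⟩

/-- interchange of the coordinates -/
theorem A2_swap (p : ℕ) {W : Type} [CommRing W] (f g : W) :
    ∃ e : A2V p W g f ≃+* A2V p W f g,
      (∀ w, e (A2w p _ _ w) = A2w p f g w) ∧ e (A2y p _ _) = A2z p f g ∧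
      e (A2z p _ _) = A2y p f g := by
  obtain ⟨φ, h0, h1, h2⟩ := A2_exists p (f := g) (g := f) (A2w p f g) (A2z p f g) (A2y p f g)
    (A2z_eq p f g) (A2y_eq p f g)
  obtain ⟨ψ, h0', h1', h2'⟩ := A2_exists p (f := f) (g := g) (A2w p g f) (A2z p g f)
    (A2y p g f) (A2z_eq p g f) (A2y_eq p g f)
  obtain ⟨e, he⟩ := A2_equiv p φ ψ h0 h0' (by rw [h1, h2']) (by rw [h2, h1'])
    (by rw [h1', h2]) (by rw [h2', h1])
  exact ⟨e, fun w => by rw [he, h0], by rw [he, h1], by rw [he, h2]⟩

/-! ### the sum over the lines -/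

/-- the sum of the translations of the last coordinate -/
theorem A2_sum_tr {R : Type} [CommRing R] [Algebra (ZMod p) R] (g : R)
    (σ : ZMod p → AP p R g ≃+* AP p R g)
    (h1 : ∀ b (r : R), σ b (AP.o g r) = AP.o g r)
    (h2 : ∀ b, σ b (AP.y g) = AP.y g + AP.o g (algebraMap (ZMod p) R b)) :
    ∃ (φ : G0 R →+ G0 (AP p R g)) (ψ : G0 (AP p R g) →+ G0 R),
      ∀ x : G0 (AP p R g), φ (ψ x) = ∑ b, eqG (σ b) x := by
  have hq2 : 2 ≤ p := hp.out.two_le
  rcases subsingleton_or_nontrivial R with hR | hR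
  · haveI : Subsingleton (AP p R g) := by
      refine subsingleton_of_zero_eq_one ?_
      rw [← map_zero (AP.o g : R →+* AP p R g), ← map_one (AP.o g : R →+* AP p R g),
        Subsingleton.elim (0 : R) 1]
    exact ⟨0, 0, fun x => by rw [line_zero x]; simp⟩
  · have hdeg : (Polynomial.X + Polynomial.C g : Polynomial R).degree < (p : ℕ) := by
      rw [Polynomial.degree_X_add_C]
      exact_mod_cast hq2
    have hf : (Polynomial.X ^ p - Polynomial.X - Polynomial.C g : Polynomial R) =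
        Polynomial.X ^ p - (Polynomial.X + Polynomial.C g) := sub_sub _ _ _
    have hmon : (Polynomial.X ^ p - Polynomial.X - Polynomial.C g : Polynomial R).Monic := by
      rw [hf]
      exact Polynomial.monic_X_pow_sub hdeg
    have hnat : (Polynomial.X ^ p - Polynomial.X - Polynomial.C g : Polynomial R).natDegree =
        p := by
      rw [hf, Polynomial.natDegree_sub_eq_left_of_natDegree_lt, Polynomial.natDegree_X_pow]
      rw [Polynomial.natDegree_X_pow, Polynomial.natDegree_X_add_C]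
      omega
    haveI : Module.Finite R (AP p R g) := hmon.finite_adjoinRoot
    haveI : Module.Free R (AP p R g) := hmon.free_adjoinRoot
    refine ⟨bcG R (AP p R g), resG R (AP p R g), fun x => ?_⟩
    let pb := AdjoinRoot.powerBasis' hmon
    have hdim : pb.dim = Fintype.card (ZMod p) := by
      have e1 : pb.dim =
        (Polynomial.X ^ p - Polynomial.X - Polynomial.C g : Polynomial R).natDegree :=
        AdjoinRoot.powerBasis'_dim hmon
      rw [e1, hnat, ZMod.card]
    let e : Fin pb.dim ≃ ZMod p := (finCongr hdim).trans (Fintype.equivFin _).symm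
    have hgen : pb.gen = AP.y g := AdjoinRoot.powerBasis'_gen hmon
    let σ' : Fin pb.dim → AP p R g ≃ₐ[R] AP p R g := fun i =>
      AlgEquiv.ofRingEquiv (f := σ (e i)) (fun r => h1 (e i) r)
    have hb : ∀ j, pb.basis j = (AP.y g : AP p R g) ^ (j : ℕ) := by
      intro j
      rw [PowerBasis.basis_eq_pow, hgen]
    have hσ : ∀ i j, i ≠ j → IsUnit (σ' i (AP.y g) - σ' j (AP.y g)) := by
      intro i j hij
      have h3 : σ' i (AP.y g) - σ' j (AP.y g) =
          AP.o g (algebraMap (ZMod p) R (e i - e j)) := by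
        have e1 : σ' i (AP.y g) = _ := h2 (e i)
        have e2 : σ' j (AP.y g) = _ := h2 (e j)
        rw [e1, e2, map_sub, map_sub]
        ring
      rw [h3]
      have h4 : e i - e j ≠ 0 := by
        intro hcon
        exact hij (e.injective (sub_eq_zero.1 hcon))
      exact ((IsUnit.mk0 _ h4).map (algebraMap (ZMod p) R)).map (AP.o g)
    rw [gal (AP.y g) pb.basis hb σ' hσ x]
    rw [← Equiv.sum_comp e]
    refine Finset.sum_congr rfl fun i _ => ?_
    exact surG_congr _ _ _ _ (fun r => rfl) x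

/-- the translation by `b` of the last coordinate of `W[y, z]` -/
theorem A2_tr (f g : W) (b : ZMod p) :
    ∃ σ : A2V p W f g ≃+* A2V p W f g,
      (∀ r : AP p W f, σ (AP.o _ r) = AP.o _ r) ∧
      σ (AP.y _) = AP.y _ + AP.o _ (algebraMap (ZMod p) (AP p W f) b) ∧
      (∀ w, σ (A2w p f g w) = A2w p f g w) ∧ σ (A2y p f g) = A2y p f g ∧
      σ (A2z p f g) = A2z p f g + A2w p f g (algebraMap (ZMod p) W b) := by
  obtain ⟨σ, h1, h2, h3⟩ := A2_tau2 f g 0 b
  rw [map_zero, map_zero, add_zero] at h2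
  refine ⟨σ, ?_, h3, h1, h2, h3⟩
  have h4 : (σ : A2V p W f g →+* A2V p W f g).comp (AP.o _) = AP.o _ := AP.ext h1 h2
  exact fun r => DFunLike.congr_fun h4 r

/-- transport of the sum of the translations of the last coordinate -/
theorem A2_sum (f g f' g' : W)
    (e : A2V p W f' g' ≃+* A2V p W f g) (τ : ZMod p → A2V p W f g ≃+* A2V p W f g)
    (he0 : ∀ w, e (A2w p f' g' w) = A2w p f g w)
    (hτ0 : ∀ b w, τ b (A2w p f g w) = A2w p f g w)
    (hτ1 : ∀ b, τ b (e (A2y p f' g')) = e (A2y p f' g'))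
    (hτ2 : ∀ b, τ b (e (A2z p f' g')) = e (A2z p f' g') +
      A2w p f g (algebraMap (ZMod p) W b)) :
    ∃ (φ : G0 (AP p W f') →+ G0 (A2V p W f g)) (ψ : G0 (A2V p W f g) →+ G0 (AP p W f')),
      ∀ x, φ (ψ x) = ∑ b, eqG (τ b) x := by
  choose σ h1 h2 h3 h4 h5 using fun b : ZMod p => A2_tr f' g' b
  obtain ⟨φ, ψ, hφ⟩ := A2_sum_tr (AP.o f' g' : AP p W f') σ h1 h2
  refine ⟨(eqG e.symm).comp φ, ψ.comp (eqG e), fun x => ?_⟩
  show eqG e.symm (φ (ψ (eqG e x))) = _
  rw [hφ, map_sum]
  refine Finset.sum_congr rfl fun b _ => ?_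
  rw [line_eqG, line_eqG]
  refine line_congr (fun r => ?_) x
  show e (σ b (e.symm r)) = τ b r
  have key : ∀ s, e (σ b s) = τ b (e s) := by
    intro s
    refine A2_ext p
      ((e : A2V p W f' g' →+* A2V p W f g).comp (σ b : A2V p W f' g' →+* A2V p W f' g'))
      ((τ b : A2V p W f g →+* A2V p W f g).comp (e : A2V p W f' g' →+* A2V p W f g)) ?_ ?_ ?_ s
    · intro w
      show e (σ b (A2w p f' g' w)) = τ b (e (A2w p f' g' w))
      rw [h3, he0, hτ0]
    · show e (σ b (A2y p f' g')) = τ b (e (A2y p f' g'))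
      rw [h4, hτ1]
    · show e (σ b (A2z p f' g')) = τ b (e (A2z p f' g'))
      rw [h5, hτ2, map_add, he0]
  rw [key, e.apply_symm_apply]

/-- the counting identity for the lines -/
theorem A2_count {Γ : Type*} [AddCommGroup Γ] (F : ZMod p → ZMod p → Γ) :
    ∑ c, ∑ b, F (-(c * b)) b + ∑ a, F a 0 = p • F 0 0 + ∑ a, ∑ b, F a b := by
  classical
  rw [Finset.sum_comm, Finset.sum_comm (f := fun a b => F a b)]
  have h1 : ∀ b, b ≠ 0 → ∑ c, F (-(c * b)) b = ∑ a, F a b := by
    intro b hb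
    have hbij : Bijective (fun c : ZMod p => -(c * b)) := by
      constructor
      · intro c c' hcc
        have h2 : -(c * b) = -(c' * b) := hcc
        rw [neg_inj] at h2
        exact mul_right_cancel₀ hb h2
      · intro a
        refine ⟨-(a / b), ?_⟩
        show -(-(a / b) * b) = a
        field_simp
    exact hbij.sum_comp (fun a => F a b)
  have h2 : ∑ c : ZMod p, F (-(c * 0)) 0 = p • F 0 0 := by
    have h3 : ∀ c : ZMod p, -(c * 0) = 0 := by
      intro c
      rw [mul_zero, neg_zero]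
    rw [Finset.sum_congr rfl fun c _ => by rw [h3 c], Finset.sum_const, Finset.card_univ,
      ZMod.card]
  have h5 := Finset.add_sum_erase Finset.univ (fun b => ∑ c : ZMod p, F (-(c * b)) b)
    (Finset.mem_univ 0)
  have h6 := Finset.add_sum_erase Finset.univ (fun b => ∑ a, F a b) (Finset.mem_univ 0)
  have h7 : ∑ b ∈ Finset.univ.erase 0, ∑ c, F (-(c * b)) b =
      ∑ b ∈ Finset.univ.erase 0, ∑ a, F a b :=
    Finset.sum_congr rfl fun b hb => h1 b (Finset.ne_of_mem_erase hb)
  rw [← h5, ← h6, h2, h7]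
  abel

/-- the case of two coordinates -/
theorem A2_good (f g : W) (h1 : GoodP p (AP p W g))
    (h2 : ∀ c : ZMod p, GoodP p (AP p W (f + algebraMap (ZMod p) W c * g))) :
    GoodP p (A2V p W f g) := by
  classical
  choose E hE0 hE1 hE2 using fun a b : ZMod p => A2_tau2 f g a b
  -- composition
  have hcomp : ∀ a b, ∀ x : G0 (A2V p W f g),
      eqG (E 0 b) (eqG (E a 0) x) = eqG (E a b) x := by
    intro a b x
    rw [line_eqG]
    refine line_congr (fun r => ?_) x
    show E a 0 (E 0 b r) = E a b r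
    refine A2_ext p
      ((E a 0 : A2V p W f g →+* A2V p W f g).comp (E 0 b : A2V p W f g →+* A2V p W f g))
      (E a b : A2V p W f g →+* A2V p W f g) ?_ ?_ ?_ r
    · intro w
      show E a 0 (E 0 b (A2w p f g w)) = E a b (A2w p f g w)
      rw [hE0, hE0, hE0]
    · show E a 0 (E 0 b (A2y p f g)) = E a b (A2y p f g)
      rw [hE1, hE1, map_add, hE0, hE1, map_zero, map_zero, add_zero]
    · show E a 0 (E 0 b (A2z p f g)) = E a b (A2z p f g)
      rw [hE2, hE2, map_add, hE0, hE2, map_zero, map_zero, add_zero]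
  have hone : ∀ x : G0 (A2V p W f g), eqG (E 0 0) x = x := by
    intro x
    refine surG_id _ _ (fun r => ?_) x
    refine A2_ext p (E 0 0 : A2V p W f g →+* A2V p W f g) (RingHom.id _) ?_ ?_ ?_ r
    · intro w
      exact hE0 0 0 w
    · show E 0 0 (A2y p f g) = A2y p f g
      rw [hE1, map_zero, map_zero, add_zero]
    · show E 0 0 (A2z p f g) = A2z p f g
      rw [hE2, map_zero, map_zero, add_zero]
  -- the operators of the lines
  let hh : Option (ZMod p) → W :=
    fun i => i.elim g (fun c => f + algebraMap (ZMod p) W c * g)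
  let Nn : Option (ZMod p) → G0 (A2V p W f g) → G0 (A2V p W f g) :=
    fun i x => i.elim (∑ a, eqG (E a 0) x) (fun c => ∑ b, eqG (E (-(c * b)) b) x)
  have hN : ∀ i, ∃ (φ : G0 (AP p W (hh i)) →+ G0 (A2V p W f g))
      (ψ : G0 (A2V p W f g) →+ G0 (AP p W (hh i))), ∀ x, φ (ψ x) = Nn i x := by
    intro i
    rcases i with _ | c
    · obtain ⟨e, e0, e1, e2⟩ := A2_swap p f g
      refine A2_sum f g g f e (fun a => E a 0) e0 (fun b w => hE0 b 0 w) ?_ ?_
      · intro b
        rw [e1, hE2, map_zero, map_zero, add_zero]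
      · intro b
        rw [e2, hE1]
    · obtain ⟨e, e0, e1, e2⟩ := A2_line f g c
      refine A2_sum f g _ g e (fun b => E (-(c * b)) b) e0 (fun b w => hE0 _ b w) ?_ ?_
      · intro b
        rw [e1, map_add, map_mul, hE0, hE1, hE2, map_neg, map_neg, map_mul, map_mul]
        ring
      · intro b
        rw [e2, hE2]
  choose φ ψ hφ using hN
  refine GoodP.of_family (ι := Option (ZMod p)) (fun i => AP p W (hh i)) φ 1 ?_ ?_
  · intro x
    have hid := A2_count (p := p) (fun a b => eqG (E a b) x)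
    have hsum : ∑ a, ∑ b, eqG (E a b) x = Nn (some 0) (Nn none x) := by
      show _ = ∑ b, eqG (E (-(0 * b)) b) (∑ a, eqG (E a 0) x)
      rw [Finset.sum_comm]
      refine Finset.sum_congr rfl fun b _ => ?_
      rw [zero_mul, neg_zero, map_sum]
      refine Finset.sum_congr rfl fun a _ => ?_
      rw [hcomp]
    have hid2 : p ^ 1 • x = ∑ c, Nn (some c) x + Nn none x - Nn (some 0) (Nn none x) := by
      rw [pow_one, eq_sub_iff_add_eq, ← hsum]
      have h3 : p • eqG (E 0 0) x = p • x := by rw [hone]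
      rw [← h3]
      exact hid.symm
    rw [hid2]
    have hmem : ∀ i y, Nn i y ∈ ⨆ i, (φ i).range := by
      intro i y
      rw [← hφ]
      exact AddSubgroup.mem_iSup_of_mem i ⟨_, rfl⟩
    exact AddSubgroup.sub_mem _ (AddSubgroup.add_mem _
      (AddSubgroup.sum_mem _ fun c _ => hmem _ _) (hmem _ _)) (hmem _ _)
  · intro i
    rcases i with _ | c
    · exact h1
    · exact h2 c

end

/-! ### several equations -/

/-- transport of structure -/
theorem A2_congr (p : ℕ) {R R' : Type} [CommRing R] [CommRing R'] (e : R ≃+* R') (h : R) :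
    Nonempty (AP p R h ≃+* AP p R' (e h)) := by
  refine ⟨AdjoinRoot.mapRingEquiv e _ _ ?_⟩
  have h1 : (Polynomial.X ^ p - Polynomial.X - Polynomial.C h : Polynomial R).map
      (e : R →+* R') = Polynomial.X ^ p - Polynomial.X - Polynomial.C (e h) := by simp
  rw [h1]

/-- the coordinates -/
noncomputable def A2x (p : ℕ) {W : Type} [CommRing W] {s : ℕ} (f : Fin s → W) (i : Fin s) :
    APs p W f := Ideal.Quotient.mk _ (MvPolynomial.X i)

theorem A2s_ext {p : ℕ} {W : Type} [CommRing W] {s : ℕ} {f : Fin s → W} {B : Type} [CommRing B]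
    (φ ψ : APs p W f →+* B)
    (h0 : ∀ w, φ (algebraMap W _ w) = ψ (algebraMap W _ w))
    (h1 : ∀ i, φ (A2x p f i) = ψ (A2x p f i)) : φ = ψ := by
  apply Ideal.Quotient.ringHom_ext
  apply MvPolynomial.ringHom_ext
  · exact h0
  · exact h1

theorem A2s_eq {p : ℕ} {W : Type} [CommRing W] {s : ℕ} (f : Fin s → W) (i : Fin s) :
    A2x p f i ^ p - A2x p f i = algebraMap W _ (f i) := by
  have h1 : (Ideal.Quotient.mk (Ideal.span (Set.range fun i : Fin s =>
      (MvPolynomial.X i ^ p - MvPolynomial.X i - MvPolynomial.C (f i) : MvPolynomial (Fin s) W))))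
      (MvPolynomial.X i ^ p - MvPolynomial.X i - MvPolynomial.C (f i)) = 0 :=
    Ideal.Quotient.eq_zero_iff_mem.2 (Ideal.subset_span ⟨i, rfl⟩)
  rw [map_sub, map_sub, map_pow, sub_eq_zero] at h1
  exact h1

theorem A2s_exists {p : ℕ} {W : Type} [CommRing W] {s : ℕ} {f : Fin s → W} {B : Type}
    [CommRing B] (ω : W →+* B) (y : Fin s → B) (hy : ∀ i, y i ^ p - y i = ω (f i)) :
    ∃ φ : APs p W f →+* B, (∀ w, φ (algebraMap W _ w) = ω w) ∧ ∀ i, φ (A2x p f i) = y i := by
  have h1 : ∀ a ∈ Ideal.span (Set.range fun i : Fin s =>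
      (MvPolynomial.X i ^ p - MvPolynomial.X i - MvPolynomial.C (f i) :
        MvPolynomial (Fin s) W)), MvPolynomial.eval₂Hom ω y a = 0 := by
    have h2 : Ideal.span (Set.range fun i : Fin s =>
      (MvPolynomial.X i ^ p - MvPolynomial.X i - MvPolynomial.C (f i) :
        MvPolynomial (Fin s) W)) ≤ RingHom.ker (MvPolynomial.eval₂Hom ω y) := by
      rw [Ideal.span_le]
      intro a ha
      obtain ⟨i, hi⟩ := ha
      show MvPolynomial.eval₂Hom ω y a = 0
      rw [← hi]
      simp [hy]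
    exact fun a ha => h2 ha
  exact ⟨Ideal.Quotient.lift _ (MvPolynomial.eval₂Hom ω y) h1,
    fun w => (Ideal.Quotient.lift_mk _ _ h1).trans (MvPolynomial.eval₂Hom_C ω y w),
    fun i => (Ideal.Quotient.lift_mk _ _ h1).trans (MvPolynomial.eval₂Hom_X' ω y i)⟩

/-- one equation more -/
theorem A2s_cons (p : ℕ) {W : Type} [CommRing W] {s : ℕ} (f0 : W) (f : Fin s → W) :
    ∃ e : APs p W (Fin.cons f0 f : Fin (s + 1) → W) ≃+*
      AP p (APs p W f) (algebraMap W (APs p W f) f0), ∀ w, e (algebraMap W _ w) =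
        AP.o _ (algebraMap W (APs p W f) w) := by
  set F : Fin (s + 1) → W := Fin.cons f0 f with hF
  set g : APs p W f := algebraMap W (APs p W f) f0 with hg
  obtain ⟨φ, hφ1, hφ2⟩ := A2s_exists (p := p) (f := F)
    ((AP.o g : APs p W f →+* AP p (APs p W f) g).comp (algebraMap W (APs p W f)))
    (Fin.cons (AP.y g) (fun i => AP.o g (A2x p f i))) (by
      intro i
      refine Fin.cases ?_ (fun j => ?_) i
      · rw [Fin.cons_zero, AP.eq, hF, Fin.cons_zero]
        rfl
      · rw [Fin.cons_succ, ← map_pow, ← map_sub, A2s_eq, hF, Fin.cons_succ]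
        rfl)
  obtain ⟨χ, hχ1, hχ2⟩ := A2s_exists (p := p) (f := f)
    (algebraMap W (APs p W F)) (fun i => A2x p F i.succ) (by
      intro i
      rw [A2s_eq, hF, Fin.cons_succ])
  have h0 : A2x p F 0 ^ p - A2x p F 0 = χ g := by
    rw [hg, hχ1, A2s_eq, hF, Fin.cons_zero]
  obtain ⟨ψ, hψ1, hψ2⟩ : ∃ ψ : AP p (APs p W f) g →+* APs p W F,
      (∀ x, ψ (AP.o g x) = χ x) ∧ ψ (AP.y g) = A2x p F 0 :=
    ⟨AP.lift χ (A2x p F 0) h0, fun x => AP.lift_o _ _ _ x, AP.lift_y _ _ _⟩
  refine ⟨RingEquiv.ofRingHom φ ψ ?_ ?_, fun w => ?_⟩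
  · refine AP.ext (fun x => ?_) ?_
    · have h3 : (φ.comp ψ).comp (AP.o g) = (RingHom.id _).comp (AP.o g) := by
        apply A2s_ext
        · intro w
          show φ (ψ (AP.o g _)) = _
          rw [hψ1, hχ1, hφ1]
          rfl
        · intro i
          show φ (ψ (AP.o g _)) = _
          rw [hψ1, hχ2, hφ2, Fin.cons_succ]
          rfl
      exact DFunLike.congr_fun h3 x
    · show φ (ψ (AP.y g)) = _
      rw [hψ2, hφ2, Fin.cons_zero]
      rfl
  · apply A2s_ext
    · intro w
      show ψ (φ _) = _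
      rw [hφ1]
      show ψ (AP.o g (algebraMap W _ w)) = _
      rw [hψ1, hχ1]
      rfl
    · intro i
      show ψ (φ _) = A2x p F i
      rw [hφ2]
      refine Fin.cases ?_ (fun j => ?_) i
      · rw [Fin.cons_zero, hψ2]
      · rw [Fin.cons_succ, hψ1, hχ2]
  · exact hφ1 w

theorem A2s_bij (p : ℕ) {W : Type} [CommRing W] (f : Fin 0 → W) :
    Bijective (algebraMap W (APs p W f)) := by
  obtain ⟨φ, h1, -⟩ := A2s_exists (p := p) (f := f) (RingHom.id W) (fun i => i.elim0)
    (fun i => i.elim0)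
  refine ⟨fun x y h => ?_, fun x => ⟨φ x, ?_⟩⟩
  · have h2 := congrArg φ h
    rwa [h1, h1] at h2
  · have h2 : (algebraMap W (APs p W f)).comp φ = RingHom.id _ := by
      apply A2s_ext
      · intro w
        show algebraMap W (APs p W f) (φ (algebraMap W (APs p W f) w)) =
          algebraMap W (APs p W f) w
        rw [h1]
        rfl
      · exact fun i => i.elim0
    exact congrArg (fun u : APs p W f →+* APs p W f => u x) h2

theorem A2s_fwd (p : ℕ) {W : Type} [CommRing W] {s : ℕ} (f0 : W) (f : Fin s → W)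
    (h : GoodP p (APs p W (Fin.cons f0 f : Fin (s + 1) → W))) :
    GoodP p (AP p (APs p W f) (algebraMap W (APs p W f) f0)) := by
  obtain ⟨e, -⟩ := A2s_cons p f0 f
  exact h.of_equiv e

theorem A2s_bwd (p : ℕ) {W : Type} [CommRing W] {s : ℕ} (f0 : W) (f : Fin s → W)
    (h : GoodP p (AP p (APs p W f) (algebraMap W (APs p W f) f0))) :
    GoodP p (APs p W (Fin.cons f0 f : Fin (s + 1) → W)) := by
  obtain ⟨e, -⟩ := A2s_cons p f0 f
  exact h.of_equiv e.symm

theorem A2s_two (p : ℕ) {W : Type} [CommRing W] {s : ℕ} (f0 f1 : W) (f : Fin s → W)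
    (h : GoodP p (A2V p (APs p W f) (algebraMap W _ f1) (algebraMap W _ f0))) :
    GoodP p (APs p W (Fin.cons f0 (Fin.cons f1 f : Fin (s + 1) → W) : Fin (s + 2) → W)) := by
  refine A2s_bwd p f0 _ ?_
  obtain ⟨e, he⟩ := A2s_cons p f1 f
  obtain ⟨e'⟩ := A2_congr p e (algebraMap W _ f0)
  rw [he] at e'
  exact h.of_equiv e'.symm

theorem thm_A2 : St_A2 := by
  intro p _ W _ _ _ s f h0 h1
  have key : ∀ (n : ℕ) (f : Fin (n + 1) → W), (∀ c : Fin (n + 1) → ZMod p,
      GoodP p (AP p W (∑ i, algebraMap (ZMod p) W (c i) * f i))) → GoodP p (APs p W f) := by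
    intro n
    induction n with
    | zero =>
      intro f hf
      have h2 := hf (fun _ => 1)
      rw [Fin.sum_univ_one, map_one, one_mul] at h2
      rw [← Fin.cons_self_tail f]
      refine A2s_bwd p _ _ ?_
      obtain ⟨e⟩ := A2_congr p (RingEquiv.ofBijective _ (A2s_bij p (Fin.tail f))) (f 0)
      exact h2.of_equiv e
    | succ n ih =>
      intro f hf
      have hff : f = Fin.cons (f 0) (Fin.cons (f 1) (Fin.tail (Fin.tail f)) : Fin (n + 1) → W) := by
        rw [show f 1 = Fin.tail f 0 from rfl, Fin.cons_self_tail, Fin.cons_self_tail]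
      rw [hff]
      set f0 := f 0
      set f1 := f 1
      set g := Fin.tail (Fin.tail f) with hg
      have hsum : ∀ a b : ZMod p, ∀ c : Fin n → ZMod p,
          GoodP p (AP p W (algebraMap (ZMod p) W a * f0 + (algebraMap (ZMod p) W b * f1 +
            ∑ i, algebraMap (ZMod p) W (c i) * g i))) := by
        intro a b c
        have h2 := hf (Fin.cons a (Fin.cons b c : Fin (n + 1) → ZMod p))
        rw [Fin.sum_univ_succ, Fin.sum_univ_succ] at h2
        exact h2
      refine A2s_two p f0 f1 g (A2_good _ _ ?_ ?_)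
      · refine A2s_fwd p f0 g (ih _ (fun c => ?_))
        rw [Fin.sum_univ_succ]
        have h2 := hsum (c 0) 0 (fun i => c i.succ)
        rw [map_zero, zero_mul, zero_add] at h2
        exact h2
      · intro d
        have h3 : algebraMap W (APs p W g) f1 + algebraMap (ZMod p) (APs p W g) d *
            algebraMap W (APs p W g) f0 =
            algebraMap W (APs p W g) (f1 + algebraMap (ZMod p) W d * f0) := by
          rw [map_add, map_mul, ← IsScalarTower.algebraMap_apply (ZMod p) W (APs p W g)]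
        rw [h3]
        refine A2s_fwd p _ g (ih _ (fun c => ?_))
        rw [Fin.sum_univ_succ]
        have h2 := hsum (c 0 * d) (c 0) (fun i => c i.succ)
        have h4 : algebraMap (ZMod p) W (c 0) * (f1 + algebraMap (ZMod p) W d * f0) +
            ∑ i : Fin n, algebraMap (ZMod p) W (c i.succ) * g i =
            algebraMap (ZMod p) W (c 0 * d) * f0 + (algebraMap (ZMod p) W (c 0) * f1 +
            ∑ i : Fin n, algebraMap (ZMod p) W (c i.succ) * g i) := by
          rw [map_mul]
          ring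
        rw [← h4] at h2
        exact h2
  cases s with
  | zero =>
    exact h0.of_equiv (RingEquiv.ofBijective _ (A2s_bij p f))
  | succ s => exact key s f h1

end Pool.Agent.AQS
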