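import Pool.Agent.AQS.St

/-!
# AQS, module A3

Statement and proof: see `St_A3` in `Pool/Agent/AQS/St.lean`.
-/

set_option autoImplicit false
set_option linter.unusedSectionVars false

namespace Pool.Agent.AQS

open Function Pool.Agent.Helper11 Pool.Agent.HPow Pool.Agent.Helper67.Bass

namespace A3

open Polynomial

/-- the polynomial of a finite additive subgroup -/
private noncomputable def Ap {k : Type} [Field k] (H : AddSubgroup k) : k[X] :=
  ∏ᶠ a : H, (X - C (a : k))

/-- the polynomial of the prime field -/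
private theorem prodZ (p : ℕ) [Fact p.Prime] :
    ∏ a : ZMod p, (X - C a : (ZMod p)[X]) = X ^ p - X := by
  have hp : 1 < p := (Fact.out : p.Prime).one_lt
  have h1 : ((X : (ZMod p)[X]) ^ p - X).Monic :=
    monic_X_pow_sub (by rw [degree_X]; exact_mod_cast hp)
  have h2 : (X ^ p - X : (ZMod p)[X]).roots = Finset.univ.val := by
    have h := FiniteField.roots_X_pow_card_sub_X (ZMod p)
    rwa [ZMod.card] at h
  have h3 : Multiset.card (X ^ p - X : (ZMod p)[X]).roots = (X ^ p - X : (ZMod p)[X]).natDegree := by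
    rw [h2, FiniteField.X_pow_card_sub_X_natDegree_eq _ hp]
    simp [ZMod.card]
  have h4 := prod_multiset_X_sub_C_of_monic_of_roots_card_eq h1 h3
  rw [h2] at h4
  exact h4

private theorem prodW (p : ℕ) [Fact p.Prime] (B : Type) [CommRing B] [Algebra (ZMod p) B] (w : B) :
    ∏ a : ZMod p, (w - algebraMap (ZMod p) B a) = w ^ p - w := by
  have h := congrArg (aeval w) (prodZ p)
  rw [map_prod] at h
  simpa using h

/-- the induction statement -/
private def Good (p : ℕ) {k : Type} [Field k] (H : AddSubgroup k) : Prop :=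
  (∀ (B : Type) [CommRing B] [Algebra k B] (x y : B),
    aeval (x + y) (Ap H) = aeval x (Ap H) + aeval y (Ap H)) ∧
  ∃ (r : ℕ) (e : k) (c h : Fin r → k) (L : Fin r → k[X]), ∀ (B : Type) [CommRing B] [Algebra k B]
    (f : B),
      (∀ z : B, aeval z (Ap H) = f →
        (∀ j, aeval z (L j) ^ p - aeval z (L j) = c j • f) ∧
          ∑ j, h j • aeval z (L j) + e • f = z) ∧
      (∀ y : Fin r → B, (∀ j, y j ^ p - y j = c j • f) →
        aeval (∑ j, h j • y j + e • f) (Ap H) = f ∧
        ∀ i, aeval (∑ j, h j • y j + e • f) (L i) = y i)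

private theorem Ap_bot {k : Type} [Field k] : Ap (⊥ : AddSubgroup k) = X := by
  unfold Ap
  rw [finprod_unique]
  simp [show ((default : (⊥ : AddSubgroup k)) : k) = 0 from rfl]

private theorem good_bot (p : ℕ) {k : Type} [Field k] : Good p (⊥ : AddSubgroup k) := by
  refine ⟨fun B _ _ x y => by simp [Ap_bot], 0, 1, Fin.elim0, Fin.elim0, Fin.elim0,
    fun B _ _ f => ⟨fun z hz => ⟨fun j => j.elim0, ?_⟩, fun y _ => ⟨?_, fun i => i.elim0⟩⟩⟩
  · rw [Ap_bot] at hz
    simpa using hz.symm
  · rw [Ap_bot]; simp

/-- the bijection -/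
private theorem bij (p : ℕ) [Fact p.Prime] {k : Type} [Field k] [Algebra (ZMod p) k]
    (H : AddSubgroup k) (h : k) (hh : h ∉ H) :
    Function.Bijective (fun x : ZMod p × H =>
      (⟨x.1 • h + x.2, by
        refine add_mem ?_ ?_
        · exact ZMod.smul_mem ((le_sup_right : AddSubgroup.zmultiples h ≤ H ⊔ _)
            (AddSubgroup.mem_zmultiples h)) _
        · exact (le_sup_left : H ≤ _) x.2.2⟩ : (H ⊔ AddSubgroup.zmultiples h : AddSubgroup k))) := by
  constructor
  · rintro ⟨i, a⟩ ⟨j, b⟩ hab
    have h1 : i • h + (a : k) = j • h + b := congrArg Subtype.val hab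
    have h2 : (i - j) • h = (b : k) - a := by
      rw [sub_smul]; linear_combination h1
    by_cases hij : i = j
    · subst hij
      have h3 : (a : k) = b := by simpa using h1
      exact Prod.ext rfl (Subtype.ext h3)
    · exfalso
      apply hh
      have h3 : (i - j)⁻¹ • (i - j) • h ∈ H := by
        rw [h2]
        exact ZMod.smul_mem (H.sub_mem b.2 a.2) _
      rwa [smul_smul, inv_mul_cancel₀ (sub_ne_zero.2 hij), one_smul] at h3
  · rintro ⟨x, hx⟩
    obtain ⟨a, ha, b, hb, rfl⟩ := AddSubgroup.mem_sup.1 hx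
    obtain ⟨n, rfl⟩ := AddSubgroup.mem_zmultiples_iff.1 hb
    refine ⟨((n : ZMod p), ⟨a, ha⟩), Subtype.ext ?_⟩
    show (n : ZMod p) • h + a = a + n • h
    rw [add_comm, Int.cast_smul_eq_zsmul]

private theorem Ap_step (p : ℕ) [Fact p.Prime] {k : Type} [Field k] [Finite k] [CharP k p]
    (H : AddSubgroup k) (h : k) (hh : h ∉ H)
    (hadd : ∀ (B : Type) [CommRing B] [Algebra k B] (x y : B),
      aeval (x + y) (Ap H) = aeval x (Ap H) + aeval y (Ap H)) (b : k) (hb : b = eval h (Ap H))
    (hb0 : b ≠ 0) :
    Ap (H ⊔ AddSubgroup.zmultiples h) =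
      C b ^ p * ((C b⁻¹ * Ap H) ^ p - C b⁻¹ * Ap H) := by
  letI : Algebra (ZMod p) k := ZMod.algebra k p
  let _ : Fintype H := Fintype.ofFinite _
  let _ : Fintype (H ⊔ AddSubgroup.zmultiples h : AddSubgroup k) := Fintype.ofFinite _
  have h0 : Ap H = ∏ a : H, (X - C (a : k)) := finprod_eq_prod_of_fintype _
  have h1 : Ap (H ⊔ AddSubgroup.zmultiples h) =
      ∏ x : ZMod p × H, (X - C (x.1 • h + (x.2 : k))) := by
    rw [show Ap (H ⊔ AddSubgroup.zmultiples h) = _ from finprod_eq_prod_of_fintype _]
    exact ((bij p H h hh).prod_comp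
      (fun x : (H ⊔ AddSubgroup.zmultiples h : AddSubgroup k) => X - C (x : k))).symm
  rw [h1, Fintype.prod_prod_type, ← prodW p k[X] (C b⁻¹ * Ap H)]
  have h2 : (C b : k[X]) ^ p = ∏ i : ZMod p, C b := by
    simp [Finset.prod_const, ZMod.card]
  rw [h2, ← Finset.prod_mul_distrib]
  refine Finset.prod_congr rfl fun i _ => ?_
  have h3 : ∏ a : H, (X - C (i • h + (a : k))) = aeval (X + C (-(i • h))) (Ap H) := by
    rw [h0, map_prod]
    refine Finset.prod_congr rfl fun a _ => ?_
    rw [map_sub, aeval_X, aeval_C]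
    simp only [map_add, map_neg, algebraMap_eq]
    ring
  have h4 : aeval (C (-(i • h)) : k[X]) (Ap H) = C (-(i • b)) := by
    have h5 : aeval (C (-(i • h)) : k[X]) (Ap H) = C (eval (-(i • h)) (Ap H)) := by
      have := aeval_algebraMap_apply k[X] (-(i • h)) (Ap H)
      rw [algebraMap_eq] at this
      rw [this, coe_aeval_eq_eval]
    rw [h5]
    congr 1
    let φ : k →+ k := AddMonoidHom.mk' (fun x => eval x (Ap H)) (by
      intro x y
      have := hadd k x y
      simpa [coe_aeval_eq_eval] using this)
    have h6 : φ (-(i • h)) = -(i • φ h) := by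
      rw [map_neg, ZMod.map_smul]
    rw [hb]
    exact h6
  rw [h3, hadd, h4, aeval_X_left_apply]
  have h7 : (algebraMap (ZMod p) k[X]) i = C (algebraMap (ZMod p) k i) := rfl
  have h8 : i • b = algebraMap (ZMod p) k i * b := Algebra.smul_def _ _
  rw [h7, h8, mul_sub, ← mul_assoc, ← C_mul, mul_inv_cancel₀ hb0, C_1, one_mul]
  simp only [map_neg, map_mul]
  ring

private theorem step (p : ℕ) [Fact p.Prime] {k : Type} [Field k] [Finite k] [CharP k p]
    (H : AddSubgroup k) (h : k) (hh : h ∉ H) (hg : Good p H) :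
    Good p (H ⊔ AddSubgroup.zmultiples h) := by
  obtain ⟨hadd, r, e, c, hv, L, hL⟩ := hg
  have hp0 : p ≠ 0 := (Fact.out : p.Prime).ne_zero
  set b : k := eval h (Ap H) with hbd
  have hb0 : b ≠ 0 := by
    intro h0
    letI : Fintype H := Fintype.ofFinite _
    have h1 : Ap H = ∏ a : H, (X - C (a : k)) := finprod_eq_prod_of_fintype _
    rw [hbd, h1, eval_prod, Finset.prod_eq_zero_iff] at h0
    obtain ⟨a, -, ha⟩ := h0
    apply hh
    have h2 : h = (a : k) := by
      rw [← sub_eq_zero]
      simpa using ha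
    rw [h2]
    exact a.2
  have hstep := Ap_step p H h hh hadd b hbd hb0
  -- the formula for values
  have hval : ∀ (B : Type) [CommRing B] [Algebra k B] (z : B),
      aeval z (Ap (H ⊔ AddSubgroup.zmultiples h)) =
        (algebraMap k B b) ^ p * ((algebraMap k B b⁻¹ * aeval z (Ap H)) ^ p -
          algebraMap k B b⁻¹ * aeval z (Ap H)) := by
    intro B _ _ z
    rw [hstep]
    simp
  have hchar : ∀ (B : Type) [CommRing B] [Algebra k B], (x y : B) → (x + y) ^ p = x ^ p + y ^ p := by
    intro B _ _ x y
    letI : Algebra (ZMod p) k := ZMod.algebra k p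
    rcases subsingleton_or_nontrivial B with hB | hB
    · exact Subsingleton.elim _ _
    · haveI : CharP B p := charP_of_injective_algebraMap (algebraMap k B).injective p
      exact add_pow_char x y p
  refine ⟨?_, ?_⟩
  · intro B _ _ x y
    rw [hval, hval, hval, hadd, mul_add, hchar]
    ring
  · set t : Fin r → k := fun j => -eval h (L j) with htd
    -- the facts at `z = h`
    have hk := (hL k b).1 h (by rw [coe_aeval_eq_eval])
    have ht1 : ∀ j, t j - t j ^ p = c j * b := by
      intro j
      have h1 := hk.1 j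
      rw [coe_aeval_eq_eval, smul_eq_mul] at h1
      have h2 : (t j + eval h (L j)) ^ p = t j ^ p + eval h (L j) ^ p := hchar k _ _
      have h3 : t j + eval h (L j) = 0 := by simp [htd]
      rw [h3, zero_pow hp0] at h2
      linear_combination h1 + h3 + h2
    have ht2 : -∑ j, hv j * t j + e * b = h := by
      have h1 := hk.2
      simp only [coe_aeval_eq_eval, smul_eq_mul] at h1
      rw [← h1, ← Finset.sum_neg_distrib]
      congr 1
      refine Finset.sum_congr rfl fun j _ => ?_
      simp [htd]
    refine ⟨r + 1, 0, Fin.cons ((b⁻¹) ^ p) (fun j => (t j * b⁻¹) ^ p), Fin.cons h hv,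
      Fin.cons (C b⁻¹ * Ap H) (fun j => L j + C (t j) * (C b⁻¹ * Ap H)), fun B _ _ f => ⟨?_, ?_⟩⟩
    · intro z hz
      set w : B := algebraMap k B b⁻¹ * aeval z (Ap H) with hwd
      have hbb : algebraMap k B b * algebraMap k B b⁻¹ = 1 := by
        rw [← map_mul, mul_inv_cancel₀ hb0, map_one]
      have hA : aeval z (Ap H) = b • w := by
        rw [Algebra.smul_def, hwd, ← mul_assoc, hbb, one_mul]
      have hf : f = (algebraMap k B b) ^ p * (w ^ p - w) := by
        rw [← hz, hval]
      have hwf : w ^ p - w = (algebraMap k B b⁻¹) ^ p * f := by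
        rw [hf, ← mul_assoc, ← mul_pow, mul_comm (algebraMap k B b⁻¹), hbb, one_pow, one_mul]
      obtain ⟨h1, h2⟩ := (hL B (b • w)).1 z hA
      have hLj : ∀ j, aeval z (L j + C (t j) * (C b⁻¹ * Ap H)) =
          aeval z (L j) + algebraMap k B (t j) * w := by
        intro j
        simp [hwd]
      refine ⟨?_, ?_⟩
      · refine Fin.cases ?_ ?_
        · simp only [Fin.cons_zero]
          rw [map_mul, aeval_C, ← hwd, hwf, Algebra.smul_def, map_pow]
        · intro j
          simp only [Fin.cons_succ]
          rw [hLj, hchar, Algebra.smul_def, map_pow, map_mul, mul_pow, mul_pow]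
          have h3 := h1 j
          rw [Algebra.smul_def, Algebra.smul_def] at h3
          have h4 := congrArg (algebraMap k B) (ht1 j)
          rw [map_sub, map_pow, map_mul] at h4
          linear_combination h3 - w * h4 + algebraMap k B (t j) ^ p * hwf
      · rw [Fin.sum_univ_succ]
        simp only [Fin.cons_zero, Fin.cons_succ, hLj]
        rw [map_mul, aeval_C, ← hwd, zero_smul, add_zero]
        have h3 : ∑ j, hv j • (aeval z (L j) + algebraMap k B (t j) * w) =
            ∑ j, hv j • aeval z (L j) + (∑ j, hv j * t j) • w := by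
          rw [Finset.sum_smul, ← Finset.sum_add_distrib]
          refine Finset.sum_congr rfl fun j _ => ?_
          rw [smul_add, ← Algebra.smul_def, smul_smul]
        have h4 : h • w = (-∑ j, hv j * t j + e * b) • w := by rw [ht2]
        rw [h3, h4, add_smul, neg_smul, mul_smul]
        linear_combination h2
    · intro y hy
      set w : B := y 0 with hwd
      have hbb : algebraMap k B b * algebraMap k B b⁻¹ = 1 := by
        rw [← map_mul, mul_inv_cancel₀ hb0, map_one]
      have hwf : w ^ p - w = (algebraMap k B b⁻¹) ^ p * f := by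
        have h1 := hy 0
        simp only [Fin.cons_zero] at h1
        rw [hwd, h1, Algebra.smul_def, map_pow]
      have hf : (algebraMap k B b) ^ p * (w ^ p - w) = f := by
        rw [hwf, ← mul_assoc, ← mul_pow, hbb, one_pow, one_mul]
      have hyj : ∀ j : Fin r, y j.succ ^ p - y j.succ =
          (algebraMap k B (t j)) ^ p * (w ^ p - w) := by
        intro j
        have h1 := hy j.succ
        simp only [Fin.cons_succ] at h1
        rw [h1, Algebra.smul_def, map_pow, map_mul, mul_pow, hwf]
        ring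
      have h2 : ∀ j : Fin r, (y j.succ - algebraMap k B (t j) * w) ^ p -
          (y j.succ - algebraMap k B (t j) * w) = c j • (b • w) := by
        intro j
        have h3 := hchar B (y j.succ - algebraMap k B (t j) * w) (algebraMap k B (t j) * w)
        rw [sub_add_cancel, mul_pow] at h3
        have h4 := congrArg (algebraMap k B) (ht1 j)
        rw [map_sub, map_pow, map_mul] at h4
        rw [Algebra.smul_def, Algebra.smul_def]
        linear_combination hyj j + w * h4 - h3
      obtain ⟨h5, h6⟩ := (hL B (b • w)).2 _ h2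
      have hz : ∑ j, (Fin.cons h hv : Fin (r + 1) → k) j • y j + (0 : k) • f =
          ∑ j, hv j • (y j.succ - algebraMap k B (t j) * w) + e • b • w := by
        rw [Fin.sum_univ_succ]
        simp only [Fin.cons_zero, Fin.cons_succ]
        have h3 : ∑ j, hv j • (y j.succ - algebraMap k B (t j) * w) =
            ∑ j, hv j • y j.succ - (∑ j, hv j * t j) • w := by
          rw [Finset.sum_smul, ← Finset.sum_sub_distrib]
          refine Finset.sum_congr rfl fun j _ => ?_
          rw [smul_sub, ← Algebra.smul_def, smul_smul]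
        have h4 : h • w = (-∑ j, hv j * t j + e * b) • w := by rw [ht2]
        rw [h3, ← hwd, h4, add_smul, neg_smul, mul_smul, zero_smul, add_zero]
        ring
      rw [hz]
      have hA : algebraMap k B b⁻¹ * (b • w) = w := by
        rw [Algebra.smul_def, ← mul_assoc, mul_comm (algebraMap k B b⁻¹), hbb, one_mul]
      refine ⟨?_, ?_⟩
      · rw [hval, h5, hA, hf]
      · refine Fin.cases ?_ ?_
        · simp only [Fin.cons_zero]
          rw [map_mul, aeval_C, h5, hA]
        · intro j
          simp only [Fin.cons_succ]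
          rw [map_add, map_mul, map_mul, aeval_C, aeval_C, h5, hA, h6]
          ring

private theorem good_all (p : ℕ) [Fact p.Prime] {k : Type} [Field k] [Finite k] [CharP k p]
    (H : AddSubgroup k) : Good p H := by
  haveI : Finite (AddSubgroup k) := Finite.of_injective (fun H : AddSubgroup k => (H : Set k))
    SetLike.coe_injective
  obtain ⟨H1, ⟨h1, h2⟩, h3⟩ := (Set.toFinite {K : AddSubgroup k | K ≤ H ∧ Good p K}).exists_maximal
    ⟨⊥, bot_le, good_bot p⟩
  by_cases h4 : H ≤ H1
  · rwa [le_antisymm h4 h1]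
  · exfalso
    obtain ⟨h, hh, hn⟩ := Set.not_subset.1 h4
    have h5 := h3 (y := H1 ⊔ AddSubgroup.zmultiples h)
      ⟨sup_le h1 (AddSubgroup.zmultiples_le_of_mem hh), step p H1 h hn h2⟩ le_sup_left
    exact hn (h5 ((le_sup_right : AddSubgroup.zmultiples h ≤ H1 ⊔ _)
      (AddSubgroup.mem_zmultiples h)))

end A3

open Polynomial in
theorem thm_A3e : ∀ (p : ℕ) [Fact p.Prime] (k : Type) [Field k] [Finite k] [CharP k p]
    (H : AddSubgroup k), ∃ (r : ℕ) (e : k) (c h : Fin r → k) (L : Fin r → k[X]),
    ∀ (B : Type) [CommRing B] [Algebra k B] (f : B),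
      (∀ z : B, aeval z (∏ᶠ a : H, (X - C (a : k))) = f →
        (∀ j, aeval z (L j) ^ p - aeval z (L j) = c j • f) ∧
          ∑ j, h j • aeval z (L j) + e • f = z) ∧
      (∀ y : Fin r → B, (∀ j, y j ^ p - y j = c j • f) →
        aeval (∑ j, h j • y j + e • f) (∏ᶠ a : H, (X - C (a : k))) = f ∧
        ∀ i, aeval (∑ j, h j • y j + e • f) (L i) = y i) := by
  intro p _ k _ _ _ H
  exact (A3.good_all p H).2

theorem thm_A3 : St_A3 := thm_A3e

end Pool.Agent.AQS
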