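import Pool.Agent.AQS.A2

/-!
# AQS, module A4

Statement and proof: see `St_A4` in `Pool/Agent/AQS/St.lean`.
-/

set_option autoImplicit false
set_option linter.unusedSectionVars false

namespace Pool.Agent.AQS

open Function Pool.Agent.Helper11 Pool.Agent.HPow Pool.Agent.Helper67.Bass

theorem A4_prod {k W B : Type} [Field k] [Finite k] [CommRing W] [Algebra k W] [CommRing B]
    [Algebra k B] {s : ℕ} (H : AddSubgroup k) (ω : W →+* B)
    (hω : ∀ a : k, ω (algebraMap k W a) = algebraMap k B a) (y : Fin s → B) (i : Fin s) :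
    MvPolynomial.eval₂Hom ω y
      (∏ᶠ a : H, (MvPolynomial.X i - MvPolynomial.C (algebraMap k W (a : k)))) =
    Polynomial.aeval (y i) (∏ᶠ a : H, (Polynomial.X - Polynomial.C (a : k))) := by
  cases nonempty_fintype H
  rw [finprod_eq_prod_of_fintype, finprod_eq_prod_of_fintype, map_prod, map_prod]
  refine Finset.prod_congr rfl fun a _ => ?_
  simp [hω]

/-- `W[z_1, …, z_s] / (P_i - f_i)` -/
abbrev A4Q (W : Type) [CommRing W] {s : ℕ} (P : Fin s → MvPolynomial (Fin s) W)
    (f : Fin s → W) : Type :=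
  MvPolynomial (Fin s) W ⧸ Ideal.span (Set.range fun i => P i - MvPolynomial.C (f i))

/-- the coordinates -/
noncomputable def A4x {W : Type} [CommRing W] {s : ℕ} (P : Fin s → MvPolynomial (Fin s) W)
    (f : Fin s → W) (i : Fin s) : A4Q W P f := Ideal.Quotient.mk _ (MvPolynomial.X i)

theorem A4_ext {W : Type} [CommRing W] {s : ℕ} {P : Fin s → MvPolynomial (Fin s) W}
    {f : Fin s → W} {B : Type} [CommRing B] (φ ψ : A4Q W P f →+* B)
    (h0 : ∀ w, φ (algebraMap W _ w) = ψ (algebraMap W _ w))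
    (h1 : ∀ i, φ (A4x P f i) = ψ (A4x P f i)) : φ = ψ := by
  apply Ideal.Quotient.ringHom_ext
  apply MvPolynomial.ringHom_ext
  · exact h0
  · exact h1

theorem A4_eq {W : Type} [CommRing W] {s : ℕ} (P : Fin s → MvPolynomial (Fin s) W)
    (f : Fin s → W) (i : Fin s) :
    MvPolynomial.eval₂Hom (algebraMap W (A4Q W P f)) (A4x P f) (P i) = algebraMap W _ (f i) := by
  have h1 : (Ideal.Quotient.mk (Ideal.span (Set.range fun i => P i - MvPolynomial.C (f i))))
      (P i - MvPolynomial.C (f i)) = 0 :=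
    Ideal.Quotient.eq_zero_iff_mem.2 (Ideal.subset_span ⟨i, rfl⟩)
  have h2 : MvPolynomial.eval₂Hom (algebraMap W (A4Q W P f)) (A4x P f) =
      Ideal.Quotient.mk (Ideal.span (Set.range fun i => P i - MvPolynomial.C (f i))) := by
    apply MvPolynomial.ringHom_ext
    · intro w
      rw [MvPolynomial.eval₂Hom_C]
      rfl
    · intro i
      rw [MvPolynomial.eval₂Hom_X']
      rfl
  rw [map_sub, sub_eq_zero] at h1
  rw [h2, h1]
  rfl

theorem A4_exists {W : Type} [CommRing W] {s : ℕ} {P : Fin s → MvPolynomial (Fin s) W}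
    {f : Fin s → W} {B : Type} [CommRing B] (ω : W →+* B) (y : Fin s → B)
    (hy : ∀ i, MvPolynomial.eval₂Hom ω y (P i) = ω (f i)) :
    ∃ φ : A4Q W P f →+* B, (∀ w, φ (algebraMap W _ w) = ω w) ∧ ∀ i, φ (A4x P f i) = y i := by
  have h1 : ∀ a ∈ Ideal.span (Set.range fun i => P i - MvPolynomial.C (f i)),
      MvPolynomial.eval₂Hom ω y a = 0 := by
    have h2 : Ideal.span (Set.range fun i => P i - MvPolynomial.C (f i)) ≤
        RingHom.ker (MvPolynomial.eval₂Hom ω y) := by
      rw [Ideal.span_le]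
      intro a ha
      obtain ⟨i, hi⟩ := ha
      show MvPolynomial.eval₂Hom ω y a = 0
      rw [← hi]
      show MvPolynomial.eval₂Hom ω y (P i - MvPolynomial.C (f i)) = 0
      rw [map_sub, hy, MvPolynomial.eval₂Hom_C, sub_self]
    exact fun a ha => h2 ha
  exact ⟨Ideal.Quotient.lift _ (MvPolynomial.eval₂Hom ω y) h1,
    fun w => (Ideal.Quotient.lift_mk _ _ h1).trans (MvPolynomial.eval₂Hom_C ω y w),
    fun i => (Ideal.Quotient.lift_mk _ _ h1).trans (MvPolynomial.eval₂Hom_X' ω y i)⟩

theorem A4_smul {k W B : Type} [Field k] [CommRing W] [Algebra k W] [CommRing B] [Algebra k B]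
    [Algebra W B] [IsScalarTower k W B] (c : k) (w : W) :
    algebraMap W B (algebraMap k W c * w) = c • algebraMap W B w := by
  rw [map_mul, Algebra.smul_def, ← IsScalarTower.algebraMap_apply k W B]

theorem thm_A4 (h2 : St_A2) (h3 : St_A3) : St_A4 := by
  intro p _ k _ _ _ W _ _ _ s H f hW hf
  choose r e c h L hL using fun i => h3 p k (H i)
  obtain ⟨ε⟩ : Nonempty (Fin (∑ i, r i) ≃ (Σ i, Fin (r i))) := ⟨finSigmaFinEquiv.symm⟩
  let g : (Σ i, Fin (r i)) → W := fun t => algebraMap k W (c t.1 t.2) * f t.1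
  let f' : Fin (∑ i, r i) → W := fun t => g (ε t)
  let P : Fin s → MvPolynomial (Fin s) W := fun i =>
    ∏ᶠ a : H i, (MvPolynomial.X i - MvPolynomial.C (algebraMap k W (a : k)))
  -- the second ring is good
  have hgood : GoodP p (APs p W f') := by
    letI : Algebra (ZMod p) k := ZMod.algebra k p
    letI : Algebra (ZMod p) W := ((algebraMap k W).comp (algebraMap (ZMod p) k)).toAlgebra
    refine h2 p W _ f' hW (fun a => hf _ (Submodule.sum_mem _ fun t _ => ?_))
    have h4 : algebraMap (ZMod p) W (a t) * f' t =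
        (algebraMap (ZMod p) k (a t) * c (ε t).1 (ε t).2) • f (ε t).1 := by
      rw [Algebra.smul_def, map_mul, mul_assoc]
      rfl
    rw [h4]
    exact Submodule.smul_mem _ _ (Submodule.subset_span ⟨_, rfl⟩)
  -- the maps
  obtain ⟨φ, hφ0, hφ1⟩ := A2s_exists (p := p) (f := f') (algebraMap W (A4Q W P f))
    (fun t => Polynomial.aeval (A4x P f (ε t).1) (L (ε t).1 (ε t).2)) (by
      intro t
      have h4 := (hL (ε t).1 (A4Q W P f) (algebraMap W _ (f (ε t).1))).1 (A4x P f (ε t).1) (by
        rw [← A4_prod (H (ε t).1) (algebraMap W (A4Q W P f))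
          (fun a => (IsScalarTower.algebraMap_apply k W (A4Q W P f) a).symm) (A4x P f) (ε t).1]
        exact A4_eq P f (ε t).1)
      exact (h4.1 (ε t).2).trans (A4_smul _ _).symm)
  have hy : ∀ i j, A2x p f' (ε.symm ⟨i, j⟩) ^ p - A2x p f' (ε.symm ⟨i, j⟩) =
      c i j • algebraMap W (APs p W f') (f i) := by
    intro i j
    rw [A2s_eq]
    show algebraMap W _ (g (ε (ε.symm ⟨i, j⟩))) = _
    rw [Equiv.apply_symm_apply]
    exact A4_smul _ _
  obtain ⟨ψ, hψ0, hψ1⟩ := A4_exists (P := P) (f := f) (algebraMap W (APs p W f'))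
    (fun i => ∑ j, h i j • A2x p f' (ε.symm ⟨i, j⟩) + e i • algebraMap W (APs p W f') (f i)) (by
      intro i
      rw [A4_prod (H i) (algebraMap W (APs p W f'))
          (fun a => (IsScalarTower.algebraMap_apply k W (APs p W f') a).symm)]
      exact ((hL i (APs p W f') (algebraMap W _ (f i))).2 _ (hy i)).1)
  -- they are homomorphisms of algebras over `k`
  obtain ⟨Φ, hΦ⟩ : ∃ Φ : APs p W f' →ₐ[k] A4Q W P f, ∀ x, Φ x = φ x :=
    ⟨{ φ with
        commutes' := fun a => by
          show φ (algebraMap k (APs p W f') a) = algebraMap k (A4Q W P f) a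
          rw [IsScalarTower.algebraMap_apply k W (APs p W f'), hφ0,
            ← IsScalarTower.algebraMap_apply k W (A4Q W P f)] }, fun x => rfl⟩
  obtain ⟨Ψ, hΨ⟩ : ∃ Ψ : A4Q W P f →ₐ[k] APs p W f', ∀ x, Ψ x = ψ x :=
    ⟨{ ψ with
        commutes' := fun a => by
          show ψ (algebraMap k (A4Q W P f) a) = algebraMap k (APs p W f') a
          rw [IsScalarTower.algebraMap_apply k W (A4Q W P f), hψ0,
            ← IsScalarTower.algebraMap_apply k W (APs p W f')] }, fun x => rfl⟩
  have h5 : ∀ i, Φ (Ψ (A4x P f i)) = A4x P f i := by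
    intro i
    rw [hΨ, hψ1, map_add, map_sum, map_smul, hΦ (algebraMap W _ (f i)), hφ0]
    have h6 := ((hL i (A4Q W P f) (algebraMap W _ (f i))).1 (A4x P f i) (by
        rw [← A4_prod (H i) (algebraMap W (A4Q W P f))
          (fun a => (IsScalarTower.algebraMap_apply k W (A4Q W P f) a).symm) (A4x P f) i]
        exact A4_eq P f i)).2
    refine Eq.trans ?_ h6
    congr 1
    refine Finset.sum_congr rfl fun j _ => ?_
    rw [map_smul, hΦ, hφ1, Equiv.apply_symm_apply]
  have h6 : ∀ t, Ψ (Φ (A2x p f' t)) = A2x p f' t := by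
    intro t
    obtain ⟨⟨i, j⟩, rfl⟩ := ε.symm.surjective t
    rw [hΦ, hφ1, Equiv.apply_symm_apply, ← Polynomial.aeval_algHom_apply, hΨ, hψ1]
    exact ((hL i (APs p W f') (algebraMap W _ (f i))).2 _ (hy i)).2 j
  refine hgood.of_equiv (RingEquiv.ofRingHom φ ψ ?_ ?_)
  · apply A4_ext
    · intro w
      show φ (ψ _) = _
      rw [hψ0, hφ0]
      rfl
    · intro i
      show φ (ψ _) = _
      have := h5 i
      rw [hΨ, hΦ] at this
      exact this
  · apply A2s_ext
    · intro w
      show ψ (φ _) = _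
      rw [hφ0, hψ0]
      rfl
    · intro t
      show ψ (φ _) = _
      have := h6 t
      rw [hΦ, hΨ] at this
      exact this

end Pool.Agent.AQS
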