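import Pool.Agent.AQS.St

/-!
# AQS, module A5

Statement and proof: see `St_A5` in `Pool/Agent/AQS/St.lean`.
-/

set_option autoImplicit false
set_option linter.unusedSectionVars false

namespace Pool.Agent.AQS

open Function Pool.Agent.Helper11 Pool.Agent.HPow Pool.Agent.Helper67.Bass

/-- the identity map -/
noncomputable def A5.eqv {R E : Type} [CommRing R] [CommRing E] [Finite E] (ε : R →+* E) :
    ptM ε ≃+ E := AddEquiv.refl E

theorem A5.eqv_smul {R E : Type} [CommRing R] [CommRing E] [Finite E] (ε : R →+* E) (r : R)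
    (x : ptM ε) : A5.eqv ε (r • x) = ε r * A5.eqv ε x := rfl

theorem A5.one (R S E : Type) [CommRing R] [CommRing S] [CommRing E] [Finite E] (φ : R →+* S)
    (h : φ.Finite) (ε : S →+* E) : resH φ h (pt ε) = pt (ε.comp φ) := by
  let _ := φ.toAlgebra
  have : Module.Finite R S := h
  change resG R S (G0.mk (ptM ε)) = G0.mk (ptM (ε.comp φ))
  rw [resG_mk]
  refine mk_eq_of_iso
    { ((resEquiv R S (ptM ε)).trans (A5.eqv ε)).trans (A5.eqv (ε.comp φ)).symm with
      map_smul' := fun r x => ?_ }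
  change (A5.eqv (ε.comp φ)).symm (A5.eqv ε (resEquiv R S (ptM ε) (r • x))) =
    r • (A5.eqv (ε.comp φ)).symm (A5.eqv ε (resEquiv R S (ptM ε) x))
  rw [resEquiv_smul, A5.eqv_smul, AddEquiv.symm_apply_eq, A5.eqv_smul, AddEquiv.apply_symm_apply]
  rfl

theorem A5.two (R E E' : Type) [CommRing R] [CommRing E] [CommRing E'] [Finite E] [Finite E']
    (ε : R →+* E) (e : E ≃+* E') : pt ((e : E →+* E').comp ε) = pt ε := by
  unfold pt
  symm
  refine mk_eq_of_iso
    { ((A5.eqv ε).trans e.toAddEquiv).trans (A5.eqv ((e : E →+* E').comp ε)).symm with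
      map_smul' := fun r x => ?_ }
  change (A5.eqv ((e : E →+* E').comp ε)).symm (e (A5.eqv ε (r • x))) =
    r • (A5.eqv ((e : E →+* E').comp ε)).symm (e (A5.eqv ε x))
  rw [A5.eqv_smul, AddEquiv.symm_apply_eq, A5.eqv_smul, AddEquiv.apply_symm_apply, map_mul]
  rfl

theorem A5.three (R E : Type) [CommRing R] [Field E] [Finite E] (ε : R →+* E) :
    (RingHom.ker ε).IsMaximal ∧
    Finite (R ⧸ RingHom.ker ε) ∧ ∃ n : ℕ, Nat.card E = Nat.card (R ⧸ RingHom.ker ε) ^ n ∧
      pt ε = n • G0.mk (FGMod.of R (R ⧸ RingHom.ker ε)) := by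
  have hinj : Injective (RingHom.kerLift ε) := RingHom.kerLift_injective ε
  have hfin : Finite (R ⧸ RingHom.ker ε) := Finite.of_injective _ hinj
  have hpr : (RingHom.ker ε).IsPrime := RingHom.ker_isPrime ε
  have hdom : IsDomain (R ⧸ RingHom.ker ε) := Ideal.Quotient.isDomain _
  have hfield : IsField (R ⧸ RingHom.ker ε) := Finite.isField_of_domain _
  have hmax : (RingHom.ker ε).IsMaximal := Ideal.Quotient.maximal_of_isField _ hfield
  refine ⟨hmax, hfin, ?_⟩
  let _ : Field (R ⧸ RingHom.ker ε) := Ideal.Quotient.field _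
  let _ : Module (R ⧸ RingHom.ker ε) E := Module.compHom E (RingHom.kerLift ε)
  have hsm : ∀ (a : R ⧸ RingHom.ker ε) (x : E), a • x = RingHom.kerLift ε a * x :=
    fun _ _ => rfl
  have hmf : Module.Finite (R ⧸ RingHom.ker ε) E := Module.Finite.of_finite
  let n := Module.finrank (R ⧸ RingHom.ker ε) E
  let b : Module.Basis (Fin n) (R ⧸ RingHom.ker ε) E := Module.finBasis _ _
  refine ⟨n, ?_, ?_⟩
  · rw [Nat.card_congr b.equivFun.toEquiv, Nat.card_fun, Nat.card_fin]
  · have h2 := mk_pi (R := R) (fun _ : Fin n => FGMod.of R (R ⧸ RingHom.ker ε))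
    rw [Finset.sum_const, Finset.card_univ, Fintype.card_fin] at h2
    rw [← h2]
    refine mk_eq_of_iso
      { (A5.eqv ε).trans b.equivFun.toAddEquiv with
        map_smul' := fun r x => ?_ }
    change b.equivFun (A5.eqv ε (r • x)) = r • b.equivFun (A5.eqv ε x)
    rw [A5.eqv_smul]
    have h3 : ε r * A5.eqv ε x = (Ideal.Quotient.mk (RingHom.ker ε) r) • A5.eqv ε x := by
      rw [hsm, RingHom.kerLift_mk]
    rw [h3, map_smul]
    rfl

theorem thm_A5 : St_A5 := ⟨A5.one, A5.two, A5.three⟩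

end Pool.Agent.AQS
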