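import Pool.Agent.AQS.St

/-!
# AQS, module B1

Statement and proof: see `St_B1` in `Pool/Agent/AQS/St.lean`.
-/

set_option autoImplicit false
set_option linter.unusedSectionVars false

namespace Pool.Agent.AQS

open Function Pool.Agent.Helper11 Pool.Agent.HPow Pool.Agent.Helper67.Bass

open Polynomial

private theorem B1_symm_pow {p : ℕ} {k : Type} [Field k] [ExpChar k p] [PerfectRing k p] (a : k) :
    (frobeniusEquiv k p).symm (a ^ p) = a := by
  rw [RingEquiv.symm_apply_eq]
  rfl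

private theorem B1_symm_pow' {p : ℕ} {k : Type} [Field k] [ExpChar k p] [PerfectRing k p] (a : k) :
    ((frobeniusEquiv k p).symm a) ^ p = a := by
  have h : (frobeniusEquiv k p) ((frobeniusEquiv k p).symm a) = a := RingEquiv.apply_symm_apply _ _
  exact h

private theorem B1_F0 {p : ℕ} {k : Type} [Field k] [ExpChar k p] [PerfectRing k p] (i : ℕ) :
    ((frobeniusEquiv k p).symm)^[i] (0 : k) = 0 :=
  iterate_map_zero _ _

private theorem B1_Fadd {p : ℕ} {k : Type} [Field k] [ExpChar k p] [PerfectRing k p] (i : ℕ)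
    (a b : k) : ((frobeniusEquiv k p).symm)^[i] (a + b) =
      ((frobeniusEquiv k p).symm)^[i] a + ((frobeniusEquiv k p).symm)^[i] b :=
  iterate_map_add _ _ _ _

private theorem B1_ext {p : ℕ} [Fact p.Prime] {k : Type} [Field k] [ExpChar k p] [PerfectRing k p]
    (P : k[X]) (d : ℕ) (hd : 1 ≤ d) (N : ℕ) (hN : P.natDegree + 1 ≤ N) :
    rho p P d = ∑ i ∈ Finset.range N, ((frobeniusEquiv k p).symm)^[i] (P.coeff (p ^ i * d)) := by
  unfold rho
  refine Finset.sum_subset (Finset.range_mono hN) ?_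
  intro i _ hi
  have h1 : P.natDegree + 1 ≤ i := by
    by_contra hc
    exact hi (Finset.mem_range.2 (by omega))
  have h2 : i < p ^ i := Nat.lt_pow_self (Fact.out : p.Prime).one_lt
  have h3 : p ^ i * 1 ≤ p ^ i * d := Nat.mul_le_mul_left _ hd
  rw [coeff_eq_zero_of_natDegree_lt (by omega), B1_F0]

private theorem B1_add {p : ℕ} [Fact p.Prime] {k : Type} [Field k] [ExpChar k p] [PerfectRing k p]
    (P Q : k[X]) (d : ℕ) (hd : 1 ≤ d) : rho p (P + Q) d = rho p P d + rho p Q d := by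
  rw [B1_ext (P + Q) d hd ((P + Q).natDegree + P.natDegree + Q.natDegree + 1) (by omega),
    B1_ext P d hd ((P + Q).natDegree + P.natDegree + Q.natDegree + 1) (by omega),
    B1_ext Q d hd ((P + Q).natDegree + P.natDegree + Q.natDegree + 1) (by omega),
    ← Finset.sum_add_distrib]
  refine Finset.sum_congr rfl fun i _ => ?_
  rw [coeff_add, B1_Fadd]

private theorem B1_coeff_pow {p : ℕ} [Fact p.Prime] {k : Type} [Field k] [CharP k p]
    (g : k[X]) (n : ℕ) : (g ^ p).coeff (p * n) = (g.coeff n) ^ p := by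
  have : ExpChar k p := ExpChar.prime Fact.out
  have h : (expand k p g).map (frobenius k p) = g ^ p := map_frobenius_expand p g
  rw [← h, coeff_map, coeff_expand_mul' (Fact.out : p.Prime).pos]
  rfl

private theorem B1_coeff_pow' {p : ℕ} [Fact p.Prime] {k : Type} [Field k] [CharP k p]
    (g : k[X]) (n : ℕ) (hn : ¬ p ∣ n) : (g ^ p).coeff n = 0 := by
  have : ExpChar k p := ExpChar.prime Fact.out
  have h : (expand k p g).map (frobenius k p) = g ^ p := map_frobenius_expand p g
  rw [← h, coeff_map, coeff_expand (Fact.out : p.Prime).pos, if_neg hn, map_zero]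

private theorem B1_pow {p : ℕ} [Fact p.Prime] {k : Type} [Field k] [CharP k p] [ExpChar k p]
    [PerfectRing k p] (g : k[X]) (d : ℕ) (hd : 1 ≤ d) (hpd : ¬ p ∣ d) :
    rho p (g ^ p) d = rho p g d := by
  rw [B1_ext (g ^ p) d hd ((g ^ p).natDegree + g.natDegree + 1 + 1) (by omega),
    B1_ext g d hd ((g ^ p).natDegree + g.natDegree + 1) (by omega), Finset.sum_range_succ']
  have h0 : ((frobeniusEquiv k p).symm)^[0] ((g ^ p).coeff (p ^ 0 * d)) = 0 := by
    rw [pow_zero, one_mul, B1_coeff_pow' g d hpd, B1_F0]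
  rw [h0, add_zero]
  refine Finset.sum_congr rfl fun i _ => ?_
  rw [pow_succ', mul_assoc, B1_coeff_pow, Function.iterate_succ_apply, B1_symm_pow]

private theorem B1_PE {p : ℕ} [Fact p.Prime] {k : Type} [Field k] [CharP k p] [ExpChar k p]
    [PerfectRing k p] (P Q : k[X]) (d : ℕ) (hd : 1 ≤ d) (hpd : ¬ p ∣ d) (h : PE p P Q) :
    rho p P d = rho p Q d := by
  obtain ⟨g, hg⟩ := h
  have h1 : P + g = Q + g ^ p := by linear_combination hg
  have h2 : rho p (P + g) d = rho p (Q + g ^ p) d := by rw [h1]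
  rw [B1_add _ _ d hd, B1_add _ _ d hd, B1_pow g d hd hpd] at h2
  exact add_right_cancel h2

private theorem B1_inj {p : ℕ} [Fact p.Prime] {i j d d' : ℕ} (hd : ¬ p ∣ d) (hd' : ¬ p ∣ d')
    (h : p ^ j * d' = p ^ i * d) : j = i ∧ d' = d := by
  have hp : p.Prime := Fact.out
  rcases lt_trichotomy j i with hji | hji | hji
  · exfalso
    obtain ⟨e, rfl⟩ := Nat.exists_eq_add_of_lt hji
    have h1 : p ^ j * d' = p ^ j * (p ^ (e + 1) * d) := by
      rw [h, ← mul_assoc, ← pow_add]
      rfl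
    have h2 := Nat.eq_of_mul_eq_mul_left (pow_pos hp.pos j) h1
    exact hd' (h2 ▸ Dvd.dvd.mul_right (dvd_pow_self p (Nat.succ_ne_zero e)) d)
  · subst hji
    exact ⟨rfl, Nat.eq_of_mul_eq_mul_left (pow_pos hp.pos j) h⟩
  · exfalso
    obtain ⟨e, rfl⟩ := Nat.exists_eq_add_of_lt hji
    have h1 : p ^ i * (p ^ (e + 1) * d') = p ^ i * d := by
      rw [← h, ← mul_assoc, ← pow_add]
      rfl
    have h2 := Nat.eq_of_mul_eq_mul_left (pow_pos hp.pos i) h1
    exact hd (h2 ▸ Dvd.dvd.mul_right (dvd_pow_self p (Nat.succ_ne_zero e)) d')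

private theorem B1_mono {p : ℕ} [Fact p.Prime] {k : Type} [Field k] [CharP k p] [ExpChar k p]
    [PerfectRing k p] (c : k) (i d d' : ℕ) (hd1 : 1 ≤ d) (hd : ¬ p ∣ d) (hd1' : 1 ≤ d')
    (hd' : ¬ p ∣ d') :
    rho p (C c * X ^ (p ^ i * d)) d' =
      if d' = d then ((frobeniusEquiv k p).symm)^[i] c else 0 := by
  have hp : p.Prime := Fact.out
  rw [B1_ext _ d' hd1' (p ^ i * d + 1) (Nat.succ_le_succ (natDegree_C_mul_X_pow_le _ _))]
  have hi : i < p ^ i * d + 1 := by
    have h2 : i < p ^ i := Nat.lt_pow_self hp.one_lt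
    have h3 : p ^ i * 1 ≤ p ^ i * d := Nat.mul_le_mul_left _ hd1
    omega
  rw [Finset.sum_eq_single i]
  · rw [coeff_C_mul_X_pow]
    by_cases h : d' = d
    · subst h
      rw [if_pos rfl, if_pos rfl]
    · rw [if_neg h, if_neg, B1_F0]
      intro h1
      exact h (B1_inj hd hd' h1).2
  · intro j _ hj
    rw [coeff_C_mul_X_pow, if_neg, B1_F0]
    intro h1
    exact hj (B1_inj hd hd' h1).1
  · intro h
    exact absurd (Finset.mem_range.2 hi) h

private theorem B1_PE_add {p : ℕ} [Fact p.Prime] {k : Type} [Field k] [CharP k p]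
    {P P' Q Q' : k[X]} (h : PE p P Q) (h' : PE p P' Q') : PE p (P + P') (Q + Q') := by
  obtain ⟨g, hg⟩ := h
  obtain ⟨g', hg'⟩ := h'
  refine ⟨g + g', ?_⟩
  rw [add_pow_char]
  linear_combination hg + hg'

private theorem B1_PE_refl {p : ℕ} [Fact p.Prime] {k : Type} [Field k]
    (P : k[X]) : PE p P P := by
  refine ⟨0, ?_⟩
  rw [zero_pow (Fact.out : p.Prime).ne_zero]
  ring

private theorem B1_PE_trans {p : ℕ} [Fact p.Prime] {k : Type} [Field k] [CharP k p]
    {P Q R : k[X]} (h : PE p P Q) (h' : PE p Q R) : PE p P R := by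
  obtain ⟨g, hg⟩ := h
  obtain ⟨g', hg'⟩ := h'
  refine ⟨g + g', ?_⟩
  rw [add_pow_char]
  linear_combination hg + hg'

private theorem B1_step {p : ℕ} [Fact p.Prime] {k : Type} [Field k] [CharP k p] [ExpChar k p]
    [PerfectRing k p] (c : k) (m : ℕ) :
    PE p (C c * X ^ (p * m)) (C ((frobeniusEquiv k p).symm c) * X ^ m) := by
  refine ⟨C ((frobeniusEquiv k p).symm c) * X ^ m, ?_⟩
  rw [mul_pow, ← C_pow, B1_symm_pow', ← pow_mul, mul_comm m p]

private theorem B1_red {p : ℕ} [Fact p.Prime] {k : Type} [Field k] [CharP k p] [ExpChar k p]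
    [PerfectRing k p] (n : ℕ) : ∀ c : k, ∃ (c' : k) (m : ℕ),
      PE p (C c * X ^ n) (C c' * X ^ m) ∧ (m = 0 ∨ ¬ p ∣ m) := by
  induction n using Nat.strong_induction_on with
  | _ n ih =>
    intro c
    by_cases hn : n = 0
    · exact ⟨c, n, B1_PE_refl _, Or.inl hn⟩
    by_cases hp : p ∣ n
    · obtain ⟨m, rfl⟩ := hp
      have hm : m < p * m := by
        have h1 : 0 < m := Nat.pos_of_ne_zero fun h => hn (by rw [h, mul_zero])
        have h2 := (Fact.out : p.Prime).one_lt
        nlinarith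
      obtain ⟨c', m', h1, h2⟩ := ih m hm ((frobeniusEquiv k p).symm c)
      exact ⟨c', m', B1_PE_trans (B1_step c m) h1, h2⟩
    · exact ⟨c, n, B1_PE_refl _, Or.inr hp⟩

private theorem B1_norm {p : ℕ} [Fact p.Prime] {k : Type} [Field k] [CharP k p] [ExpChar k p]
    [PerfectRing k p] (P : k[X]) :
    ∃ Q : k[X], PE p P Q ∧ ∀ n, 1 ≤ n → p ∣ n → Q.coeff n = 0 := by
  induction P using Polynomial.induction_on' with
  | add P Q hP hQ =>
    obtain ⟨P', h1, h2⟩ := hP
    obtain ⟨Q', h3, h4⟩ := hQ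
    refine ⟨P' + Q', B1_PE_add h1 h3, fun n hn hpn => ?_⟩
    rw [coeff_add, h2 n hn hpn, h4 n hn hpn, add_zero]
  | monomial n c =>
    obtain ⟨c', m, h1, h2⟩ := B1_red (p := p) n c
    refine ⟨C c' * X ^ m, ?_, fun n' hn' hpn' => ?_⟩
    · rw [← C_mul_X_pow_eq_monomial]
      exact h1
    · rw [coeff_C_mul_X_pow, if_neg]
      rintro rfl
      rcases h2 with h2 | h2
      · omega
      · exact h2 hpn'

theorem thm_B1 : St_B1 := by
  intro p hp k _ _ _ _ _
  refine ⟨fun P Q d hd => B1_add P Q d hd, fun P Q d hd hpd h => B1_PE P Q d hd hpd h,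
    fun c i d d' h1 h2 h3 h4 => B1_mono c i d d' h1 h2 h3 h4, fun P => ⟨?_, ?_⟩⟩
  · rintro ⟨l, c, h⟩ d hd hpd
    rw [B1_PE P _ d (by omega) hpd h]
    unfold rho
    refine Finset.sum_eq_zero fun i _ => ?_
    have h3 : p ^ i * d ≠ 0 := Nat.mul_ne_zero (pow_ne_zero _ hp.out.ne_zero) (by omega)
    have h4 : 1 * d ≤ p ^ i * d := Nat.mul_le_mul_right _ (Nat.one_le_pow _ _ hp.out.pos)
    have h5 : (C l * X + C c : k[X]).coeff (p ^ i * d) = 0 := by
      rw [coeff_add, coeff_C_mul, coeff_X, if_neg (by omega), mul_zero, coeff_C, if_neg h3,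
        add_zero]
    rw [h5, B1_F0]
  · intro h
    obtain ⟨Q, h1, h2⟩ := B1_norm (p := p) P
    have h3 : ∀ d, 2 ≤ d → Q.coeff d = 0 := by
      intro d hd
      by_cases hpd : p ∣ d
      · exact h2 d (by omega) hpd
      · have h4 := B1_PE P Q d (by omega) hpd h1
        rw [h d hd hpd] at h4
        unfold rho at h4
        rw [Finset.sum_eq_single 0] at h4
        · rw [pow_zero, one_mul] at h4
          exact h4.symm
        · intro i _ hi
          rw [h2 (p ^ i * d) (Nat.one_le_iff_ne_zero.2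
            (Nat.mul_ne_zero (pow_ne_zero _ hp.out.ne_zero) (by omega)))
            (Dvd.dvd.mul_right (dvd_pow_self p hi) d), B1_F0]
        · intro h0
          exact absurd (Finset.mem_range.2 (Nat.succ_pos _)) h0
    refine ⟨Q.coeff 1, Q.coeff 0, ?_⟩
    have h5 : Q = C (Q.coeff 1) * X + C (Q.coeff 0) := by
      ext n
      rw [coeff_add, coeff_C_mul, coeff_X, coeff_C]
      rcases n with _ | _ | n
      · simp
      · simp
      · rw [h3 (n + 1 + 1) (by omega), if_neg (by omega), if_neg (by omega), mul_zero, add_zero]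
    rw [← h5]
    exact h1

end Pool.Agent.AQS
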