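import Pool.Agent.AQS.St

/-!
# AQS, module B2

Statement and proof: see `St_B2` in `Pool/Agent/AQS/St.lean`.
-/

set_option autoImplicit false
set_option linter.unusedSectionVars false

namespace Pool.Agent.AQS

open Function Pool.Agent.Helper11 Pool.Agent.HPow Pool.Agent.Helper67.Bass

namespace B2

section mv

open MvPolynomial

variable {k σ : Type} [Field k]

/-- all exponents satisfy `D` -/
def Sup (D : (σ →₀ ℕ) → Prop) (f : MvPolynomial σ k) : Prop := ∀ d ∈ f.support, D d

theorem Sup.zero (D : (σ →₀ ℕ) → Prop) : Sup D (0 : MvPolynomial σ k) := by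
  intro d hd
  simp at hd

theorem Sup.add {D : (σ →₀ ℕ) → Prop} {f g : MvPolynomial σ k} (hf : Sup D f) (hg : Sup D g) :
    Sup D (f + g) := by
  classical
  intro d hd
  rcases Finset.mem_union.1 (MvPolynomial.support_add hd) with h | h
  exacts [hf d h, hg d h]

theorem Sup.sum {D : (σ →₀ ℕ) → Prop} {ι : Type} (s : Finset ι) (f : ι → MvPolynomial σ k)
    (h : ∀ i ∈ s, Sup D (f i)) : Sup D (∑ i ∈ s, f i) := by
  classical
  induction s using Finset.induction_on with
  | empty => rw [Finset.sum_empty]; exact Sup.zero D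
  | insert a s ha ih =>
    rw [Finset.sum_insert ha]
    exact (h a (Finset.mem_insert_self a s)).add
      (ih fun i hi => h i (Finset.mem_insert_of_mem hi))

theorem Sup.C_mul {D : (σ →₀ ℕ) → Prop} {f : MvPolynomial σ k} (hf : Sup D f) (c : k) :
    Sup D (C c * f) := by
  intro d hd
  rw [mem_support_iff, coeff_C_mul] at hd
  exact hf d (mem_support_iff.2 (right_ne_zero_of_mul hd))

theorem Sup.monomial {D : (σ →₀ ℕ) → Prop} {d : σ →₀ ℕ} (hd : D d) (c : k) :
    Sup D (MvPolynomial.monomial d c) := by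
  classical
  intro e he
  have := MvPolynomial.support_monomial_subset he
  rw [Finset.mem_singleton] at this
  rw [this]
  exact hd

theorem Sup.mono {D D' : (σ →₀ ℕ) → Prop} (h : ∀ d, D d → D' d) {f : MvPolynomial σ k}
    (hf : Sup D f) : Sup D' f := fun d hd => h d (hf d hd)

/-- exponents of affine polynomials -/
def DA (p : ℕ) (d : σ →₀ ℕ) : Prop := d = 0 ∨ ∃ i a, d = Finsupp.single i (p ^ a)

/-- exponents of additive-quadratic polynomials -/
def DQ (p : ℕ) (d : σ →₀ ℕ) : Prop := d = 0 ∨ (∃ i a, d = Finsupp.single i (p ^ a)) ∨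
    ∃ i j a b, d = Finsupp.single i (p ^ a) + Finsupp.single j (p ^ b)

theorem DA.dq {p : ℕ} {d : σ →₀ ℕ} (h : DA p d) : DQ p d := by
  rcases h with h | h
  · exact Or.inl h
  · exact Or.inr (Or.inl h)

theorem DA.add {p : ℕ} {d e : σ →₀ ℕ} (h : DA p d) (h' : DA p e) : DQ p (d + e) := by
  rcases h with rfl | ⟨i, a, rfl⟩
  · rw [zero_add]
    exact h'.dq
  · rcases h' with rfl | ⟨j, b, rfl⟩
    · rw [add_zero]
      exact Or.inr (Or.inl ⟨i, a, rfl⟩)
    · exact Or.inr (Or.inr ⟨i, j, a, b, rfl⟩)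

theorem DA.smul {p : ℕ} {d : σ →₀ ℕ} (h : DA p d) (a : ℕ) : DA p (p ^ a • d) := by
  rcases h with rfl | ⟨i, b, rfl⟩
  · rw [smul_zero]
    exact Or.inl rfl
  · refine Or.inr ⟨i, a + b, ?_⟩
    rw [Finsupp.smul_single, smul_eq_mul, pow_add]

theorem Sup.mul {p : ℕ} {f g : MvPolynomial σ k} (hf : Sup (DA p) f) (hg : Sup (DA p) g) :
    Sup (DQ p) (f * g) := by
  classical
  intro d hd
  have h1 := MvPolynomial.support_mul f g hd
  rw [Finset.mem_add] at h1
  obtain ⟨a, ha, b, hb, rfl⟩ := h1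
  exact (hf a ha).add (hg b hb)

theorem Sup.pow {p : ℕ} [Fact p.Prime] [CharP k p] {f : MvPolynomial σ k} (hf : Sup (DA p) f)
    (a : ℕ) : Sup (DA p) (f ^ p ^ a) := by
  have : ExpChar (MvPolynomial σ k) p := by
    have : CharP (MvPolynomial σ k) p := inferInstance
    exact ExpChar.prime Fact.out
  have h1 : f ^ p ^ a = ∑ d ∈ f.support, MvPolynomial.monomial (p ^ a • d) (coeff d f ^ p ^ a) := by
    conv_lhs => rw [MvPolynomial.as_sum f]
    rw [sum_pow_char_pow]
    refine Finset.sum_congr rfl fun d _ => ?_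
    rw [MvPolynomial.monomial_pow]
  rw [h1]
  exact Sup.sum _ _ fun d hd => Sup.monomial ((hf d hd).smul a) _

end mv

section uni

open Polynomial

variable {k : Type} [Field k]

/-- all exponents satisfy `D` -/
def Sup1 (D : ℕ → Prop) (f : k[X]) : Prop := ∀ d ∈ f.support, D d

theorem Sup1.zero (D : ℕ → Prop) : Sup1 D (0 : k[X]) := by
  intro d hd
  simp at hd

theorem Sup1.add {D : ℕ → Prop} {f g : k[X]} (hf : Sup1 D f) (hg : Sup1 D g) :
    Sup1 D (f + g) := by
  classical
  intro d hd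
  rcases Finset.mem_union.1 (Polynomial.support_add hd) with h | h
  exacts [hf d h, hg d h]

theorem Sup1.sum {D : ℕ → Prop} {ι : Type} (s : Finset ι) (f : ι → k[X])
    (h : ∀ i ∈ s, Sup1 D (f i)) : Sup1 D (∑ i ∈ s, f i) := by
  classical
  induction s using Finset.induction_on with
  | empty => rw [Finset.sum_empty]; exact Sup1.zero D
  | insert a s ha ih =>
    rw [Finset.sum_insert ha]
    exact (h a (Finset.mem_insert_self a s)).add
      (ih fun i hi => h i (Finset.mem_insert_of_mem hi))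

theorem Sup1.C_mul {D : ℕ → Prop} {f : k[X]} (hf : Sup1 D f) (c : k) :
    Sup1 D (C c * f) := by
  intro d hd
  rw [mem_support_iff, coeff_C_mul] at hd
  exact hf d (mem_support_iff.2 (right_ne_zero_of_mul hd))

theorem Sup1.monomial {D : ℕ → Prop} {d : ℕ} (hd : D d) (c : k) :
    Sup1 D (Polynomial.monomial d c) := by
  intro e he
  rw [mem_support_iff, coeff_monomial] at he
  by_cases h : d = e
  · rw [← h]; exact hd
  · rw [if_neg h] at he
    exact absurd rfl he

/-- exponents of affine polynomials -/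
def DA1 (p : ℕ) (d : ℕ) : Prop := d = 0 ∨ ∃ a, d = p ^ a

/-- exponents of additive-quadratic polynomials -/
def DQ1 (p : ℕ) (d : ℕ) : Prop := d = 0 ∨ (∃ a, d = p ^ a) ∨ ∃ a b, d = p ^ a + p ^ b

theorem DA1.dq {p : ℕ} {d : ℕ} (h : DA1 p d) : DQ1 p d := by
  rcases h with h | h
  · exact Or.inl h
  · exact Or.inr (Or.inl h)

theorem DA1.add {p : ℕ} {d e : ℕ} (h : DA1 p d) (h' : DA1 p e) : DQ1 p (d + e) := by
  rcases h with rfl | ⟨a, rfl⟩
  · rw [zero_add]
    exact h'.dq
  · rcases h' with rfl | ⟨b, rfl⟩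
    · rw [add_zero]
      exact Or.inr (Or.inl ⟨a, rfl⟩)
    · exact Or.inr (Or.inr ⟨a, b, rfl⟩)

theorem DA1.smul {p : ℕ} {d : ℕ} (h : DA1 p d) (a : ℕ) : DA1 p (d * p ^ a) := by
  rcases h with rfl | ⟨b, rfl⟩
  · rw [zero_mul]
    exact Or.inl rfl
  · exact Or.inr ⟨b + a, by rw [pow_add]⟩

theorem Sup1.mul {p : ℕ} {f g : k[X]} (hf : Sup1 (DA1 p) f) (hg : Sup1 (DA1 p) g) :
    Sup1 (DQ1 p) (f * g) := by
  intro d hd
  rw [mem_support_iff, coeff_mul] at hd
  obtain ⟨x, hx, hx'⟩ := Finset.exists_ne_zero_of_sum_ne_zero hd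
  rw [Finset.HasAntidiagonal.mem_antidiagonal] at hx
  rw [← hx]
  exact (hf _ (mem_support_iff.2 (left_ne_zero_of_mul hx'))).add
    (hg _ (mem_support_iff.2 (right_ne_zero_of_mul hx')))

theorem Sup1.mono {D D' : ℕ → Prop} (h : ∀ d, D d → D' d) {f : k[X]}
    (hf : Sup1 D f) : Sup1 D' f := fun d hd => h d (hf d hd)

theorem Sup1.pow {p : ℕ} [Fact p.Prime] [CharP k p] {f : k[X]} (hf : Sup1 (DA1 p) f)
    (a : ℕ) : Sup1 (DA1 p) (f ^ p ^ a) := by
  have : ExpChar k[X] p := by
    have : CharP k[X] p := inferInstance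
    exact ExpChar.prime Fact.out
  have h1 : f ^ p ^ a = ∑ d ∈ f.support, Polynomial.monomial (d * p ^ a) (coeff f d ^ p ^ a) := by
    conv_lhs => rw [Polynomial.as_sum_support f]
    rw [sum_pow_char_pow]
    refine Finset.sum_congr rfl fun d _ => ?_
    rw [Polynomial.monomial_pow]
  rw [h1]
  exact Sup1.sum _ _ fun d hd => Sup1.monomial ((hf d hd).smul a) _

end uni

open MvPolynomial in
/-- the value of `f` at `φ` -/
theorem aevalSum {k σ B : Type} [Field k] [CommRing B] [Algebra k B] (f : MvPolynomial σ k)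
    (φ : σ → B) : aeval φ f =
      ∑ d ∈ f.support, algebraMap k B (coeff d f) * d.prod fun i m => φ i ^ m := by
  conv_lhs => rw [MvPolynomial.as_sum f]
  rw [map_sum]
  refine Finset.sum_congr rfl fun d _ => ?_
  rw [MvPolynomial.aeval_monomial]

theorem prod_single {σ B : Type} [CommRing B] (φ : σ → B) (i : σ) (a : ℕ) :
    ((Finsupp.single i a).prod fun i m => φ i ^ m) = φ i ^ a :=
  Finsupp.prod_single_index (pow_zero _)

theorem prod_add {σ B : Type} [CommRing B] (φ : σ → B) (d e : σ →₀ ℕ) :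
    ((d + e).prod fun i m => φ i ^ m) =
      (d.prod fun i m => φ i ^ m) * (e.prod fun i m => φ i ^ m) :=
  Finsupp.prod_add_index' (fun _ => pow_zero _) (fun _ _ _ => pow_add _ _ _)

end B2

open B2 MvPolynomial in
theorem thm_B2 : St_B2 := by
  intro p _ k _ _ σ τ
  refine ⟨?_, ?_, ?_, ?_, ?_, ?_, ?_⟩
  · intro f φ hf hφ
    rw [aevalSum]
    refine Sup.sum (D := DQ p) _ _ fun d hd => Sup.C_mul ?_ _
    rcases hf d hd with rfl | ⟨i, a, rfl⟩ | ⟨i, j, a, b, rfl⟩
    · rw [Finsupp.prod_zero_index]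
      have h1 : (1 : MvPolynomial τ k) = MvPolynomial.monomial 0 1 := rfl
      rw [h1]
      exact Sup.monomial (Or.inl rfl) _
    · rw [prod_single]
      exact Sup.mono (fun d hd => hd.dq) (Sup.pow (hφ i) a)
    · rw [prod_add, prod_single, prod_single]
      exact Sup.mul (Sup.pow (hφ i) a) (Sup.pow (hφ j) b)
  · intro f φ hf hφ
    rw [aevalSum]
    refine Sup.sum (D := DA p) _ _ fun d hd => Sup.C_mul ?_ _
    rcases hf d hd with rfl | ⟨i, a, rfl⟩
    · rw [Finsupp.prod_zero_index]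
      have h1 : (1 : MvPolynomial τ k) = MvPolynomial.monomial 0 1 := rfl
      rw [h1]
      exact Sup.monomial (Or.inl rfl) _
    · rw [prod_single]
      exact Sup.pow (hφ i) a
  · intro f φ hf hφ
    have hφ' : ∀ i, Sup1 (DA1 p) (φ i) := by
      intro i
      obtain ⟨c, hc⟩ := hφ i
      have h1 : φ i = (φ i - Polynomial.C c) + Polynomial.monomial 0 c := by
        rw [Polynomial.monomial_zero_left]; ring
      rw [h1]
      refine Sup1.add (fun d hd => Or.inr (hc d hd)) (Sup1.monomial (Or.inl rfl) _)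
    rw [aevalSum]
    refine Sup1.sum (D := DQ1 p) _ _ fun d hd => Sup1.C_mul ?_ _
    rcases hf d hd with rfl | ⟨i, a, rfl⟩ | ⟨i, j, a, b, rfl⟩
    · rw [Finsupp.prod_zero_index]
      have h1 : (1 : Polynomial k) = Polynomial.monomial 0 1 := rfl
      rw [h1]
      exact Sup1.monomial (Or.inl rfl) _
    · rw [prod_single]
      exact Sup1.mono (fun d hd => hd.dq) (Sup1.pow (hφ' i) a)
    · rw [prod_add, prod_single, prod_single]
      exact Sup1.mul (Sup1.pow (hφ' i) a) (Sup1.pow (hφ' j) b)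
  · intro f g hf hg
    exact Sup.add (D := DQ p) hf hg
  · intro c f hf
    exact Sup.C_mul (D := DQ p) hf c
  · intro K _ ι f hf d hd
    exact hf d (MvPolynomial.support_map_subset ι f hd)
  · intro f hf
    exact Sup.mono (D := DA p) (fun d hd => hd.dq) hf

end Pool.Agent.AQS
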