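import Pool.Agent.AQS.St

/-!
# AQS, module B3

Statement and proof: see `St_B3` in `Pool/Agent/AQS/St.lean`.
-/

set_option autoImplicit false
set_option linter.unusedSectionVars false

namespace Pool.Agent.AQS

open Function Pool.Agent.Helper11 Pool.Agent.HPow Pool.Agent.Helper67.Bass Polynomial

theorem B3_dvd {p : ℕ} (hp : p.Prime) {e : ℕ} (h : p ∣ 1 + p ^ e) : e = 0 ∧ p = 2 := by
  rcases Nat.eq_zero_or_pos e with he | he
  · subst he
    refine ⟨rfl, ?_⟩
    rw [pow_zero] at h
    exact (Nat.prime_dvd_prime_iff_eq hp Nat.prime_two).1 h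
  · exfalso
    have h1 : p ∣ p ^ e := dvd_pow_self p he.ne'
    have h2 : p ∣ 1 := (Nat.dvd_add_left h1).1 h
    exact hp.one_lt.ne' (Nat.dvd_one.1 h2)

theorem B3_inj {p : ℕ} (hp : p.Prime) {a b : ℕ} (h : 1 + p ^ a = 1 + p ^ b) : a = b :=
  Nat.pow_right_injective hp.two_le (by simpa using h)

theorem B3_sum {p s t : ℕ} :
    p ^ s + p ^ t = p ^ min s t * (1 + p ^ (max s t - min s t)) := by
  rcases le_total s t with h | h
  · rw [min_eq_left h, max_eq_right h, mul_add, mul_one, ← pow_add, Nat.add_sub_cancel' h]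
  · rw [min_eq_right h, max_eq_left h, mul_add, mul_one, ← pow_add, Nat.add_sub_cancel' h, add_comm]

theorem B3_mon {p : ℕ} [hp : Fact p.Prime] {k : Type} [Field k] [Finite k] [CharP k p]
    (hmon : ∀ (c : k) (i d d' : ℕ), 1 ≤ d → ¬ p ∣ d → 1 ≤ d' → ¬ p ∣ d' →
      rho p (C c * X ^ (p ^ i * d)) d' = if d' = d then ((frobeniusEquiv k p).symm)^[i] c else 0)
    (c : k) (s t M : ℕ) (hM : ¬ p ∣ 1 + p ^ M) :
    rho p (C c * X ^ (p ^ s + p ^ t)) (1 + p ^ M) =
      if max s t = min s t + M then ((frobeniusEquiv k p).symm)^[min s t] c else 0 := by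
  have hab : min s t ≤ max s t := min_le_max
  by_cases hd : p ∣ 1 + p ^ (max s t - min s t)
  · obtain ⟨h1, h2⟩ := B3_dvd hp.out hd
    have h3 : p ^ s + p ^ t = p ^ (min s t + 1) * 1 := by
      rw [B3_sum, h1, pow_zero, pow_succ, mul_one, h2]
      norm_num
    have hp1 : ¬ p ∣ 1 := fun h => hp.out.one_lt.ne' (Nat.dvd_one.1 h)
    rw [h3, hmon c (min s t + 1) 1 (1 + p ^ M) le_rfl hp1 (by omega) hM, if_neg, if_neg]
    · intro h4
      have h5 : M = 0 := by omega
      apply hM
      rw [h5, h2]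
      norm_num
    · have : 0 < p ^ M := pow_pos hp.out.pos M
      omega
  · rw [B3_sum, hmon c (min s t) _ (1 + p ^ M) (by omega) hd (by omega) hM]
    by_cases h4 : max s t = min s t + M
    · rw [if_pos h4, if_pos]
      rw [h4]
      congr 2
      omega
    · rw [if_neg h4, if_neg]
      intro h5
      have := B3_inj hp.out h5
      omega

/-- an additive polynomial as a sum -/
theorem B3_add {p : ℕ} [hp : Fact p.Prime] {k : Type} [Field k] {g : k[X]} (hg : Add1 p g) :
    g = ∑ u ∈ Finset.range (g.natDegree + 1), C (g.coeff (p ^ u)) * X ^ (p ^ u) := by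
  classical
  ext d
  rw [finsetSum_coeff]
  simp only [coeff_C_mul, coeff_X_pow]
  by_cases hd : ∃ a, d = p ^ a
  · obtain ⟨a, rfl⟩ := hd
    by_cases ha : a < g.natDegree + 1
    · rw [Finset.sum_eq_single a]
      · simp
      · intro b _ hb
        rw [if_neg, mul_zero]
        intro h
        exact hb (Nat.pow_right_injective hp.out.two_le h).symm
      · intro h
        exact absurd (Finset.mem_range.2 ha) h
    · rw [Finset.sum_eq_zero]
      · apply coeff_eq_zero_of_natDegree_lt
        have := Nat.lt_pow_self hp.out.one_lt (n := a)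
        omega
      · intro b hb
        rw [if_neg, mul_zero]
        intro h
        have := Nat.pow_right_injective hp.out.two_le h
        rw [Finset.mem_range] at hb
        omega
  · rw [Finset.sum_eq_zero]
    · by_contra h
      exact hd (hg d (mem_support_iff.2 h))
    · intro b _
      rw [if_neg, mul_zero]
      intro h
      exact hd ⟨b, h⟩

/-- composition of a monomial with an additive polynomial -/
theorem B3_comp {p : ℕ} [hp : Fact p.Prime] {k : Type} [Field k] [CharP k p] {g : k[X]}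
    (hg : Add1 p g) (a : k) (e : ℕ) :
    (C a * X ^ (1 + p ^ e)).comp g = ∑ u ∈ Finset.range (g.natDegree + 1),
      ∑ v ∈ Finset.range (g.natDegree + 1),
        C (a * g.coeff (p ^ u) * g.coeff (p ^ v) ^ (p ^ e)) * X ^ (p ^ u + p ^ (v + e)) := by
  have h1 : g ^ (p ^ e) = ∑ v ∈ Finset.range (g.natDegree + 1),
      C (g.coeff (p ^ v) ^ (p ^ e)) * X ^ (p ^ (v + e)) := by
    conv_lhs => rw [B3_add hg]
    rw [sum_pow_char_pow]
    refine Finset.sum_congr rfl fun v _ => ?_
    rw [mul_pow, ← C_pow, ← pow_mul, ← pow_add]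
  rw [mul_comp, C_comp, pow_comp, X_comp, pow_add, pow_one, h1]
  conv_lhs =>
    enter [2, 1]
    rw [B3_add hg]
  rw [Finset.sum_mul_sum, Finset.mul_sum]
  refine Finset.sum_congr rfl fun u _ => ?_
  rw [Finset.mul_sum]
  refine Finset.sum_congr rfl fun v _ => ?_
  rw [C_mul, C_mul, pow_add]
  ring

theorem B3_it0 {p : ℕ} [Fact p.Prime] {k : Type} [Field k] [Finite k] [CharP k p] (i : ℕ) :
    ((frobeniusEquiv k p).symm)^[i] 0 = 0 :=
  Function.iterate_fixed (map_zero _) i

theorem B3_it {p : ℕ} [Fact p.Prime] {k : Type} [Field k] [Finite k] [CharP k p] (i : ℕ) {c : k}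
    (hc : c ≠ 0) : ((frobeniusEquiv k p).symm)^[i] c ≠ 0 := by
  intro h
  rw [← B3_it0 (p := p) (k := k) i] at h
  exact hc ((RingEquiv.injective (frobeniusEquiv k p).symm).iterate i h)

theorem B3_big {p : ℕ} [hp : Fact p.Prime] {k : Type} [Field k] [Finite k] [CharP k p] (R : k[X])
    (d : ℕ) (hd : R.natDegree < d) : rho p R d = 0 := by
  refine Finset.sum_eq_zero fun i _ => ?_
  rw [coeff_eq_zero_of_natDegree_lt, B3_it0]
  exact lt_of_lt_of_le hd (Nat.le_mul_of_pos_left _ (pow_pos hp.out.pos i))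

theorem B3_rho_AQ {p : ℕ} [hp : Fact p.Prime] {k : Type} [Field k] [Finite k] [CharP k p] {P : k[X]}
    (hP : AQ1 p P) {d : ℕ} (hd2 : 2 ≤ d) (hpd : ¬ p ∣ d) (h : rho p P d ≠ 0) :
    ∃ e, d = 1 + p ^ e := by
  have hp' := hp.out
  obtain ⟨i, _, hi⟩ := Finset.exists_ne_zero_of_sum_ne_zero h
  have h1 : P.coeff (p ^ i * d) ≠ 0 := by
    intro h0
    rw [h0, B3_it0] at hi
    exact hi rfl
  have hcop : ∀ a, p ^ i * d = p ^ a → False := by
    intro a ha
    have h2 : d ∣ p ^ a := ⟨p ^ i, by rw [← ha, mul_comm]⟩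
    obtain ⟨m, _, hm⟩ := (Nat.dvd_prime_pow hp').1 h2
    rcases Nat.eq_zero_or_pos m with h3 | h3
    · rw [h3, pow_zero] at hm
      omega
    · exact hpd (hm ▸ dvd_pow_self p h3.ne')
  rcases hP _ (mem_support_iff.2 h1) with h2 | ⟨a, h2⟩ | ⟨a, b, h2⟩
  · exfalso
    have : 0 < p ^ i * d := Nat.mul_pos (pow_pos hp'.pos i) (by omega)
    omega
  · exact absurd h2 (fun h => hcop a h)
  · rw [B3_sum] at h2
    by_cases h3 : p ∣ 1 + p ^ (max a b - min a b)
    · exfalso
      obtain ⟨h4, h5⟩ := B3_dvd hp' h3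
      refine hcop (min a b + 1) ?_
      rw [h2, h4, pow_zero, pow_succ, h5]
      norm_num
    · refine ⟨max a b - min a b, ?_⟩
      have h4 : p ^ i ∣ p ^ min a b := by
        have h5 : p ^ i ∣ p ^ min a b * (1 + p ^ (max a b - min a b)) := ⟨d, h2.symm⟩
        exact (Nat.Coprime.dvd_of_dvd_mul_right
          ((Nat.Prime.coprime_iff_not_dvd hp').2 h3 |>.pow_left i) h5)
      have h5 : p ^ min a b ∣ p ^ i := by
        have h6 : p ^ min a b ∣ p ^ i * d := ⟨_, h2⟩
        exact (Nat.Coprime.dvd_of_dvd_mul_right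
          ((Nat.Prime.coprime_iff_not_dvd hp').2 hpd |>.pow_left _) h6)
      have h6 := Nat.dvd_antisymm h4 h5
      rw [h6] at h2
      exact Nat.eq_of_mul_eq_mul_left (pow_pos hp'.pos _) h2

theorem thm_B3 (h1 : St_B1) : St_B3 := by
  intro p _ k _ _ _ P g hP hg hg0 hlinPg
  have hp : p.Prime := Fact.out
  classical
  obtain ⟨hadd, hPE, hmon, hlin⟩ := h1 p k
  -- coefficients of the reduced form
  set K := P.natDegree + 1 with hK
  let Ce : ℕ → k := fun e => if p ∣ 1 + p ^ e then 0 else rho p P (1 + p ^ e)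
  have hR : ∀ d, 1 ≤ d → ∃ R : k[X] →+ k, ∀ f, R f = rho p f d := fun d hd =>
    ⟨AddMonoidHom.mk' (fun f => rho p f d) fun a b => hadd a b d hd, fun _ => rfl⟩
  let Q : k[X] := ∑ e ∈ Finset.range K, C (Ce e) * X ^ (1 + p ^ e)
  have hX : ∀ e, (1 : ℕ) + p ^ e = p ^ 0 + p ^ e := fun e => by rw [pow_zero]
  have hrhoQ : ∀ M, ¬ p ∣ 1 + p ^ M → rho p Q (1 + p ^ M) = if M < K then Ce M else 0 := by
    intro M hM
    obtain ⟨R, hR⟩ := hR (1 + p ^ M) (by omega)
    rw [← hR, map_sum]
    have h2 : ∀ e ∈ Finset.range K, R (C (Ce e) * X ^ (1 + p ^ e)) = if e = M then Ce e else 0 := by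
      intro e _
      rw [hR, hX e, B3_mon hmon _ _ _ _ hM]
      simp
    rw [Finset.sum_congr rfl h2, Finset.sum_ite_eq' (Finset.range K) M Ce]
    simp only [Finset.mem_range]
  have hlinD : LinP p (P - Q) := by
    rw [hlin]
    intro d hd2 hpd
    obtain ⟨R, hR⟩ := hR d (by omega)
    rw [← hR, map_sub, hR, hR, sub_eq_zero]
    by_cases hde : ∃ e, d = 1 + p ^ e
    · obtain ⟨e, rfl⟩ := hde
      rw [hrhoQ e hpd]
      by_cases heK : e < K
      · rw [if_pos heK]
        exact (if_neg hpd).symm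
      · rw [if_neg heK]
        apply B3_big
        have := Nat.lt_pow_self hp.one_lt (n := e)
        omega
    · rw [show rho p P d = 0 by
        by_contra h
        exact hde (B3_rho_AQ hP hd2 hpd h)]
      rw [← hR, map_sum]
      symm
      refine Finset.sum_eq_zero fun e _ => ?_
      by_cases hpe : p ∣ 1 + p ^ e
      · have h3 : Ce e = 0 := if_pos hpe
        rw [h3, C_0, zero_mul, map_zero]
      · have h4 := hmon (Ce e) 0 (1 + p ^ e) d (by omega) hpe (by omega) hpd
        rw [pow_zero, one_mul] at h4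
        rw [hR, h4, if_neg (fun h => hde ⟨e, h⟩)]
  -- the largest nonzero coefficient
  by_cases hall : ∀ e ∈ Finset.range K, Ce e = 0
  · have hQ0 : Q = 0 := by
      refine Finset.sum_eq_zero fun e he => ?_
      rw [hall e he, C_0, zero_mul]
    rwa [hQ0, sub_zero] at hlinD
  exfalso
  push Not at hall
  obtain ⟨e0, he0, hCe0⟩ := hall
  obtain ⟨h, hh, hmax⟩ := Finset.exists_max_image ((Finset.range K).filter fun e => Ce e ≠ 0) id
    ⟨e0, Finset.mem_filter.2 ⟨he0, hCe0⟩⟩
  obtain ⟨hhK, hCh⟩ := Finset.mem_filter.1 hh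
  have hmax' : ∀ e ∈ Finset.range K, Ce e ≠ 0 → e ≤ h := fun e he hne =>
    hmax e (Finset.mem_filter.2 ⟨he, hne⟩)
  have hph : ¬ p ∣ 1 + p ^ h := by
    intro hd
    exact hCh (if_pos hd)
  -- the range of g
  set N := g.natDegree + 1 with hN
  let G : ℕ → k := fun u => g.coeff (p ^ u)
  have hGne : ∃ u ∈ Finset.range N, G u ≠ 0 := by
    by_contra hcon
    push Not at hcon
    apply hg0
    rw [B3_add hg]
    refine Finset.sum_eq_zero fun u hu => ?_
    rw [show g.coeff (p ^ u) = 0 from hcon u hu, C_0, zero_mul]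
  obtain ⟨u0, hu0, hGu0⟩ := hGne
  obtain ⟨i, hi, hmin⟩ := Finset.exists_min_image ((Finset.range N).filter fun u => G u ≠ 0) id
    ⟨u0, Finset.mem_filter.2 ⟨hu0, hGu0⟩⟩
  obtain ⟨E, hE, hEmax⟩ := Finset.exists_max_image ((Finset.range N).filter fun u => G u ≠ 0) id
    ⟨u0, Finset.mem_filter.2 ⟨hu0, hGu0⟩⟩
  obtain ⟨hiN, hGi⟩ := Finset.mem_filter.1 hi
  obtain ⟨hEN, hGE⟩ := Finset.mem_filter.1 hE
  have hmin' : ∀ u ∈ Finset.range N, G u ≠ 0 → i ≤ u := fun u hu hne =>
    hmin u (Finset.mem_filter.2 ⟨hu, hne⟩)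
  have hmaxE : ∀ u ∈ Finset.range N, G u ≠ 0 → u ≤ E := fun u hu hne =>
    hEmax u (Finset.mem_filter.2 ⟨hu, hne⟩)
  have hiE : i ≤ E := hmin' E hEN hGE
  set M := h + (E - i) with hMdef
  have hM : ¬ p ∣ 1 + p ^ M := by
    intro hd
    obtain ⟨h2, h3⟩ := B3_dvd hp hd
    apply hph
    have : h = 0 := by omega
    rw [this, h3]
    norm_num
  obtain ⟨R, hRM⟩ := hR (1 + p ^ M) (by omega)
  -- the reduced coefficient of P(g) is the one of Q(g)
  have hp1 : ¬ p ∣ 1 := fun h => hp.one_lt.ne' (Nat.dvd_one.1 h)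
  have hpM0 : 0 < p ^ M := pow_pos hp.pos M
  have hRP : R (P.comp g) = R (Q.comp g) := by
    obtain ⟨l, c, r, hr⟩ := hlinD
    have h2 : P = Q + (C l * X + C c) + (r ^ p - r) := by
      rw [← hr]
      ring
    have h3 : P.comp g = Q.comp g + (C l * g + C c) + ((r.comp g) ^ p - r.comp g) := by
      conv_lhs => rw [h2]
      simp only [add_comp, sub_comp, mul_comp, C_comp, X_comp, pow_comp]
    have h4 : R ((r.comp g) ^ p) = R (r.comp g) := by
      rw [hRM, hRM]
      exact hPE _ _ _ (by omega) hM ⟨r.comp g, rfl⟩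
    have h5 : R (C c) = 0 := by
      have h6 : (C c : k[X]).natDegree < 1 + p ^ M := by
        rw [natDegree_C]
        omega
      rw [hRM, B3_big _ _ h6]
    have h7 : R (C l * g) = 0 := by
      rw [B3_add hg, Finset.mul_sum, map_sum]
      refine Finset.sum_eq_zero fun u _ => ?_
      have h8 := hmon (l * g.coeff (p ^ u)) u 1 (1 + p ^ M) le_rfl hp1 (by omega) hM
      rw [mul_one, if_neg (by omega)] at h8
      rw [← mul_assoc, ← C_mul, hRM, h8]
    rw [h3, map_add, map_add, map_add, map_sub, h4, h5, h7]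
    ring
  have hR0 : R (Q.comp g) = 0 := by
    rw [← hRP, hRM]
    exact (hlin _).1 hlinPg _ (by omega) hM
  -- the sum
  let F : ℕ × ℕ × ℕ → k := fun x =>
    if max x.2.1 (x.2.2 + x.1) = min x.2.1 (x.2.2 + x.1) + M then
      ((frobeniusEquiv k p).symm)^[min x.2.1 (x.2.2 + x.1)]
        (Ce x.1 * G x.2.1 * G x.2.2 ^ (p ^ x.1)) else 0
  have hsum : R (Q.comp g) = ∑ x ∈ Finset.range K ×ˢ Finset.range N ×ˢ Finset.range N, F x := by
    have h2 : Q.comp g = ∑ e ∈ Finset.range K, (C (Ce e) * X ^ (1 + p ^ e)).comp g := by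
      exact Polynomial.sum_comp _ _ _
    rw [h2, map_sum, Finset.sum_product]
    refine Finset.sum_congr rfl fun e _ => ?_
    rw [B3_comp hg, map_sum, Finset.sum_product]
    refine Finset.sum_congr rfl fun u _ => ?_
    rw [map_sum]
    refine Finset.sum_congr rfl fun v _ => ?_
    rw [hRM, B3_mon hmon _ _ _ _ hM]
  have hFne : ∀ x ∈ Finset.range K ×ˢ Finset.range N ×ˢ Finset.range N, F x ≠ 0 →
      x = (h, i, E) ∨ (h = 0 ∧ x = (h, E, i)) := by
    rintro ⟨e, u, v⟩ hx hne
    rw [Finset.mem_product, Finset.mem_product] at hx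
    obtain ⟨he, hu, hv⟩ := hx
    simp only [F] at hne
    by_cases hc : max u (v + e) = min u (v + e) + M
    · rw [if_pos hc] at hne
      have hne2 : Ce e * G u * G v ^ (p ^ e) ≠ 0 := by
        intro h0
        rw [h0, B3_it0] at hne
        exact hne rfl
      have a1 : Ce e ≠ 0 := left_ne_zero_of_mul (left_ne_zero_of_mul hne2)
      have a2 : G u ≠ 0 := right_ne_zero_of_mul (left_ne_zero_of_mul hne2)
      have a3 : G v ≠ 0 := by
        intro h0
        apply right_ne_zero_of_mul hne2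
        rw [h0, zero_pow (pow_pos hp.pos e).ne']
      have b1 := hmax' e he a1
      have b2 := hmin' u hu a2
      have b3 := hmaxE u hu a2
      have b4 := hmin' v hv a3
      have b5 := hmaxE v hv a3
      rcases le_total u (v + e) with hle | hle
      · rw [max_eq_right hle, min_eq_left hle] at hc
        left
        have c1 : e = h := by omega
        have c2 : u = i := by omega
        have c3 : v = E := by omega
        rw [c1, c2, c3]
      · rw [max_eq_left hle, min_eq_right hle] at hc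
        right
        have c0 : h = 0 := by omega
        have c1 : e = h := by omega
        have c2 : u = E := by omega
        have c3 : v = i := by omega
        exact ⟨c0, by rw [c1, c2, c3]⟩
    · rw [if_neg hc] at hne
      exact absurd rfl hne
  have hFv : F (h, i, E) ≠ 0 := by
    have h2 : max i (E + h) = min i (E + h) + M := by
      rw [max_eq_right (by omega), min_eq_left (by omega)]
      omega
    simp only [F]
    rw [if_pos h2]
    exact B3_it _ (mul_ne_zero (mul_ne_zero hCh hGi) (pow_ne_zero _ hGE))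
  have hmem1 : (h, i, E) ∈ Finset.range K ×ˢ Finset.range N ×ˢ Finset.range N := by
    rw [Finset.mem_product, Finset.mem_product]
    exact ⟨hhK, hiN, hEN⟩
  rw [hsum] at hR0
  by_cases hcase : h = 0 ∧ i ≠ E
  · obtain ⟨hh0, hine⟩ := hcase
    have hp2 : p ≠ 2 := by
      intro h2
      apply hph
      rw [hh0, h2]
      norm_num
    have hmem2 : (h, E, i) ∈ Finset.range K ×ˢ Finset.range N ×ˢ Finset.range N := by
      rw [Finset.mem_product, Finset.mem_product]
      exact ⟨hhK, hEN, hiN⟩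
    have hne12 : (h, i, E) ≠ (h, E, i) := by
      intro h2
      rw [Prod.mk.injEq, Prod.mk.injEq] at h2
      exact hine h2.2.1
    have hsub : ({(h, i, E), (h, E, i)} : Finset (ℕ × ℕ × ℕ)) ⊆
        Finset.range K ×ˢ Finset.range N ×ˢ Finset.range N := by
      intro x hx
      rw [Finset.mem_insert, Finset.mem_singleton] at hx
      rcases hx with rfl | rfl
      · exact hmem1
      · exact hmem2
    rw [← Finset.sum_subset hsub, Finset.sum_pair hne12] at hR0
    · have h3 : F (h, E, i) = F (h, i, E) := by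
        simp only [F]
        rw [hh0]
        simp only [add_zero, pow_zero, pow_one]
        rw [max_comm E i, min_comm E i, mul_right_comm]
      rw [h3, ← two_mul] at hR0
      rcases mul_eq_zero.1 hR0 with h4 | h4
      · have h5 : ((2 : ℕ) : k) = 0 := by exact_mod_cast h4
        rw [CharP.cast_eq_zero_iff k p] at h5
        exact hp2 ((Nat.prime_dvd_prime_iff_eq hp Nat.prime_two).1 h5)
      · exact hFv h4
    · intro x hx hx2
      by_contra hne
      apply hx2
      rw [Finset.mem_insert, Finset.mem_singleton]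
      rcases hFne x hx hne with h3 | ⟨_, h3⟩
      · exact Or.inl h3
      · exact Or.inr h3
  · rw [Finset.sum_eq_single (h, i, E)] at hR0
    · exact hFv hR0
    · intro x hx hx2
      by_contra hne
      rcases hFne x hx hne with h3 | ⟨h4, h3⟩
      · exact hx2 h3
      · have h5 : i = E := by
          by_contra h6
          exact hcase ⟨h4, h6⟩
        apply hx2
        rw [h3, h5]
    · intro hx
      exact absurd hmem1 hx

end Pool.Agent.AQS
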