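import Pool.Agent.AQS.St
import Mathlib.Algebra.Polynomial.Expand

/-!
# AQS, module B4

Statement and proof: see `St_B4` in `Pool/Agent/AQS/St.lean`.
-/

set_option autoImplicit false
set_option linter.unusedSectionVars false

namespace Pool.Agent.AQS

open Function Pool.Agent.Helper11 Pool.Agent.HPow Pool.Agent.Helper67.Bass

private theorem B4_congr (p : ℕ) {R R' : Type} [CommRing R] [CommRing R'] (e : R ≃+* R')
    (h : R) (h' : R') (hh : e h = h') : Nonempty (AP p R h ≃+* AP p R' h') := by
  refine ⟨AdjoinRoot.mapRingEquiv e _ _ ?_⟩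
  rw [Polynomial.map_sub, Polynomial.map_sub, Polynomial.map_pow, Polynomial.map_X,
    Polynomial.map_C]
  show Associated (Polynomial.X ^ p - Polynomial.X - Polynomial.C (e h)) _
  rw [hh]

open Polynomial in
private theorem B4_sub {p : ℕ} {k : Type} [Field k] {f g : k[X]} (hf : Add1 p f)
    (hg : Add1 p g) : Add1 p (f - g) := by
  intro d hd
  rw [mem_support_iff, coeff_sub] at hd
  by_cases h : f.coeff d = 0
  · refine hg d (mem_support_iff.2 fun h' => hd ?_)
    rw [h, h', sub_zero]
  · exact hf d (mem_support_iff.2 h)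

open Polynomial in
private theorem B4_pow {p : ℕ} [Fact p.Prime] {k : Type} [Field k] [CharP k p] {f : k[X]}
    (hf : Add1 p f) (c : k) (m : ℕ) : Add1 p (C c * f ^ p ^ m) := by
  intro d hd
  rw [mem_support_iff, coeff_C_mul, ← map_iterateFrobenius_expand p f m, coeff_map,
    coeff_expand (pow_pos (Fact.out : p.Prime).pos m)] at hd
  by_cases h : p ^ m ∣ d
  · rw [if_pos h] at hd
    obtain ⟨a, ha⟩ := hf (d / p ^ m) (mem_support_iff.2 fun h' => hd (by
      rw [h', map_zero, mul_zero]))
    exact ⟨a + m, by rw [pow_add, ← ha, Nat.div_mul_cancel h]⟩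
  · rw [if_neg h, map_zero, mul_zero] at hd
    exact absurd rfl hd

open MvPolynomial in
private theorem B4_X (p : ℕ) {k σ : Type} [Field k] (i : σ) :
    AffM p (X i : MvPolynomial σ k) := by
  classical
  intro d hd
  rw [mem_support_iff, coeff_X] at hd
  by_cases h1 : Finsupp.single i 1 = d
  · exact Or.inr ⟨i, 0, by rw [← h1, pow_zero]⟩
  · rw [if_neg h1] at hd
    exact absurd rfl hd

open MvPolynomial in
private theorem B4_aff (p : ℕ) {k σ : Type} [Field k] (i j : σ) (c : k) (m : ℕ) :
    AffM p (X i + C c * X j ^ p ^ m : MvPolynomial σ k) := by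
  classical
  intro d hd
  rw [mem_support_iff, coeff_add, coeff_C_mul, coeff_X, coeff_X_pow] at hd
  by_cases h1 : Finsupp.single i 1 = d
  · exact Or.inr ⟨i, 0, by rw [← h1, pow_zero]⟩
  · by_cases h2 : Finsupp.single j (p ^ m) = d
    · exact Or.inr ⟨j, m, h2.symm⟩
    · rw [if_neg h1, if_neg h2, mul_zero, add_zero] at hd
      exact absurd rfl hd

open MvPolynomial in
/-- the images of the variables -/
private noncomputable def B4_v {k σ : Type} [Field k] [DecidableEq σ] (i j : σ) (c : k) (q : ℕ) :
    σ → MvPolynomial σ k := Function.update X i (X i + C c * X j ^ q)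

open MvPolynomial in
private theorem B4_comp {k σ : Type} [Field k] [DecidableEq σ] (i j : σ) (hij : j ≠ i)
    (c c' : k) (hc : c + c' = 0) (q : ℕ) :
    (aeval (B4_v i j c q)).comp (aeval (B4_v i j c' q)) = AlgHom.id k (MvPolynomial σ k) := by
  refine algHom_ext fun l => ?_
  rw [AlgHom.comp_apply, aeval_X, AlgHom.id_apply]
  by_cases hl : l = i
  · subst hl
    have e1 : B4_v l j c' q l = X l + C c' * X j ^ q := Function.update_self _ _ _
    have e2 : B4_v l j c q l = X l + C c * X j ^ q := Function.update_self _ _ _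
    have e3 : B4_v l j c q j = X j := Function.update_of_ne hij _ _
    rw [e1, map_add, map_mul, map_pow, aeval_X, aeval_X, e2, e3, algHom_C, add_assoc,
      show (algebraMap k (MvPolynomial σ k)) c' = C c' from rfl, ← add_mul, ← C_add, hc, C_0,
      zero_mul, add_zero]
  · have e1 : B4_v i j c' q l = X l := Function.update_of_ne hl _ _
    have e2 : B4_v i j c q l = X l := Function.update_of_ne hl _ _
    rw [e1, aeval_X, e2]

open MvPolynomial in
private noncomputable def B4_E {k σ : Type} [Field k] [DecidableEq σ] (i j : σ) (hij : j ≠ i)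
    (c : k) (q : ℕ) : MvPolynomial σ k ≃ₐ[k] MvPolynomial σ k :=
  AlgEquiv.ofAlgHom (aeval (B4_v i j c q)) (aeval (B4_v i j (-c) q))
    (B4_comp i j hij c (-c) (add_neg_cancel c) q) (B4_comp i j hij (-c) c (neg_add_cancel c) q)

open Polynomial in
private theorem B4_main (h2 : St_B2) (h3 : St_B3) (p : ℕ) [Fact p.Prime] (k : Type) [Field k]
    [Finite k] [CharP k p] (n : ℕ) : ∀ (N : ℕ) (f : MvPolynomial (Fin (n + 1)) k)
    (φ : Fin (n + 1) → k[X]), AQ p f → (∀ i, Add1 p (φ i)) → (∃ i, φ i ≠ 0) →
    LinP p (MvPolynomial.aeval φ f) → ∑ i, (φ i).natDegree = N →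
    ∃ f' : MvPolynomial (Fin (n + 1)) k, AQ p f' ∧
      LinP p (MvPolynomial.aeval (Fin.cons X 0 : Fin (n + 1) → k[X]) f') ∧
      Nonempty (AP p (MvPolynomial (Fin (n + 1)) k) f ≃+*
        AP p (MvPolynomial (Fin (n + 1)) k) f') := by
  intro N
  induction N using Nat.strong_induction_on with
  | _ N ih =>
    intro f φ hf hφ hne hL hN
    by_cases h : ∃ i j, j ≠ i ∧ φ i ≠ 0 ∧ φ j ≠ 0 ∧ (φ j).natDegree ≤ (φ i).natDegree
    · obtain ⟨i, j, hij, hi, hj, hd⟩ := h
      obtain ⟨u, hu⟩ := hφ i _ (natDegree_mem_support_of_nonzero hi)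
      obtain ⟨v, hv⟩ := hφ j _ (natDegree_mem_support_of_nonzero hj)
      have hp1 : 1 < p := (Fact.out : p.Prime).one_lt
      have hvu : v ≤ u := by
        rw [hu, hv] at hd
        exact (Nat.pow_le_pow_iff_right hp1).1 hd
      obtain ⟨m, rfl⟩ := Nat.exists_eq_add_of_le hvu
      obtain ⟨c, hc⟩ : ∃ c : k, c = (φ i).leadingCoeff / ((φ j).leadingCoeff) ^ p ^ m := ⟨_, rfl⟩
      have hlj : (φ j).leadingCoeff ^ p ^ m ≠ 0 := pow_ne_zero _ (leadingCoeff_ne_zero.2 hj)
      have hli : (φ i).leadingCoeff ≠ 0 := leadingCoeff_ne_zero.2 hi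
      have hc0 : c ≠ 0 := by
        rw [hc]
        exact div_ne_zero hli hlj
      obtain ⟨g, hg⟩ : ∃ g : k[X], g = C c * φ j ^ p ^ m := ⟨_, rfl⟩
      have hg0 : g ≠ 0 := by
        rw [hg]
        exact mul_ne_zero (C_ne_zero.2 hc0) (pow_ne_zero _ hj)
      have hgd : g.natDegree = (φ i).natDegree := by
        rw [hg, natDegree_C_mul hc0, natDegree_pow, hu, hv, pow_add, mul_comm]
      have hgl : g.leadingCoeff = (φ i).leadingCoeff := by
        rw [hg, leadingCoeff_mul, leadingCoeff_C, leadingCoeff_pow, hc, div_mul_cancel₀ _ hlj]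
      have hlt : (φ i - g).natDegree < (φ i).natDegree := by
        by_cases h0 : φ i - g = 0
        · rw [h0, natDegree_zero, hu]
          exact pow_pos (lt_trans Nat.zero_lt_one hp1) _
        · refine natDegree_lt_natDegree h0 (degree_sub_lt_left ?_ hi hgl.symm)
          rw [degree_eq_natDegree hi, degree_eq_natDegree hg0, hgd]
      obtain ⟨φ', hφ'⟩ : ∃ φ' : Fin (n + 1) → k[X], φ' = Function.update φ i (φ i - g) := ⟨_, rfl⟩
      have hi' : φ' i = φ i - g := by
        rw [hφ']
        exact Function.update_self _ _ _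
      have hl' : ∀ l, l ≠ i → φ' l = φ l := by
        intro l hl
        rw [hφ']
        exact Function.update_of_ne hl _ _
      have hadd : ∀ l, Add1 p (φ' l) := by
        intro l
        by_cases hl : l = i
        · rw [hl, hi', hg]
          exact B4_sub (hφ i) (B4_pow (hφ j) c m)
        · rw [hl' l hl]
          exact hφ l
      have hE : B4_E i j hij c (p ^ m) f = MvPolynomial.aeval (B4_v i j c (p ^ m)) f := rfl
      have haff : ∀ l, AffM p (B4_v i j c (p ^ m) l) := by
        intro l
        by_cases hl : l = i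
        · rw [hl]
          have e : B4_v i j c (p ^ m) i = MvPolynomial.X i + MvPolynomial.C c *
            MvPolynomial.X j ^ p ^ m := Function.update_self _ _ _
          rw [e]
          exact B4_aff p i j c m
        · have e : B4_v i j c (p ^ m) l = MvPolynomial.X l := Function.update_of_ne hl _ _
          rw [e]
          exact B4_X p l
      have hAQ : AQ p (B4_E i j hij c (p ^ m) f) := by
        rw [hE]
        exact (h2 p k (Fin (n + 1)) (Fin (n + 1))).1 f _ hf haff
      have hev : MvPolynomial.aeval φ' (B4_E i j hij c (p ^ m) f) = MvPolynomial.aeval φ f := by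
        rw [hE, ← AlgHom.comp_apply]
        have e : (MvPolynomial.aeval φ').comp (MvPolynomial.aeval (B4_v i j c (p ^ m))) =
            MvPolynomial.aeval φ := by
          refine MvPolynomial.algHom_ext fun l => ?_
          rw [AlgHom.comp_apply, MvPolynomial.aeval_X, MvPolynomial.aeval_X]
          by_cases hl : l = i
          · rw [hl]
            have e : B4_v i j c (p ^ m) i = MvPolynomial.X i + MvPolynomial.C c *
              MvPolynomial.X j ^ p ^ m := Function.update_self _ _ _
            rw [e, map_add, map_mul, map_pow, MvPolynomial.aeval_X, MvPolynomial.aeval_X,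
              MvPolynomial.aeval_C, hi', hl' j hij, hg]
            show φ i - C c * φ j ^ p ^ m + C c * φ j ^ p ^ m = φ i
            ring
          · have e : B4_v i j c (p ^ m) l = MvPolynomial.X l := Function.update_of_ne hl _ _
            rw [e, MvPolynomial.aeval_X, hl' l hl]
        rw [e]
      have hsum : ∑ l, (φ' l).natDegree < N := by
        rw [← hN]
        refine Finset.sum_lt_sum (fun l _ => ?_) ⟨i, Finset.mem_univ i, ?_⟩
        · by_cases hl : l = i
          · rw [hl, hi']
            exact le_of_lt hlt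
          · rw [hl' l hl]
        · rw [hi']
          exact hlt
      obtain ⟨f', h1, h2', ⟨e⟩⟩ := ih _ hsum (B4_E i j hij c (p ^ m) f) φ' hAQ hadd
        ⟨j, by rw [hl' j hij]; exact hj⟩ (by rw [hev]; exact hL) rfl
      obtain ⟨e0⟩ := B4_congr p (B4_E i j hij c (p ^ m)).toRingEquiv f
        (B4_E i j hij c (p ^ m) f) rfl
      exact ⟨f', h1, h2', ⟨e0.trans e⟩⟩
    · obtain ⟨i, hi⟩ := hne
      have h0 : ∀ l, l ≠ i → φ l = 0 := by
        intro l hl
        by_contra hl0
        rcases le_total (φ l).natDegree (φ i).natDegree with hle | hle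
        · exact h ⟨i, l, hl, hi, hl0, hle⟩
        · exact h ⟨l, i, fun e => hl e.symm, hl0, hi, hle⟩
      obtain ⟨s, hs⟩ : ∃ s : Equiv.Perm (Fin (n + 1)), s = Equiv.swap 0 i := ⟨_, rfl⟩
      have hsi : s i = 0 := by
        rw [hs]
        exact Equiv.swap_apply_right 0 i
      have hsl : ∀ l, l ≠ i → s l ≠ 0 := fun l hl hl0 => hl (s.injective (hl0.trans hsi.symm))
      have hAQ : AQ p (MvPolynomial.rename s f) := by
        have e : (MvPolynomial.rename s : MvPolynomial (Fin (n + 1)) k →ₐ[k] _) =
            MvPolynomial.aeval (fun l => (MvPolynomial.X (s l) : MvPolynomial (Fin (n + 1)) k)) :=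
          MvPolynomial.algHom_ext fun l => by
            rw [MvPolynomial.rename_X, MvPolynomial.aeval_X]
        rw [e]
        exact (h2 p k (Fin (n + 1)) (Fin (n + 1))).1 f _ hf fun l => B4_X p (s l)
      refine ⟨MvPolynomial.rename s f, hAQ, ?_, ?_⟩
      · refine h3 p k _ (φ i) ?_ (hφ i) hi ?_
        · refine (h2 p k (Fin (n + 1)) (Fin (n + 1))).2.2.1 _ _ hAQ fun l => ⟨0, ?_⟩
          rw [C_0, sub_zero]
          refine Fin.cases ?_ (fun l => ?_) l
          · intro d hd
            rw [Fin.cons_zero, mem_support_iff, coeff_X] at hd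
            refine ⟨0, ?_⟩
            by_contra hd1
            rw [pow_zero] at hd1
            rw [if_neg (fun e => hd1 e.symm)] at hd
            exact hd rfl
          · intro d hd
            rw [Fin.cons_succ, mem_support_iff] at hd
            exact absurd (coeff_zero d) hd
        · have e : (MvPolynomial.aeval (Fin.cons X 0 : Fin (n + 1) → k[X])
              (MvPolynomial.rename s f)).comp (φ i) = MvPolynomial.aeval φ f := by
            have e1 : ∀ P : k[X], P.comp (φ i) = aeval (φ i) P := fun P => rfl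
            rw [e1, ← AlgHom.comp_apply, ← AlgHom.comp_apply]
            have e2 : ((aeval (φ i)).comp (MvPolynomial.aeval
                (Fin.cons X 0 : Fin (n + 1) → k[X]))).comp (MvPolynomial.rename s) =
                MvPolynomial.aeval φ := by
              refine MvPolynomial.algHom_ext fun l => ?_
              rw [AlgHom.comp_apply, AlgHom.comp_apply, MvPolynomial.rename_X,
                MvPolynomial.aeval_X, MvPolynomial.aeval_X]
              by_cases hl : l = i
              · rw [hl, hsi, Fin.cons_zero, aeval_X]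
              · obtain ⟨l', hl'⟩ := Fin.exists_succ_eq.2 (hsl l hl)
                rw [← hl', Fin.cons_succ, h0 l hl]
                exact map_zero _
            rw [← e2]
          rw [e]
          exact hL
      · exact B4_congr p (MvPolynomial.renameEquiv k s).toRingEquiv f _ rfl

theorem thm_B4 (h2 : St_B2) (h3 : St_B3) : St_B4 := by
  intro p _ k _ _ _ n f hf hI
  obtain ⟨φ, h1, hne, hL⟩ := hI
  exact B4_main h2 h3 p k n _ f φ hf h1 hne hL rfl

end Pool.Agent.AQS
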