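import Pool.Agent.AQS.St

/-!
# AQS, module B5

Statement and proof: see `St_B5` in `Pool/Agent/AQS/St.lean`.
-/

set_option autoImplicit false
set_option linter.unusedSectionVars false

namespace Pool.Agent.AQS

open Function Pool.Agent.Helper11 Pool.Agent.HPow Pool.Agent.Helper67.Bass

/-! ### free extensions -/

/-- a basis given by the bijectivity of the map of the coordinates -/
theorem B5_basis {W V : Type} [CommRing W] [CommRing V] (φ : W →+* V) (N : ℕ) (b : Fin N → V)
    (hb : Bijective (fun w : Fin N → W => ∑ i, φ (w i) * b i)) :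
    Nonempty (@Module.Basis (Fin N) W V _ _ (@Algebra.toModule W V _ _ φ.toAlgebra)) := by
  let _ : Algebra W V := φ.toAlgebra
  let L : (Fin N → W) →ₗ[W] V :=
    { toFun := fun w => ∑ i, φ (w i) * b i
      map_add' := fun x y => by
        rw [← Finset.sum_add_distrib]
        refine Finset.sum_congr rfl fun i _ => ?_
        rw [Pi.add_apply, map_add, add_mul]
      map_smul' := fun r x => by
        have h0 : ∀ y : V, r • y = φ r * y := fun y => Algebra.smul_def r y
        rw [RingHom.id_apply, h0, Finset.mul_sum]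
        refine Finset.sum_congr rfl fun i _ => ?_
        rw [Pi.smul_apply, smul_eq_mul, map_mul, mul_assoc] }
  exact ⟨Module.Basis.ofEquivFun (LinearEquiv.ofBijective L hb).symm⟩

theorem B5_free (h1 : St_A1) (p : ℕ) [Fact p.Prime] {W V : Type} [CommRing W] [CommRing V]
    (φ : W →+* V) (e : ℕ) (b : Fin (p ^ e) → V)
    (hb : Bijective (fun w : Fin (p ^ e) → W => ∑ i, φ (w i) * b i)) (h : W)
    (hg : GoodP p (AP p V (φ h))) : GoodP p (AP p W h) := by
  let _ : Algebra W V := φ.toAlgebra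
  obtain ⟨B⟩ := B5_basis φ (p ^ e) b hb
  exact (h1 p W).2.2.2.2.1 V e B h hg

/-! ### the substitution -/

section sub

open MvPolynomial

variable {k : Type} [Field k] {n : ℕ}

/-- the exponent `(m_0, u_1 + q m_1, …)` -/
noncomputable def B5_be (q : ℕ) (u : Fin n → ℕ) (m : Fin (n + 1) →₀ ℕ) : Fin (n + 1) →₀ ℕ :=
  Finsupp.equivFunOnFinite.symm (Fin.cons (m 0) (fun j => u j + q * m j.succ))

theorem B5_be_zero (q : ℕ) (u : Fin n → ℕ) (m : Fin (n + 1) →₀ ℕ) : B5_be q u m 0 = m 0 := rfl

theorem B5_be_succ (q : ℕ) (u : Fin n → ℕ) (m : Fin (n + 1) →₀ ℕ) (j : Fin n) :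
    B5_be q u m j.succ = u j + q * m j.succ := rfl

theorem B5_be_inj (q : ℕ) (hq : 0 < q) (u u' : Fin n → ℕ) (hu : ∀ j, u j < q)
    (hu' : ∀ j, u' j < q) (m m' : Fin (n + 1) →₀ ℕ) (h : B5_be q u m = B5_be q u' m') :
    u = u' ∧ m = m' := by
  have hj : ∀ j : Fin n, u j = u' j ∧ m j.succ = m' j.succ := by
    intro j
    have h1 : B5_be q u m j.succ = B5_be q u' m' j.succ := by rw [h]
    rw [B5_be_succ, B5_be_succ] at h1
    have h2 : (u j + q * m j.succ) % q = (u' j + q * m' j.succ) % q := by rw [h1]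
    rw [Nat.add_mul_mod_self_left, Nat.add_mul_mod_self_left, Nat.mod_eq_of_lt (hu j),
      Nat.mod_eq_of_lt (hu' j)] at h2
    refine ⟨h2, ?_⟩
    rw [h2] at h1
    exact Nat.eq_of_mul_eq_mul_left hq (Nat.add_left_cancel h1)
  refine ⟨funext fun j => (hj j).1, ?_⟩
  ext i
  refine Fin.cases ?_ (fun j => ?_) i
  · have h1 : B5_be q u m 0 = B5_be q u' m' 0 := by rw [h]
    exact h1
  · exact (hj j).2

theorem B5_be_surj (q : ℕ) (hq : 0 < q) (d : Fin (n + 1) →₀ ℕ) :
    ∃ (u : Fin n → Fin q) (m : Fin (n + 1) →₀ ℕ), B5_be q (fun j => (u j : ℕ)) m = d := by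
  refine ⟨fun j => ⟨d j.succ % q, Nat.mod_lt _ hq⟩,
    Finsupp.equivFunOnFinite.symm (Fin.cons (d 0) (fun j => d j.succ / q)), ?_⟩
  ext i
  refine Fin.cases ?_ (fun j => ?_) i
  · rfl
  · rw [B5_be_succ]
    show d j.succ % q + q * (d j.succ / q) = d j.succ
    exact Nat.mod_add_div _ _

/-- the substitution `x_0 ↦ x_0`, `x_j ↦ x_j ^ q` -/
noncomputable def B5_th (k : Type) [Field k] (n q : ℕ) :
    MvPolynomial (Fin (n + 1)) k →ₐ[k] MvPolynomial (Fin (n + 1)) k :=
  aeval (Fin.cons (X 0) (fun j : Fin n => X j.succ ^ q))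

theorem B5_th_monomial (q : ℕ) (m : Fin (n + 1) →₀ ℕ) (c : k) :
    B5_th k n q (monomial m c) = monomial (B5_be q 0 m) c := by
  rw [B5_th, aeval_monomial, monomial_eq, algebraMap_eq, Finsupp.prod_fintype _ _ (fun i => pow_zero _),
    Finsupp.prod_fintype _ _ (fun i => pow_zero _), Fin.prod_univ_succ, Fin.prod_univ_succ]
  congr 1
  congr 1
  refine Finset.prod_congr rfl fun j _ => ?_
  rw [Fin.cons_succ, B5_be_succ, Pi.zero_apply, zero_add, ← pow_mul]

/-- the elements of the basis -/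
noncomputable def B5_b (k : Type) [Field k] (n _q : ℕ) (u : Fin n → ℕ) :
    MvPolynomial (Fin (n + 1)) k :=
  monomial (Finsupp.equivFunOnFinite.symm (Fin.cons 0 u)) 1

theorem B5_coeff (q : ℕ) (hq : 0 < q) (u u' : Fin n → ℕ) (hu : ∀ j, u j < q)
    (hu' : ∀ j, u' j < q) (m : Fin (n + 1) →₀ ℕ) (w : MvPolynomial (Fin (n + 1)) k) :
    coeff (B5_be q u m) (B5_th k n q w * B5_b k n q u') = if u' = u then coeff m w else 0 := by
  classical
  induction w using MvPolynomial.induction_on' with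
  | monomial m' c =>
    have hadd : B5_be q 0 m' + Finsupp.equivFunOnFinite.symm (Fin.cons 0 u') = B5_be q u' m' := by
      ext i
      rw [Finsupp.add_apply]
      refine Fin.cases ?_ (fun j => ?_) i
      · show m' 0 + 0 = m' 0
        rw [add_zero]
      · rw [B5_be_succ, B5_be_succ, Pi.zero_apply, zero_add, add_comm]
        rfl
    rw [B5_th_monomial, B5_b, monomial_mul, mul_one, hadd, coeff_monomial, coeff_monomial]
    by_cases h : B5_be q u' m' = B5_be q u m
    · obtain ⟨h3, h4⟩ := B5_be_inj q hq u' u hu' hu m' m h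
      rw [if_pos h, if_pos h3, if_pos h4]
    · rw [if_neg h]
      by_cases h3 : u' = u
      · rw [if_pos h3, if_neg]
        intro h4
        exact h (by rw [h3, h4])
      · rw [if_neg h3]
  | add w1 w2 ih1 ih2 =>
    rw [map_add, add_mul, coeff_add, ih1, ih2, coeff_add]
    split_ifs
    · rfl
    · rw [add_zero]

theorem B5_bij (q : ℕ) (hq : 0 < q) {ι : Type} [Fintype ι] (σ : ι ≃ (Fin n → Fin q)) :
    Bijective (fun w : ι → MvPolynomial (Fin (n + 1)) k =>
      ∑ i, B5_th k n q (w i) * B5_b k n q (fun j => (σ i j : ℕ))) := by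
  classical
  have hinj : ∀ i i' : ι, (fun j => (σ i j : ℕ)) = (fun j => (σ i' j : ℕ)) ↔ i = i' := by
    intro i i'
    constructor
    · intro h
      apply σ.injective
      funext j
      exact Fin.ext (congrFun h j)
    · rintro rfl
      rfl
  have hc : ∀ (w : ι → MvPolynomial (Fin (n + 1)) k) (i : ι) (m : Fin (n + 1) →₀ ℕ),
      coeff (B5_be q (fun j => (σ i j : ℕ)) m)
        (∑ i', B5_th k n q (w i') * B5_b k n q (fun j => (σ i' j : ℕ))) = coeff m (w i) := by
    intro w i m
    rw [coeff_sum, Finset.sum_eq_single i]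
    · rw [B5_coeff q hq _ _ (fun j => (σ i j).2) (fun j => (σ i j).2), if_pos rfl]
    · intro i' _ hi'
      rw [B5_coeff q hq _ _ (fun j => (σ i j).2) (fun j => (σ i' j).2), if_neg]
      rw [hinj]
      exact hi'
    · intro h
      exact absurd (Finset.mem_univ i) h
  constructor
  · intro w w' hw
    funext i
    ext m
    have h1 : coeff (B5_be q (fun j => (σ i j : ℕ)) m)
        (∑ i', B5_th k n q (w i') * B5_b k n q (fun j => (σ i' j : ℕ))) =
        coeff (B5_be q (fun j => (σ i j : ℕ)) m)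
        (∑ i', B5_th k n q (w' i') * B5_b k n q (fun j => (σ i' j : ℕ))) := by
      exact congrArg _ hw
    rw [hc, hc] at h1
    exact h1
  · intro v
    have hbe : ∀ i : ι, Injective (fun m => B5_be q (fun j => (σ i j : ℕ)) m) := by
      intro i m m' h
      exact (B5_be_inj q hq _ _ (fun j => (σ i j).2) (fun j => (σ i j).2) m m' h).2
    let w : ι → MvPolynomial (Fin (n + 1)) k := fun i =>
      ∑ m ∈ (v.support.preimage (fun m => B5_be q (fun j => (σ i j : ℕ)) m)
        ((hbe i).injOn)), monomial m (coeff (B5_be q (fun j => (σ i j : ℕ)) m) v)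
    have hw : ∀ i m, coeff m (w i) = coeff (B5_be q (fun j => (σ i j : ℕ)) m) v := by
      intro i m
      show coeff m (∑ m ∈ _, _) = _
      rw [coeff_sum]
      by_cases hm : m ∈ v.support.preimage (fun m => B5_be q (fun j => (σ i j : ℕ)) m)
        ((hbe i).injOn)
      · rw [Finset.sum_eq_single m]
        · rw [coeff_monomial, if_pos rfl]
        · intro m' _ hm'
          rw [coeff_monomial, if_neg hm']
        · intro h
          exact absurd hm h
      · rw [Finset.sum_eq_zero]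
        · rw [Finset.mem_preimage, notMem_support_iff] at hm
          exact hm.symm
        · intro m' hm'
          rw [coeff_monomial, if_neg]
          rintro rfl
          exact hm hm'
    refine ⟨w, ?_⟩
    ext d
    obtain ⟨u, m, rfl⟩ := B5_be_surj q hq d
    have h1 := hc w (σ.symm u) m
    rw [σ.apply_symm_apply] at h1
    rw [h1, hw, σ.apply_symm_apply]

end sub

/-! ### equivalence -/

section pe

variable {p : ℕ} {W : Type} [CommRing W]

theorem B5_pe_refl (hp : p ≠ 0) (h : W) : PE p h h := ⟨0, by rw [sub_self, zero_pow hp, sub_zero]⟩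

theorem B5_pe_add [Fact p.Prime] [CharP W p] {a a' b b' : W} (h1 : PE p a a') (h2 : PE p b b') :
    PE p (a + b) (a' + b') := by
  obtain ⟨g1, h1⟩ := h1
  obtain ⟨g2, h2⟩ := h2
  refine ⟨g1 + g2, ?_⟩
  rw [add_pow_char, ← sub_eq_zero]
  have : a + b - (a' + b') - (g1 ^ p + g2 ^ p - (g1 + g2)) =
      (a - a' - (g1 ^ p - g1)) + (b - b' - (g2 ^ p - g2)) := by ring
  rw [this, h1, h2]
  ring

theorem B5_pe_trans [Fact p.Prime] [CharP W p] {a b c : W} (h1 : PE p a b) (h2 : PE p b c) :
    PE p a c := by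
  obtain ⟨g1, h1⟩ := h1
  obtain ⟨g2, h2⟩ := h2
  refine ⟨g1 + g2, ?_⟩
  rw [add_pow_char, ← sub_eq_zero]
  have : a - c - (g1 ^ p + g2 ^ p - (g1 + g2)) =
      (a - b - (g1 ^ p - g1)) + (b - c - (g2 ^ p - g2)) := by ring
  rw [this, h1, h2]
  ring

theorem B5_pe_pow [Fact p.Prime] [CharP W p] (g : W) (a : ℕ) : PE p (g ^ p ^ a) g := by
  induction a with
  | zero => rw [pow_zero, pow_one]; exact B5_pe_refl (Fact.out : p.Prime).ne_zero g
  | succ a ih =>
    refine B5_pe_trans ⟨g ^ p ^ a, ?_⟩ ih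
    rw [← pow_mul, ← pow_succ]

theorem B5_pe_map {V : Type} [CommRing V] (φ : W →+* V) {a b : W} (h : PE p a b) :
    PE p (φ a) (φ b) := by
  obtain ⟨g, h⟩ := h
  refine ⟨φ g, ?_⟩
  rw [← map_sub, h, map_sub, map_pow]

end pe

section supp

open MvPolynomial

variable {p : ℕ} {k σ : Type} [CommRing k]

theorem B5_aff_zero : AffM p (0 : MvPolynomial σ k) := by
  intro d hd
  rw [MvPolynomial.support_zero] at hd
  exact absurd hd (Finset.notMem_empty d)

theorem B5_aff_add {f g : MvPolynomial σ k} (hf : AffM p f) (hg : AffM p g) : AffM p (f + g) := by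
  classical
  intro d hd
  rcases Finset.mem_union.1 (support_add hd) with h | h
  · exact hf d h
  · exact hg d h

theorem B5_aff_mon (c : k) (j : σ) (a : ℕ) : AffM p (C c * X j ^ p ^ a) := by
  intro d hd
  rw [X_pow_eq_monomial, C_mul_monomial, mul_one] at hd
  right
  exact ⟨j, a, Finset.mem_singleton.1 (support_monomial_subset hd)⟩

theorem B5_aff_C (c : k) : AffM p (C c : MvPolynomial σ k) := by
  intro d hd
  left
  exact Finset.mem_singleton.1 (support_monomial_subset hd)

theorem B5_aq_of_aff {f : MvPolynomial σ k} (hf : AffM p f) : AQ p f := by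
  intro d hd
  rcases hf d hd with h | h
  · exact Or.inl h
  · exact Or.inr (Or.inl h)

theorem B5_aq_add {f g : MvPolynomial σ k} (hf : AQ p f) (hg : AQ p g) : AQ p (f + g) := by
  classical
  intro d hd
  rcases Finset.mem_union.1 (support_add hd) with h | h
  · exact hf d h
  · exact hg d h

theorem B5_aq_mon (c : k) (i j : σ) (a b : ℕ) : AQ p (C c * (X i ^ p ^ a * X j ^ p ^ b)) := by
  intro d hd
  rw [X_pow_eq_monomial, X_pow_eq_monomial, monomial_mul, C_mul_monomial] at hd
  right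
  right
  exact ⟨i, j, a, b, Finset.mem_singleton.1 (support_monomial_subset hd)⟩

end supp

/-- the polynomials equivalent to `S X + f'` -/
def B5_T (p : ℕ) {R : Type} [CommRing R] {n : ℕ} (h : Polynomial (MvPolynomial (Fin n) R)) : Prop :=
  ∃ S f' : MvPolynomial (Fin n) R, AffM p S ∧ AQ p f' ∧
    PE p h (Polynomial.C S * Polynomial.X + Polynomial.C f')

theorem B5_T_add {p : ℕ} [Fact p.Prime] {R : Type} [CommRing R] [CharP R p] {n : ℕ}
    {h h' : Polynomial (MvPolynomial (Fin n) R)} (h1 : B5_T p h) (h2 : B5_T p h') :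
    B5_T p (h + h') := by
  obtain ⟨S, f, hS, hf, h1⟩ := h1
  obtain ⟨S', f', hS', hf', h2⟩ := h2
  refine ⟨S + S', f + f', B5_aff_add hS hS', B5_aq_add hf hf', ?_⟩
  have h3 := B5_pe_add h1 h2
  have h4 : Polynomial.C (S + S') * Polynomial.X + Polynomial.C (f + f') =
      Polynomial.C S * Polynomial.X + Polynomial.C f +
      (Polynomial.C S' * Polynomial.X + Polynomial.C f') := by
    rw [Polynomial.C_add, Polynomial.C_add]
    ring
  rw [h4]
  exact h3

theorem B5_T_const {p : ℕ} [Fact p.Prime] {R : Type} [CommRing R] {n : ℕ}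
    (f : MvPolynomial (Fin n) R) (hf : AQ p f) : B5_T p (Polynomial.C f) := by
  refine ⟨0, f, B5_aff_zero, hf, ?_⟩
  rw [Polynomial.C_0, zero_mul, zero_add]
  exact B5_pe_refl (Fact.out : p.Prime).ne_zero _

theorem B5_T_zero {p : ℕ} [Fact p.Prime] {R : Type} [CommRing R] {n : ℕ} :
    B5_T p (0 : Polynomial (MvPolynomial (Fin n) R)) := by
  have h := B5_T_const (p := p) (n := n) (0 : MvPolynomial (Fin n) R) (B5_aq_of_aff B5_aff_zero)
  rwa [Polynomial.C_0] at h

theorem B5_T_sum {p : ℕ} [Fact p.Prime] {R : Type} [CommRing R] [CharP R p] {n : ℕ} {ι : Type}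
    (s : Finset ι) (g : ι → Polynomial (MvPolynomial (Fin n) R)) (h : ∀ i ∈ s, B5_T p (g i)) :
    B5_T p (∑ i ∈ s, g i) := by
  classical
  induction s using Finset.induction_on with
  | empty => rw [Finset.sum_empty]; exact B5_T_zero
  | insert a s ha ih =>
    rw [Finset.sum_insert ha]
    exact B5_T_add (h a (Finset.mem_insert_self a s))
      (ih fun i hi => h i (Finset.mem_insert_of_mem hi))

/-- the mixed terms -/
theorem B5_T_mix {p : ℕ} [Fact p.Prime] {k : Type} [Field k] [Finite k] [CharP k p] {n : ℕ}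
    (c : k) (j : Fin n) (a b A : ℕ) (ha : a ≤ A) :
    B5_T p (Polynomial.C (MvPolynomial.C c) * (Polynomial.X ^ p ^ a *
      Polynomial.C ((MvPolynomial.X j ^ p ^ A) ^ p ^ b)) :
      Polynomial (MvPolynomial (Fin n) k)) := by
  have hinj : Injective (iterateFrobenius k p a) := (iterateFrobenius k p a).injective
  obtain ⟨c', hc'⟩ := Finite.surjective_of_injective hinj c
  rw [iterateFrobenius_def] at hc'
  refine ⟨MvPolynomial.C c' * MvPolynomial.X j ^ p ^ (A + b - a), 0, B5_aff_mon _ _ _,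
    B5_aq_of_aff B5_aff_zero, ?_⟩
  rw [Polynomial.C_0, add_zero]
  have h1 := B5_pe_pow (p := p) (Polynomial.C (MvPolynomial.C c' *
    MvPolynomial.X j ^ p ^ (A + b - a)) * Polynomial.X : Polynomial (MvPolynomial (Fin n) k)) a
  have h2 : (Polynomial.C (MvPolynomial.C c' *
      MvPolynomial.X j ^ p ^ (A + b - a)) * Polynomial.X : Polynomial (MvPolynomial (Fin n) k)) ^
      p ^ a = Polynomial.C (MvPolynomial.C c) * (Polynomial.X ^ p ^ a *
      Polynomial.C ((MvPolynomial.X j ^ p ^ A) ^ p ^ b)) := by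
    rw [mul_pow, ← Polynomial.C_pow, mul_pow, ← MvPolynomial.C_pow, hc', ← pow_mul, ← pow_mul,
      ← pow_add, ← pow_add, Nat.sub_add_cancel (le_trans ha (Nat.le_add_right A b)),
      Polynomial.C_mul]
    ring
  rw [h2] at h1
  exact h1

theorem thm_B5 (h1 : St_A1) (h2 : St_B2) : St_B5 := by
  have _ := h2
  classical
  intro p _ k _ _ _ n f hf hlin
  have hp0 : p ≠ 0 := (Fact.out : p.Prime).ne_zero
  have hpos : 0 < p := (Fact.out : p.Prime).pos
  set A : ℕ := f.support.sup (fun d => d 0) with hA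
  -- the composite of the substitution and `finSuccEquiv`
  let Θ : MvPolynomial (Fin (n + 1)) k →+* Polynomial (MvPolynomial (Fin n) k) :=
    (MvPolynomial.finSuccEquiv k n : MvPolynomial (Fin (n + 1)) k →+* _).comp
      (B5_th k n (p ^ A) : MvPolynomial (Fin (n + 1)) k →+* _)
  have hΘC : ∀ c : k, Θ (MvPolynomial.C c) = Polynomial.C (MvPolynomial.C c) := by
    intro c
    show MvPolynomial.finSuccEquiv k n (B5_th k n (p ^ A) (MvPolynomial.C c)) = _
    rw [← MvPolynomial.algebraMap_eq, AlgHom.commutes, AlgEquiv.commutes]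
    rfl
  have hΘ0 : Θ (MvPolynomial.X 0) = Polynomial.X := by
    show MvPolynomial.finSuccEquiv k n (B5_th k n (p ^ A) (MvPolynomial.X 0)) = _
    rw [B5_th, MvPolynomial.aeval_X, Fin.cons_zero, MvPolynomial.finSuccEquiv_X_zero]
  have hΘs : ∀ j : Fin n, Θ (MvPolynomial.X j.succ) =
      Polynomial.C (MvPolynomial.X j ^ p ^ A) := by
    intro j
    show MvPolynomial.finSuccEquiv k n (B5_th k n (p ^ A) (MvPolynomial.X j.succ)) = _
    rw [B5_th, MvPolynomial.aeval_X, Fin.cons_succ, map_pow, MvPolynomial.finSuccEquiv_X_succ,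
      ← Polynomial.C_pow]
  -- the restriction to the axis
  let Ψ : MvPolynomial (Fin (n + 1)) k →+* Polynomial (MvPolynomial (Fin n) k) :=
    (Polynomial.mapRingHom (MvPolynomial.C : k →+* MvPolynomial (Fin n) k)).comp
      ((MvPolynomial.aeval (Fin.cons Polynomial.X 0 : Fin (n + 1) → Polynomial k) :
        MvPolynomial (Fin (n + 1)) k →ₐ[k] Polynomial k) : MvPolynomial (Fin (n + 1)) k →+* _)
  have hΨC : ∀ c : k, Ψ (MvPolynomial.C c) = Polynomial.C (MvPolynomial.C c) := by
    intro c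
    show Polynomial.mapRingHom (MvPolynomial.C : k →+* MvPolynomial (Fin n) k)
      (MvPolynomial.aeval (Fin.cons Polynomial.X 0 : Fin (n + 1) → Polynomial k)
        (MvPolynomial.C c)) = _
    rw [MvPolynomial.aeval_C, Polynomial.algebraMap_eq, Polynomial.coe_mapRingHom,
      Polynomial.map_C]
  have hΨ0 : Ψ (MvPolynomial.X 0) = Polynomial.X := by
    show Polynomial.mapRingHom (MvPolynomial.C : k →+* MvPolynomial (Fin n) k)
      (MvPolynomial.aeval (Fin.cons Polynomial.X 0 : Fin (n + 1) → Polynomial k)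
        (MvPolynomial.X 0)) = _
    rw [MvPolynomial.aeval_X, Fin.cons_zero, Polynomial.coe_mapRingHom, Polynomial.map_X]
  have hΨs : ∀ j : Fin n, Ψ (MvPolynomial.X j.succ) = 0 := by
    intro j
    show Polynomial.mapRingHom (MvPolynomial.C : k →+* MvPolynomial (Fin n) k)
      (MvPolynomial.aeval (Fin.cons Polynomial.X 0 : Fin (n + 1) → Polynomial k)
        (MvPolynomial.X j.succ)) = _
    rw [MvPolynomial.aeval_X, Fin.cons_succ, Pi.zero_apply, map_zero]
  have hmon1 : ∀ (i : Fin (n + 1)) (e : ℕ) (c : k),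
      MvPolynomial.monomial (Finsupp.single i e) c = MvPolynomial.C c * MvPolynomial.X i ^ e := by
    intro i e c
    rw [MvPolynomial.X_pow_eq_monomial, MvPolynomial.C_mul_monomial, mul_one]
  have hmon2 : ∀ (i j : Fin (n + 1)) (e e' : ℕ) (c : k),
      MvPolynomial.monomial (Finsupp.single i e + Finsupp.single j e') c =
      MvPolynomial.C c * (MvPolynomial.X i ^ e * MvPolynomial.X j ^ e') := by
    intro i j e e' c
    rw [MvPolynomial.X_pow_eq_monomial, MvPolynomial.X_pow_eq_monomial,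
      MvPolynomial.monomial_mul, MvPolynomial.C_mul_monomial, mul_one, mul_one]
  have hpp : ∀ e : ℕ, p ^ e ≠ 0 := fun e => pow_ne_zero e hp0
  have hle : ∀ (e : ℕ), p ^ e ≤ A → e ≤ A := fun e he =>
    le_trans (Nat.lt_pow_self (Fact.out : p.Prime).one_lt).le he
  -- the monomials
  have hT : ∀ d ∈ f.support, B5_T p (Θ (MvPolynomial.monomial d (MvPolynomial.coeff d f)) -
      Ψ (MvPolynomial.monomial d (MvPolynomial.coeff d f))) := by
    intro d hd
    have hd0 : d 0 ≤ A := Finset.le_sup (f := fun d : Fin (n + 1) →₀ ℕ => d 0) hd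
    generalize MvPolynomial.coeff d f = c
    rcases hf d hd with rfl | ⟨i, a, rfl⟩ | ⟨i, j, a, b, rfl⟩
    · have h3 : (MvPolynomial.monomial 0 c : MvPolynomial (Fin (n + 1)) k) =
        MvPolynomial.C c := rfl
      rw [h3, hΘC, hΨC, sub_self]
      exact B5_T_zero
    · rw [hmon1, map_mul, map_mul, map_pow, map_pow, hΘC, hΨC]
      refine Fin.cases ?_ (fun i => ?_) i
      · rw [hΘ0, hΨ0, sub_self]
        exact B5_T_zero
      · rw [hΘs, hΨs, zero_pow (hpp a), mul_zero, sub_zero, ← Polynomial.C_pow,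
          ← Polynomial.C_mul, ← pow_mul, ← pow_add]
        exact B5_T_const _ (B5_aq_of_aff (B5_aff_mon _ _ _))
    · rw [hmon2, map_mul, map_mul, map_mul, map_mul, map_pow, map_pow, map_pow, map_pow, hΘC, hΨC]
      revert hd0
      refine Fin.cases ?_ (fun i => ?_) i
      · refine Fin.cases ?_ (fun j => ?_) j
        · intro _
          rw [hΘ0, hΨ0, sub_self]
          exact B5_T_zero
        · intro hd0
          rw [Finsupp.add_apply, Finsupp.single_eq_same] at hd0
          rw [hΘ0, hΨ0, hΘs, hΨs, zero_pow (hpp b), mul_zero, mul_zero, sub_zero,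
            ← Polynomial.C_pow]
          exact B5_T_mix c j a b A (hle a (le_trans (Nat.le_add_right _ _) hd0))
      · refine Fin.cases ?_ (fun j => ?_) j
        · intro hd0
          rw [Finsupp.add_apply, Finsupp.single_eq_same] at hd0
          rw [hΘ0, hΨ0, hΘs, hΨs, zero_pow (hpp a), zero_mul, mul_zero, sub_zero,
            ← Polynomial.C_pow, mul_comm (Polynomial.C _) (Polynomial.X ^ p ^ b)]
          exact B5_T_mix c i b a A (hle b (le_trans (Nat.le_add_left _ _) hd0))
        · intro _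
          rw [hΘs, hΨs, hΘs, hΨs, zero_pow (hpp a), zero_mul, mul_zero, sub_zero,
            ← Polynomial.C_pow, ← Polynomial.C_pow, ← Polynomial.C_mul, ← Polynomial.C_mul,
            ← pow_mul, ← pow_add, ← pow_mul, ← pow_add]
          exact B5_T_const _ (B5_aq_mon _ _ _ _ _)
  have hTf : B5_T p (Θ f - Ψ f) := by
    have h3 : Θ f - Ψ f = ∑ d ∈ f.support,
        (Θ (MvPolynomial.monomial d (MvPolynomial.coeff d f)) -
        Ψ (MvPolynomial.monomial d (MvPolynomial.coeff d f))) := by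
      rw [Finset.sum_sub_distrib, ← map_sum, ← map_sum, ← MvPolynomial.as_sum f]
    rw [h3]
    exact B5_T_sum _ _ hT
  have hTΨ : B5_T p (Ψ f) := by
    obtain ⟨l, c, hlc⟩ := hlin
    refine ⟨MvPolynomial.C l, MvPolynomial.C c, B5_aff_C l, B5_aq_of_aff (B5_aff_C c), ?_⟩
    have h3 := B5_pe_map (Polynomial.mapRingHom (MvPolynomial.C : k →+* MvPolynomial (Fin n) k)) hlc
    rw [map_add, map_mul, Polynomial.coe_mapRingHom, Polynomial.map_C, Polynomial.map_X,
      Polynomial.map_C] at h3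
    exact h3
  obtain ⟨S, f', hS, hf', hPE⟩ : B5_T p (Θ f) := by
    have h3 := B5_T_add hTf hTΨ
    rwa [sub_add_cancel] at h3
  refine ⟨S, f', hS, hf', fun hg => ?_⟩
  have hp1 : (p : Polynomial (MvPolynomial (Fin n) k)) = 0 := CharP.cast_eq_zero _ p
  obtain ⟨e1⟩ := (h1 p (Polynomial (MvPolynomial (Fin n) k))).1 hp1 _ _ hPE
  obtain ⟨e2⟩ := (h1 p (MvPolynomial (Fin (n + 1)) k)).2.1 _
    (MvPolynomial.finSuccEquiv k n).toRingEquiv (B5_th k n (p ^ A) f)
  have hg1 : GoodP p (AP p (Polynomial (MvPolynomial (Fin n) k)) (Θ f)) :=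
    GoodP.of_equiv e1.symm hg
  have hg2 : GoodP p (AP p (MvPolynomial (Fin (n + 1)) k) (B5_th k n (p ^ A) f)) :=
    GoodP.of_equiv e2.symm hg1
  have hcard : p ^ (A * n) = (p ^ A) ^ n := pow_mul p A n
  let σ : Fin (p ^ (A * n)) ≃ (Fin n → Fin (p ^ A)) :=
    (finCongr hcard).trans finFunctionFinEquiv.symm
  exact B5_free h1 p (B5_th k n (p ^ A) : MvPolynomial (Fin (n + 1)) k →+* _) (A * n)
    (fun i => B5_b k n (p ^ A) (fun j => (σ i j : ℕ)))
    (B5_bij (p ^ A) (pow_pos hpos A) σ) f hg2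

end Pool.Agent.AQS
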