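import Pool.Agent.AQS.St

/-!
# AQS, module B6

Statement and proof: see `St_B6` in `Pool/Agent/AQS/St.lean`.
-/

set_option autoImplicit false
set_option linter.unusedSectionVars false

namespace Pool.Agent.AQS

open Function Pool.Agent.Helper11 Pool.Agent.HPow Pool.Agent.Helper67.Bass

/-! ### additive polynomials -/

section add1

open Polynomial

variable {p : ℕ} {k : Type}

private theorem B6_add1_zero [CommSemiring k] : Add1 p (0 : k[X]) := by
  intro d hd
  rw [Polynomial.support_zero] at hd
  exact absurd hd (Finset.notMem_empty d)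

private theorem B6_add1_add [CommSemiring k] {g h : k[X]} (hg : Add1 p g) (hh : Add1 p h) :
    Add1 p (g + h) := by
  intro d hd
  rcases Finset.mem_union.1 (support_add hd) with h1 | h1
  · exact hg d h1
  · exact hh d h1

private theorem B6_add1_monomial [CommSemiring k] (a : k) (w : ℕ) :
    Add1 p (C a * X ^ (p ^ w) : k[X]) := by
  intro d hd
  have h1 : (C a * X ^ (p ^ w) : k[X]).coeff d ≠ 0 := mem_support_iff.1 hd
  rw [coeff_C_mul_X_pow] at h1
  by_cases h2 : d = p ^ w
  · exact ⟨w, h2⟩
  · rw [if_neg h2] at h1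
    exact absurd rfl h1

private theorem B6_add1_comp [CommSemiring k] {g : k[X]} (hg : Add1 p g) (a : k) (m : ℕ) :
    Add1 p (g.comp (C a * X ^ (p ^ m))) := by
  rw [Polynomial.comp, eval₂_eq_sum, sum_def]
  refine Finset.sum_induction _ (Add1 p) (fun _ _ => B6_add1_add) B6_add1_zero ?_
  intro d hd
  obtain ⟨w, rfl⟩ := hg d hd
  have h1 : C (g.coeff (p ^ w)) * (C a * X ^ (p ^ m)) ^ (p ^ w) =
      C (g.coeff (p ^ w) * a ^ (p ^ w)) * X ^ (p ^ (m + w)) := by
    rw [mul_pow, ← C_pow, ← pow_mul, ← pow_add, C_mul, mul_assoc]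
  rw [h1]
  exact B6_add1_monomial _ _

private theorem B6_add1_aeval [Fact p.Prime] [CommRing k] {A : Type} [CommRing A] [Algebra k A]
    [CharP A p] {g : k[X]} (hg : Add1 p g) (x y : A) :
    aeval (x + y) g = aeval x g + aeval y g := by
  rw [aeval_def, aeval_def, aeval_def, eval₂_eq_sum, eval₂_eq_sum, eval₂_eq_sum, sum_def, sum_def,
    sum_def, ← Finset.sum_add_distrib]
  refine Finset.sum_congr rfl fun d hd => ?_
  obtain ⟨w, rfl⟩ := hg d hd
  rw [add_pow_char_pow, mul_add]

/-- cancellation of the leading term -/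
private theorem B6_lt [Fact p.Prime] [Field k] [Finite k] [CharP k p] {g h : k[X]}
    (hg : Add1 p g) (hh : Add1 p h) (hg0 : g ≠ 0) (hh0 : h ≠ 0) (hle : h.natDegree ≤ g.natDegree) :
    ∃ (a : k) (m : ℕ), (g + h.comp (C a * X ^ (p ^ m))).natDegree < g.natDegree := by
  have hp : p.Prime := Fact.out
  obtain ⟨u, hu⟩ := hg _ (natDegree_mem_support_of_nonzero hg0)
  obtain ⟨v, hv⟩ := hh _ (natDegree_mem_support_of_nonzero hh0)
  have hvu : v ≤ u := by
    rw [hu, hv] at hle
    exact (Nat.pow_le_pow_iff_right hp.one_lt).1 hle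
  have hsurj : Surjective fun x : k => x ^ (p ^ v) := by
    refine (Finite.injective_iff_surjective (f := fun x : k => x ^ (p ^ v))).1 ?_
    intro x y hxy
    exact iterateFrobenius_inj k p v (by
      rw [iterateFrobenius_def, iterateFrobenius_def]
      exact hxy)
  obtain ⟨a, ha⟩ := hsurj (-(g.leadingCoeff / h.leadingCoeff))
  have ha' : a ^ (p ^ v) = -(g.leadingCoeff / h.leadingCoeff) := ha
  have hlg : g.leadingCoeff ≠ 0 := leadingCoeff_ne_zero.2 hg0
  have hlh : h.leadingCoeff ≠ 0 := leadingCoeff_ne_zero.2 hh0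
  have ha0 : a ≠ 0 := by
    rintro rfl
    rw [zero_pow (pow_pos hp.pos v).ne'] at ha'
    exact (div_ne_zero hlg hlh) (neg_eq_zero.1 ha'.symm)
  refine ⟨a, u - v, ?_⟩
  have hq : (C a * X ^ (p ^ (u - v)) : k[X]).natDegree = p ^ (u - v) :=
    natDegree_C_mul_X_pow _ _ ha0
  have hd : (h.comp (C a * X ^ (p ^ (u - v)))).natDegree = g.natDegree := by
    rw [natDegree_comp, hq, hu, hv, ← pow_add]
    congr 1
    omega
  have hlc : (h.comp (C a * X ^ (p ^ (u - v)))).leadingCoeff = -g.leadingCoeff := by
    rw [leadingCoeff_comp (by rw [hq]; exact (pow_pos hp.pos _).ne'), leadingCoeff_C_mul_X_pow, hv,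
      ha']
    field_simp
  have hc : (g + h.comp (C a * X ^ (p ^ (u - v)))).coeff g.natDegree = 0 := by
    rw [coeff_add, coeff_natDegree]
    have h1 := hlc
    rw [leadingCoeff, hd] at h1
    rw [h1, add_neg_cancel]
  have hle2 : (g + h.comp (C a * X ^ (p ^ (u - v)))).natDegree ≤ g.natDegree :=
    (natDegree_add_le _ _).trans (by rw [hd, max_self])
  refine lt_of_le_of_ne hle2 fun heq => ?_
  rw [← heq] at hc
  have h2 := leadingCoeff_eq_zero.1 hc
  rw [h2, natDegree_zero, hu] at heq
  exact (pow_pos hp.pos u).ne heq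

end add1

/-! ### decomposition -/

private theorem B6_dec {p : ℕ} {k : Type} [Field k] {n : ℕ} {S : MvPolynomial (Fin n) k}
    (hS : AffM p S) : ∃ (c : k) (β : Fin n → Polynomial k), (∀ j, Add1 p (β j)) ∧
      S = MvPolynomial.C c + ∑ j, Polynomial.aeval (MvPolynomial.X j : MvPolynomial (Fin n) k)
        (β j) := by
  classical
  have h0 : S = ∑ d ∈ S.support, MvPolynomial.monomial d (S.coeff d) := MvPolynomial.as_sum S
  have key : ∀ T : Finset (Fin n →₀ ℕ), T ⊆ S.support → ∃ (c : k) (β : Fin n → Polynomial k),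
      (∀ j, Add1 p (β j)) ∧ ∑ d ∈ T, MvPolynomial.monomial d (S.coeff d) = MvPolynomial.C c +
        ∑ j, Polynomial.aeval (MvPolynomial.X j : MvPolynomial (Fin n) k) (β j) := by
    intro T
    induction T using Finset.induction_on with
    | empty =>
      intro _
      refine ⟨0, fun _ => 0, fun _ => B6_add1_zero, ?_⟩
      simp
    | insert d T hd ih =>
      intro hT
      obtain ⟨c, β, h1, h2⟩ := ih (fun x hx => hT (Finset.mem_insert_of_mem hx))
      rw [Finset.sum_insert hd, h2]
      rcases hS d (hT (Finset.mem_insert_self d T)) with h3 | ⟨i, a, h3⟩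
      · refine ⟨S.coeff d + c, β, h1, ?_⟩
        rw [h3, map_add, ← MvPolynomial.C_apply, add_assoc]
      · refine ⟨c, Function.update β i (β i + Polynomial.C (S.coeff d) * Polynomial.X ^ (p ^ a)),
          fun j => ?_, ?_⟩
        · by_cases hj : j = i
          · subst hj
            rw [Function.update_self]
            exact B6_add1_add (h1 _) (B6_add1_monomial _ _)
          · rw [Function.update_of_ne hj]
            exact h1 j
        · have h4 : ∀ j, Polynomial.aeval (MvPolynomial.X j : MvPolynomial (Fin n) k)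
              (Function.update β i (β i + Polynomial.C (S.coeff d) * Polynomial.X ^ (p ^ a)) j) =
              Polynomial.aeval (MvPolynomial.X j : MvPolynomial (Fin n) k) (β j) +
              if j = i then MvPolynomial.monomial d (S.coeff d) else 0 := by
            intro j
            by_cases hj : j = i
            · subst hj
              rw [Function.update_self, if_pos rfl, map_add, map_mul, Polynomial.aeval_C, map_pow,
                Polynomial.aeval_X, h3]
              have h5 : (MvPolynomial.monomial (Finsupp.single j (p ^ a)) (S.coeff d) :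
                  MvPolynomial (Fin n) k) = MvPolynomial.C (S.coeff d) *
                    MvPolynomial.X j ^ (p ^ a) := by
                rw [MvPolynomial.C_mul_X_pow_eq_monomial]
              rw [h3] at h5
              rw [h5]
              rfl
            · rw [Function.update_of_ne hj, if_neg hj, add_zero]
          rw [Finset.sum_congr rfl fun j _ => h4 j, Finset.sum_add_distrib,
            Finset.sum_ite_eq', if_pos (Finset.mem_univ i)]
          ring
  obtain ⟨c, β, h1, h2⟩ := key S.support (Finset.Subset.refl _)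
  exact ⟨c, β, h1, h0.trans h2⟩

/-! ### transport -/

open Polynomial in
private theorem B6_ap (h1 : St_A1) (p : ℕ) [Fact p.Prime] {W : Type} [CommRing W] (e : W ≃+* W)
    (S f : W) : Nonempty (AP p W[X] (C S * X + C f) ≃+* AP p W[X] (C (e S) * X + C (e f))) := by
  obtain ⟨E⟩ := (h1 p W[X]).2.1 W[X] (Polynomial.mapEquiv e) (C S * X + C f)
  have h2 : (Polynomial.mapEquiv e) (C S * X + C f) = C (e S) * X + C (e f) := by
    simp
  rw [h2] at E
  exact ⟨E⟩

open MvPolynomial in
/-- an automorphism of the polynomial ring -/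
private theorem B6_aut {k σ : Type} [Field k] (φ φ' : σ → MvPolynomial σ k)
    (h1 : ∀ l, aeval φ' (φ l) = X l) (h2 : ∀ l, aeval φ (φ' l) = X l) :
    ∃ E : MvPolynomial σ k ≃ₐ[k] MvPolynomial σ k, ∀ P, E P = aeval φ P := by
  refine ⟨AlgEquiv.ofAlgHom (aeval φ) (aeval φ') ?_ ?_, fun P => rfl⟩
  · refine MvPolynomial.algHom_ext fun l => ?_
    rw [AlgHom.comp_apply, aeval_X, h2, AlgHom.id_apply]
  · refine MvPolynomial.algHom_ext fun l => ?_
    rw [AlgHom.comp_apply, aeval_X, h1, AlgHom.id_apply]

open MvPolynomial in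
/-- the conclusion of `St_B6` -/
private def B6_Q (p : ℕ) {k : Type} [Field k] {n : ℕ}
    (S f : MvPolynomial (Fin (n + 1)) k) : Prop :=
  ∃ (S' : Polynomial k) (f' : MvPolynomial (Fin (n + 1)) k), AQ p f' ∧
    Nonempty (AP p (Polynomial (MvPolynomial (Fin (n + 1)) k))
        (Polynomial.C S * Polynomial.X + Polynomial.C f) ≃+*
      AP p (Polynomial (MvPolynomial (Fin (n + 1)) k))
        (Polynomial.C (Polynomial.aeval (MvPolynomial.X 0 : MvPolynomial (Fin (n + 1)) k) S') *
          Polynomial.X + Polynomial.C f'))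

open MvPolynomial in
private theorem B6_tr (h1 : St_A1) (p : ℕ) [Fact p.Prime] {k : Type} [Field k] {n : ℕ}
    (φ φ' : Fin (n + 1) → MvPolynomial (Fin (n + 1)) k)
    (h2 : ∀ l, aeval φ' (φ l) = X l) (h3 : ∀ l, aeval φ (φ' l) = X l)
    (S f : MvPolynomial (Fin (n + 1)) k) (h : B6_Q p (aeval φ S) (aeval φ f)) : B6_Q p S f := by
  obtain ⟨S', f', h4, ⟨e⟩⟩ := h
  obtain ⟨E, hE⟩ := B6_aut φ φ' h2 h3
  obtain ⟨e1⟩ := B6_ap h1 p E.toRingEquiv S f
  have h5 : ∀ P, E.toRingEquiv P = aeval φ P := hE
  rw [h5, h5] at e1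
  exact ⟨S', f', h4, ⟨e1.trans e⟩⟩

theorem thm_B6 (h1 : St_A1) (h2 : St_B2) : St_B6 := by
  intro p _ k _ _ _ n S f hS hf
  have hX : ∀ i : Fin (n + 1), AffM p (MvPolynomial.X i : MvPolynomial (Fin (n + 1)) k) := by
    intro i d hd
    refine Or.inr ⟨i, 0, ?_⟩
    rw [pow_zero]
    have h3 := MvPolynomial.support_X (R := k) (n := i)
    rw [h3] at hd
    exact Finset.mem_singleton.1 hd
  obtain ⟨c, β, hβ, rfl⟩ := B6_dec hS
  suffices key : ∀ (N : ℕ) (β : Fin (n + 1) → Polynomial k)
      (f : MvPolynomial (Fin (n + 1)) k), (∀ j, Add1 p (β j)) → AQ p f →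
      ∑ j, (β j).natDegree = N → B6_Q p (MvPolynomial.C c +
        ∑ j, Polynomial.aeval (MvPolynomial.X j : MvPolynomial (Fin (n + 1)) k) (β j)) f from
    key _ β f hβ hf rfl
  intro N
  induction N using Nat.strong_induction_on with
  | _ N ih =>
  intro β f hβ hf hN
  by_cases hex : ∃ i j, i ≠ j ∧ β i ≠ 0 ∧ β j ≠ 0
  · -- reduction
    obtain ⟨i, j, hij, hi, hj, hle⟩ : ∃ i j, i ≠ j ∧ β i ≠ 0 ∧ β j ≠ 0 ∧
        (β j).natDegree ≤ (β i).natDegree := by
      obtain ⟨i, j, hij, hi, hj⟩ := hex
      rcases le_total (β j).natDegree (β i).natDegree with h | h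
      · exact ⟨i, j, hij, hi, hj, h⟩
      · exact ⟨j, i, hij.symm, hj, hi, h⟩
    obtain ⟨a, m, ham⟩ := B6_lt (hβ i) (hβ j) hi hj hle
    obtain ⟨γ, hγ⟩ : ∃ γ : Polynomial k,
        γ = (β j).comp (Polynomial.C a * Polynomial.X ^ (p ^ m)) := ⟨_, rfl⟩
    have hγ1 : Add1 p γ := by rw [hγ]; exact B6_add1_comp (hβ j) a m
    rw [← hγ] at ham
    obtain ⟨φ, hφ⟩ : ∃ φ : k → Fin (n + 1) → MvPolynomial (Fin (n + 1)) k, φ = fun b l =>
        if l = j then MvPolynomial.X j + MvPolynomial.C b * MvPolynomial.X i ^ (p ^ m)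
        else MvPolynomial.X l := ⟨_, rfl⟩
    have hφj : ∀ b, φ b j = MvPolynomial.X j + MvPolynomial.C b * MvPolynomial.X i ^ (p ^ m) := by
      intro b
      rw [hφ]
      exact if_pos rfl
    have hφl : ∀ b l, l ≠ j → φ b l = MvPolynomial.X l := by
      intro b l hl
      rw [hφ]
      exact if_neg hl
    have hinv : ∀ b b' : k, b + b' = 0 → ∀ l, MvPolynomial.aeval (φ b') (φ b l) =
        MvPolynomial.X l := by
      intro b b' hb l
      by_cases hl : l = j
      · subst hl
        rw [hφj, map_add, map_mul, map_pow, MvPolynomial.aeval_X, MvPolynomial.aeval_X, hφj,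
          hφl _ i hij, MvPolynomial.aeval_C]
        show MvPolynomial.X l + MvPolynomial.C b' * MvPolynomial.X i ^ (p ^ m) +
          MvPolynomial.C b * MvPolynomial.X i ^ (p ^ m) = _
        have h3 : (MvPolynomial.C b + MvPolynomial.C b' : MvPolynomial (Fin (n + 1)) k) = 0 := by
          rw [← map_add, hb, map_zero]
        linear_combination (MvPolynomial.X i ^ (p ^ m)) * h3
      · rw [hφl _ l hl, MvPolynomial.aeval_X, hφl _ l hl]
    have hAff : ∀ l, AffM p (φ a l) := by
      intro l
      by_cases hl : l = j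
      · subst hl
        rw [hφj]
        intro d hd
        rcases Finset.mem_union.1 (MvPolynomial.support_add hd) with h3 | h3
        · exact hX _ d h3
        · rw [MvPolynomial.C_mul_X_pow_eq_monomial] at h3
          exact Or.inr ⟨i, m, Finset.mem_singleton.1 (MvPolynomial.support_monomial_subset h3)⟩
      · rw [hφl _ l hl]
        exact hX l
    refine B6_tr h1 p (φ a) (φ (-a)) (hinv _ _ (add_neg_cancel a)) (hinv _ _ (neg_add_cancel a))
      _ _ ?_
    have hS' : MvPolynomial.aeval (φ a) (MvPolynomial.C c +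
        ∑ l, Polynomial.aeval (MvPolynomial.X l : MvPolynomial (Fin (n + 1)) k) (β l)) =
        MvPolynomial.C c + ∑ l, Polynomial.aeval
          (MvPolynomial.X l : MvPolynomial (Fin (n + 1)) k)
          (Function.update β i (β i + γ) l) := by
      rw [map_add, map_sum, MvPolynomial.aeval_C]
      have h3 : ∀ l, MvPolynomial.aeval (φ a)
          (Polynomial.aeval (MvPolynomial.X l : MvPolynomial (Fin (n + 1)) k) (β l)) =
          Polynomial.aeval (MvPolynomial.X l : MvPolynomial (Fin (n + 1)) k) (β l) +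
            if l = j then Polynomial.aeval
              (MvPolynomial.X i : MvPolynomial (Fin (n + 1)) k) γ else 0 := by
        intro l
        rw [← Polynomial.aeval_algHom_apply, MvPolynomial.aeval_X]
        by_cases hl : l = j
        · subst hl
          rw [hφj, if_pos rfl, B6_add1_aeval (hβ l), hγ, Polynomial.aeval_comp, map_mul,
            Polynomial.aeval_C, map_pow, Polynomial.aeval_X]
          rfl
        · rw [hφl _ l hl, if_neg hl, add_zero]
      have h4 : ∀ l, Polynomial.aeval (MvPolynomial.X l : MvPolynomial (Fin (n + 1)) k)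
          (Function.update β i (β i + γ) l) =
          Polynomial.aeval (MvPolynomial.X l : MvPolynomial (Fin (n + 1)) k) (β l) +
            if l = i then Polynomial.aeval
              (MvPolynomial.X i : MvPolynomial (Fin (n + 1)) k) γ else 0 := by
        intro l
        by_cases hl : l = i
        · subst hl
          rw [Function.update_self, map_add, if_pos rfl]
        · rw [Function.update_of_ne hl, if_neg hl, add_zero]
      rw [Finset.sum_congr rfl fun l _ => h3 l, Finset.sum_congr rfl fun l _ => h4 l,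
        Finset.sum_add_distrib, Finset.sum_add_distrib, Finset.sum_ite_eq', Finset.sum_ite_eq',
        if_pos (Finset.mem_univ _), if_pos (Finset.mem_univ _)]
      rfl
    rw [hS']
    refine ih (∑ l, (Function.update β i (β i + γ) l).natDegree) ?_ _ _ ?_
      ((h2 p k (Fin (n + 1)) (Fin (n + 1))).1 f (φ a) hf hAff) rfl
    · rw [← hN]
      refine Finset.sum_lt_sum (fun l _ => ?_) ⟨i, Finset.mem_univ i, ?_⟩
      · by_cases hl : l = i
        · subst hl
          rw [Function.update_self]
          exact ham.le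
        · rw [Function.update_of_ne hl]
      · rw [Function.update_self]
        exact ham
    · intro l
      by_cases hl : l = i
      · subst hl
        rw [Function.update_self]
        exact B6_add1_add (hβ _) hγ1
      · rw [Function.update_of_ne hl]
        exact hβ l
  · -- at most one variable
    have hone : ∃ j, ∀ l, l ≠ j → β l = 0 := by
      by_cases h3 : ∃ j, β j ≠ 0
      · obtain ⟨j, hj⟩ := h3
        refine ⟨j, fun l hl => ?_⟩
        by_contra h4
        exact hex ⟨l, j, hl, h4, hj⟩
      · exact ⟨0, fun l _ => by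
          by_contra h4
          exact h3 ⟨l, h4⟩⟩
    obtain ⟨j, hj⟩ := hone
    have hsum : ∑ l, Polynomial.aeval (MvPolynomial.X l : MvPolynomial (Fin (n + 1)) k) (β l) =
        Polynomial.aeval (MvPolynomial.X j : MvPolynomial (Fin (n + 1)) k) (β j) := by
      refine Finset.sum_eq_single j (fun l _ hl => ?_) fun h => absurd (Finset.mem_univ j) h
      rw [hj l hl, map_zero]
    rw [hsum]
    obtain ⟨φ, hφ⟩ : ∃ φ : Fin (n + 1) → MvPolynomial (Fin (n + 1)) k,
        φ = fun l => MvPolynomial.X (Equiv.swap 0 j l) := ⟨_, rfl⟩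
    have hφ1 : ∀ l, φ l = MvPolynomial.X (Equiv.swap 0 j l) := fun l => by rw [hφ]
    have hinv : ∀ l, MvPolynomial.aeval φ (φ l) = MvPolynomial.X l := by
      intro l
      rw [hφ1, MvPolynomial.aeval_X, hφ1, Equiv.swap_apply_self]
    refine B6_tr h1 p φ φ hinv hinv _ _ ?_
    refine ⟨Polynomial.C c + β j, MvPolynomial.aeval φ f,
      (h2 p k (Fin (n + 1)) (Fin (n + 1))).1 f φ hf fun l => by rw [hφ1]; exact hX _, ?_⟩
    have h3 : MvPolynomial.aeval φ (MvPolynomial.C c +
        Polynomial.aeval (MvPolynomial.X j : MvPolynomial (Fin (n + 1)) k) (β j)) =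
        Polynomial.aeval (MvPolynomial.X 0 : MvPolynomial (Fin (n + 1)) k)
          (Polynomial.C c + β j) := by
      rw [map_add, map_add, ← Polynomial.aeval_algHom_apply, MvPolynomial.aeval_X, hφ1,
        Equiv.swap_apply_right, MvPolynomial.aeval_C, Polynomial.aeval_C]
    rw [h3]
    exact ⟨RingEquiv.refl _⟩

end Pool.Agent.AQS
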