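import Pool.Agent.AQS.St

/-!
# AQS, module B7

Statement and proof: see `St_B7` in `Pool/Agent/AQS/St.lean`.
-/

set_option autoImplicit false
set_option linter.unusedSectionVars false

namespace Pool.Agent.AQS

open Function Pool.Agent.Helper11 Pool.Agent.HPow Pool.Agent.Helper67.Bass

open Polynomial in
/-- one more variable -/
private theorem B7_var (h1 : St_A1) (p : ℕ) [Fact p.Prime] (W : Type) [CommRing W]
    [IsNoetherianRing W] (h : W) (hg : GoodP p (AP p W h)) : GoodP p (AP p W[X] (C h)) := by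
  have h3 := (h1 p W).2.2.1 inferInstance Unit h hg
  obtain ⟨e⟩ := (h1 p (MvPolynomial Unit W)).2.1 W[X]
    (MvPolynomial.uniqueAlgEquiv W Unit).toRingEquiv (MvPolynomial.C h)
  have h4 : (MvPolynomial.uniqueAlgEquiv W Unit).toRingEquiv (MvPolynomial.C h) = C h := by
    show MvPolynomial.uniqueAlgEquiv W Unit (algebraMap W _ h) = C h
    rw [AlgEquiv.commutes]
    rfl
  rw [h4] at e
  exact GoodP.of_equiv e h3

open Polynomial in
/-- a unit coefficient -/
private theorem B7_unit (p : ℕ) {V : Type} [CommRing V] (u : Vˣ) (g : V) :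
    Nonempty (V[X] ≃+* AP p V[X] (C (u : V) * X + C g)) := by
  let h : V[X] := C (u : V) * X + C g
  let ξ : V[X] := C ((u⁻¹ : Vˣ) : V) * (X ^ p - X - C g)
  have hξ : C (u : V) * ξ = X ^ p - X - C g := by
    show C (u : V) * (C ((u⁻¹ : Vˣ) : V) * (X ^ p - X - C g)) = _
    rw [← mul_assoc, ← C_mul, Units.mul_inv, C_1, one_mul]
  let φ : V[X] →+* V[X] := eval₂RingHom C ξ
  have hφC : ∀ v, φ (C v) = C v := fun v => eval₂_C _ _
  have hφX : φ X = ξ := eval₂_X _ _
  have hb : (X : V[X]) ^ p - X = φ h := by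
    show _ = φ (C (u : V) * X + C g)
    rw [map_add, map_mul, hφC, hφC, hφX, hξ]
    ring
  let α : AP p V[X] h →+* V[X] := AP.lift φ X hb
  have hαo : ∀ w, α (AP.o h w) = φ w := AP.lift_o φ X hb
  have hαy : α (AP.y h) = X := AP.lift_y φ X hb
  let β : V[X] →+* AP p V[X] h := eval₂RingHom ((AP.o h : V[X] →+* AP p V[X] h).comp C) (AP.y h)
  have hβC : ∀ v, β (C v) = AP.o h (C v) := fun v => eval₂_C _ _
  have hβX : β X = AP.y h := eval₂_X _ _
  have hβξ : β ξ = AP.o h X := by
    have e1 : AP.o h (C (u : V)) * β ξ = AP.o h (C (u : V)) * AP.o h X := by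
      have e2 : AP.o h (C (u : V)) * β ξ = β (C (u : V) * ξ) := by
        rw [map_mul β (C (u : V)) ξ, hβC]
      have e3 := AP.eq (p := p) h
      have e4 : AP.o h h = AP.o h (C (u : V)) * AP.o h X + (AP.o h (C g) : AP p V[X] h) := by
        show AP.o h (C (u : V) * X + C g) = _
        rw [map_add, map_mul]
      rw [e2, hξ, map_sub, map_sub, map_pow, hβX, hβC, e3, e4]
      ring
    have e5 : (AP.o h (C ((u⁻¹ : Vˣ) : V)) : AP p V[X] h) * AP.o h (C (u : V)) = 1 := by
      rw [← map_mul, ← C_mul, Units.inv_mul, C_1, map_one]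
    calc β ξ = AP.o h (C ((u⁻¹ : Vˣ) : V)) * (AP.o h (C (u : V)) * β ξ) := by
          rw [← mul_assoc, e5, one_mul]
      _ = AP.o h X := by rw [e1, ← mul_assoc, e5, one_mul]
  refine ⟨RingEquiv.ofRingHom β α ?_ ?_⟩
  · refine AP.ext (fun w => ?_) ?_
    · show β (α (AP.o h w)) = AP.o h w
      rw [hαo]
      have e6 : β.comp φ = (AP.o h : V[X] →+* AP p V[X] h) := by
        refine Polynomial.ringHom_ext (fun v => ?_) ?_
        · show β (φ (C v)) = _
          rw [hφC, hβC]
        · show β (φ X) = _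
          rw [hφX, hβξ]
      exact congrArg (fun θ => θ w) e6
    · show β (α (AP.y h)) = AP.y h
      rw [hαy, hβX]
  · refine Polynomial.ringHom_ext (fun v => ?_) ?_
    · show α (β (C v)) = C v
      rw [hβC, hαo, hφC]
    · show α (β X) = X
      rw [hβX, hαy]

open Polynomial in
/-- the specialisation `x_0 ↦ r` is surjective with kernel `(π(x_0))` -/
private theorem B7_ker (k : Type) [Field k] (n : ℕ) (π : k[X]) :
    ∃ ψ : MvPolynomial (Fin (n + 1)) k →ₐ[k] MvPolynomial (Fin n) (AdjoinRoot π),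
      (ψ = MvPolynomial.aeval (Fin.cons (MvPolynomial.C (AdjoinRoot.root π)) MvPolynomial.X :
        Fin (n + 1) → MvPolynomial (Fin n) (AdjoinRoot π))) ∧ Surjective ψ ∧
      RingHom.ker (ψ : MvPolynomial (Fin (n + 1)) k →+* MvPolynomial (Fin n) (AdjoinRoot π)) =
        Ideal.span {aeval (MvPolynomial.X 0 : MvPolynomial (Fin (n + 1)) k) π} := by
  let W := MvPolynomial (Fin (n + 1)) k
  let s : W := aeval (MvPolynomial.X 0 : W) π
  let T := MvPolynomial (Fin n) (AdjoinRoot π)
  let v : Fin (n + 1) → T := Fin.cons (MvPolynomial.C (AdjoinRoot.root π)) MvPolynomial.X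
  let ψ : W →ₐ[k] T := MvPolynomial.aeval v
  have hψ0 : ψ (MvPolynomial.X 0) = MvPolynomial.C (AdjoinRoot.root π) := by
    show MvPolynomial.aeval v (MvPolynomial.X 0) = _
    rw [MvPolynomial.aeval_X]
    rfl
  have hψs : ∀ i : Fin n, ψ (MvPolynomial.X i.succ) = MvPolynomial.X i := by
    intro i
    show MvPolynomial.aeval v (MvPolynomial.X i.succ) = _
    rw [MvPolynomial.aeval_X]
    rfl
  have hψC : ∀ c : k, ψ (MvPolynomial.C c) = MvPolynomial.C (AdjoinRoot.of π c) := by
    intro c
    show MvPolynomial.aeval v (MvPolynomial.C c) = _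
    rw [MvPolynomial.aeval_C]
    rfl
  -- the inverse
  let I : Ideal W := Ideal.span {s}
  let q : W →+* W ⧸ I := Ideal.Quotient.mk I
  have hq : q s = 0 := Ideal.Quotient.eq_zero_iff_mem.2 (Ideal.mem_span_singleton_self s)
  let φ : AdjoinRoot π →+* W ⧸ I := AdjoinRoot.lift (q.comp MvPolynomial.C) (q (MvPolynomial.X 0)) (by
    have e1 : q s = eval₂ (q.comp MvPolynomial.C) (q (MvPolynomial.X 0)) π := by
      show q (aeval (MvPolynomial.X 0 : W) π) = _
      rw [aeval_def, hom_eval₂]
      rfl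
    rw [← e1, hq])
  have hφo : ∀ c, φ (AdjoinRoot.of π c) = q (MvPolynomial.C c) := fun c => AdjoinRoot.lift_of _
  have hφr : φ (AdjoinRoot.root π) = q (MvPolynomial.X 0) := AdjoinRoot.lift_root _
  let θ : T →+* W ⧸ I := MvPolynomial.eval₂Hom φ (fun i => q (MvPolynomial.X i.succ))
  have hθC : ∀ c, θ (MvPolynomial.C c) = φ c := fun c => MvPolynomial.eval₂Hom_C _ _ _
  have hθX : ∀ i, θ (MvPolynomial.X i) = q (MvPolynomial.X i.succ) := fun i =>
    MvPolynomial.eval₂Hom_X' _ _ _
  have hθψ : θ.comp (ψ : W →+* T) = q := by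
    refine MvPolynomial.ringHom_ext (fun c => ?_) (fun i => ?_)
    · show θ (ψ (MvPolynomial.C c)) = q (MvPolynomial.C c)
      rw [hψC, hθC, hφo]
    · show θ (ψ (MvPolynomial.X i)) = q (MvPolynomial.X i)
      refine Fin.cases ?_ (fun i => ?_) i
      · rw [hψ0, hθC, hφr]
      · rw [hψs, hθX]
  refine ⟨ψ, rfl, ?_, ?_⟩
  · intro t
    induction t using MvPolynomial.induction_on with
    | C c =>
      obtain ⟨P, rfl⟩ := AdjoinRoot.mk_surjective c
      refine ⟨aeval (MvPolynomial.X 0 : W) P, ?_⟩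
      have e1 : ψ (aeval (MvPolynomial.X 0 : W) P) = aeval (MvPolynomial.C (AdjoinRoot.root π) : T) P := by
        rw [← aeval_algHom_apply, hψ0]
      rw [e1]
      have e2 : (MvPolynomial.C (AdjoinRoot.root π) : T) =
          algebraMap (AdjoinRoot π) T (AdjoinRoot.root π) := rfl
      rw [e2, aeval_algebraMap_apply, AdjoinRoot.aeval_eq]
      rfl
    | add x y hx hy =>
      obtain ⟨a, rfl⟩ := hx
      obtain ⟨b, rfl⟩ := hy
      exact ⟨a + b, map_add _ _ _⟩
    | mul_X x i hx =>
      obtain ⟨a, rfl⟩ := hx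
      exact ⟨a * MvPolynomial.X i.succ, by rw [map_mul, hψs]⟩
  · ext w
    rw [RingHom.mem_ker]
    constructor
    · intro hw
      have e1 : q w = θ (ψ w) := (congrArg (fun f => f w) hθψ).symm
      have e2 : ψ w = 0 := hw
      rw [e2, map_zero] at e1
      exact Ideal.Quotient.eq_zero_iff_mem.1 e1
    · intro hw
      rw [Ideal.mem_span_singleton] at hw
      obtain ⟨t, rfl⟩ := hw
      show ψ (aeval (MvPolynomial.X 0 : W) π * t) = 0
      have e1 : ψ (aeval (MvPolynomial.X 0 : W) π) = 0 := by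
        rw [← aeval_algHom_apply, hψ0]
        have e2 : (MvPolynomial.C (AdjoinRoot.root π) : T) =
          algebraMap (AdjoinRoot π) T (AdjoinRoot.root π) := rfl
        rw [e2, aeval_algebraMap_apply, AdjoinRoot.aeval_eq, AdjoinRoot.mk_self, map_zero]
      rw [map_mul, e1, zero_mul]

open Polynomial in
/-- an irreducible factor -/
private theorem B7_irr (h1 : St_A1) (h2 : St_B2) (p : ℕ) [Fact p.Prime] (n : ℕ) (hN : GoodN p n)
    (k : Type) [Field k] [Finite k] [CharP k p] (f : MvPolynomial (Fin (n + 1)) k) (hf : AQ p f)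
    (π : k[X]) (hπ : Irreducible π) :
    GoodP p (AP p ((MvPolynomial (Fin (n + 1)) k)[X] ⧸ Ideal.span
      {(C (aeval (MvPolynomial.X 0 : MvPolynomial (Fin (n + 1)) k) π) :
        (MvPolynomial (Fin (n + 1)) k)[X])}) (Ideal.Quotient.mk _ (C f))) := by
  have : Fact (Irreducible π) := ⟨hπ⟩
  let k' := AdjoinRoot π
  have : Module.Finite k k' := (AdjoinRoot.powerBasis hπ.ne_zero).finite
  have : Finite k' := Module.finite_of_finite k
  have : CharP k' p := charP_of_injective_algebraMap (algebraMap k k').injective p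
  obtain ⟨ψ, hψ, hsurj, hker⟩ := B7_ker k n π
  let W := MvPolynomial (Fin (n + 1)) k
  let T := MvPolynomial (Fin n) k'
  let ψ' : W →+* T := (ψ : W →+* T)
  let Ψ : W[X] →+* T[X] := mapRingHom ψ'
  have hΨ : Surjective Ψ := map_surjective ψ' hsurj
  have hΨk : RingHom.ker Ψ = Ideal.span
      {(C (aeval (MvPolynomial.X 0 : W) π) : W[X])} := by
    show RingHom.ker (mapRingHom ψ') = _
    rw [ker_mapRingHom]
    have : RingHom.ker ψ' = Ideal.span {aeval (MvPolynomial.X 0 : W) π} := hker
    rw [this, Ideal.map_span, Set.image_singleton]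
  -- the equation over `k'`
  have hAff : ∀ i, AffM p ((Fin.cons (MvPolynomial.C (AdjoinRoot.root π)) MvPolynomial.X :
      Fin (n + 1) → MvPolynomial (Fin n) (AdjoinRoot π)) i) := by
    intro i
    refine Fin.cases ?_ (fun i => ?_) i
    · show AffM p (MvPolynomial.C (AdjoinRoot.root π))
      intro d hd
      refine Or.inl ?_
      have := MvPolynomial.support_monomial_subset (s := (0 : Fin n →₀ ℕ))
        (a := AdjoinRoot.root π) hd
      exact Finset.mem_singleton.1 this
    · show AffM p (MvPolynomial.X i)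
      intro d hd
      refine Or.inr ⟨i, 0, ?_⟩
      have := MvPolynomial.support_monomial_subset (s := Finsupp.single i 1)
        (a := (1 : AdjoinRoot π)) hd
      rw [pow_zero]
      exact Finset.mem_singleton.1 this
  have hf1 : AQ p (ψ f) := by
    have e1 := (h2 p k (Fin (n + 1)) (Fin n)).2.2.2.2.2.1 k' (algebraMap k k') f hf
    have e2 := (h2 p k' (Fin (n + 1)) (Fin n)).1 _ _ e1 hAff
    have e3 : MvPolynomial.aeval (Fin.cons (MvPolynomial.C (AdjoinRoot.root π)) MvPolynomial.X :
        Fin (n + 1) → MvPolynomial (Fin n) (AdjoinRoot π)) (MvPolynomial.map (algebraMap k k') f) =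
        ψ f := by
      rw [hψ, MvPolynomial.aeval_map_algebraMap]
    rw [e3] at e2
    exact e2
  have hg : GoodP p (AP p T[X] (C (ψ f))) :=
    B7_var h1 p T (ψ f) (hN k' (ψ f) hf1)
  let E : (W[X] ⧸ Ideal.span {(C (aeval (MvPolynomial.X 0 : W) π) : W[X])}) ≃+* T[X] :=
    (Ideal.quotEquivOfEq hΨk.symm).trans (RingHom.quotientKerEquivOfSurjective hΨ)
  have hE : E (Ideal.Quotient.mk _ (C f)) = C (ψ f) := by
    show RingHom.quotientKerEquivOfSurjective hΨ (Ideal.quotEquivOfEq hΨk.symm
      (Ideal.Quotient.mk _ (C f))) = _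
    rw [Ideal.quotEquivOfEq_mk]
    show Ψ (C f) = _
    exact map_C _
  obtain ⟨e⟩ := (h1 p (W[X] ⧸ Ideal.span {(C (aeval (MvPolynomial.X 0 : W) π) : W[X])})).2.1
    T[X] E (Ideal.Quotient.mk _ (C f))
  rw [hE] at e
  exact GoodP.of_equiv e.symm hg

private theorem B7_cast {p : ℕ} {R : Type} [CommRing R] {s t : R} (e : s = t) (h : R)
    (hg : GoodP p (AP p (R ⧸ Ideal.span {s}) (Ideal.Quotient.mk _ h))) :
    GoodP p (AP p (R ⧸ Ideal.span {t}) (Ideal.Quotient.mk _ h)) := by
  subst e
  exact hg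

open Polynomial in
/-- modulo `S` -/
private theorem B7_mod (h1 : St_A1) (h2 : St_B2) (p : ℕ) [Fact p.Prime] (n : ℕ) (hN : GoodN p n)
    (k : Type) [Field k] [Finite k] [CharP k p] (f : MvPolynomial (Fin (n + 1)) k) (hf : AQ p f)
    (S : k[X]) (hS : S ≠ 0) :
    GoodP p (AP p ((MvPolynomial (Fin (n + 1)) k)[X] ⧸ Ideal.span
      {(C (aeval (MvPolynomial.X 0 : MvPolynomial (Fin (n + 1)) k) S) :
        (MvPolynomial (Fin (n + 1)) k)[X])}) (Ideal.Quotient.mk _ (C f))) := by
  revert hS
  induction S using WfDvdMonoid.induction_on_irreducible with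
  | zero => intro h; exact absurd rfl h
  | unit u hu =>
    intro _
    have h3 : IsUnit (C (aeval (MvPolynomial.X 0 : MvPolynomial (Fin (n + 1)) k) u) :
        (MvPolynomial (Fin (n + 1)) k)[X]) :=
      (hu.map (aeval (MvPolynomial.X 0 : MvPolynomial (Fin (n + 1)) k))).map C
    have : Subsingleton ((MvPolynomial (Fin (n + 1)) k)[X] ⧸ Ideal.span
      {(C (aeval (MvPolynomial.X 0 : MvPolynomial (Fin (n + 1)) k) u) :
        (MvPolynomial (Fin (n + 1)) k)[X])}) := by
      rw [Ideal.Quotient.subsingleton_iff]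
      exact Ideal.span_singleton_eq_top.2 h3
    have : Subsingleton (AP p ((MvPolynomial (Fin (n + 1)) k)[X] ⧸ Ideal.span
      {(C (aeval (MvPolynomial.X 0 : MvPolynomial (Fin (n + 1)) k) u) :
        (MvPolynomial (Fin (n + 1)) k)[X])}) (Ideal.Quotient.mk _ (C f))) :=
      AdjoinRoot.mk_surjective.subsingleton
    exact GoodP.of_subsingleton p _
  | mul a i ha hi ih =>
    intro _
    have h4 := (h1 p (MvPolynomial (Fin (n + 1)) k)[X]).2.2.2.2.2.2 inferInstance
      (C (aeval (MvPolynomial.X 0 : MvPolynomial (Fin (n + 1)) k) i))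
      (C (aeval (MvPolynomial.X 0 : MvPolynomial (Fin (n + 1)) k) a)) (C f)
      (B7_irr h1 h2 p n hN k f hf i hi) (ih ha)
    refine B7_cast ?_ _ h4
    rw [← C_mul, ← map_mul]

open Polynomial in
theorem thm_B7 (h1 : St_A1) (h2 : St_B2) : St_B7 := by
  intro p _ n hN1 hN k _ _ _ S f hf
  let W := MvPolynomial (Fin (n + 1)) k
  by_cases hS : S = 0
  · subst hS
    have e : (C (aeval (MvPolynomial.X 0 : W) (0 : k[X])) * X + C f : W[X]) = C f := by
      rw [map_zero, C_0, zero_mul, zero_add]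
    rw [e]
    exact B7_var h1 p W f (hN1 k f hf)
  · let s : W := aeval (MvPolynomial.X 0 : W) S
    let V0 := Localization.Away s
    have : IsNoetherianRing V0 := IsLocalization.isNoetherianRing (Submonoid.powers s) V0 inferInstance
    let _ : Algebra W[X] V0[X] := Polynomial.algebra W V0
    have hloc : IsLocalization.Away (C s : W[X]) V0[X] := by
      have := Polynomial.isLocalization (Submonoid.powers s) V0
      rw [Submonoid.map_powers] at this
      exact this
    refine (h1 p W[X]).2.2.2.2.2.1 inferInstance V0[X] (C s) (C s * X + C f) ?_ ?_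
    · have e : (Ideal.Quotient.mk (Ideal.span {(C s : W[X])}) (C s * X + C f)) =
          Ideal.Quotient.mk _ (C f) := by
        rw [Ideal.Quotient.eq, Ideal.mem_span_singleton]
        exact ⟨X, by ring⟩
      rw [e]
      exact B7_mod h1 h2 p n hN k f hf S hS
    · have hu : IsUnit (algebraMap W V0 s) := IsLocalization.Away.algebraMap_isUnit s
      obtain ⟨u, hu⟩ := hu
      have e : algebraMap W[X] V0[X] (C s * X + C f) = C (u : V0) * X + C (algebraMap W V0 f) := by
        show mapRingHom (algebraMap W V0) (C s * X + C f) = _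
        rw [map_add, map_mul, coe_mapRingHom, map_C, map_C, map_X, hu]
      rw [e]
      obtain ⟨E⟩ := B7_unit p u (algebraMap W V0 f)
      have hk : FinGn k := FinGn.of_pid k
      have hW : FinGn W := hk.mvPolynomial (Fin (n + 1))
      have hV0 : FinGn V0 := FinGn.away s hW
      exact GoodP.of_equiv E (GoodP.of_finGn p hV0).polynomial

end Pool.Agent.AQS
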