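import Pool.Agent.AQS.St

/-!
# AQS, module B8

Statement and proof: see `St_B8` in `Pool/Agent/AQS/St.lean`.
-/

set_option autoImplicit false
set_option linter.unusedSectionVars false

namespace Pool.Agent.AQS

open Function Pool.Agent.Helper11 Pool.Agent.HPow Pool.Agent.Helper67.Bass

section B8

open Polynomial

/-- the additive polynomial with coefficients `w` -/
noncomputable def B8_phi (p : ℕ) {k : Type} [Field k] {D : ℕ} (w : Fin (D + 1) → k) : k[X] :=
  ∑ u, C (w u) * X ^ (p ^ (u : ℕ))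

/-- only exponents which are `p`-powers with exponent at most `N` -/
def B8_E (p N : ℕ) {k : Type} [Field k] (P : k[X]) : Prop :=
  ∀ e, P.coeff e ≠ 0 → ∃ m, m ≤ N ∧ e = p ^ m

variable {p : ℕ} [hp : Fact p.Prime] {k : Type} [Field k] {D n : ℕ}

theorem B8_phi_add (w w' : Fin (D + 1) → k) :
    B8_phi p (w + w') = B8_phi p w + B8_phi p w' := by
  unfold B8_phi
  rw [← Finset.sum_add_distrib]
  refine Finset.sum_congr rfl fun u _ => ?_
  rw [Pi.add_apply, C_add, add_mul]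

theorem B8_coeff (w : Fin (D + 1) → k) (e : ℕ) :
    (B8_phi p w).coeff e = ∑ u : Fin (D + 1), if e = p ^ (u : ℕ) then w u else 0 := by
  unfold B8_phi
  rw [finsetSum_coeff]
  refine Finset.sum_congr rfl fun u _ => ?_
  rw [coeff_C_mul_X_pow]

theorem B8_coeff_pow (w : Fin (D + 1) → k) (u : Fin (D + 1)) :
    (B8_phi p w).coeff (p ^ (u : ℕ)) = w u := by
  rw [B8_coeff, Finset.sum_eq_single u]
  · rw [if_pos rfl]
  · intro v _ hv
    rw [if_neg]
    intro h
    exact hv (Fin.ext (Nat.pow_right_injective hp.out.two_le h).symm)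
  · intro h
    exact absurd (Finset.mem_univ u) h

theorem B8_E_phi (w : Fin (D + 1) → k) : B8_E p D (B8_phi p w) := by
  intro e he
  rw [B8_coeff] at he
  obtain ⟨u, _, hu⟩ := Finset.exists_ne_zero_of_sum_ne_zero he
  by_cases h : e = p ^ (u : ℕ)
  · exact ⟨u, Nat.lt_succ_iff.1 u.2, h⟩
  · rw [if_neg h] at hu
    exact absurd rfl hu

theorem B8_add1 (w : Fin (D + 1) → k) : Add1 p (B8_phi p w) := by
  intro d hd
  rw [mem_support_iff] at hd
  obtain ⟨m, _, hm⟩ := B8_E_phi w d hd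
  exact ⟨m, hm⟩

theorem B8_phi_ne (w : Fin (D + 1) → k) (hw : w ≠ 0) : B8_phi p w ≠ 0 := by
  intro h
  refine hw (funext fun u => ?_)
  rw [← B8_coeff_pow (p := p) w u, h, coeff_zero, Pi.zero_apply]

theorem B8_E_pow [CharP k p] {N : ℕ} {P : k[X]} (h : B8_E p N P) (a : ℕ) :
    B8_E p (N + a) (P ^ (p ^ a)) := by
  induction a with
  | zero =>
    rw [pow_zero, pow_one]
    exact h
  | succ a ih =>
    have h1 : P ^ p ^ (a + 1) = (P ^ p ^ a) ^ p := by
      rw [pow_succ, pow_mul]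
    rw [h1]
    intro e he
    rw [← Polynomial.map_frobenius_expand (p := p), coeff_map] at he
    have h2 : (expand k p (P ^ p ^ a)).coeff e ≠ 0 := by
      intro h0
      rw [h0, map_zero] at he
      exact he rfl
    rw [coeff_expand hp.out.pos] at h2
    split at h2
    · next h3 =>
      obtain ⟨m, hm, hm'⟩ := ih _ h2
      refine ⟨m + 1, by omega, ?_⟩
      rw [pow_succ, ← hm', Nat.div_mul_cancel h3]
    · exact absurd rfl h2

theorem B8_mul_coeff {P Q : k[X]} {e : ℕ} (h : (P * Q).coeff e ≠ 0) :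
    ∃ x y, P.coeff x ≠ 0 ∧ Q.coeff y ≠ 0 ∧ e = x + y := by
  rw [coeff_mul] at h
  obtain ⟨⟨x, y⟩, hxy, hne⟩ := Finset.exists_ne_zero_of_sum_ne_zero h
  have hxy' : x + y = e := by simpa using hxy
  exact ⟨x, y, left_ne_zero_of_mul hne, right_ne_zero_of_mul hne, hxy'.symm⟩

/-- quadratic exponents -/
def B8_Q (p : ℕ) {n : ℕ} (d : Fin n →₀ ℕ) : Prop :=
  ∃ x : Fin n × Fin n × ℕ × ℕ,
    d = Finsupp.single x.1 (p ^ x.2.2.1) + Finsupp.single x.2.1 (p ^ x.2.2.2)

open Classical in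
/-- the bilinear contribution of a quadratic exponent -/
noncomputable def B8_T (p : ℕ) {k : Type} [Field k] {D n : ℕ} (d : Fin n →₀ ℕ) (c : k)
    (w w' : Fin n → Fin (D + 1) → k) : k[X] :=
  if h : B8_Q p d then C c * (B8_phi p (w h.choose.1) ^ (p ^ h.choose.2.2.1) *
    B8_phi p (w' h.choose.2.1) ^ (p ^ h.choose.2.2.2)) else 0

theorem B8_T_left [CharP k p] (d : Fin n →₀ ℕ) (c : k) (w₁ w₂ w' : Fin n → Fin (D + 1) → k) :
    B8_T p d c (w₁ + w₂) w' = B8_T p d c w₁ w' + B8_T p d c w₂ w' := by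
  unfold B8_T
  split
  · rw [Pi.add_apply, B8_phi_add, add_pow_char_pow, add_mul, mul_add]
  · rw [add_zero]

theorem B8_T_right [CharP k p] (d : Fin n →₀ ℕ) (c : k) (w w₁ w₂ : Fin n → Fin (D + 1) → k) :
    B8_T p d c w (w₁ + w₂) = B8_T p d c w w₁ + B8_T p d c w w₂ := by
  unfold B8_T
  split
  · rw [Pi.add_apply, B8_phi_add, add_pow_char_pow, mul_add, mul_add]
  · rw [add_zero]

theorem B8_T_self (d : Fin n →₀ ℕ) (c : k) (w : Fin n → Fin (D + 1) → k) (h : B8_Q p d) :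
    MvPolynomial.aeval (fun i => B8_phi p (w i)) (MvPolynomial.monomial d c) =
      B8_T p d c w w := by
  unfold B8_T
  rw [dif_pos h, MvPolynomial.aeval_monomial]
  have h1 := h.choose_spec
  conv_lhs => rw [h1]
  rw [Finsupp.prod_add_index', Finsupp.prod_single_index, Finsupp.prod_single_index]
  · rfl
  · exact pow_zero _
  · exact pow_zero _
  · intro _; exact pow_zero _
  · intro _ _ _; exact pow_add _ _ _

/-- exponents of the affine terms -/
theorem B8_aff [CharP k p] (d : Fin n →₀ ℕ) (c : k) (w : Fin n → Fin (D + 1) → k)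
    (h : d = 0 ∨ ∃ i a, d = Finsupp.single i (p ^ a)) (e : ℕ)
    (he : (MvPolynomial.aeval (fun i => B8_phi p (w i)) (MvPolynomial.monomial d c)).coeff e ≠ 0) :
    e = 0 ∨ ∃ m, e = p ^ m := by
  rw [MvPolynomial.aeval_monomial] at he
  rcases h with rfl | ⟨i, a, rfl⟩
  · left
    rw [Finsupp.prod_zero_index, mul_one] at he
    by_contra h0
    rw [Polynomial.algebraMap_apply, coeff_C, if_neg h0] at he
    exact he rfl
  · right
    have h1 : ((Finsupp.single i (p ^ a)).prod fun i k_1 => B8_phi p (w i) ^ k_1) =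
        B8_phi p (w i) ^ (p ^ a) := Finsupp.prod_single_index (pow_zero _)
    rw [h1, Polynomial.algebraMap_apply, coeff_C_mul] at he
    obtain ⟨m, _, hm⟩ := B8_E_pow (B8_E_phi (p := p) (w i)) a e (right_ne_zero_of_mul he)
    exact ⟨m, hm⟩

/-- exponents of the quadratic terms -/
theorem B8_quad [CharP k p] (d : Fin n →₀ ℕ) (c : k) (w : Fin n → Fin (D + 1) → k) (H : ℕ)
    (hH : ∀ i a b, ∀ j, d = Finsupp.single i (p ^ a) + Finsupp.single j (p ^ b) → a ≤ H ∧ b ≤ H)
    (h : B8_Q p d) (e : ℕ) (he : (B8_T p d c w w).coeff e ≠ 0) :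
    ∃ x y, x ≤ D + H ∧ y ≤ D + H ∧ e = p ^ x + p ^ y := by
  unfold B8_T at he
  rw [dif_pos h, coeff_C_mul] at he
  obtain ⟨x, y, hx, hy, hxy⟩ := B8_mul_coeff (right_ne_zero_of_mul he)
  obtain ⟨m, hm, rfl⟩ := B8_E_pow (B8_E_phi (p := p) _) _ x hx
  obtain ⟨m', hm', rfl⟩ := B8_E_pow (B8_E_phi (p := p) _) _ y hy
  obtain ⟨ha, hb⟩ := hH _ _ _ _ h.choose_spec
  exact ⟨m, m', by omega, by omega, hxy⟩

theorem B8_bound {f : MvPolynomial (Fin n) k} {d : Fin n →₀ ℕ} (hd : d ∈ f.support)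
    (i : Fin n) (a b : ℕ) (j : Fin n)
    (h : d = Finsupp.single i (p ^ a) + Finsupp.single j (p ^ b)) :
    a ≤ f.totalDegree ∧ b ≤ f.totalDegree := by
  have h1 := MvPolynomial.le_totalDegree hd
  rw [h, Finsupp.sum_add_index' (fun _ => rfl) (fun _ _ _ => rfl),
    Finsupp.sum_single_index rfl, Finsupp.sum_single_index rfl] at h1
  have ha : a < p ^ a := Nat.lt_pow_self hp.out.one_lt
  have hb : b < p ^ b := Nat.lt_pow_self hp.out.one_lt
  omega

/-- no pure power has a reduced exponent at least two -/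
theorem B8_pure {d i m : ℕ} (hd : 2 ≤ d) (hpd : ¬ p ∣ d) (h : p ^ i * d = p ^ m) : False := by
  have h1 : d ∣ p ^ m := ⟨p ^ i, by rw [← h, mul_comm]⟩
  obtain ⟨l, _, rfl⟩ := (Nat.dvd_prime_pow hp.out).1 h1
  rcases Nat.eq_zero_or_pos l with rfl | hl
  · rw [pow_zero] at hd; omega
  · exact hpd (dvd_pow_self p hl.ne')

theorem B8_aux {d i x y : ℕ} (hd : 2 ≤ d) (hpd : ¬ p ∣ d) (hxy : x ≤ y)
    (h : p ^ i * d = p ^ x + p ^ y) : d = 1 + p ^ (y - x) ∧ ¬ p ∣ 1 + p ^ (y - x) := by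
  have h1 : p ^ x + p ^ y = p ^ x * (1 + p ^ (y - x)) := by
    rw [mul_add, mul_one, ← pow_add, Nat.add_sub_cancel' hxy]
  by_cases hr : p ∣ 1 + p ^ (y - x)
  · exfalso
    rcases Nat.eq_zero_or_pos (y - x) with h0 | h0
    · rw [h0, pow_zero] at hr h1
      have hp2 : p = 2 := by
        have h3 := Nat.le_of_dvd (by norm_num) hr
        have h4 := hp.out.two_le
        omega
      rw [h1] at h
      refine B8_pure (i := i) (m := x + 1) hd hpd ?_
      rw [h, pow_succ, hp2, one_add_one_eq_two]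
    · have h3 : p ∣ 1 := (Nat.dvd_add_left (dvd_pow_self p h0.ne')).1 hr
      exact hp.out.one_lt.ne' (Nat.dvd_one.1 h3)
  · refine ⟨?_, hr⟩
    rw [h1] at h
    have c1 : Nat.Coprime (p ^ i) (1 + p ^ (y - x)) :=
      Nat.Coprime.pow_left _ ((Nat.Prime.coprime_iff_not_dvd hp.out).2 hr)
    have c2 : Nat.Coprime (p ^ x) d :=
      Nat.Coprime.pow_left _ ((Nat.Prime.coprime_iff_not_dvd hp.out).2 hpd)
    have c3 : Nat.Coprime (1 + p ^ (y - x)) (p ^ i) := c1.symm
    have c4 : Nat.Coprime d (p ^ x) := c2.symm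
    apply Nat.dvd_antisymm
    · exact c4.dvd_of_dvd_mul_left ⟨p ^ i, by rw [← h, mul_comm]⟩
    · exact c3.dvd_of_dvd_mul_left ⟨p ^ x, by rw [h, mul_comm]⟩

theorem B8_aux' {d i x y N : ℕ} (hx : x ≤ N) (hy : y ≤ N) (hd : 2 ≤ d) (hpd : ¬ p ∣ d)
    (h : p ^ i * d = p ^ x + p ^ y) : ∃ r, r ≤ N ∧ d = 1 + p ^ r ∧ ¬ p ∣ 1 + p ^ r := by
  rcases le_total x y with hxy | hxy
  · exact ⟨y - x, by omega, B8_aux hd hpd hxy h⟩
  · exact ⟨x - y, by omega, B8_aux hd hpd hxy (by rw [h, add_comm])⟩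

theorem B8_rho_zero [ExpChar k p] [PerfectRing k p] {P : k[X]} {d : ℕ}
    (h : ∀ i, P.coeff (p ^ i * d) = 0) : rho p P d = 0 := by
  unfold rho
  refine Finset.sum_eq_zero fun i _ => ?_
  rw [h]
  exact iterate_map_zero _ _

theorem B8_rho_ne [ExpChar k p] [PerfectRing k p] {P : k[X]} {d : ℕ}
    (h : rho p P d ≠ 0) : ∃ i, P.coeff (p ^ i * d) ≠ 0 := by
  by_contra hcon
  push Not at hcon
  exact h (B8_rho_zero hcon)

/-- the biadditive form -/
noncomputable def B8_B [Finite k] [CharP k p] [ExpChar k p] [PerfectRing k p] (h1 : St_B1)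
    (D : ℕ) (f : MvPolynomial (Fin n) k) (r : ℕ) :
    (Fin n → Fin (D + 1) → k) →+ (Fin n → Fin (D + 1) → k) →+ k :=
  AddMonoidHom.mk' (fun w => AddMonoidHom.mk' (fun w' =>
    ∑ d ∈ f.support, rho p (B8_T p d (f.coeff d) w w') (1 + p ^ r)) (by
      intro w₁ w₂
      rw [← Finset.sum_add_distrib]
      refine Finset.sum_congr rfl fun d _ => ?_
      rw [B8_T_right, (h1 p k).1 _ _ _ (Nat.le_add_right 1 _)])) (by
    intro w₁ w₂
    refine AddMonoidHom.ext fun w' => ?_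
    change ∑ d ∈ f.support, rho p (B8_T p d (f.coeff d) (w₁ + w₂) w') (1 + p ^ r) =
      ∑ d ∈ f.support, rho p (B8_T p d (f.coeff d) w₁ w') (1 + p ^ r) +
      ∑ d ∈ f.support, rho p (B8_T p d (f.coeff d) w₂ w') (1 + p ^ r)
    rw [← Finset.sum_add_distrib]
    refine Finset.sum_congr rfl fun d _ => ?_
    rw [B8_T_left, (h1 p k).1 _ _ _ (Nat.le_add_right 1 _)])

theorem B8_B_apply [Finite k] [CharP k p] [ExpChar k p] [PerfectRing k p] (h1 : St_B1)
    (D : ℕ) (f : MvPolynomial (Fin n) k) (r : ℕ) (w w' : Fin n → Fin (D + 1) → k) :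
    B8_B (p := p) h1 D f r w w' =
      ∑ d ∈ f.support, rho p (B8_T p d (f.coeff d) w w') (1 + p ^ r) := rfl

theorem B8_rho_sum [Finite k] [CharP k p] [ExpChar k p] [PerfectRing k p] (h1 : St_B1)
    {ι : Type} (s : Finset ι) (P : ι → k[X]) (d : ℕ) (hd : 1 ≤ d) :
    rho p (∑ i ∈ s, P i) d = ∑ i ∈ s, rho p (P i) d := by
  classical
  induction s using Finset.induction_on with
  | empty =>
    rw [Finset.sum_empty, Finset.sum_empty]
    exact B8_rho_zero fun i => coeff_zero _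
  | insert a s ha ih =>
    rw [Finset.sum_insert ha, Finset.sum_insert ha, (h1 p k).1 _ _ _ hd, ih]

theorem B8_key [Finite k] [CharP k p] [ExpChar k p] [PerfectRing k p] (h1 : St_B1)
    (D : ℕ) (f : MvPolynomial (Fin n) k) (hf : AQ p f) (w : Fin n → Fin (D + 1) → k)
    (hw : ∀ r, r ≤ D + f.totalDegree → B8_B (p := p) h1 D f r w w = 0) :
    LinP p (MvPolynomial.aeval (fun i => B8_phi p (w i)) f) := by
  rw [(h1 p k).2.2.2]
  intro d hd hpd
  have hsum : MvPolynomial.aeval (fun i => B8_phi p (w i)) f =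
      ∑ e ∈ f.support, MvPolynomial.aeval (fun i => B8_phi p (w i))
        (MvPolynomial.monomial e (f.coeff e)) := by
    conv_lhs => rw [f.as_sum, map_sum]
  rw [hsum, B8_rho_sum h1 _ _ _ (by omega)]
  -- every summand
  have hterm : ∀ e ∈ f.support, rho p (MvPolynomial.aeval (fun i => B8_phi p (w i))
      (MvPolynomial.monomial e (f.coeff e))) d = rho p (B8_T p e (f.coeff e) w w) d := by
    intro e he
    by_cases hQ : B8_Q p e
    · rw [B8_T_self _ _ _ hQ]
    · have hT : B8_T p e (f.coeff e) w w = 0 := by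
        unfold B8_T
        rw [dif_neg hQ]
      rw [hT, B8_rho_zero (P := 0) fun i => coeff_zero _]
      refine B8_rho_zero fun i => ?_
      by_contra hne
      have haff : e = 0 ∨ ∃ i a, e = Finsupp.single i (p ^ a) := by
        rcases hf e he with h0 | h0 | ⟨i, j, a, b, h0⟩
        · exact Or.inl h0
        · exact Or.inr h0
        · exact absurd ⟨(i, j, a, b), h0⟩ hQ
      rcases B8_aff e (f.coeff e) w haff _ hne with h0 | ⟨m, hm⟩
      · have : 0 < p ^ i * d := Nat.mul_pos (pow_pos hp.out.pos i) (by omega)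
        omega
      · exact B8_pure hd hpd hm
  rw [Finset.sum_congr rfl hterm]
  by_cases hr : ∃ r, r ≤ D + f.totalDegree ∧ d = 1 + p ^ r ∧ ¬ p ∣ 1 + p ^ r
  · obtain ⟨r, hr1, rfl, _⟩ := hr
    exact hw r hr1
  · refine Finset.sum_eq_zero fun e he => ?_
    by_contra hne
    obtain ⟨i, hi⟩ := B8_rho_ne hne
    by_cases hQ : B8_Q p e
    · obtain ⟨x, y, hx, hy, hxy⟩ := B8_quad e (f.coeff e) w f.totalDegree
        (fun i a b j h => B8_bound he i a b j h) hQ _ hi
      exact hr (B8_aux' hx hy hd hpd hxy)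
    · have hT : B8_T p e (f.coeff e) w w = 0 := by
        unfold B8_T
        rw [dif_neg hQ]
      rw [hT, coeff_zero] at hi
      exact hi rfl

theorem B8_rank (p' n' D' : ℕ) [Fact p'.Prime] (K : Type) [AddCommGroup K] [Module (ZMod p') K]
    [Module.Finite (ZMod p') K] :
    Module.finrank (ZMod p') (Fin n' → Fin (D' + 1) → K) =
      n' * ((D' + 1) * Module.finrank (ZMod p') K) := by
  rw [Module.finrank_pi_fintype]
  rw [Finset.sum_const, Finset.card_univ, Fintype.card_fin, smul_eq_mul,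
    Module.finrank_pi_fintype, Finset.sum_const, Finset.card_univ, Fintype.card_fin, smul_eq_mul]

theorem B8_arith (n' H M : ℕ) (hn : 3 ≤ n') (hM : 0 < M) :
    2 * ((2 * H + H + 1) * M) < n' * ((2 * H + 1) * M) := by
  have h3 : 2 * (2 * H + H + 1) < n' * (2 * H + 1) := by
    calc 2 * (2 * H + H + 1) < 3 * (2 * H + 1) := by omega
      _ ≤ n' * (2 * H + 1) := Nat.mul_le_mul_right _ hn
  calc 2 * ((2 * H + H + 1) * M) = (2 * (2 * H + H + 1)) * M := by ring
    _ < (n' * (2 * H + 1)) * M := Nat.mul_lt_mul_of_pos_right h3 hM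
    _ = n' * ((2 * H + 1) * M) := by ring

theorem B8_cheva (h8 : St_B8a) (K : Type) [AddCommGroup K] [Module (ZMod p) K]
    [Module.Finite (ZMod p) K] (hM : 0 < Module.finrank (ZMod p) K) (H n' : ℕ) (hn : 3 ≤ n')
    (B : ℕ → (Fin n' → Fin (2 * H + 1) → K) →+ (Fin n' → Fin (2 * H + 1) → K) →+ K) :
    ∃ w : Fin n' → Fin (2 * H + 1) → K, w ≠ 0 ∧ ∀ r, r ≤ 2 * H + H → B r w w = 0 := by
  let b := Module.finBasis (ZMod p) K
  let B' : Fin (2 * H + H + 1) × Fin (Module.finrank (ZMod p) K) →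
      (Fin n' → Fin (2 * H + 1) → K) →+ (Fin n' → Fin (2 * H + 1) → K) →+ ZMod p :=
    fun x => (AddMonoidHom.compHom (b.coord x.2).toAddMonoidHom).comp (B x.1)
  have hcard : 2 * Fintype.card (Fin (2 * H + H + 1) × Fin (Module.finrank (ZMod p) K)) <
      Module.finrank (ZMod p) (Fin n' → Fin (2 * H + 1) → K) := by
    rw [B8_rank, Fintype.card_prod, Fintype.card_fin, Fintype.card_fin]
    exact B8_arith _ _ _ hn hM
  obtain ⟨w, hw, hB⟩ := h8 p (Fin n' → Fin (2 * H + 1) → K)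
    (Fin (2 * H + H + 1) × Fin (Module.finrank (ZMod p) K)) B' hcard
  refine ⟨w, hw, fun r hr => ?_⟩
  apply b.ext_elem
  intro m
  have h4 := hB (⟨r, Nat.lt_succ_of_le hr⟩, m)
  rw [map_zero, Finsupp.zero_apply]
  exact h4

end B8

theorem thm_B8 (h1 : St_B1) (h8 : St_B8a) : St_B8 := by
  intro p hp k _ _ _ n hn f hf
  haveI : ExpChar k p := ExpChar.prime hp.out
  haveI : PerfectRing k p := PerfectRing.ofFiniteOfIsReduced p k
  letI : Algebra (ZMod p) k := ZMod.algebra k p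
  haveI : Module.Finite (ZMod p) k := Module.Finite.of_finite
  have hM : 0 < Module.finrank (ZMod p) k := Module.finrank_pos
  obtain ⟨w, hw, hB⟩ := B8_cheva h8 k hM f.totalDegree n hn
    (fun r => B8_B h1 (2 * f.totalDegree) f r)
  refine ⟨fun i => B8_phi p (w i), fun i => B8_add1 (w i), ?_, ?_⟩
  · by_contra hcon
    push Not at hcon
    refine hw (funext fun i => ?_)
    by_contra h0
    exact B8_phi_ne (p := p) (w i) h0 (hcon i)
  · exact B8_key h1 _ f hf w hB

end Pool.Agent.AQS
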