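import Pool.Agent.AQS.St
import Mathlib.FieldTheory.ChevalleyWarning

/-!
# AQS, module B8a

Statement and proof: see `St_B8a` in `Pool/Agent/AQS/St.lean`.
-/

set_option autoImplicit false
set_option linter.unusedSectionVars false

namespace Pool.Agent.AQS

open Function Pool.Agent.Helper11 Pool.Agent.HPow Pool.Agent.Helper67.Bass

theorem thm_B8a : St_B8a := by
  intro p _ W _ _ _ I _ B hB
  classical
  let b := Module.finBasis (ZMod p) W
  let f : I → MvPolynomial (Fin (Module.finrank (ZMod p) W)) (ZMod p) := fun i =>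
    ∑ u, ∑ v, MvPolynomial.C (B i (b u) (b v)) * (MvPolynomial.X u * MvPolynomial.X v)
  have hf : ∀ i, (f i).totalDegree ≤ 2 := by
    intro i
    refine MvPolynomial.totalDegree_finsetSum_le fun u _ =>
      MvPolynomial.totalDegree_finsetSum_le fun v _ => ?_
    refine (MvPolynomial.totalDegree_mul _ _).trans ?_
    rw [MvPolynomial.totalDegree_C, zero_add]
    refine (MvPolynomial.totalDegree_mul _ _).trans ?_
    rw [MvPolynomial.totalDegree_X, MvPolynomial.totalDegree_X]
  have hev : ∀ i (x : Fin (Module.finrank (ZMod p) W) → ZMod p),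
      MvPolynomial.eval x (f i) = B i (∑ u, x u • b u) (∑ v, x v • b v) := by
    intro i x
    have h2 : ∀ w, (B i) w (∑ v, x v • b v) = ∑ v, x v • B i w (b v) := by
      intro w
      rw [map_sum]
      exact Finset.sum_congr rfl fun v _ => ZMod.map_smul (B i w) (x v) (b v)
    have h1 : ∀ w, (B i) (∑ u, x u • b u) w = ∑ u, x u • B i (b u) w := by
      intro w
      have h3 : (B i).flip w (∑ u, x u • b u) = ∑ u, x u • (B i).flip w (b u) := by
        rw [map_sum]
        exact Finset.sum_congr rfl fun v _ => ZMod.map_smul ((B i).flip w) (x v) (b v)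
      exact h3
    rw [h1]
    have h5 : MvPolynomial.eval x (f i) = ∑ u, ∑ v, B i (b u) (b v) * (x u * x v) := by
      simp only [f, map_sum, map_mul, MvPolynomial.eval_C, MvPolynomial.eval_X]
    rw [h5]
    refine Finset.sum_congr rfl fun u _ => ?_
    rw [h2 (b u), Finset.smul_sum]
    refine Finset.sum_congr rfl fun v _ => ?_
    simp only [smul_eq_mul]
    ring
  have hsum : (∑ i, (f i).totalDegree) < Fintype.card (Fin (Module.finrank (ZMod p) W)) := by
    rw [Fintype.card_fin]
    refine lt_of_le_of_lt (Finset.sum_le_sum fun i _ => hf i) ?_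
    rw [Finset.sum_const, Finset.card_univ, smul_eq_mul, mul_comm]
    exact hB
  have hdvd := char_dvd_card_solutions_of_fintype_sum_lt p hsum
  have hp : p.Prime := Fact.out
  -- `0` is a solution
  have h0 : ∀ i, MvPolynomial.eval (0 : Fin (Module.finrank (ZMod p) W) → ZMod p) (f i) = 0 := by
    intro i
    rw [hev]
    simp
  have hcard : 1 < Fintype.card {x : Fin (Module.finrank (ZMod p) W) → ZMod p //
      ∀ i, MvPolynomial.eval x (f i) = 0} := by
    have hpos : 0 < Fintype.card {x : Fin (Module.finrank (ZMod p) W) → ZMod p //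
      ∀ i, MvPolynomial.eval x (f i) = 0} := Fintype.card_pos_iff.2 ⟨⟨0, h0⟩⟩
    exact lt_of_lt_of_le hp.one_lt (Nat.le_of_dvd hpos hdvd)
  obtain ⟨x, hx⟩ := Fintype.exists_ne_of_one_lt_card hcard ⟨0, h0⟩
  refine ⟨∑ u, x.1 u • b u, ?_, ?_⟩
  · intro h
    apply hx
    apply Subtype.ext
    funext u
    have h4 := Fintype.linearIndependent_iff.1 b.linearIndependent x.1 h u
    exact h4
  · intro i
    rw [← hev]
    exact x.2 i

end Pool.Agent.AQS
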