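import Pool.Agent.AQS.St

/-!
# AQS, module B9

Statement and proof: see `St_B9` in `Pool/Agent/AQS/St.lean`.
-/

set_option autoImplicit false
set_option linter.unusedSectionVars false

namespace Pool.Agent.AQS

open Function Pool.Agent.Helper11 Pool.Agent.HPow Pool.Agent.Helper67.Bass

theorem thm_B9 (h1 : St_A1) (h4 : St_B4) (h5 : St_B5) (h6 : St_B6) (h7 : St_B7) : St_B9 := by
  intro p _ n hn1 hn k _ _ _ f hf hiso
  obtain ⟨f', hf', hlin, ⟨e⟩⟩ := h4 p k (n + 1) f hf hiso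
  obtain ⟨S, f₂, hS, hf₂, hgood⟩ := h5 p k (n + 1) f' hf' hlin
  obtain ⟨S', f₃, hf₃, ⟨e'⟩⟩ := h6 p k n S f₂ hS hf₂
  exact (hgood ((h7 p n hn1 hn k S' f₃ hf₃).of_equiv e'.symm)).of_equiv e.symm

end Pool.Agent.AQS
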