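import Pool.Agent.AQS.St2
import Pool.Agent.AQS.B3
import Pool.Agent.AQS.B5

/-!
# AQS, module C0

Statement and proof: see `St_C0` in `Pool/Agent/AQS/St2.lean`.
-/

set_option autoImplicit false
set_option linter.unusedSectionVars false

namespace Pool.Agent.AQS

open Function Pool.Agent.Helper11 Pool.Agent.HPow Pool.Agent.Helper67.Bass

section red

open Polynomial

/-- the reduced form of a polynomial in one variable -/
theorem C0_red (h1 : St_B1) {p : ℕ} [Fact p.Prime] {k : Type} [Field k] [Finite k] [CharP k p]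
    {P : k[X]} (hP : AQ1 p P) (hnl : ¬ LinP p P) :
    ∃ (K h : ℕ) (Ce : ℕ → k), h < K ∧ ¬ p ∣ 1 + p ^ h ∧ Ce h ≠ 0 ∧
      (∀ e, e < K → Ce e ≠ 0 → e ≤ h) ∧
      LinP p (P - ∑ e ∈ Finset.range K, C (Ce e) * X ^ (1 + p ^ e)) := by
  have hp : p.Prime := Fact.out
  classical
  obtain ⟨hadd, hPE, hmon, hlin⟩ := h1 p k
  set K := P.natDegree + 1 with hK
  let Ce : ℕ → k := fun e => if p ∣ 1 + p ^ e then 0 else rho p P (1 + p ^ e)
  have hR : ∀ d, 1 ≤ d → ∃ R : k[X] →+ k, ∀ f, R f = rho p f d := fun d hd =>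
    ⟨AddMonoidHom.mk' (fun f => rho p f d) fun a b => hadd a b d hd, fun _ => rfl⟩
  let Q : k[X] := ∑ e ∈ Finset.range K, C (Ce e) * X ^ (1 + p ^ e)
  have hX : ∀ e, (1 : ℕ) + p ^ e = p ^ 0 + p ^ e := fun e => by rw [pow_zero]
  have hrhoQ : ∀ M, ¬ p ∣ 1 + p ^ M → rho p Q (1 + p ^ M) = if M < K then Ce M else 0 := by
    intro M hM
    obtain ⟨R, hR⟩ := hR (1 + p ^ M) (by omega)
    rw [← hR, map_sum]
    have h2 : ∀ e ∈ Finset.range K, R (C (Ce e) * X ^ (1 + p ^ e)) = if e = M then Ce e else 0 := by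
      intro e _
      rw [hR, hX e, B3_mon hmon _ _ _ _ hM]
      simp
    rw [Finset.sum_congr rfl h2, Finset.sum_ite_eq' (Finset.range K) M Ce]
    simp only [Finset.mem_range]
  have hlinD : LinP p (P - Q) := by
    rw [hlin]
    intro d hd2 hpd
    obtain ⟨R, hR⟩ := hR d (by omega)
    rw [← hR, map_sub, hR, hR, sub_eq_zero]
    by_cases hde : ∃ e, d = 1 + p ^ e
    · obtain ⟨e, rfl⟩ := hde
      rw [hrhoQ e hpd]
      by_cases heK : e < K
      · rw [if_pos heK]
        exact (if_neg hpd).symm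
      · rw [if_neg heK]
        apply B3_big
        have := Nat.lt_pow_self hp.one_lt (n := e)
        omega
    · rw [show rho p P d = 0 by
        by_contra h
        exact hde (B3_rho_AQ hP hd2 hpd h)]
      rw [← hR, map_sum]
      symm
      refine Finset.sum_eq_zero fun e _ => ?_
      by_cases hpe : p ∣ 1 + p ^ e
      · have h3 : Ce e = 0 := if_pos hpe
        rw [h3, C_0, zero_mul, map_zero]
      · have h4 := hmon (Ce e) 0 (1 + p ^ e) d (by omega) hpe (by omega) hpd
        rw [pow_zero, one_mul] at h4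
        rw [hR, h4, if_neg (fun h => hde ⟨e, h⟩)]
  by_cases hall : ∀ e ∈ Finset.range K, Ce e = 0
  · have hQ0 : Q = 0 := by
      refine Finset.sum_eq_zero fun e he => ?_
      rw [hall e he, C_0, zero_mul]
    rw [hQ0, sub_zero] at hlinD
    exact absurd hlinD hnl
  push Not at hall
  obtain ⟨e0, he0, hCe0⟩ := hall
  obtain ⟨h, hh, hmax⟩ := Finset.exists_max_image ((Finset.range K).filter fun e => Ce e ≠ 0) id
    ⟨e0, Finset.mem_filter.2 ⟨he0, hCe0⟩⟩
  obtain ⟨hhK, hCh⟩ := Finset.mem_filter.1 hh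
  refine ⟨K, h, Ce, Finset.mem_range.1 hhK, fun hd => hCh (if_pos hd), hCh, fun e he hne =>
    hmax e (Finset.mem_filter.2 ⟨Finset.mem_range.2 he, hne⟩), hlinD⟩

/-- its degree -/
theorem C0_deg {p : ℕ} [Fact p.Prime] {k : Type} [Field k] (K h : ℕ) (Ce : ℕ → k) (hh : h < K)
    (h0 : Ce h ≠ 0) (hmax : ∀ e, e < K → Ce e ≠ 0 → e ≤ h) :
    (∑ e ∈ Finset.range K, C (Ce e) * X ^ (1 + p ^ e) : k[X]).natDegree = 1 + p ^ h ∧
    (∑ e ∈ Finset.range K, C (Ce e) * X ^ (1 + p ^ e) : k[X]).leadingCoeff = Ce h := by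
  have hp : p.Prime := Fact.out
  have hc : (∑ e ∈ Finset.range K, C (Ce e) * X ^ (1 + p ^ e) : k[X]).coeff (1 + p ^ h) = Ce h := by
    rw [finsetSum_coeff, Finset.sum_eq_single h]
    · rw [coeff_C_mul, coeff_X_pow, if_pos rfl, mul_one]
    · intro e _ he
      rw [coeff_C_mul, coeff_X_pow, if_neg, mul_zero]
      intro h2
      exact he (B3_inj hp h2).symm
    · intro h2
      exact absurd (Finset.mem_range.2 hh) h2
  have hd : (∑ e ∈ Finset.range K, C (Ce e) * X ^ (1 + p ^ e) : k[X]).natDegree = 1 + p ^ h := by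
    refine le_antisymm ?_ (le_natDegree_of_ne_zero (by rw [hc]; exact h0))
    refine natDegree_sum_le_of_forall_le _ _ fun e he => ?_
    by_cases h2 : Ce e = 0
    · rw [h2, C_0, zero_mul, natDegree_zero]
      exact Nat.zero_le _
    · refine le_trans (natDegree_C_mul_X_pow_le _ _) ?_
      have := Nat.pow_le_pow_right hp.pos (hmax e (Finset.mem_range.1 he) h2)
      omega
  exact ⟨hd, by rw [leadingCoeff, hd, hc]⟩

end red

section tw

/-- the twist, as in `B5` -/
theorem C0_tw {p : ℕ} [Fact p.Prime] {k : Type} [Field k] [Finite k] [CharP k p] {n : ℕ}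
    (f : MvPolynomial (Fin (n + 1)) k) (hf : AQ p f) : ∃ A : ℕ,
    B5_T p (MvPolynomial.finSuccEquiv k n (B5_th k n (p ^ A) f) -
      Polynomial.map (MvPolynomial.C : k →+* MvPolynomial (Fin n) k) (MvPolynomial.aeval
        (Fin.cons Polynomial.X 0 : Fin (n + 1) → Polynomial k) f)) := by
  classical
  have hp0 : p ≠ 0 := (Fact.out : p.Prime).ne_zero
  have hpos : 0 < p := (Fact.out : p.Prime).pos
  set A : ℕ := f.support.sup (fun d => d 0) with hA
  refine ⟨A, ?_⟩
  -- the composite of the substitution and `finSuccEquiv`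
  let Θ : MvPolynomial (Fin (n + 1)) k →+* Polynomial (MvPolynomial (Fin n) k) :=
    (MvPolynomial.finSuccEquiv k n : MvPolynomial (Fin (n + 1)) k →+* _).comp
      (B5_th k n (p ^ A) : MvPolynomial (Fin (n + 1)) k →+* _)
  have hΘC : ∀ c : k, Θ (MvPolynomial.C c) = Polynomial.C (MvPolynomial.C c) := by
    intro c
    show MvPolynomial.finSuccEquiv k n (B5_th k n (p ^ A) (MvPolynomial.C c)) = _
    rw [← MvPolynomial.algebraMap_eq, AlgHom.commutes, AlgEquiv.commutes]
    rfl
  have hΘ0 : Θ (MvPolynomial.X 0) = Polynomial.X := by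
    show MvPolynomial.finSuccEquiv k n (B5_th k n (p ^ A) (MvPolynomial.X 0)) = _
    rw [B5_th, MvPolynomial.aeval_X, Fin.cons_zero, MvPolynomial.finSuccEquiv_X_zero]
  have hΘs : ∀ j : Fin n, Θ (MvPolynomial.X j.succ) =
      Polynomial.C (MvPolynomial.X j ^ p ^ A) := by
    intro j
    show MvPolynomial.finSuccEquiv k n (B5_th k n (p ^ A) (MvPolynomial.X j.succ)) = _
    rw [B5_th, MvPolynomial.aeval_X, Fin.cons_succ, map_pow, MvPolynomial.finSuccEquiv_X_succ,
      ← Polynomial.C_pow]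
  -- the restriction to the axis
  let Ψ : MvPolynomial (Fin (n + 1)) k →+* Polynomial (MvPolynomial (Fin n) k) :=
    (Polynomial.mapRingHom (MvPolynomial.C : k →+* MvPolynomial (Fin n) k)).comp
      ((MvPolynomial.aeval (Fin.cons Polynomial.X 0 : Fin (n + 1) → Polynomial k) :
        MvPolynomial (Fin (n + 1)) k →ₐ[k] Polynomial k) : MvPolynomial (Fin (n + 1)) k →+* _)
  have hΨC : ∀ c : k, Ψ (MvPolynomial.C c) = Polynomial.C (MvPolynomial.C c) := by
    intro c
    show Polynomial.mapRingHom (MvPolynomial.C : k →+* MvPolynomial (Fin n) k)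
      (MvPolynomial.aeval (Fin.cons Polynomial.X 0 : Fin (n + 1) → Polynomial k)
        (MvPolynomial.C c)) = _
    rw [MvPolynomial.aeval_C, Polynomial.algebraMap_eq, Polynomial.coe_mapRingHom,
      Polynomial.map_C]
  have hΨ0 : Ψ (MvPolynomial.X 0) = Polynomial.X := by
    show Polynomial.mapRingHom (MvPolynomial.C : k →+* MvPolynomial (Fin n) k)
      (MvPolynomial.aeval (Fin.cons Polynomial.X 0 : Fin (n + 1) → Polynomial k)
        (MvPolynomial.X 0)) = _
    rw [MvPolynomial.aeval_X, Fin.cons_zero, Polynomial.coe_mapRingHom, Polynomial.map_X]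
  have hΨs : ∀ j : Fin n, Ψ (MvPolynomial.X j.succ) = 0 := by
    intro j
    show Polynomial.mapRingHom (MvPolynomial.C : k →+* MvPolynomial (Fin n) k)
      (MvPolynomial.aeval (Fin.cons Polynomial.X 0 : Fin (n + 1) → Polynomial k)
        (MvPolynomial.X j.succ)) = _
    rw [MvPolynomial.aeval_X, Fin.cons_succ, Pi.zero_apply, map_zero]
  have hmon1 : ∀ (i : Fin (n + 1)) (e : ℕ) (c : k),
      MvPolynomial.monomial (Finsupp.single i e) c = MvPolynomial.C c * MvPolynomial.X i ^ e := by
    intro i e c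
    rw [MvPolynomial.X_pow_eq_monomial, MvPolynomial.C_mul_monomial, mul_one]
  have hmon2 : ∀ (i j : Fin (n + 1)) (e e' : ℕ) (c : k),
      MvPolynomial.monomial (Finsupp.single i e + Finsupp.single j e') c =
      MvPolynomial.C c * (MvPolynomial.X i ^ e * MvPolynomial.X j ^ e') := by
    intro i j e e' c
    rw [MvPolynomial.X_pow_eq_monomial, MvPolynomial.X_pow_eq_monomial,
      MvPolynomial.monomial_mul, MvPolynomial.C_mul_monomial, mul_one, mul_one]
  have hpp : ∀ e : ℕ, p ^ e ≠ 0 := fun e => pow_ne_zero e hp0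
  have hle : ∀ (e : ℕ), p ^ e ≤ A → e ≤ A := fun e he =>
    le_trans (Nat.lt_pow_self (Fact.out : p.Prime).one_lt).le he
  -- the monomials
  have hT : ∀ d ∈ f.support, B5_T p (Θ (MvPolynomial.monomial d (MvPolynomial.coeff d f)) -
      Ψ (MvPolynomial.monomial d (MvPolynomial.coeff d f))) := by
    intro d hd
    have hd0 : d 0 ≤ A := Finset.le_sup (f := fun d : Fin (n + 1) →₀ ℕ => d 0) hd
    generalize MvPolynomial.coeff d f = c
    rcases hf d hd with rfl | ⟨i, a, rfl⟩ | ⟨i, j, a, b, rfl⟩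
    · have h3 : (MvPolynomial.monomial 0 c : MvPolynomial (Fin (n + 1)) k) =
        MvPolynomial.C c := rfl
      rw [h3, hΘC, hΨC, sub_self]
      exact B5_T_zero
    · rw [hmon1, map_mul, map_mul, map_pow, map_pow, hΘC, hΨC]
      refine Fin.cases ?_ (fun i => ?_) i
      · rw [hΘ0, hΨ0, sub_self]
        exact B5_T_zero
      · rw [hΘs, hΨs, zero_pow (hpp a), mul_zero, sub_zero, ← Polynomial.C_pow,
          ← Polynomial.C_mul, ← pow_mul, ← pow_add]
        exact B5_T_const _ (B5_aq_of_aff (B5_aff_mon _ _ _))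
    · rw [hmon2, map_mul, map_mul, map_mul, map_mul, map_pow, map_pow, map_pow, map_pow, hΘC, hΨC]
      revert hd0
      refine Fin.cases ?_ (fun i => ?_) i
      · refine Fin.cases ?_ (fun j => ?_) j
        · intro _
          rw [hΘ0, hΨ0, sub_self]
          exact B5_T_zero
        · intro hd0
          rw [Finsupp.add_apply, Finsupp.single_eq_same] at hd0
          rw [hΘ0, hΨ0, hΘs, hΨs, zero_pow (hpp b), mul_zero, mul_zero, sub_zero,
            ← Polynomial.C_pow]
          exact B5_T_mix c j a b A (hle a (le_trans (Nat.le_add_right _ _) hd0))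
      · refine Fin.cases ?_ (fun j => ?_) j
        · intro hd0
          rw [Finsupp.add_apply, Finsupp.single_eq_same] at hd0
          rw [hΘ0, hΨ0, hΘs, hΨs, zero_pow (hpp a), zero_mul, mul_zero, sub_zero,
            ← Polynomial.C_pow, mul_comm (Polynomial.C _) (Polynomial.X ^ p ^ b)]
          exact B5_T_mix c i b a A (hle b (le_trans (Nat.le_add_left _ _) hd0))
        · intro _
          rw [hΘs, hΨs, hΘs, hΨs, zero_pow (hpp a), zero_mul, mul_zero, sub_zero,
            ← Polynomial.C_pow, ← Polynomial.C_pow, ← Polynomial.C_mul, ← Polynomial.C_mul,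
            ← pow_mul, ← pow_add, ← pow_mul, ← pow_add]
          exact B5_T_const _ (B5_aq_mon _ _ _ _ _)
  have h3 : Θ f - Ψ f = ∑ d ∈ f.support,
      (Θ (MvPolynomial.monomial d (MvPolynomial.coeff d f)) -
      Ψ (MvPolynomial.monomial d (MvPolynomial.coeff d f))) := by
    rw [Finset.sum_sub_distrib, ← map_sum, ← map_sum, ← MvPolynomial.as_sum f]
  show B5_T p (Θ f - Ψ f)
  rw [h3]
  exact B5_T_sum _ _ hT

theorem C0_free (h1 : St_A1) {p : ℕ} [Fact p.Prime] {k : Type} [Field k] [Finite k] [CharP k p]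
    {n : ℕ} (f : MvPolynomial (Fin (n + 1)) k) (A : ℕ)
    (hg : GoodP p (AP p (MvPolynomial (Fin (n + 1)) k) (B5_th k n (p ^ A) f))) :
    GoodP p (AP p (MvPolynomial (Fin (n + 1)) k) f) := by
  have hpos : 0 < p := (Fact.out : p.Prime).pos
  have hcard : p ^ (A * n) = (p ^ A) ^ n := pow_mul p A n
  let σ : Fin (p ^ (A * n)) ≃ (Fin n → Fin (p ^ A)) :=
    (finCongr hcard).trans finFunctionFinEquiv.symm
  exact B5_free h1 p (B5_th k n (p ^ A) : MvPolynomial (Fin (n + 1)) k →+* _) (A * n)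
    (fun i => B5_b k n (p ^ A) (fun j => (σ i j : ℕ)))
    (B5_bij (p ^ A) (pow_pos hpos A) σ) f hg

end tw

section to2

variable (k : Type) [Field k]

/-- `to2` as an isomorphism -/
noncomputable def C0_to2 : MvPolynomial (Fin 2) k ≃ₐ[k] Polynomial (Polynomial k) :=
  (MvPolynomial.finSuccEquiv k 1).trans
    (Polynomial.mapAlgEquiv (MvPolynomial.uniqueAlgEquiv k (Fin 1)))

theorem C0_to2_eq : (C0_to2 k : MvPolynomial (Fin 2) k →ₐ[k] Polynomial (Polynomial k)) = to2 k := by
  refine MvPolynomial.algHom_ext fun i => ?_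
  rw [to2, MvPolynomial.aeval_X]
  show Polynomial.mapAlgEquiv (MvPolynomial.uniqueAlgEquiv k (Fin 1))
    (MvPolynomial.finSuccEquiv k 1 (MvPolynomial.X i)) = _
  refine Fin.cases ?_ (fun j => ?_) i
  · rw [MvPolynomial.finSuccEquiv_X_zero]
    simp
  · rw [MvPolynomial.finSuccEquiv_X_succ]
    have hj : j = 0 := Subsingleton.elim _ _
    subst hj
    simp

end to2

theorem thm_C0 (h1 : St_A1) (hb : St_B1) (h2 : St_B2) : St_C0 := by
  intro p _ k _ _ _
  have hp : p.Prime := Fact.out
  have hto : ∀ f, to2 k f = Polynomial.mapAlgEquiv (MvPolynomial.uniqueAlgEquiv k (Fin 1))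
      (MvPolynomial.finSuccEquiv k 1 f) := by
    intro f
    rw [← C0_to2_eq]
    rfl
  constructor
  · rw [← C0_to2_eq]
    exact (C0_to2 k).bijective
  intro f hf hnl
  have hcons : (![Polynomial.X, (0 : Polynomial k)] : Fin 2 → Polynomial k) =
      (Fin.cons Polynomial.X 0 : Fin 2 → Polynomial k) := by
    funext i
    fin_cases i
    · rfl
    · rfl
  obtain ⟨b1, b2, b3, b4, b5, b6, b7⟩ := h2 p k (Fin 2) (Fin 2)
  have hAQ1 : AQ1 p (MvPolynomial.aeval ![Polynomial.X, (0 : Polynomial k)] f) := by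
    refine b3 f _ hf fun i => ⟨0, ?_⟩
    fin_cases i
    · intro d hd
      refine ⟨0, ?_⟩
      rw [pow_zero]
      by_contra h
      rw [Polynomial.mem_support_iff] at hd
      apply hd
      show (Polynomial.X - Polynomial.C 0 : Polynomial k).coeff d = 0
      rw [Polynomial.C_0, sub_zero, Polynomial.coeff_X, if_neg (fun h2 => h h2.symm)]
    · intro d hd
      exfalso
      rw [Polynomial.mem_support_iff] at hd
      apply hd
      show (0 - Polynomial.C 0 : Polynomial k).coeff d = 0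
      rw [Polynomial.C_0, sub_zero, Polynomial.coeff_zero]
  obtain ⟨K, h, Ce, hhK, hph, hCh, hmax, hlin⟩ := C0_red hb hAQ1 hnl
  obtain ⟨A, hT⟩ := C0_tw f hf
  rw [← hcons] at hT
  set P := MvPolynomial.aeval ![Polynomial.X, (0 : Polynomial k)] f with hPdef
  obtain ⟨hdeg, hlc⟩ := C0_deg (p := p) K h Ce hhK hCh hmax
  set Q : Polynomial k := ∑ e ∈ Finset.range K, Polynomial.C (Ce e) * Polynomial.X ^ (1 + p ^ e)
    with hQdef
  -- the linear part
  have hT2 : B5_T p (Polynomial.map (MvPolynomial.C : k →+* MvPolynomial (Fin 1) k) (P - Q)) := by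
    obtain ⟨l, c, hlc⟩ := hlin
    refine ⟨MvPolynomial.C l, MvPolynomial.C c, B5_aff_C l, B5_aq_of_aff (B5_aff_C c), ?_⟩
    have h3 := B5_pe_map (Polynomial.mapRingHom (MvPolynomial.C : k →+* MvPolynomial (Fin 1) k)) hlc
    rw [map_add, map_mul, Polynomial.coe_mapRingHom, Polynomial.map_C, Polynomial.map_X,
      Polynomial.map_C] at h3
    exact h3
  obtain ⟨S, f0, hS, hf0, hPE⟩ := B5_T_add hT hT2
  have hPE2 := B5_pe_add hPE (B5_pe_refl hp.ne_zero
    (Polynomial.map (MvPolynomial.C : k →+* MvPolynomial (Fin 1) k) Q))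
  rw [Polynomial.map_sub, sub_add_sub_cancel, sub_add_cancel] at hPE2
  -- the polynomial
  let f' : MvPolynomial (Fin 2) k := MvPolynomial.aeval (fun j : Fin 1 => MvPolynomial.X j.succ) S *
    MvPolynomial.X 0 + MvPolynomial.aeval (fun j : Fin 1 => MvPolynomial.X j.succ) f0 +
    ∑ e ∈ Finset.range K, MvPolynomial.C (Ce e) * (MvPolynomial.X 0 ^ p ^ 0 *
      MvPolynomial.X 0 ^ p ^ e)
  have hfin : MvPolynomial.finSuccEquiv k 1 f' = Polynomial.C S * Polynomial.X + Polynomial.C f0 +
      Polynomial.map (MvPolynomial.C : k →+* MvPolynomial (Fin 1) k) Q := by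
    have hcomp : ∀ g : MvPolynomial (Fin 1) k, MvPolynomial.finSuccEquiv k 1
        (MvPolynomial.aeval (fun j : Fin 1 => MvPolynomial.X j.succ) g) = Polynomial.C g := by
      intro g
      induction g using MvPolynomial.induction_on with
      | C a =>
        rw [MvPolynomial.aeval_C, AlgEquiv.commutes]
        rfl
      | add g1 g2 i1 i2 => rw [map_add, map_add, i1, i2, Polynomial.C_add]
      | mul_X g j i1 =>
        rw [map_mul, map_mul, i1, MvPolynomial.aeval_X, MvPolynomial.finSuccEquiv_X_succ,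
          Polynomial.C_mul]
    show MvPolynomial.finSuccEquiv k 1 (_ * MvPolynomial.X 0 + _ + _) = _
    rw [map_add, map_add, map_mul, hcomp, hcomp, MvPolynomial.finSuccEquiv_X_zero, map_sum, hQdef,
      Polynomial.map_sum]
    congr 1
    refine Finset.sum_congr rfl fun e _ => ?_
    rw [map_mul, map_mul, map_pow, map_pow, MvPolynomial.finSuccEquiv_X_zero, pow_zero, pow_add,
      Polynomial.map_mul, Polynomial.map_mul, Polynomial.map_pow, Polynomial.map_pow,
      Polynomial.map_X, Polynomial.map_C, ← MvPolynomial.algebraMap_eq, AlgEquiv.commutes]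
    rfl
  have hAQ : AQ p f' := by
    refine B5_aq_add (B5_aq_add ?_ ?_) ?_
    · have h3 := b1 (MvPolynomial.C 1 * (MvPolynomial.X 0 ^ p ^ 0 * MvPolynomial.X 1 ^ p ^ 0))
        ![MvPolynomial.aeval (fun j : Fin 1 => MvPolynomial.X j.succ) S, MvPolynomial.X 0]
        (B5_aq_mon _ _ _ _ _) (by
          intro i
          fin_cases i
          · obtain ⟨_, c2, _⟩ := h2 p k (Fin 1) (Fin 2)
            refine c2 S _ hS fun j => ?_
            have h4 := B5_aff_mon (p := p) (1 : k) (j.succ : Fin 2) 0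
            rwa [MvPolynomial.C_1, one_mul, pow_zero, pow_one] at h4
          · have h4 := B5_aff_mon (p := p) (1 : k) (0 : Fin 2) 0
            rwa [MvPolynomial.C_1, one_mul, pow_zero, pow_one] at h4)
      rw [MvPolynomial.C_1, one_mul, pow_zero, pow_one, pow_one, map_mul, MvPolynomial.aeval_X,
        MvPolynomial.aeval_X] at h3
      exact h3
    · obtain ⟨c1, _⟩ := h2 p k (Fin 1) (Fin 2)
      refine c1 f0 _ hf0 fun j => ?_
      have h4 := B5_aff_mon (p := p) (1 : k) (j.succ : Fin 2) 0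
      rwa [MvPolynomial.C_1, one_mul, pow_zero, pow_one] at h4
    · classical
      refine Finset.sum_induction _ (AQ p) (fun a b => B5_aq_add) (B5_aq_of_aff B5_aff_zero) ?_
      intro e _
      exact B5_aq_mon _ _ _ _ _
  -- the degree
  have hto2 : to2 k f' = Polynomial.map Polynomial.C Q +
      (Polynomial.C (MvPolynomial.uniqueAlgEquiv k (Fin 1) S) * Polynomial.X +
        Polynomial.C (MvPolynomial.uniqueAlgEquiv k (Fin 1) f0)) := by
    have hcc : ((MvPolynomial.uniqueAlgEquiv k (Fin 1) :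
        MvPolynomial (Fin 1) k →+* Polynomial k).comp MvPolynomial.C) = Polynomial.C := by
      ext c
      show (MvPolynomial.uniqueAlgEquiv k (Fin 1) (MvPolynomial.C c)).coeff _ = _
      rw [← MvPolynomial.algebraMap_eq, AlgEquiv.commutes, Polynomial.algebraMap_eq]
    rw [hto, hfin]
    show Polynomial.map (MvPolynomial.uniqueAlgEquiv k (Fin 1) :
        MvPolynomial (Fin 1) k →+* Polynomial k) _ = _
    rw [Polynomial.map_add, Polynomial.map_add,
      Polynomial.map_mul, Polynomial.map_C, Polynomial.map_C, Polynomial.map_X,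
      Polynomial.map_map, add_comm, hcc]
    rfl
  have hQd : (Polynomial.map Polynomial.C Q : Polynomial (Polynomial k)).natDegree = 1 + p ^ h := by
    rw [Polynomial.natDegree_map_eq_of_injective Polynomial.C_injective, hdeg]
  have hQl : (Polynomial.map Polynomial.C Q : Polynomial (Polynomial k)).leadingCoeff =
      Polynomial.C (Ce h) := by
    rw [Polynomial.leadingCoeff_map_of_injective Polynomial.C_injective, hlc]
  have hpos : 0 < p ^ h := pow_pos hp.pos h
  have hQ0 : (Polynomial.map Polynomial.C Q : Polynomial (Polynomial k)) ≠ 0 := by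
    intro h0
    rw [h0, Polynomial.natDegree_zero] at hQd
    omega
  have hlt : (Polynomial.C (MvPolynomial.uniqueAlgEquiv k (Fin 1) S) * Polynomial.X +
        Polynomial.C (MvPolynomial.uniqueAlgEquiv k (Fin 1) f0)).degree <
      (Polynomial.map Polynomial.C Q : Polynomial (Polynomial k)).degree := by
    refine lt_of_le_of_lt Polynomial.degree_linear_le ?_
    rw [Polynomial.degree_eq_natDegree hQ0, hQd]
    have : 1 < 1 + p ^ h := by omega
    exact_mod_cast this
  refine ⟨f', hAQ, ?_, ?_, ?_⟩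
  · rw [hto2, Polynomial.natDegree_add_eq_left_of_degree_lt hlt, hQd]
    exact hph
  · rw [hto2, Polynomial.leadingCoeff_add_of_degree_lt' hlt, hQl]
    exact Polynomial.isUnit_C.2 (isUnit_iff_ne_zero.2 hCh)
  · intro hg
    have hp1 : (p : Polynomial (MvPolynomial (Fin 1) k)) = 0 := CharP.cast_eq_zero _ p
    obtain ⟨e0⟩ := (h1 p (MvPolynomial (Fin 2) k)).2.1 _
      (MvPolynomial.finSuccEquiv k 1).toRingEquiv f'
    obtain ⟨e1⟩ := (h1 p (Polynomial (MvPolynomial (Fin 1) k))).1 hp1 _ _ hPE2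
    obtain ⟨e2⟩ := (h1 p (MvPolynomial (Fin 2) k)).2.1 _
      (MvPolynomial.finSuccEquiv k 1).toRingEquiv (B5_th k 1 (p ^ A) f)
    have hg0 : GoodP p (AP p (Polynomial (MvPolynomial (Fin 1) k))
        (MvPolynomial.finSuccEquiv k 1 f')) := GoodP.of_equiv e0 hg
    rw [hfin] at hg0
    have hg1 := GoodP.of_equiv e1.symm hg0
    exact C0_free h1 f A (GoodP.of_equiv e2.symm hg1)

end Pool.Agent.AQS
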