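import Pool.Agent.AQS.St2
import Mathlib.RingTheory.Smooth.IntegralClosure

/-!
# AQS, module C1

Statement and proof: see `St_C1` in `Pool/Agent/AQS/St2.lean`.
-/

set_option autoImplicit false
set_option linter.unusedSectionVars false

namespace Pool.Agent.AQS

open Function Pool.Agent.Helper11 Pool.Agent.HPow Pool.Agent.Helper67.Bass

/-! ### the Dedekind property -/

open Polynomial in
/-- `R[X] / (g)` is a Dedekind domain if `g` is monic and `g' = -1` -/
theorem C1_ded {R : Type} [CommRing R] [IsDedekindDomain R] (g : R[X]) (hg : g.Monic)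
    (hd : g.derivative = -1) [hA : IsDomain (AdjoinRoot g)] : IsDedekindDomain (AdjoinRoot g) := by
  let K := FractionRing R
  let gK : K[X] := g.map (algebraMap R K)
  have hgK : gK.Monic := hg.map _
  have hprime : Prime g := by
    refine (Ideal.span_singleton_prime hg.ne_zero).1 ?_
    exact (Ideal.Quotient.isDomain_iff_prime (Ideal.span {g})).1 hA
  have hirr : Irreducible gK :=
    (hg.irreducible_iff_irreducible_map_fraction_map (K := K)).1 hprime.irreducible
  have : Fact (Irreducible gK) := ⟨hirr⟩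
  let ι : AdjoinRoot g →+* AdjoinRoot gK := AdjoinRoot.map (algebraMap R K) g gK (dvd_refl _)
  have hιmk : ∀ f : R[X], ι (AdjoinRoot.mk g f) = AdjoinRoot.mk gK (f.map (algebraMap R K)) := by
    intro f
    induction f using Polynomial.induction_on' with
    | add f1 f2 h1 h2 => rw [map_add, map_add, h1, h2, Polynomial.map_add, map_add]
    | monomial n a =>
      rw [← C_mul_X_pow_eq_monomial, map_mul, map_pow, AdjoinRoot.mk_C, AdjoinRoot.mk_X, map_mul,
        map_pow, Polynomial.map_mul, Polynomial.map_pow, Polynomial.map_C, Polynomial.map_X, map_mul,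
        map_pow, AdjoinRoot.mk_C, AdjoinRoot.mk_X, AdjoinRoot.map_of, AdjoinRoot.map_root]
  have hιinj : Injective ι := by
    rw [injective_iff_map_eq_zero]
    intro a ha
    obtain ⟨f, rfl⟩ := AdjoinRoot.mk_surjective a
    rw [hιmk, AdjoinRoot.mk_eq_zero, ← modByMonic_eq_zero_iff_dvd hgK,
      ← Polynomial.map_modByMonic _ hg] at ha
    rw [AdjoinRoot.mk_eq_zero, ← modByMonic_eq_zero_iff_dvd hg]
    exact (Polynomial.map_eq_zero_iff (IsFractionRing.injective R K)).1 ha
  let : Algebra (AdjoinRoot g) (AdjoinRoot gK) := ι.toAlgebra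
  have : IsScalarTower R (AdjoinRoot g) (AdjoinRoot gK) :=
    IsScalarTower.of_algebraMap_eq fun r => by
      show _ = ι (AdjoinRoot.of g r)
      rw [show AdjoinRoot.of g r = AdjoinRoot.mk g (C r) from rfl, hιmk, Polynomial.map_C]
      rfl
  have : Module.Finite R (AdjoinRoot g) := hg.finite_adjoinRoot
  have hint : Algebra.IsIntegral R (AdjoinRoot g) := inferInstance
  have hic : IsIntegralClosure (AdjoinRoot g) R (AdjoinRoot gK) :=
    { algebraMap_injective := hιinj
      isIntegral_iff := by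
        intro z
        constructor
        · intro hz
          let φ : K[X] →ₐ[R] AdjoinRoot gK := (AdjoinRoot.mkₐ gK).restrictScalars R
          have h1 : ∀ x, φ x = AdjoinRoot.mk gK x := fun x => rfl
          have hker : RingHom.ker φ.toRingHom = Ideal.span {gK} := by
            ext x
            rw [RingHom.mem_ker, Ideal.mem_span_singleton]
            exact AdjoinRoot.mk_eq_zero
          obtain ⟨q, hq1, hq2⟩ := exists_derivative_mul_eq_and_isIntegral_coeff (R := R) (S := K)
            (φ := φ) AdjoinRoot.mk_surjective hgK (fun i => by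
              rw [Polynomial.coeff_map]
              exact isIntegral_algebraMap) hker hz
          have hd' : gK.derivative = -1 := by
            rw [Polynomial.derivative_map, hd, Polynomial.map_neg, Polynomial.map_one]
          rw [hd', map_neg, map_one, neg_one_mul] at hq1
          have h2 : ∀ i, ∃ r : R, algebraMap R K r = q.coeff i := fun i =>
            IsIntegrallyClosed.isIntegral_iff.1 (hq2 i)
          obtain ⟨q0, hq0⟩ : ∃ q0 : R[X], q0.map (algebraMap R K) = q := by
            have h3 : q ∈ Polynomial.lifts (algebraMap R K) := by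
              rw [Polynomial.lifts_iff_coeff_lifts]
              exact fun i => h2 i
            exact (Polynomial.mem_lifts q).1 h3
          refine ⟨AdjoinRoot.mk g (-q0), ?_⟩
          show ι _ = z
          rw [hιmk, Polynomial.map_neg, hq0, map_neg, ← h1, ← hq1, neg_neg]
        · rintro ⟨a, rfl⟩
          exact (hint.isIntegral a).map (IsScalarTower.toAlgHom R (AdjoinRoot g) (AdjoinRoot gK)) }
  have : Module.Finite K (AdjoinRoot gK) := hgK.finite_adjoinRoot
  have : FiniteDimensional K (AdjoinRoot gK) := this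
  have : IsScalarTower R K (AdjoinRoot gK) := IsScalarTower.of_algebraMap_eq fun r => rfl
  have : IsFractionRing (AdjoinRoot g) (AdjoinRoot gK) :=
    IsIntegralClosure.isFractionRing_of_finite_extension R K (AdjoinRoot gK) (AdjoinRoot g)
  have : IsNoetherianRing (AdjoinRoot g) := isNoetherian_of_tower R
    (isNoetherian_of_isNoetherianRing_of_finite R (AdjoinRoot g))
  have : Ring.DimensionLEOne (AdjoinRoot g) := Ring.DimensionLEOne.of_isIntegral R _
  have : IsIntegrallyClosed (AdjoinRoot g) :=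
    (isIntegrallyClosed_iff (AdjoinRoot gK)).2 fun {x} hx =>
      ⟨IsIntegralClosure.mk' (AdjoinRoot g) x (isIntegral_trans (R := R) _ hx),
        IsIntegralClosure.algebraMap_mk' _ _ _⟩
  exact { }

/-! ### coefficients -/

section coef

open Polynomial

variable {p : ℕ} [Fact p.Prime] {W : Type} [CommRing W] {h : W}

private theorem C1_two : 2 ≤ p := (Fact.out : p.Prime).two_le

private theorem C1_degree (p : ℕ) [Fact p.Prime] {W : Type} [CommRing W] [Nontrivial W] (h : W) :
    (X ^ p - X - C h : W[X]).degree = p := by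
  have h1 : (X ^ p - X - C h : W[X]) = X ^ p + (-(X + C h)) := by ring
  rw [h1]
  have h2 : (-(X + C h) : W[X]).degree < (X ^ p : W[X]).degree := by
    rw [degree_neg, degree_X_add_C, degree_X_pow]
    exact_mod_cast (Fact.out : p.Prime).two_le
  rw [degree_add_eq_left_of_degree_lt h2, degree_X_pow]

private theorem C1_cf_add (a b : AP p W h) (j : ℕ) :
    AP.cf (a + b) j = AP.cf a j + AP.cf b j := by
  unfold AP.cf
  rw [map_add, coeff_add]

private theorem C1_cf_zero (j : ℕ) : AP.cf (0 : AP p W h) j = 0 := by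
  unfold AP.cf
  rw [map_zero, coeff_zero]

private theorem C1_cf_sum {ι : Type} (s : Finset ι) (f : ι → AP p W h) (j : ℕ) :
    AP.cf (∑ i ∈ s, f i) j = ∑ i ∈ s, AP.cf (f i) j := by
  unfold AP.cf
  rw [map_sum, finsetSum_coeff]

private theorem C1_cf_mul (r : W) (a : AP p W h) (j : ℕ) :
    AP.cf (AP.o h r * a) j = r * AP.cf a j := by
  have h1 : AP.o h r * a = r • a := (Algebra.smul_def r a).symm
  unfold AP.cf
  rw [h1, map_smul, coeff_smul, smul_eq_mul]

private theorem C1_cf_y [Nontrivial W] {i : ℕ} (hi : i < p) (j : ℕ) :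
    AP.cf (AP.y h ^ i : AP p W h) j = if j = i then 1 else 0 := by
  unfold AP.cf
  have h1 : (AP.y h ^ i : AP p W h) = AdjoinRoot.mk _ (X ^ i) := by
    rw [map_pow, AdjoinRoot.mk_X]
    rfl
  rw [h1, AdjoinRoot.modByMonicHom_mk, (modByMonic_eq_self_iff (AP.monic p C1_two h)).2,
    coeff_X_pow]
  rw [C1_degree, degree_X_pow]
  exact_mod_cast hi

private theorem C1_cf_oy [Nontrivial W] (r : W) {i : ℕ} (hi : i < p) (j : ℕ) :
    AP.cf (AP.o h r * AP.y h ^ i : AP p W h) j = if j = i then r else 0 := by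
  rw [C1_cf_mul, C1_cf_y hi]
  split_ifs
  · rw [mul_one]
  · rw [mul_zero]

private theorem C1_exp [Nontrivial W] (a : AP p W h) :
    a = ∑ j ∈ Finset.range p, AP.o h (AP.cf a j) * AP.y h ^ j := by
  have hm := AP.monic p C1_two h
  have h1 := AdjoinRoot.mk_leftInverse hm a
  obtain ⟨f, hf⟩ : ∃ f : W[X], f = AdjoinRoot.modByMonicHom hm a := ⟨_, rfl⟩
  have hd : f.degree < (p : WithBot ℕ) := by
    obtain ⟨b, rfl⟩ := AdjoinRoot.mk_surjective a
    rw [hf, AdjoinRoot.modByMonicHom_mk, ← C1_degree p h]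
    exact degree_modByMonic_lt _ hm
  have hnd : f.natDegree < p := by
    by_cases h0 : f = 0
    · rw [h0, natDegree_zero]
      exact (Fact.out : p.Prime).pos
    · exact (natDegree_lt_iff_degree_lt h0).2 hd
  have h2 := as_sum_range_C_mul_X_pow' f hnd
  have h3 : ∀ j, AP.cf a j = f.coeff j := fun j => by rw [hf]; rfl
  conv_lhs => rw [← h1, ← hf, h2]
  rw [map_sum]
  refine Finset.sum_congr rfl fun j _ => ?_
  rw [map_mul, map_pow, AdjoinRoot.mk_C, AdjoinRoot.mk_X, h3]
  rfl

private theorem C1_yp : (AP.y h : AP p W h) ^ p = AP.y h + AP.o h h := by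
  rw [← AP.eq h]
  ring

private theorem C1_cf_ymul [Nontrivial W] (a : AP p W h) {q : ℕ} (hq : p = q + 1) (j : ℕ) :
    AP.cf (AP.y h * a) j = ∑ i ∈ Finset.range q, (if j = i + 1 then AP.cf a i else 0) +
      (if j = 1 then AP.cf a q else 0) + (if j = 0 then AP.cf a q * h else 0) := by
  have hp2 : 2 ≤ p := C1_two
  have h1 : AP.y h * a = ∑ i ∈ Finset.range q, AP.o h (AP.cf a i) * AP.y h ^ (i + 1) +
      AP.o h (AP.cf a q) * AP.y h ^ 1 + AP.o h (AP.cf a q * h) * AP.y h ^ 0 := by
    have h2 : a = ∑ j ∈ Finset.range (q + 1), AP.o h (AP.cf a j) * AP.y h ^ j := by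
      rw [← hq]
      exact C1_exp a
    conv_lhs => rw [h2]
    rw [Finset.sum_range_succ, mul_add, Finset.mul_sum]
    have h3 : (AP.y h * (AP.o h (AP.cf a q) * AP.y h ^ q) : AP p W h) =
        AP.o h (AP.cf a q) * AP.y h ^ 1 + AP.o h (AP.cf a q * h) * AP.y h ^ 0 := by
      have h4 : (AP.y h : AP p W h) ^ (q + 1) = AP.y h + AP.o h h := by
        rw [← hq]
        exact C1_yp
      rw [map_mul, pow_one, pow_zero, mul_one]
      calc (AP.y h * (AP.o h (AP.cf a q) * AP.y h ^ q) : AP p W h) =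
          AP.o h (AP.cf a q) * AP.y h ^ (q + 1) := by ring
        _ = _ := by rw [h4]; ring
    rw [h3, ← add_assoc]
    refine congrArg₂ (· + ·) (congrArg₂ (· + ·) (Finset.sum_congr rfl fun i _ => by ring) rfl) rfl
  rw [h1, C1_cf_add, C1_cf_add, C1_cf_sum, C1_cf_oy _ (by omega), C1_cf_oy _ (by omega)]
  refine congrArg₂ (· + ·) (congrArg₂ (· + ·) (Finset.sum_congr rfl fun i hi => ?_) rfl) rfl
  rw [C1_cf_oy _ (by have := Finset.mem_range.1 hi; omega)]

private theorem C1_cf_y0 [Nontrivial W] (a : AP p W h) {q : ℕ} (hq : p = q + 1) :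
    AP.cf (AP.y h * a) 0 = AP.cf a q * h := by
  rw [C1_cf_ymul a hq, if_neg (by omega), if_pos rfl, add_zero, Finset.sum_eq_zero, zero_add]
  intro i _
  rw [if_neg (by omega)]

private theorem C1_cf_y1 [Nontrivial W] (a : AP p W h) {q : ℕ} (hq : p = q + 1) :
    AP.cf (AP.y h * a) 1 = AP.cf a 0 + AP.cf a q := by
  have hp2 : 2 ≤ p := C1_two
  rw [C1_cf_ymul a hq, if_pos rfl, if_neg (by omega), add_zero,
    Finset.sum_eq_single 0]
  · rw [if_pos (by omega)]
  · intro i _ hi
    rw [if_neg (by omega)]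
  · intro h0
    exact absurd (Finset.mem_range.2 (by omega)) h0

private theorem C1_cf_ys [Nontrivial W] (a : AP p W h) {i : ℕ} (hi : 1 ≤ i) (hip : i + 1 < p) :
    AP.cf (AP.y h * a) (i + 1) = AP.cf a i := by
  obtain ⟨q, hq⟩ : ∃ q, p = q + 1 := ⟨p - 1, by omega⟩
  rw [C1_cf_ymul a hq, if_neg (by omega), if_neg (by omega), add_zero, add_zero,
    Finset.sum_eq_single i]
  · rw [if_pos rfl]
  · intro j _ hj
    rw [if_neg (by omega)]
  · intro h0
    exact absurd (Finset.mem_range.2 (by omega)) h0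

end coef

/-! ### weights -/

section weight

open Polynomial

variable {p : ℕ} [Fact p.Prime] {F : Type} [Field F] {P : F[X]}

/-- all weights of `a` are less than `n` -/
private def C1_Lt (a : AP p F[X] P) (n : ℕ) : Prop :=
  ∀ i j, j < p → (AP.cf a j).coeff i ≠ 0 → p * i + P.natDegree * j < n

/-- the largest weight of `a` is `n` -/
private def C1_Top (a : AP p F[X] P) (n : ℕ) : Prop :=
  C1_Lt a (n + 1) ∧ ∃ i j, j < p ∧ (AP.cf a j).coeff i ≠ 0 ∧ p * i + P.natDegree * j = n

private theorem C1_Lt.mono {a : AP p F[X] P} {n n' : ℕ} (h : C1_Lt a n) (hn : n ≤ n') :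
    C1_Lt a n' := fun i j hj hc => (h i j hj hc).trans_le hn

private theorem C1_Lt.add {a b : AP p F[X] P} {n : ℕ} (ha : C1_Lt a n) (hb : C1_Lt b n) :
    C1_Lt (a + b) n := by
  intro i j hj hc
  rw [C1_cf_add, coeff_add] at hc
  by_cases h : (AP.cf a j).coeff i = 0
  · rw [h, zero_add] at hc
    exact hb i j hj hc
  · exact ha i j hj h

private theorem C1_Lt.zero (n : ℕ) : C1_Lt (0 : AP p F[X] P) n := by
  intro i j _ hc
  rw [C1_cf_zero, coeff_zero] at hc
  exact absurd rfl hc

private theorem C1_Lt.sum {ι : Type} (s : Finset ι) (f : ι → AP p F[X] P) {n : ℕ}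
    (h : ∀ i ∈ s, C1_Lt (f i) n) : C1_Lt (∑ i ∈ s, f i) n :=
  Finset.sum_induction f (fun a => C1_Lt a n) (fun _ _ => C1_Lt.add) (C1_Lt.zero n) h

private theorem C1_Top.ne {a : AP p F[X] P} {n : ℕ} (h : C1_Top a n) : a ≠ 0 := by
  rintro rfl
  obtain ⟨-, i, j, hj, hc, -⟩ := h
  rw [C1_cf_zero, coeff_zero] at hc
  exact hc rfl

private theorem C1_Top.lt {a : AP p F[X] P} {n k : ℕ} (h : C1_Top a n) (h' : C1_Lt a k) :
    n < k := by
  obtain ⟨-, i, j, hj, hc, rfl⟩ := h
  exact h' i j hj hc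

private theorem C1_Top.add {a b : AP p F[X] P} {n : ℕ} (ha : C1_Top a n) (hb : C1_Lt b n) :
    C1_Top (a + b) n := by
  refine ⟨ha.1.add (hb.mono (Nat.le_succ n)), ?_⟩
  obtain ⟨-, i, j, hj, hc, hn⟩ := ha
  refine ⟨i, j, hj, ?_, hn⟩
  rw [C1_cf_add, coeff_add]
  have h1 : (AP.cf b j).coeff i = 0 := by
    by_contra h2
    have := hb i j hj h2
    omega
  rw [h1, add_zero]
  exact hc

/-! the operations -/

private theorem C1_Lt.c {a : AP p F[X] P} {n : ℕ} (ha : C1_Lt a n) (c : F) :
    C1_Lt (AP.o P (C c) * a) n := by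
  intro i j hj hc
  rw [C1_cf_mul, coeff_C_mul] at hc
  exact ha i j hj (right_ne_zero_of_mul hc)

private theorem C1_Top.c {a : AP p F[X] P} {n : ℕ} (ha : C1_Top a n) {c : F} (h : c ≠ 0) :
    C1_Top (AP.o P (C c) * a) n := by
  refine ⟨ha.1.c c, ?_⟩
  obtain ⟨-, i, j, hj, hc, hn⟩ := ha
  refine ⟨i, j, hj, ?_, hn⟩
  rw [C1_cf_mul, coeff_C_mul]
  exact mul_ne_zero h hc

private theorem C1_Lt.x {a : AP p F[X] P} {n : ℕ} (ha : C1_Lt a n) :
    C1_Lt (AP.o P X * a) (n + p) := by
  intro i j hj hc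
  rw [C1_cf_mul] at hc
  cases i with
  | zero =>
    rw [coeff_X_mul_zero] at hc
    exact absurd rfl hc
  | succ i =>
    rw [coeff_X_mul] at hc
    have h1 := ha i j hj hc
    rw [Nat.mul_succ]
    omega

private theorem C1_Top.x {a : AP p F[X] P} {n : ℕ} (ha : C1_Top a n) :
    C1_Top (AP.o P X * a) (n + p) := by
  refine ⟨ha.1.x.mono (by omega), ?_⟩
  obtain ⟨-, i, j, hj, hc, hn⟩ := ha
  refine ⟨i + 1, j, hj, ?_, ?_⟩
  · rw [C1_cf_mul, coeff_X_mul]
    exact hc
  · rw [Nat.mul_succ]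
    omega

private theorem C1_Lt.y {a : AP p F[X] P} {n : ℕ} (ha : C1_Lt a n) :
    C1_Lt (AP.y P * a) (n + P.natDegree) := by
  have hp2 : 2 ≤ p := C1_two
  obtain ⟨q, hq⟩ : ∃ q, p = q + 1 := ⟨p - 1, by omega⟩
  intro i j hj hc
  rcases Nat.lt_or_ge j 1 with h0 | h0
  · obtain rfl : j = 0 := by omega
    rw [C1_cf_y0 a hq, coeff_mul] at hc
    obtain ⟨⟨s, t⟩, hst, h1⟩ := Finset.exists_ne_zero_of_sum_ne_zero hc
    have h2 : s + t = i := Finset.HasAntidiagonal.mem_antidiagonal.1 hst
    have h3 := ha s q (by omega) (left_ne_zero_of_mul h1)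
    have h4 : t ≤ P.natDegree := le_natDegree_of_ne_zero (right_ne_zero_of_mul h1)
    have h5 : p * t ≤ p * P.natDegree := Nat.mul_le_mul_left p h4
    have h6 : p * P.natDegree = P.natDegree * q + P.natDegree := by
      rw [hq]
      ring
    rw [← h2, Nat.mul_add, Nat.mul_zero]
    omega
  · rcases Nat.lt_or_ge j 2 with h1 | h1
    · obtain rfl : j = 1 := by omega
      rw [C1_cf_y1 a hq, coeff_add] at hc
      by_cases h2 : (AP.cf a 0).coeff i = 0
      · rw [h2, zero_add] at hc
        have h3 := ha i q (by omega) hc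
        have h4 : P.natDegree * 1 ≤ P.natDegree * q := Nat.mul_le_mul_left _ (by omega)
        omega
      · have h3 := ha i 0 (by omega) h2
        rw [Nat.mul_zero] at h3
        rw [Nat.mul_one]
        omega
    · obtain ⟨j', rfl⟩ : ∃ j', j = j' + 1 := ⟨j - 1, by omega⟩
      rw [C1_cf_ys a (by omega) hj] at hc
      have h3 := ha i j' (by omega) hc
      rw [Nat.mul_succ]
      omega

private theorem C1_Top.y {a : AP p F[X] P} {n : ℕ} (hm : P.natDegree ≠ 0) (ha : C1_Top a n) :
    C1_Top (AP.y P * a) (n + P.natDegree) := by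
  have hp2 : 2 ≤ p := C1_two
  obtain ⟨q, hq⟩ : ∃ q, p = q + 1 := ⟨p - 1, by omega⟩
  have hlt := ha.1
  refine ⟨ha.1.y.mono (by omega), ?_⟩
  obtain ⟨-, i, j, hj, hc, hn⟩ := ha
  rcases Nat.lt_or_ge j q with h1 | h1
  · rcases Nat.lt_or_ge j 1 with h2 | h2
    · obtain rfl : j = 0 := by omega
      refine ⟨i, 1, by omega, ?_, by omega⟩
      rw [C1_cf_y1 a hq, coeff_add]
      have h3 : (AP.cf a q).coeff i = 0 := by
        by_contra h4
        have h5 := hlt i q (by omega) h4
        have h6 : P.natDegree * 1 ≤ P.natDegree * q := Nat.mul_le_mul_left _ (by omega)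
        omega
      rw [h3, add_zero]
      exact hc
    · refine ⟨i, j + 1, by omega, ?_, ?_⟩
      · rw [C1_cf_ys a h2 (by omega)]
        exact hc
      · rw [Nat.mul_succ]
        omega
  · obtain rfl : j = q := by omega
    have h2 : (AP.cf a j).natDegree = i := by
      refine le_antisymm ?_ (le_natDegree_of_ne_zero hc)
      have h3 : AP.cf a j ≠ 0 := by
        intro h4
        rw [h4, coeff_zero] at hc
        exact hc rfl
      have h4 := hlt (AP.cf a j).natDegree j hj (by
        rw [coeff_natDegree]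
        exact leadingCoeff_ne_zero.2 h3)
      have h5 : p * (AP.cf a j).natDegree ≤ p * i := by omega
      exact Nat.le_of_mul_le_mul_left h5 (by omega)
    refine ⟨i + P.natDegree, 0, by omega, ?_, ?_⟩
    · rw [C1_cf_y0 a hq]
      nth_rw 1 [← h2]
      rw [coeff_mul_degree_add_degree]
      refine mul_ne_zero (leadingCoeff_ne_zero.2 ?_) (leadingCoeff_ne_zero.2 ?_)
      · intro h4
        rw [h4, coeff_zero] at hc
        exact hc rfl
      · intro h4
        rw [h4, natDegree_zero] at hm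
        exact hm rfl
    · have h6 : p * P.natDegree = P.natDegree * j + P.natDegree := by
        rw [hq]
        ring
      rw [Nat.mul_add, Nat.mul_zero]
      omega

private theorem C1_Lt.mono' {a : AP p F[X] P} {n : ℕ} (ha : C1_Lt a n) (c : F) (i j : ℕ) :
    C1_Lt (AP.o P (C c) * (AP.o P X ^ i * (AP.y P ^ j * a))) (n + p * i + P.natDegree * j) := by
  have h1 : C1_Lt (AP.y P ^ j * a) (n + P.natDegree * j) := by
    induction j with
    | zero => rw [pow_zero, one_mul]; exact ha
    | succ j ih =>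
      rw [pow_succ', mul_assoc]
      exact ih.y.mono (by rw [Nat.mul_succ]; omega)
  have h2 : C1_Lt (AP.o P X ^ i * (AP.y P ^ j * a)) (n + p * i + P.natDegree * j) := by
    induction i with
    | zero => rw [pow_zero, one_mul]; exact h1.mono (by omega)
    | succ i ih =>
      rw [pow_succ', mul_assoc]
      exact ih.x.mono (by rw [Nat.mul_succ]; omega)
  exact h2.c c

private theorem C1_Top.mono' {a : AP p F[X] P} {n : ℕ} (hm : P.natDegree ≠ 0) (ha : C1_Top a n)
    {c : F} (hc : c ≠ 0) (i j : ℕ) :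
    C1_Top (AP.o P (C c) * (AP.o P X ^ i * (AP.y P ^ j * a)))
      (n + p * i + P.natDegree * j) := by
  have h1 : C1_Top (AP.y P ^ j * a) (n + P.natDegree * j) := by
    induction j with
    | zero => rw [pow_zero, one_mul]; exact ha
    | succ j ih =>
      have h3 := C1_Top.y hm ih
      rw [pow_succ', mul_assoc, Nat.mul_succ, ← add_assoc]
      exact h3
  have h2 : C1_Top (AP.o P X ^ i * (AP.y P ^ j * a)) (n + p * i + P.natDegree * j) := by
    induction i with
    | zero => rw [pow_zero, one_mul, Nat.mul_zero, add_zero]; exact h1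
    | succ i ih =>
      have h3 := C1_Top.x ih
      rw [pow_succ', mul_assoc]
      have h4 : n + p * (i + 1) + P.natDegree * j = n + p * i + P.natDegree * j + p := by
        rw [Nat.mul_succ]
        omega
      rw [h4]
      exact h3
  exact h2.c hc

private theorem C1_expand (a b : AP p F[X] P) : a * b = ∑ j ∈ Finset.range p,
    ∑ i ∈ (AP.cf a j).support, AP.o P (C ((AP.cf a j).coeff i)) *
      (AP.o P X ^ i * (AP.y P ^ j * b)) := by
  conv_lhs => rw [C1_exp a, Finset.sum_mul]
  refine Finset.sum_congr rfl fun j _ => ?_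
  conv_lhs => rw [(AP.cf a j).as_sum_support_C_mul_X_pow, map_sum, Finset.sum_mul, Finset.sum_mul]
  refine Finset.sum_congr rfl fun i _ => ?_
  rw [map_mul, map_pow]
  ring

private theorem C1_Lt.mul {a b : AP p F[X] P} {n k : ℕ} (ha : C1_Lt a n) (hb : C1_Lt b (k + 1)) :
    C1_Lt (a * b) (n + k) := by
  rw [C1_expand a b]
  refine C1_Lt.sum _ _ fun j hj => C1_Lt.sum _ _ fun i hi => ?_
  refine (hb.mono' _ i j).mono ?_
  have := ha i j (Finset.mem_range.1 hj) (mem_support_iff.1 hi)
  omega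

private theorem C1_cf_mon (c : F) (i : ℕ) {j : ℕ} (hj : j < p) (i' j' : ℕ) :
    (AP.cf (AP.o P (C c) * (AP.o P X ^ i * AP.y P ^ j) : AP p F[X] P) j').coeff i' =
      if j' = j ∧ i' = i then c else 0 := by
  have h1 : (AP.o P (C c) * (AP.o P X ^ i * AP.y P ^ j) : AP p F[X] P) =
      AP.o P (C c * X ^ i) * AP.y P ^ j := by
    rw [map_mul, map_pow]
    ring
  rw [h1, C1_cf_oy _ hj]
  by_cases h2 : j' = j
  · rw [if_pos h2, coeff_C_mul_X_pow]
    by_cases h3 : i' = i
    · rw [if_pos h3, if_pos ⟨h2, h3⟩]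
    · rw [if_neg h3, if_neg (fun h => h3 h.2)]
  · rw [if_neg h2, if_neg (fun h => h2 h.1), coeff_zero]

private theorem C1_uniq (hm : ¬ p ∣ P.natDegree) {i j i' j' : ℕ} (hj : j < p) (hj' : j' < p)
    (h : p * i + P.natDegree * j = p * i' + P.natDegree * j') : i = i' ∧ j = j' := by
  have hp : p.Prime := Fact.out
  have h1 : P.natDegree * j ≡ P.natDegree * j' [MOD p] := by
    unfold Nat.ModEq
    rw [← Nat.mul_add_mod p i, h, Nat.mul_add_mod]
  have h2 : j ≡ j' [MOD p] :=
    Nat.ModEq.cancel_left_of_coprime ((Nat.Prime.coprime_iff_not_dvd hp).2 hm) h1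
  have h3 : j = j' := Nat.ModEq.eq_of_lt_of_lt h2 hj hj'
  subst h3
  have h4 : p * i = p * i' := by omega
  exact ⟨Nat.eq_of_mul_eq_mul_left hp.pos h4, rfl⟩

private theorem C1_Top.lead (hm : ¬ p ∣ P.natDegree) {a : AP p F[X] P} {n : ℕ}
    (ha : C1_Top a n) : ∃ (c : F) (i j : ℕ), c ≠ 0 ∧ j < p ∧ p * i + P.natDegree * j = n ∧
      C1_Lt (a - AP.o P (C c) * (AP.o P X ^ i * AP.y P ^ j)) n := by
  obtain ⟨hlt, i, j, hj, hc, hn⟩ := ha
  refine ⟨(AP.cf a j).coeff i, i, j, hc, hj, hn, ?_⟩
  intro i' j' hj' hc'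
  have h1 : (AP.cf (a - AP.o P (C ((AP.cf a j).coeff i)) * (AP.o P X ^ i * AP.y P ^ j)) j').coeff
      i' = (AP.cf a j').coeff i' - if j' = j ∧ i' = i then (AP.cf a j).coeff i else 0 := by
    rw [← C1_cf_mon (P := P) ((AP.cf a j).coeff i) i hj i' j']
    have h2 := C1_cf_add (a - AP.o P (C ((AP.cf a j).coeff i)) * (AP.o P X ^ i * AP.y P ^ j))
      (AP.o P (C ((AP.cf a j).coeff i)) * (AP.o P X ^ i * AP.y P ^ j)) j'
    rw [sub_add_cancel] at h2
    rw [h2, coeff_add, add_sub_cancel_right]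
  rw [h1] at hc'
  by_cases h2 : j' = j ∧ i' = i
  · rw [if_pos h2, h2.1, h2.2, sub_self] at hc'
    exact absurd rfl hc'
  · rw [if_neg h2, sub_zero] at hc'
    have h3 := hlt i' j' hj' hc'
    rcases Nat.lt_or_ge (p * i' + P.natDegree * j') n with h4 | h4
    · exact h4
    · have h5 : p * i' + P.natDegree * j' = p * i + P.natDegree * j := by omega
      obtain ⟨h6, h7⟩ := C1_uniq hm hj' hj h5
      exact absurd ⟨h7, h6⟩ h2

private theorem C1_Top.mul (hm : ¬ p ∣ P.natDegree) {a b : AP p F[X] P} {n k : ℕ}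
    (ha : C1_Top a n) (hb : C1_Top b k) : C1_Top (a * b) (n + k) := by
  have hm0 : P.natDegree ≠ 0 := by
    intro h
    rw [h] at hm
    exact hm (dvd_zero p)
  obtain ⟨c, i, j, hc, hj, hn, hlt⟩ := ha.lead hm
  have h1 : a * b = AP.o P (C c) * (AP.o P X ^ i * (AP.y P ^ j * b)) +
      (a - AP.o P (C c) * (AP.o P X ^ i * AP.y P ^ j)) * b := by ring
  rw [h1]
  refine C1_Top.add ?_ (hlt.mul hb.1)
  have h2 := C1_Top.mono' hm0 hb hc i j
  have h3 : k + p * i + P.natDegree * j = n + k := by omega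
  rw [h3] at h2
  exact h2

/-! the weight -/

private theorem C1_lt_wt (a : AP p F[X] P) : C1_Lt a (AP.wt a + 1) := by
  classical
  intro i j hj hc
  have h0 : AP.cf a j ≠ 0 := by
    intro h
    rw [h, coeff_zero] at hc
    exact hc rfl
  have h1 : p * (AP.cf a j).natDegree + P.natDegree * j ≤ AP.wt a := by
    unfold AP.wt
    refine le_trans ?_ (Finset.le_sup (Finset.mem_range.2 hj))
    rw [if_neg h0]
  have h2 : p * i ≤ p * (AP.cf a j).natDegree :=
    Nat.mul_le_mul_left p (le_natDegree_of_ne_zero hc)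
  omega

private theorem C1_wt_le {a : AP p F[X] P} {n : ℕ} (h : C1_Lt a (n + 1)) : AP.wt a ≤ n := by
  classical
  unfold AP.wt
  refine Finset.sup_le fun j hj => ?_
  by_cases h0 : AP.cf a j = 0
  · rw [if_pos h0]
    exact Nat.zero_le n
  · rw [if_neg h0]
    have h1 := h (AP.cf a j).natDegree j (Finset.mem_range.1 hj) (by
      rw [coeff_natDegree]
      exact leadingCoeff_ne_zero.2 h0)
    omega

private theorem C1_Top.wt {a : AP p F[X] P} {n : ℕ} (h : C1_Top a n) : AP.wt a = n := by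
  have h1 := C1_wt_le h.1
  have h2 := h.lt (C1_lt_wt a)
  omega

private theorem C1_top {a : AP p F[X] P} (ha : a ≠ 0) : C1_Top a (AP.wt a) := by
  classical
  refine ⟨C1_lt_wt a, ?_⟩
  obtain ⟨j0, hj0, hc0⟩ : ∃ j, j < p ∧ AP.cf a j ≠ 0 := by
    by_contra hcon
    push Not at hcon
    apply ha
    rw [C1_exp a]
    exact Finset.sum_eq_zero fun j hj => by
      rw [hcon j (Finset.mem_range.1 hj), map_zero, zero_mul]
  have hne : (Finset.range p).Nonempty := ⟨j0, Finset.mem_range.2 hj0⟩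
  obtain ⟨j1, hj1, h1⟩ := Finset.exists_mem_eq_sup (Finset.range p) hne
    (fun j => if AP.cf a j = 0 then 0 else p * (AP.cf a j).natDegree + P.natDegree * j)
  have h2 : AP.wt a = if AP.cf a j1 = 0 then 0 else
      p * (AP.cf a j1).natDegree + P.natDegree * j1 := by
    rw [← h1]
    unfold AP.wt
    rfl
  by_cases h3 : AP.cf a j1 = 0
  · rw [if_pos h3] at h2
    have h4 := C1_lt_wt a (AP.cf a j0).natDegree j0 hj0 (by
      rw [coeff_natDegree]
      exact leadingCoeff_ne_zero.2 hc0)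
    refine ⟨(AP.cf a j0).natDegree, j0, hj0, by
      rw [coeff_natDegree]
      exact leadingCoeff_ne_zero.2 hc0, ?_⟩
    omega
  · rw [if_neg h3] at h2
    exact ⟨(AP.cf a j1).natDegree, j1, Finset.mem_range.1 hj1, by
      rw [coeff_natDegree]
      exact leadingCoeff_ne_zero.2 h3, h2.symm⟩

private theorem C1_lt_const (c : F) : C1_Lt (AP.o P (C c) : AP p F[X] P) 1 := by
  intro i j hj hc
  have h1 : (AP.o P (C c) : AP p F[X] P) = AP.o P (C c) * (AP.o P X ^ 0 * AP.y P ^ 0) := by
    rw [pow_zero, pow_zero, mul_one, mul_one]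
  rw [h1, C1_cf_mon c 0 (by omega)] at hc
  by_cases h2 : j = 0 ∧ i = 0
  · rw [h2.1, h2.2]
    omega
  · rw [if_neg h2] at hc
    exact absurd rfl hc

private theorem C1_top_mon {c : F} (hc : c ≠ 0) (i : ℕ) {j : ℕ} (hj : j < p) :
    C1_Top (AP.o P (C c) * (AP.o P X ^ i * AP.y P ^ j) : AP p F[X] P)
      (p * i + P.natDegree * j) := by
  refine ⟨?_, i, j, hj, ?_, rfl⟩
  · intro i' j' hj' hc'
    rw [C1_cf_mon c i hj] at hc'
    by_cases h2 : j' = j ∧ i' = i
    · rw [h2.1, h2.2]
      omega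
    · rw [if_neg h2] at hc'
      exact absurd rfl hc'
  · rw [C1_cf_mon c i hj, if_pos ⟨rfl, rfl⟩]
    exact hc

private theorem C1_WV (hm : ¬ p ∣ P.natDegree) : WV F (AP p F[X] P) (fun a => AP.wt a) where
  zero := Nat.le_zero.1 (C1_wt_le (C1_Lt.zero _))
  mul a b ha hb := ((C1_top ha).mul hm (C1_top hb)).wt
  add a b := C1_wt_le (((C1_lt_wt a).mono (by
    have := le_max_left (AP.wt a) (AP.wt b)
    omega)).add ((C1_lt_wt b).mono (by
    have := le_max_right (AP.wt a) (AP.wt b)
    omega)))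
  alg r := Nat.le_zero.1 (C1_wt_le (C1_lt_const r))
  lead a b ha hb hab := by
    obtain ⟨c, i, j, hc, hj, hn, hlt⟩ := (C1_top ha).lead hm
    obtain ⟨d, i', j', hd, hj', hn', hlt'⟩ := (C1_top hb).lead hm
    have hab' : AP.wt a = AP.wt b := hab
    obtain ⟨rfl, rfl⟩ := C1_uniq hm hj hj' (by rw [hn, hn', hab'])
    refine ⟨c / d, ?_⟩
    have hs : (c / d) • b = AP.o P (C (c / d)) * b := Algebra.smul_def _ _
    rw [hs]
    have h1 : a - AP.o P (C (c / d)) * b =
        (a - AP.o P (C c) * (AP.o P X ^ i * AP.y P ^ j)) +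
          AP.o P (C (-(c / d))) * (b - AP.o P (C d) * (AP.o P X ^ i * AP.y P ^ j)) := by
      have h2 : (AP.o P (C (c / d)) : AP p F[X] P) * AP.o P (C d) = AP.o P (C c) := by
        rw [← map_mul, ← C_mul, div_mul_cancel₀ c hd]
      rw [C_neg, map_neg, ← h2]
      ring
    have h3 : C1_Lt (a - AP.o P (C (c / d)) * b) (AP.wt b) := by
      rw [h1]
      rw [hab'] at hlt
      exact hlt.add (hlt'.c _)
    by_cases h4 : a - AP.o P (C (c / d)) * b = 0
    · exact Or.inl (sub_eq_zero.1 h4)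
    · exact Or.inr ((C1_top h4).lt h3)
  big := by
    have hp : p.Prime := Fact.out
    refine ⟨P.natDegree * p, fun n hn => ?_⟩
    have hmz : (P.natDegree : ZMod p) ≠ 0 := fun h => hm ((ZMod.natCast_eq_zero_iff _ _).1 h)
    obtain ⟨j, hj⟩ : ∃ j : ℕ, j = ((n : ZMod p) * (P.natDegree : ZMod p)⁻¹).val := ⟨_, rfl⟩
    have hjp : j < p := by
      rw [hj]
      exact ZMod.val_lt _
    have h1 : ((P.natDegree * j : ℕ) : ZMod p) = n := by
      rw [Nat.cast_mul, hj, ZMod.natCast_val, ZMod.cast_id, mul_comm, mul_assoc,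
        inv_mul_cancel₀ hmz, mul_one]
    have h2 : P.natDegree * j ≤ n :=
      (Nat.mul_le_mul_left _ hjp.le).trans hn
    have h3 : p ∣ n - P.natDegree * j := by
      rw [← ZMod.natCast_eq_zero_iff, Nat.cast_sub h2, h1, sub_self]
    obtain ⟨i, hi⟩ := h3
    have h4 := C1_top_mon (P := P) (one_ne_zero : (1 : F) ≠ 0) i hjp
    refine ⟨_, h4.ne, ?_⟩
    have h5 := h4.wt
    show AP.wt _ = n
    rw [h5]
    omega

end weight

open Polynomial in
theorem thm_C1 : St_C1 := by
  intro p _ F _ _ P hm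
  have hW := C1_WV (F := F) (P := P) hm
  have hnt : Nontrivial (AP p F[X] P) :=
    ⟨_, _, (C1_top_mon (P := P) (one_ne_zero : (1 : F) ≠ 0) 0 (Fact.out : p.Prime).pos).ne⟩
  have hnz : NoZeroDivisors (AP p F[X] P) :=
    ⟨fun {a b} hab => by
      by_contra hcon
      push Not at hcon
      exact ((C1_top hcon.1).mul hm (C1_top hcon.2)).ne hab⟩
  have hdom : IsDomain (AP p F[X] P) := NoZeroDivisors.to_isDomain _
  refine ⟨C1_ded _ (AP.monic p (Fact.out : p.Prime).two_le P) ?_, hW⟩
  rw [derivative_sub, derivative_sub, derivative_C, derivative_X, derivative_X_pow, sub_zero,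
    CharP.cast_eq_zero F[X] p, C_0, zero_mul, zero_sub]

end Pool.Agent.AQS
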