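import Pool.Agent.AQS.St2

/-!
# AQS, module C10

Statement and proof: see `St_C10` in `Pool/Agent/AQS/St2.lean`.
-/

set_option autoImplicit false
set_option linter.unusedSectionVars false
set_option linter.style.haveILetI false

namespace Pool.Agent.AQS

open Function Pool.Agent.Helper11 Pool.Agent.HPow Pool.Agent.Helper67.Bass

section gen

variable {p : ℕ}

private theorem C10_map_o {W W' : Type} [CommRing W] [CommRing W'] (φ : W →+* W') (h w : W) :
    (AP.map (p := p) φ h) (AP.o h w) = AP.o (φ h) (φ w) := AP.lift_o _ _ _ _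

private theorem C10_map_y {W W' : Type} [CommRing W] [CommRing W'] (φ : W →+* W') (h : W) :
    (AP.map (p := p) φ h) (AP.y h) = AP.y (φ h) := AP.lift_y _ _ _

open Polynomial in
private theorem C10_mapg {W W' : Type} [CommRing W] [CommRing W'] (φ : W →+* W') (h : W) :
    (X ^ p - X - C h : W[X]).map φ = X ^ p - X - C (φ h) := by
  rw [Polynomial.map_sub, Polynomial.map_sub, Polynomial.map_pow, Polynomial.map_X,
    Polynomial.map_C]

open Polynomial in
private theorem C10_map_mk {W W' : Type} [CommRing W] [CommRing W'] (φ : W →+* W') (h : W)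
    (q : W[X]) : (AP.map (p := p) φ h) (AdjoinRoot.mk (X ^ p - X - C h) q) =
      AdjoinRoot.mk (X ^ p - X - C (φ h)) (q.map φ) := by
  induction q using Polynomial.induction_on' with
  | add a b ha hb => rw [map_add, map_add, ha, hb, Polynomial.map_add, map_add]
  | monomial n a =>
    rw [← C_mul_X_pow_eq_monomial, Polynomial.map_mul, Polynomial.map_pow, Polynomial.map_C,
      Polynomial.map_X, map_mul, map_mul, map_mul, map_pow, map_pow, map_pow, AdjoinRoot.mk_C,
      AdjoinRoot.mk_C, AdjoinRoot.mk_X, AdjoinRoot.mk_X]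
    have e1 : (AP.map (p := p) φ h) (AdjoinRoot.of (X ^ p - X - C h) a) =
      AdjoinRoot.of (X ^ p - X - C (φ h)) (φ a) := C10_map_o φ h a
    have e2 : (AP.map (p := p) φ h) (AdjoinRoot.root (X ^ p - X - C h)) =
      AdjoinRoot.root (X ^ p - X - C (φ h)) := C10_map_y φ h
    rw [e1, e2]

open Polynomial in
private theorem C10_inj (hp : 2 ≤ p) {W W' : Type} [CommRing W] [CommRing W'] (φ : W →+* W')
    (hφ : Injective φ) (h : W) : Injective (AP.map (p := p) φ h) := by
  rw [injective_iff_map_eq_zero]
  intro x hx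
  obtain ⟨q, rfl⟩ := AdjoinRoot.mk_surjective x
  rw [C10_map_mk, AdjoinRoot.mk_eq_zero, ← C10_mapg, map_dvd_map φ hφ (AP.monic p hp h)] at hx
  exact AdjoinRoot.mk_eq_zero.2 hx

end gen

open Polynomial in
/-- the generic fibre is a localisation -/
private theorem C10_loc (p : ℕ) (hp : 2 ≤ p) (k : Type) [Field k] (F : k[X][X]) :
    @IsLocalization (AP p k[X][X] F) _
      ((nonZeroDivisors k[X]).map ((AP.o F : k[X][X] →+* AP p k[X][X] F).comp C))
      (AP p (FractionRing k[X])[X] (mapRingHom (algebraMap k[X] (FractionRing k[X])) F)) _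
      (AP.map (p := p) (mapRingHom (algebraMap k[X] (FractionRing k[X]))) F).toAlgebra := by
  let K := FractionRing k[X]
  let j : k[X] →+* K := algebraMap k[X] K
  let J : k[X][X] →+* K[X] := mapRingHom j
  let V := AP p k[X][X] F
  let A := AP p K[X] (J F)
  let ι : V →+* A := AP.map J F
  let c : k[X] →+* V := (AP.o F : k[X][X] →+* V).comp C
  let S : Submonoid V := (nonZeroDivisors k[X]).map c
  letI : Algebra V A := ι.toAlgebra
  have halg : ∀ v : V, algebraMap V A v = ι v := fun v => rfl
  have hιc : ∀ s : k[X], ι (c s) = AP.o (J F) (C (j s)) := by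
    intro s
    show ι (AP.o F (C s)) = _
    rw [C10_map_o]
    show AP.o (J F) (Polynomial.map j (C s)) = _
    rw [Polynomial.map_C]
  have hJ : Injective J := Polynomial.map_injective j (IsFractionRing.injective k[X] K)
  have hι : Injective ι := C10_inj hp J hJ F
  refine (isLocalization_iff S A).2 ⟨?_, ?_, ?_⟩
  · rintro ⟨y, s, hs, rfl⟩
    show IsUnit (ι (c s))
    rw [hιc]
    have h1 : IsUnit (j s) := IsLocalization.map_units K (⟨s, hs⟩ : nonZeroDivisors k[X])
    exact (h1.map C).map (AP.o (J F) : K[X] →+* A)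
  · -- surjectivity
    let Q : A → Prop := fun z => ∃ s ∈ nonZeroDivisors k[X], ∃ x : V, z * ι (c s) = ι x
    have hQa : ∀ z z', Q z → Q z' → Q (z + z') := by
      rintro z z' ⟨s, hs, x, hx⟩ ⟨s', hs', x', hx'⟩
      refine ⟨s * s', mul_mem hs hs', x * c s' + x' * c s, ?_⟩
      rw [map_mul, map_mul, map_add, map_mul, map_mul, ← hx, ← hx']
      ring
    have hQm : ∀ z z', Q z → Q z' → Q (z * z') := by
      rintro z z' ⟨s, hs, x, hx⟩ ⟨s', hs', x', hx'⟩
      refine ⟨s * s', mul_mem hs hs', x * x', ?_⟩
      rw [map_mul, map_mul, map_mul, ← hx, ← hx']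
      ring
    have hQι : ∀ x : V, Q (ι x) := fun x => ⟨1, one_mem _, x, by rw [map_one, map_one, mul_one]⟩
    have hQp : ∀ z, Q z → ∀ n : ℕ, Q (z ^ n) := by
      intro z hz n
      induction n with
      | zero => rw [pow_zero, ← map_one ι]; exact hQι 1
      | succ n ih => rw [pow_succ]; exact hQm _ _ ih hz
    have hQK : ∀ κ : K, Q (AP.o (J F) (C κ)) := by
      intro κ
      obtain ⟨⟨a, s⟩, hs⟩ := IsLocalization.surj (nonZeroDivisors k[X]) κ
      refine ⟨s, s.2, c a, ?_⟩
      rw [hιc, hιc, ← map_mul, ← C_mul]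
      exact congrArg (fun t => AP.o (J F) (C t)) hs
    have hQX : Q (AP.o (J F) X) := by
      have e : AP.o (J F) X = ι (AP.o F X) := by
        rw [C10_map_o]
        show _ = AP.o (J F) (Polynomial.map j X)
        rw [Polynomial.map_X]
      rw [e]
      exact hQι _
    have hQo : ∀ q : K[X], Q (AP.o (J F) q) := by
      intro q
      induction q using Polynomial.induction_on' with
      | add a b ha hb => rw [map_add]; exact hQa _ _ ha hb
      | monomial n a =>
        rw [← C_mul_X_pow_eq_monomial, map_mul, map_pow]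
        exact hQm _ _ (hQK a) (hQp _ hQX n)
    have hQy : Q (AP.y (J F)) := by
      have e : (AP.y (J F) : A) = ι (AP.y F) := (C10_map_y J F).symm
      rw [e]
      exact hQι _
    have hall : ∀ z : A, Q z := by
      intro z
      obtain ⟨q, rfl⟩ := AdjoinRoot.mk_surjective z
      induction q using Polynomial.induction_on' with
      | add a b ha hb => rw [map_add]; exact hQa _ _ ha hb
      | monomial n a =>
        rw [← C_mul_X_pow_eq_monomial, map_mul, map_pow, AdjoinRoot.mk_C, AdjoinRoot.mk_X]
        exact hQm _ _ (hQo a) (hQp _ hQy n)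
    intro z
    obtain ⟨s, hs, x, hx⟩ := hall z
    exact ⟨(x, ⟨c s, s, hs, rfl⟩), hx⟩
  · intro x y hxy
    exact ⟨1, by rw [hι hxy]⟩

open Polynomial in
/-- modules killed by an irreducible polynomial -/
private theorem C10_irr (hC : St_C1) (p : ℕ) [Fact p.Prime] (k : Type) [Field k] [Finite k]
    [CharP k p] (F : k[X][X]) (hF : ¬ p ∣ F.natDegree) (hu : IsUnit F.leadingCoeff)
    (hpt : ∀ (E : Type) [Field E] [Finite E] (ε : AP p k[X][X] F →+* E), pt ε = 0)
    (hreg : ∀ s : k[X], s ≠ 0 → ∀ v : AP p k[X][X] F, (AP.o F (C s) : AP p k[X][X] F) * v = 0 → v = 0)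
    (π : k[X]) (hπ : Irreducible π) (M : FGMod (AP p k[X][X] F))
    (hM : ∀ m : M, (AP.o F (C π) : AP p k[X][X] F) • m = 0) : G0.mk M = 0 := by
  let V := AP p k[X][X] F
  let H : AddSubgroup (G0 V) := ⊥
  have hH : Two3 (fun M : FGMod V => G0.mk M ∈ H) := two3_closure H
  haveI : Fact (Irreducible π) := ⟨hπ⟩
  let κ := AdjoinRoot π
  haveI : Module.Finite k κ := (AdjoinRoot.powerBasis hπ.ne_zero).finite
  haveI : Finite κ := Module.finite_of_finite k
  haveI : CharP κ p := charP_of_injective_algebraMap (algebraMap k κ).injective p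
  let ν : k[X] →+* κ := AdjoinRoot.mk π
  have hν : Surjective ν := AdjoinRoot.mk_surjective
  let N : k[X][X] →+* κ[X] := mapRingHom ν
  have hN : Surjective N := map_surjective ν hν
  have hNF : N F = Polynomial.map ν F := rfl
  have hlc : ν F.leadingCoeff ≠ 0 := (hu.map ν).ne_zero
  have hdeg : (N F).natDegree = F.natDegree := by
    rw [hNF]
    exact natDegree_map_of_leadingCoeff_ne_zero ν hlc
  let D := AP p κ[X] (N F)
  obtain ⟨hD, -⟩ := hC p κ (N F) (by rw [hdeg]; exact hF)
  haveI : IsDedekindDomain D := hD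
  -- the surjection
  let ρ : V →+* D := AP.map N F
  have hρ : Surjective ρ := by
    intro z
    obtain ⟨q, rfl⟩ := AdjoinRoot.mk_surjective z
    obtain ⟨r, rfl⟩ := map_surjective N hN q
    exact ⟨AdjoinRoot.mk _ r, C10_map_mk N F r⟩
  have hker : RingHom.ker ρ = Ideal.span {(AP.o F (C π) : V)} := by
    apply le_antisymm
    · intro x hx
      rw [RingHom.mem_ker] at hx
      obtain ⟨q, rfl⟩ := AdjoinRoot.mk_surjective x
      have hx2 : (AP.map (p := p) N F) (AdjoinRoot.mk (X ^ p - X - C F) q) = 0 := hx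
      rw [C10_map_mk, AdjoinRoot.mk_eq_zero] at hx2
      obtain ⟨r', hr'⟩ := hx2
      obtain ⟨r, rfl⟩ := map_surjective N hN r'
      have h0 : Polynomial.map N (q - (X ^ p - X - C F) * r) = 0 := by
        rw [Polynomial.map_sub, Polynomial.map_mul, C10_mapg, hr', sub_self]
      have h1 : C (C π) ∣ q - (X ^ p - X - C F) * r := by
        rw [C_dvd_iff_dvd_coeff]
        intro i
        rw [C_dvd_iff_dvd_coeff]
        intro l
        have h2 : N ((q - (X ^ p - X - C F) * r).coeff i) = 0 := by
          rw [← Polynomial.coeff_map, h0, coeff_zero]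
        have h3 : ν (((q - (X ^ p - X - C F) * r).coeff i).coeff l) = 0 := by
          rw [← Polynomial.coeff_map]
          show (N ((q - (X ^ p - X - C F) * r).coeff i)).coeff l = 0
          rw [h2, coeff_zero]
        exact AdjoinRoot.mk_eq_zero.1 h3
      obtain ⟨t, ht⟩ := h1
      have h3 : AdjoinRoot.mk (X ^ p - X - C F) q =
          AP.o F (C π) * AdjoinRoot.mk (X ^ p - X - C F) t := by
        have h4 : q = (X ^ p - X - C F) * r + C (C π) * t := by rw [← ht]; ring
        rw [h4, map_add, map_mul, map_mul, AdjoinRoot.mk_self, zero_mul, zero_add, AdjoinRoot.mk_C]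
        rfl
      rw [h3]
      exact Ideal.mul_mem_right _ _ (Ideal.mem_span_singleton_self _)
    · rw [Ideal.span_singleton_le_iff_mem, RingHom.mem_ker]
      show (AP.map (p := p) N F) (AP.o F (C π)) = 0
      rw [C10_map_o]
      show AP.o (N F) (Polynomial.map ν (C π)) = 0
      rw [Polynomial.map_C]
      have : ν π = 0 := AdjoinRoot.mk_self
      rw [this, C_0, map_zero]
  -- all modules over `D`
  have hDall : ∀ L : FGMod D, G0.mk (restr ρ hρ L) ∈ H := by
    have hP : Two3 (fun L : FGMod D => G0.mk (restr ρ hρ L) ∈ H) := hH.comap_restr ρ hρ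
    intro L
    refine prime_reduction hP.toResClass ?_ ⊥ ?_ L (G0.killedBy_bot L)
    · refine hP.zero _ ?_
      exact Ideal.Quotient.subsingleton_iff.2 rfl
    · intro 𝔮 hq _
      by_cases h0 : 𝔮 = ⊥
      · -- the ring itself
        have h1 : G0.mk (restr ρ hρ (FGMod.of D D)) ∈ H := by
          let f : V →ₗ[V] V := LinearMap.mulLeft V (AP.o F (C π) : V)
          let g : (FGMod.of V V : FGMod V) →ₗ[V] restr ρ hρ (FGMod.of D D) :=
            { toFun := fun v => (restrEquiv ρ hρ (FGMod.of D D)).symm (ρ v)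
              map_add' := fun x y => by
                rw [map_add, map_add]
              map_smul' := fun x y => by
                apply (restrEquiv ρ hρ (FGMod.of D D)).injective
                show ρ (x * y) = ρ x * ρ y
                exact map_mul ρ x y }
          have hg : ∀ v, g v = (restrEquiv ρ hρ (FGMod.of D D)).symm (ρ v) := fun v => rfl
          have h2 := G0.mk_add (FGMod.of V V) (FGMod.of V V) (restr ρ hρ (FGMod.of D D)) f g ?_ ?_ ?_
          · have h3 : G0.mk (restr ρ hρ (FGMod.of D D)) = 0 := by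
              have h4 : G0.mk (FGMod.of V V) + G0.mk (restr ρ hρ (FGMod.of D D)) =
                G0.mk (FGMod.of V V) + 0 := by rw [add_zero]; exact h2.symm
              exact add_left_cancel h4
            rw [h3]
            exact zero_mem _
          · rw [← LinearMap.ker_eq_bot, LinearMap.ker_eq_bot']
            intro v hv
            exact hreg π hπ.ne_zero v hv
          · intro z
            obtain ⟨v, hv⟩ := hρ ((restrEquiv ρ hρ (FGMod.of D D)) z)
            exact ⟨v, by rw [hg, hv, AddEquiv.symm_apply_apply]⟩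
          · intro v
            have h5 : g v = 0 ↔ ρ v = 0 := by
              rw [hg]
              exact (restrEquiv ρ hρ (FGMod.of D D)).symm.map_eq_zero_iff
            rw [h5, ← RingHom.mem_ker, hker, Ideal.mem_span_singleton]
            constructor
            · rintro ⟨w, rfl⟩
              exact ⟨w, rfl⟩
            · rintro ⟨w, rfl⟩
              exact ⟨w, rfl⟩
        subst h0
        exact hP.iso (FGMod.of D D) (FGMod.of D (D ⧸ (⊥ : Ideal D)))
          (Submodule.quotEquivOfEqBot (⊥ : Ideal D) rfl).symm h1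
      · -- a point
        haveI : 𝔮.IsMaximal := hq.isMaximal h0
        letI : Field (D ⧸ 𝔮) := Ideal.Quotient.field 𝔮
        haveI : Algebra.FiniteType κ D :=
          Algebra.FiniteType.of_surjective (R := κ) (A := κ[X][X]) (B := D)
            { (AdjoinRoot.mk (X ^ p - X - C (N F)) : κ[X][X] →+* D) with
              commutes' := fun r => rfl } AdjoinRoot.mk_surjective
        haveI : Module.Finite κ (D ⧸ 𝔮) := finite_of_finite_type_of_isJacobsonRing κ (D ⧸ 𝔮)
        haveI : Finite (D ⧸ 𝔮) := Module.finite_of_finite κ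
        let ε : V →+* D ⧸ 𝔮 := (Ideal.Quotient.mk 𝔮).comp ρ
        have h1 : G0.mk (ptM ε) = 0 := hpt (D ⧸ 𝔮) ε
        have h2 : G0.mk (restr ρ hρ (FGMod.of D (D ⧸ 𝔮))) = G0.mk (ptM ε) := by
          refine mk_eq_of_iso
            { restrEquiv ρ hρ (FGMod.of D (D ⧸ 𝔮)) with
              map_smul' := fun s x => ?_ }
          show ρ s • (restrEquiv ρ hρ (FGMod.of D (D ⧸ 𝔮)) x) =
            Ideal.Quotient.mk 𝔮 (ρ s) * (restrEquiv ρ hρ (FGMod.of D (D ⧸ 𝔮)) x)
          exact Algebra.smul_def _ _
        rw [h2, h1]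
        exact zero_mem _
  have h9 : G0.mk M ∈ H := restr_of_killed hH ρ hρ hDall M (by
    rw [hker]
    intro s hs m
    rw [Ideal.mem_span_singleton] at hs
    obtain ⟨t, rfl⟩ := hs
    rw [mul_comm, mul_smul, hM, smul_zero])
  exact (AddSubgroup.mem_bot).1 h9

open Polynomial in
theorem thm_C10 (_h1 : St_A1) (hC : St_C1) (ha : St_C10a) : St_C10 := by
  intro p _ k _ _ _ F hF hu hpt
  have hp : 2 ≤ p := (Fact.out : p.Prime).two_le
  let K := FractionRing k[X]
  let J : k[X][X] →+* K[X] := mapRingHom (algebraMap k[X] K)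
  let V := AP p k[X][X] F
  let A := AP p K[X] (J F)
  let ι : V →+* A := AP.map J F
  let c : k[X] →+* V := (AP.o F : k[X][X] →+* V).comp C
  let S : Submonoid V := (nonZeroDivisors k[X]).map c
  letI : Algebra V A := ι.toAlgebra
  haveI hloc : IsLocalization S A := C10_loc p hp k F
  haveI hflat : Module.Flat V A := IsLocalization.flat A S
  haveI : IsNoetherianRing V :=
    isNoetherianRing_of_surjective _ _ (AdjoinRoot.mk _) AdjoinRoot.mk_surjective
  have hJ : Injective J := Polynomial.map_injective _ (IsFractionRing.injective k[X] K)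
  have hι : Injective ι := C10_inj hp J hJ F
  have hreg : ∀ s : k[X], s ≠ 0 → ∀ v : V, (AP.o F (C s) : V) * v = 0 → v = 0 := by
    intro s hs v hv
    have hsn : s ∈ nonZeroDivisors k[X] := mem_nonZeroDivisors_of_ne_zero hs
    have h2 : IsUnit (ι (c s)) :=
      IsLocalization.map_units A (⟨c s, s, hsn, rfl⟩ : S)
    apply hι
    rw [map_zero]
    have h3 : ι (c s) * ι v = 0 := by
      rw [← map_mul]
      show ι (AP.o F (C s) * v) = 0
      rw [hv, map_zero]
    exact (h2.mul_right_eq_zero).1 h3
  have hall : ∀ s : k[X], s ≠ 0 → ∀ M : FGMod V, (∀ m : M, c s • m = 0) → G0.mk M = 0 := by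
    intro s
    have hbot : Two3 (fun M : FGMod V => G0.mk M ∈ (⊥ : AddSubgroup (G0 V))) := two3_closure ⊥
    induction s using WfDvdMonoid.induction_on_irreducible with
    | zero => intro h; exact absurd rfl h
    | unit u hu' =>
      intro _ M hM
      have h4 : IsUnit (c u) := hu'.map c
      have h5 : Subsingleton M := by
        refine ⟨fun x y => ?_⟩
        have h6 : ∀ z : M, z = 0 := by
          intro z
          obtain ⟨w, hw⟩ := h4.exists_left_inv
          have := hM z
          rw [← one_smul V z, ← hw, mul_smul, this, smul_zero]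
        rw [h6 x, h6 y]
      exact (AddSubgroup.mem_bot).1 (hbot.zero M h5)
    | mul a i ha' hi ih =>
      intro _ M hM
      let f : M →ₗ[V] M := LinearMap.lsmul V M (c i)
      have hf : ∀ m, f m = c i • m := fun m => rfl
      have h7 : G0.mk (FGMod.of V (LinearMap.range f)) = 0 := by
        refine ih ha' _ ?_
        rintro ⟨_, m, rfl⟩
        apply Subtype.ext
        show c a • f m = 0
        rw [hf, ← mul_smul, ← map_mul, mul_comm a i]
        exact hM m
      have h8 : G0.mk (FGMod.of V (M ⧸ LinearMap.range f)) = 0 := by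
        refine C10_irr hC p k F hF hu hpt hreg i hi _ ?_
        intro m
        obtain ⟨m, rfl⟩ := Submodule.mkQ_surjective _ m
        show c i • (LinearMap.range f).mkQ m = 0
        rw [← map_smul, Submodule.mkQ_apply, Submodule.Quotient.mk_eq_zero]
        exact ⟨m, rfl⟩
      refine (AddSubgroup.mem_bot).1 (hbot.of_submodule M (LinearMap.range f) ?_ ?_)
      · rw [h7]; exact zero_mem _
      · rw [h8]; exact zero_mem _
  refine ⟨hflat, ?_⟩
  rw [injective_iff_map_eq_zero]
  intro x hx
  have hx2 : bcG V A x = 0 := hx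
  have h9 := ha V A S x hx2
  have h10 : AddSubgroup.closure {y | ∃ M : FGMod V, (∃ s ∈ S, ∀ m : M, s • m = 0) ∧
      y = G0.mk M} ≤ ⊥ := by
    rw [AddSubgroup.closure_le]
    rintro _ ⟨M, ⟨_, ⟨s, hs, rfl⟩, hM⟩, rfl⟩
    have : G0.mk M = 0 := hall s (nonZeroDivisors.ne_zero hs) M hM
    rw [this]
    exact zero_mem _
  exact (AddSubgroup.mem_bot).1 (h10 h9)

end Pool.Agent.AQS
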