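import Pool.Agent.AQS.St2

/-!
# AQS, module C10a

Statement and proof: see `St_C10a` in `Pool/Agent/AQS/St2.lean`.
-/

set_option autoImplicit false
set_option linter.unusedSectionVars false
set_option linter.style.haveILetI false

namespace Pool.Agent.AQS

open Function Pool.Agent.Helper11 Pool.Agent.Helper83.Bass Pool.Agent.HPow
  Pool.Agent.Helper67.Bass TensorProduct

section

variable {R V : Type} [CommRing R] [CommRing V] [Algebra R V] (W : Submonoid R)

/-- `E` is a lattice in `X`: a map which is an isomorphism up to `W`-torsion -/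
structure C10a_Lat (X : FGMod V) (E : FGMod R) : Type where
  j : E →+ X
  smul : ∀ (r : R) (e : E), j (r • e) = algebraMap R V r • j e
  tors : ∀ e : E, j e = 0 → ∃ w ∈ W, w • e = 0
  abs : ∀ x : X, ∃ w ∈ W, ∃ e : E, algebraMap R V w • x = j e

/-- the subgroup generated by the modules killed by an element of `W` -/
noncomputable def C10a_H {R : Type} [CommRing R] (W : Submonoid R) : AddSubgroup (G0 R) :=
  AddSubgroup.closure {y | ∃ M : FGMod R, (∃ s ∈ W, ∀ m : M, s • m = 0) ∧ y = G0.mk M}

theorem C10a_tors {R : Type} [CommRing R] (W : Submonoid R) (M : FGMod R)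
    (h : ∀ m : M, ∃ w ∈ W, w • m = 0) : G0.mk M ∈ C10a_H W := by
  refine AddSubgroup.subset_closure ⟨M, ?_, rfl⟩
  obtain ⟨S, hS⟩ := (inferInstance : Module.Finite R M).fg_top
  choose d hdW hd using h
  refine ⟨∏ x ∈ S, d x, W.prod_mem fun x _ => hdW x, fun x => ?_⟩
  have hx : x ∈ Submodule.span R (S : Set M) := by rw [hS]; trivial
  induction hx using Submodule.span_induction with
  | mem x h =>
      obtain ⟨c, hc⟩ := Finset.dvd_prod_of_mem d (a := x) (s := S) h
      rw [hc, mul_comm, mul_smul, hd x, smul_zero]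
  | zero => rw [smul_zero]
  | add x y _ _ hx hy => rw [smul_add, hx, hy, add_zero]
  | smul r x _ hx => rw [smul_comm, hx, smul_zero]

theorem C10a_map {R : Type} [CommRing R] [IsNoetherianRing R] (W : Submonoid R) (M N : FGMod R)
    (f : M →ₗ[R] N) (hk : ∀ m, f m = 0 → ∃ w ∈ W, w • m = 0)
    (hc : ∀ x, ∃ w ∈ W, ∃ m : M, w • x = f m) : G0.mk M - G0.mk N ∈ C10a_H W := by
  have hker : G0.mk (FGMod.of R (LinearMap.ker f)) ∈ C10a_H W := C10a_tors W _ (by
    rintro ⟨m, hm⟩
    obtain ⟨n, hnW, hn⟩ := hk m hm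
    exact ⟨n, hnW, Subtype.ext hn⟩)
  have hcok : G0.mk (FGMod.of R (N ⧸ LinearMap.range f)) ∈ C10a_H W := C10a_tors W _ (by
    intro x
    obtain ⟨x, rfl⟩ := Submodule.mkQ_surjective _ x
    obtain ⟨n, hnW, m, hm⟩ := hc x
    refine ⟨n, hnW, ?_⟩
    rw [← map_smul, Submodule.mkQ_apply, Submodule.Quotient.mk_eq_zero, hm]
    exact ⟨m, rfl⟩)
  have h1 := (G0.isAdd_mk (R := R)).ker_range f (G0.killedBy_bot M)
  have h2 := (G0.isAdd_mk (R := R)).submodule N (LinearMap.range f) (G0.killedBy_bot N)
  rw [h1, h2]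
  have : G0.mk (FGMod.of R (LinearMap.ker f)) + G0.mk (FGMod.of R (LinearMap.range f)) -
      (G0.mk (FGMod.of R (LinearMap.range f)) + G0.mk (FGMod.of R (N ⧸ LinearMap.range f))) =
      G0.mk (FGMod.of R (LinearMap.ker f)) - G0.mk (FGMod.of R (N ⧸ LinearMap.range f)) := by
    abel
  rw [this]
  exact sub_mem hker hcok

variable {W}

theorem C10a_lat [IsNoetherianRing R] {X : FGMod V} {E E' : FGMod R} (l : C10a_Lat W X E)
    (l' : C10a_Lat W X E') : G0.mk E - G0.mk E' ∈ C10a_H W := by
  letI : Module R X := Module.compHom X (algebraMap R V)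
  have hsm : ∀ (r : R) (x : X), r • x = algebraMap R V r • x := fun _ _ => rfl
  let J : E →ₗ[R] X := { l.j with map_smul' := l.smul }
  let J' : E' →ₗ[R] X := { l'.j with map_smul' := l'.smul }
  let N : Submodule R X := LinearMap.range J ⊔ LinearMap.range J'
  haveI : Module.Finite R N := by
    haveI h1 : Module.Finite R (LinearMap.range J) := inferInstance
    haveI h2 : Module.Finite R (LinearMap.range J') := inferInstance
    exact Submodule.finite_sup _ _
  let L : FGMod R := FGMod.of R N
  have h1 : G0.mk E - G0.mk L ∈ C10a_H W := by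
    refine C10a_map W E L (J.codRestrict N (fun e => Submodule.mem_sup_left ⟨e, rfl⟩)) ?_ ?_
    · intro e he
      exact l.tors e (congrArg Subtype.val he)
    · rintro ⟨x, hx⟩
      obtain ⟨n, hnW, e, hn⟩ := l.abs x
      exact ⟨n, hnW, e, Subtype.ext ((hsm n x).trans hn)⟩
  have h2 : G0.mk E' - G0.mk L ∈ C10a_H W := by
    refine C10a_map W E' L (J'.codRestrict N (fun e => Submodule.mem_sup_right ⟨e, rfl⟩)) ?_ ?_
    · intro e he
      exact l'.tors e (congrArg Subtype.val he)
    · rintro ⟨x, hx⟩
      obtain ⟨n, hnW, e, hn⟩ := l'.abs x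
      exact ⟨n, hnW, e, Subtype.ext ((hsm n x).trans hn)⟩
  have := sub_mem h1 h2
  rwa [sub_sub_sub_cancel_right] at this

theorem C10a_exists [IsNoetherianRing R] [IsLocalization W V] (X : FGMod V) :
    ∃ E : FGMod R, Nonempty (C10a_Lat W X E) := by
  letI : Module R X := Module.compHom X (algebraMap R V)
  have hsm : ∀ (r : R) (x : X), r • x = algebraMap R V r • x := fun _ _ => rfl
  obtain ⟨S, hS⟩ := (inferInstance : Module.Finite V X).fg_top
  let N : Submodule R X := Submodule.span R (S : Set X)
  haveI : Module.Finite R N := Module.Finite.iff_fg.mpr ⟨S, rfl⟩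
  refine ⟨FGMod.of R N, ⟨
    { j := N.subtype.toAddMonoidHom
      smul := fun r e => rfl
      tors := fun e he => ⟨1, W.one_mem, ?_⟩
      abs := fun x => ?_ }⟩⟩
  · rw [one_smul]
    exact Subtype.ext he
  · have hx : x ∈ Submodule.span V (S : Set X) := by rw [hS]; trivial
    have key : ∃ w ∈ W, algebraMap R V w • x ∈ N := by
      induction hx using Submodule.span_induction with
      | mem x h =>
          exact ⟨1, W.one_mem, by rw [map_one, one_smul]; exact Submodule.subset_span h⟩
      | zero => exact ⟨1, W.one_mem, by rw [smul_zero]; exact N.zero_mem⟩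
      | add x y _ _ hx hy =>
          obtain ⟨n, hnW, hn⟩ := hx
          obtain ⟨m, hmW, hm⟩ := hy
          refine ⟨n * m, W.mul_mem hnW hmW, ?_⟩
          rw [smul_add]
          refine N.add_mem ?_ ?_
          · rw [mul_comm, map_mul, mul_smul]
            exact N.smul_mem m hn
          · rw [map_mul, mul_smul]
            exact N.smul_mem n hm
      | smul v x _ hx =>
          obtain ⟨n, hnW, hn⟩ := hx
          obtain ⟨⟨r, m⟩, hr⟩ := IsLocalization.surj W v
          have hr : v * algebraMap R V m = algebraMap R V r := hr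
          refine ⟨n * m, W.mul_mem hnW m.2, ?_⟩
          rw [← mul_smul]
          have : algebraMap R V (n * m) * v =
              algebraMap R V r * algebraMap R V n := by
            rw [map_mul, mul_assoc, mul_comm (algebraMap R V m) v, hr, mul_comm]
          rw [this, mul_smul]
          exact N.smul_mem r hn
    obtain ⟨n, hnW, hn⟩ := key
    exact ⟨n, hnW, ⟨_, hn⟩, rfl⟩

theorem C10a_lat_exact {X' X X'' : FGMod V} {f : X' →ₗ[V] X} {g : X →ₗ[V] X''}
    (hf : Injective f) (hg : Surjective g) (hfg : Exact f g) [IsNoetherianRing R] {E : FGMod R}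
    (l : C10a_Lat W X E) :
    ∃ (E' E'' : FGMod R) (a : E' →ₗ[R] E) (b : E →ₗ[R] E''), Injective a ∧ Surjective b ∧
      Exact a b ∧ Nonempty (C10a_Lat W X' E') ∧ Nonempty (C10a_Lat W X'' E'') := by
  letI : Module R X := Module.compHom X (algebraMap R V)
  letI : Module R X'' := Module.compHom X'' (algebraMap R V)
  have hsm : ∀ (r : R) (x : X), r • x = algebraMap R V r • x := fun _ _ => rfl
  have hsm'' : ∀ (r : R) (x : X''), r • x = algebraMap R V r • x := fun _ _ => rfl
  let J : E →ₗ[R] X'' :=
    { toFun := fun e => g (l.j e)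
      map_add' := fun x y => by rw [map_add, map_add]
      map_smul' := fun r x => by rw [l.smul, map_smul]; rfl }
  let K : Submodule R E := LinearMap.ker J
  have hK : ∀ e : K, ∃ x' : X', f x' = l.j e := by
    rintro ⟨e, he⟩
    exact (hfg (l.j e)).1 he
  choose φ hφ using hK
  refine ⟨FGMod.of R K, FGMod.of R (LinearMap.range J), K.subtype, J.rangeRestrict,
    K.subtype_injective, J.surjective_rangeRestrict, ?_, ⟨?_⟩, ⟨?_⟩⟩
  · intro x
    constructor
    · intro hx
      refine ⟨⟨x, ?_⟩, rfl⟩
      have := congrArg Subtype.val hx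
      exact this
    · rintro ⟨y, rfl⟩
      apply Subtype.ext
      exact y.2
  · exact
      { j :=
          { toFun := φ
            map_zero' := hf (by rw [hφ, map_zero]; exact map_zero l.j)
            map_add' := fun x y => hf (by
              rw [hφ, map_add, hφ, hφ]; exact map_add l.j _ _) }
        smul := fun r e => hf (by
          change f (φ (r • e)) = f (algebraMap R V r • φ e)
          rw [hφ, map_smul, hφ]; exact l.smul r _)
        tors := fun e he => by
          have h1 : l.j e = 0 := by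
            rw [← hφ]
            have : φ e = 0 := he
            rw [this, map_zero]
          obtain ⟨n, hnW, hn⟩ := l.tors _ h1
          exact ⟨n, hnW, Subtype.ext hn⟩
        abs := fun x => by
          obtain ⟨n, hnW, e, hn⟩ := l.abs (f x)
          have he : e ∈ K := by
            change g (l.j e) = 0
            rw [← hn, map_smul, (hfg (f x)).2 ⟨x, rfl⟩, smul_zero]
          refine ⟨n, hnW, ⟨e, he⟩, hf ?_⟩
          change f (algebraMap R V n • x) = f (φ ⟨e, he⟩)
          rw [hφ, map_smul, hn] }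
  · exact
      { j := (LinearMap.range J).subtype.toAddMonoidHom
        smul := fun r e => rfl
        tors := fun e he => ⟨1, W.one_mem, by rw [one_smul]; exact Subtype.ext he⟩
        abs := fun x => by
          obtain ⟨x, rfl⟩ := hg x
          obtain ⟨n, hnW, e, hn⟩ := l.abs x
          refine ⟨n, hnW, ⟨J e, e, rfl⟩, ?_⟩
          change algebraMap R V n • g x = g (l.j e)
          rw [← hn, map_smul] }

variable (W)

/-- a chosen lattice -/
noncomputable def C10a_L [IsNoetherianRing R] [IsLocalization W V] (X : FGMod V) : FGMod R :=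
  (C10a_exists (R := R) (W := W) X).choose

theorem C10a_L_lat [IsNoetherianRing R] [IsLocalization W V] (X : FGMod V) :
    Nonempty (C10a_Lat W X (C10a_L W X)) :=
  (C10a_exists (R := R) (W := W) X).choose_spec

theorem C10a_eq [IsNoetherianRing R] {X : FGMod V} {E E' : FGMod R} (l : C10a_Lat W X E)
    (l' : C10a_Lat W X E') : (QuotientAddGroup.mk (G0.mk E) : G0 R ⧸ C10a_H W) =
      QuotientAddGroup.mk (G0.mk E') := by
  rw [← sub_eq_zero, ← QuotientAddGroup.mk_sub, QuotientAddGroup.eq_zero_iff]
  exact C10a_lat l l'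

/-- the map `G₀(V) → G₀(R) ⧸ H` -/
noncomputable def C10a_theta [IsNoetherianRing R] [IsLocalization W V] :
    G0 V →+ G0 R ⧸ C10a_H W :=
  G0.lift (fun X => QuotientAddGroup.mk (G0.mk (C10a_L W X))) (fun X' X X'' f g hf hg hfg => by
    obtain ⟨l⟩ := C10a_L_lat (R := R) W X
    obtain ⟨m'⟩ := C10a_L_lat (R := R) W X'
    obtain ⟨m''⟩ := C10a_L_lat (R := R) W X''
    obtain ⟨E', E'', a, b, ha, hb, hab, ⟨l'⟩, ⟨l''⟩⟩ := C10a_lat_exact hf hg hfg l
    rw [C10a_eq W m' l', C10a_eq W m'' l'', G0.mk_add E' _ E'' a b ha hb hab]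
    rfl)

theorem C10a_theta_mk [IsNoetherianRing R] [IsLocalization W V] {X : FGMod V} {E : FGMod R}
    (l : C10a_Lat W X E) :
    C10a_theta W (G0.mk X) = (QuotientAddGroup.mk (G0.mk E) : G0 R ⧸ C10a_H W) := by
  obtain ⟨m⟩ := C10a_L_lat (R := R) W X
  exact (G0.lift_mk _ _ X).trans (C10a_eq W m l)

/-- a module is a lattice in its localization -/
theorem C10a_self [IsLocalization W V] (M : FGMod R) : Nonempty (C10a_Lat W (bc R V M) M) := by
  haveI : IsLocalizedModule W (TensorProduct.mk R V M 1) := inferInstance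
  exact ⟨
    { j := (TensorProduct.mk R V M 1).toAddMonoidHom
      smul := fun r e => by
        change (1 : V) ⊗ₜ[R] (r • e) = algebraMap R V r • ((1 : V) ⊗ₜ[R] e)
        rw [TensorProduct.smul_tmul', smul_eq_mul, mul_one, Algebra.algebraMap_eq_smul_one,
          TensorProduct.smul_tmul]
      tors := fun e he => by
        obtain ⟨⟨n, hnW⟩, hn⟩ :=
          (IsLocalizedModule.eq_zero_iff W (TensorProduct.mk R V M 1)).1 he
        exact ⟨n, hnW, hn⟩
      abs := fun x => by
        obtain ⟨⟨m, ⟨n, hnW⟩⟩, hm⟩ :=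
          IsLocalizedModule.surj W (TensorProduct.mk R V M 1) x
        refine ⟨n, hnW, m, ?_⟩
        change _ = (1 : V) ⊗ₜ[R] m
        have h3 : n • x = (1 : V) ⊗ₜ[R] m := hm
        rw [← h3, algebraMap_smul] }⟩

end

theorem thm_C10a : St_C10a := by
  intro R R' _ _ _ _ W _ _ x hx
  have key : ∀ x : G0 R, C10a_theta (V := R') W (bcG R R' x) =
      (QuotientAddGroup.mk x : G0 R ⧸ C10a_H W) := by
    intro x
    induction x using G0.induction with
    | hz => rw [map_zero, map_zero]; rfl
    | hm M =>
      obtain ⟨l⟩ := C10a_self (V := R') W M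
      rw [bcG_mk]
      exact C10a_theta_mk W l
    | hn x hx => rw [map_neg, map_neg, hx]; rfl
    | ha x y hx hy => rw [map_add, map_add, hx, hy]; rfl
  have h1 := key x
  rw [hx, map_zero] at h1
  exact (QuotientAddGroup.eq_zero_iff _).1 h1.symm

end Pool.Agent.AQS
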