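import Pool.Agent.AQS.St2

/-!
# AQS, module C11a

Statement and proof: see `St_C11a` in `Pool/Agent/AQS/St2.lean`.
-/

set_option autoImplicit false
set_option linter.unusedSectionVars false

namespace Pool.Agent.AQS

open Function Pool.Agent.Helper11 Pool.Agent.HPow Pool.Agent.Helper67.Bass

section

variable {D : Type} [CommRing D] [IsDedekindDomain D]

/-- `[I] + [J] = [D] + [I J]` -/
private theorem C11a_add (I J : Ideal D) (hI : I ≠ ⊥) (hJ : J ≠ ⊥) :
    G0.mk (FGMod.of D I) + G0.mk (FGMod.of D J) =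
      G0.mk (FGMod.of D D) + G0.mk (FGMod.of D (I * J : Ideal D)) := by
  have hle : I * J ≤ I := Ideal.mul_le_left
  have hIJ : I * J ≠ 0 := mul_ne_zero hI hJ
  obtain ⟨a, ha⟩ := IsDedekindDomain.exists_sup_span_eq hle hIJ
  have haI : a ∈ I := by
    rw [← ha]
    exact Ideal.mem_sup_right (Ideal.mem_span_singleton_self a)
  let S : Submodule D I := Submodule.comap I.subtype (I * J)
  let g1 : I →ₗ[D] (I ⧸ S) := S.mkQ
  let f1 : (I * J : Ideal D) →ₗ[D] I := Submodule.inclusion hle
  have h1 := G0.mk_add (FGMod.of D (I * J : Ideal D)) (FGMod.of D I) (FGMod.of D (I ⧸ S)) f1 g1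
    (Submodule.inclusion_injective hle) (Submodule.mkQ_surjective S) (by
      intro x
      constructor
      · intro hx
        have hx' : x ∈ S := (Submodule.Quotient.mk_eq_zero S).1 hx
        exact ⟨⟨(x : D), hx'⟩, rfl⟩
      · rintro ⟨y, rfl⟩
        exact (Submodule.Quotient.mk_eq_zero S).2 y.2)
  let g2 : D →ₗ[D] (I ⧸ S) := g1 ∘ₗ LinearMap.toSpanSingleton D I ⟨a, haI⟩
  have hg2 : ∀ r : D, g2 r = 0 ↔ r * a ∈ I * J := by
    intro r
    constructor
    · intro h
      exact (Submodule.Quotient.mk_eq_zero S).1 h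
    · intro h
      exact (Submodule.Quotient.mk_eq_zero S).2 h
  have hJK : ∀ r : D, r * a ∈ I * J → r ∈ J := by
    intro r hr
    have h2 : I * Ideal.span {r} ≤ I * J := by
      have h4 : I * Ideal.span {r} = (I * J) * Ideal.span {r} ⊔ Ideal.span {a} * Ideal.span {r} := by
        rw [← Ideal.sup_mul, ha]
      rw [h4]
      refine sup_le Ideal.mul_le_left ?_
      rw [Ideal.span_singleton_mul_span_singleton, Ideal.span_singleton_le_iff_mem, mul_comm a r]
      exact hr
    have h3 : Ideal.span {r} ≤ J := by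
      rw [← Ideal.dvd_iff_le] at h2 ⊢
      exact (mul_dvd_mul_iff_left hI).1 h2
    exact (Ideal.span_singleton_le_iff_mem _).1 h3
  have h2 := G0.mk_add (FGMod.of D J) (FGMod.of D D) (FGMod.of D (I ⧸ S)) J.subtype g2
    J.injective_subtype (by
      intro q
      obtain ⟨x, rfl⟩ := Submodule.mkQ_surjective S q
      have hx : (x : D) ∈ (I * J) ⊔ Ideal.span {a} := by rw [ha]; exact x.2
      obtain ⟨y, hy, w, hw, hyw⟩ := Submodule.mem_sup.1 hx
      obtain ⟨r, rfl⟩ := Ideal.mem_span_singleton'.1 hw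
      refine ⟨r, ?_⟩
      show S.mkQ (LinearMap.toSpanSingleton D I ⟨a, haI⟩ r) = S.mkQ x
      rw [← sub_eq_zero, ← map_sub]
      refine (Submodule.Quotient.mk_eq_zero S).2 ?_
      show r * a - (x : D) ∈ I * J
      have : r * a - (x : D) = - y := by rw [← hyw]; ring
      rw [this]
      exact neg_mem hy) (by
      intro r
      constructor
      · intro h
        exact ⟨⟨r, hJK r ((hg2 r).1 h)⟩, rfl⟩
      · rintro ⟨y, rfl⟩
        refine (hg2 _).2 ?_
        rw [mul_comm _ a]
        exact Ideal.mul_mem_mul haI y.2)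
  rw [h1, h2]
  abel

private theorem C11a_span (a : D) (ha : a ≠ 0) :
    G0.mk (FGMod.of D (Ideal.span {a} : Ideal D)) = G0.mk (FGMod.of D D) := by
  symm
  refine mk_eq_of_iso (M := FGMod.of D D) (N := FGMod.of D (Ideal.span {a} : Ideal D)) ?_
  exact LinearEquiv.toSpanNonzeroSingleton D D a ha

private theorem C11a_top : G0.mk (FGMod.of D (⊤ : Ideal D)) = G0.mk (FGMod.of D D) :=
  mk_eq_of_iso (M := FGMod.of D (⊤ : Ideal D)) (N := FGMod.of D D) Submodule.topEquiv

/-- the subgroup of the elements `z [D] + [I]` -/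
private def C11aH (D : Type) [CommRing D] [IsDedekindDomain D] : AddSubgroup (G0 D) where
  carrier := {x | ∃ (z : ℤ) (I : Ideal D), I ≠ ⊥ ∧
    x = z • G0.mk (FGMod.of D D) + G0.mk (FGMod.of D I)}
  zero_mem' := by
    refine ⟨-1, ⊤, ?_, ?_⟩
    · exact top_ne_bot
    · rw [C11a_top]
      simp
  add_mem' := by
    rintro _ _ ⟨z, I, hI, rfl⟩ ⟨w, J, hJ, rfl⟩
    refine ⟨z + w + 1, I * J, mul_ne_zero hI hJ, ?_⟩
    have h := C11a_add I J hI hJ
    rw [add_smul, add_smul, one_smul, add_assoc (z • G0.mk (FGMod.of D D) + w • _), ← h]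
    abel
  neg_mem' := by
    rintro _ ⟨z, I, hI, rfl⟩
    obtain ⟨a, haI, ha⟩ := Submodule.exists_mem_ne_zero_of_ne_bot hI
    obtain ⟨J, hJ⟩ := Ideal.dvd_iff_le.2 ((Ideal.span_singleton_le_iff_mem I).2 haI)
    have hJ0 : J ≠ ⊥ := by
      rintro rfl
      rw [← Ideal.zero_eq_bot, mul_zero, Ideal.zero_eq_bot, Ideal.span_singleton_eq_bot] at hJ
      exact ha hJ
    refine ⟨-z - 2, J, hJ0, ?_⟩
    have h := C11a_add I J hI hJ0
    rw [← hJ, C11a_span a ha] at h
    have h2 : G0.mk (FGMod.of D I) = (2 : ℤ) • G0.mk (FGMod.of D D) - G0.mk (FGMod.of D J) := by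
      rw [two_smul, ← h]
      abel
    rw [h2, sub_smul, neg_smul]
    abel

end

theorem thm_C11a : St_C11a := by
  intro D _ _ x
  have hkey : ∀ M : FGMod D, G0.mk M ∈ C11aH D := by
    intro M
    refine prime_reduction (two3_closure (C11aH D)).toResClass ?_ ⊥ ?_ M (G0.killedBy_bot M)
    · refine (two3_closure (C11aH D)).zero _ ?_
      exact Ideal.Quotient.subsingleton_iff.mpr rfl
    · intro q hq _
      by_cases hq0 : q = ⊥
      · subst hq0
        have h1 : G0.mk (FGMod.of D (D ⧸ (⊥ : Ideal D))) = G0.mk (FGMod.of D D) :=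
          mk_eq_of_iso (Submodule.quotEquivOfEqBot (⊥ : Ideal D) rfl)
        refine ⟨0, ⊤, top_ne_bot, ?_⟩
        rw [C11a_top, zero_smul, zero_add]
        exact h1
      · have h2 := G0.mk_add (FGMod.of D q) (FGMod.of D D) (FGMod.of D (D ⧸ q)) q.subtype
          q.mkQ q.injective_subtype q.mkQ_surjective (by
            intro r
            constructor
            · intro h
              exact ⟨⟨r, (Submodule.Quotient.mk_eq_zero q).1 h⟩, rfl⟩
            · rintro ⟨y, rfl⟩
              exact (Submodule.Quotient.mk_eq_zero q).2 y.2)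
        have h3 : G0.mk (FGMod.of D (D ⧸ q)) =
            G0.mk (FGMod.of D D) - G0.mk (FGMod.of D q) := by
          rw [h2]; abel
        show G0.mk (FGMod.of D (D ⧸ q)) ∈ C11aH D
        rw [h3]
        refine sub_mem ?_ ?_
        · refine ⟨0, ⊤, top_ne_bot, ?_⟩
          rw [C11a_top, zero_smul, zero_add]
        · refine ⟨0, q, hq0, ?_⟩
          rw [zero_smul, zero_add]
  have hx : x ∈ C11aH D := by
    induction x using G0.induction with
    | hz => exact zero_mem _
    | hm M => exact hkey M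
    | hn x hx => exact neg_mem hx
    | ha x y hx hy => exact add_mem hx hy
  exact hx

end Pool.Agent.AQS
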