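import Pool.Agent.AQS.St2
import Mathlib.Algebra.Module.StablyFree.FreeOfInvertible

/-!
# AQS, module C11b

Statement and proof: see `St_C11b` in `Pool/Agent/AQS/St2.lean`.
The group `K` is the Grothendieck group of the monoid of the isomorphism classes of finitely
generated projective modules; `M ↦ [F] - [ker (F → M)]` is additive (Schanuel), and an invertible
stably free module is free.
-/

set_option autoImplicit false
set_option linter.unusedSectionVars false
set_option linter.style.haveILetI false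

namespace Pool.Agent.AQS

open Function Pool.Agent.Helper11 Pool.Agent.HPow Pool.Agent.Helper67.Bass

section monoid

variable (D : Type) [CommRing D]

/-- finitely generated projective modules -/
def C11b_P : Type 1 := {M : FGMod D // Module.Projective D M}

/-- isomorphism -/
def C11b_setoid : Setoid (C11b_P D) where
  r M N := Nonempty (M.1 ≃ₗ[D] N.1)
  iseqv := ⟨fun M => ⟨LinearEquiv.refl D M.1⟩, fun ⟨e⟩ => ⟨e.symm⟩, fun ⟨e⟩ ⟨f⟩ => ⟨e.trans f⟩⟩

/-- isomorphism classes of finitely generated projective modules -/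
def C11b_Q : Type 1 := Quotient (C11b_setoid D)

variable {D}

/-- the isomorphism class -/
def C11b_cl (M : FGMod D) [h : Module.Projective D M] : C11b_Q D :=
  Quotient.mk (C11b_setoid D) ⟨M, h⟩

theorem C11b_cl_eq (M N : FGMod D) [Module.Projective D M] [Module.Projective D N] :
    C11b_cl M = C11b_cl N ↔ Nonempty (M ≃ₗ[D] N) :=
  Quotient.eq (r := C11b_setoid D)

theorem C11b_cl_surj (x : C11b_Q D) : ∃ (M : FGMod D) (_ : Module.Projective D M),
    C11b_cl M = x := by
  obtain ⟨⟨M, h⟩, rfl⟩ := Quotient.exists_rep x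
  exact ⟨M, h, rfl⟩

/-- the sum -/
def C11b_add : C11b_Q D → C11b_Q D → C11b_Q D :=
  Quotient.map₂ (fun M N => ⟨FGMod.of D (M.1 × N.1), by
    haveI := M.2
    haveI := N.2
    infer_instance⟩) (by
    rintro _ _ ⟨e⟩ _ _ ⟨e'⟩
    exact ⟨LinearEquiv.prodCongr e e'⟩)

instance : Add (C11b_Q D) := ⟨C11b_add⟩

instance : Zero (C11b_Q D) := ⟨C11b_cl (FGMod.of D PUnit)⟩

noncomputable instance : AddCommMonoid (C11b_Q D) where
  add_assoc a b c := by
    obtain ⟨M, _, rfl⟩ := C11b_cl_surj a
    obtain ⟨N, _, rfl⟩ := C11b_cl_surj b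
    obtain ⟨P, _, rfl⟩ := C11b_cl_surj c
    exact (C11b_cl_eq (FGMod.of D ((M × N) × P)) (FGMod.of D (M × N × P))).2
      ⟨LinearEquiv.prodAssoc D M N P⟩
  zero_add a := by
    obtain ⟨M, _, rfl⟩ := C11b_cl_surj a
    exact (C11b_cl_eq (FGMod.of D (PUnit × M)) M).2 ⟨LinearEquiv.uniqueProd⟩
  add_zero a := by
    obtain ⟨M, _, rfl⟩ := C11b_cl_surj a
    exact (C11b_cl_eq (FGMod.of D (M × PUnit)) M).2 ⟨LinearEquiv.prodUnique⟩
  add_comm a b := by
    obtain ⟨M, _, rfl⟩ := C11b_cl_surj a
    obtain ⟨N, _, rfl⟩ := C11b_cl_surj b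
    exact (C11b_cl_eq (FGMod.of D (M × N)) (FGMod.of D (N × M))).2 ⟨LinearEquiv.prodComm D M N⟩
  nsmul := nsmulRec

theorem C11b_cl_prod (M N : FGMod D) [Module.Projective D M] [Module.Projective D N] :
    C11b_cl (FGMod.of D (M × N)) = C11b_cl M + C11b_cl N := rfl

/-- the class in the Grothendieck group -/
noncomputable def C11b_k (M : FGMod D) [Module.Projective D M] :
    Algebra.GrothendieckAddGroup (C11b_Q D) :=
  Algebra.GrothendieckAddGroup.of (C11b_cl M)

theorem C11b_k_iso {M N : FGMod D} [Module.Projective D M] [Module.Projective D N]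
    (e : M ≃ₗ[D] N) : C11b_k M = C11b_k N := by
  rw [C11b_k, C11b_k, (C11b_cl_eq M N).2 ⟨e⟩]

theorem C11b_k_prod (M N : FGMod D) [Module.Projective D M] [Module.Projective D N] :
    C11b_k (FGMod.of D (M × N)) = C11b_k M + C11b_k N := by
  rw [C11b_k, C11b_cl_prod, map_add]
  rfl

theorem C11b_k_eq {M N : FGMod D} [Module.Projective D M] [Module.Projective D N]
    (h : C11b_k M = C11b_k N) :
    ∃ (R : FGMod D) (_ : Module.Projective D R), Nonempty ((R × M) ≃ₗ[D] (R × N)) := by
  obtain ⟨c, hc⟩ := (AddLocalization.addMonoidOf (⊤ : AddSubmonoid (C11b_Q D))).eq_iff_exists.1 h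
  obtain ⟨R, _, hR⟩ := C11b_cl_surj (c : C11b_Q D)
  rw [← hR] at hc
  exact ⟨R, inferInstance, (C11b_cl_eq (FGMod.of D (R × M)) (FGMod.of D (R × N))).1 hc⟩

/-- a short exact sequence of projective modules -/
theorem C11b_k_split {A B C : FGMod D} [Module.Projective D A] [Module.Projective D B]
    [Module.Projective D C] (f : A →ₗ[D] B) (g : B →ₗ[D] C) (hf : Injective f)
    (hg : Surjective g) (hfg : Function.Exact f g) : C11b_k B = C11b_k A + C11b_k C := by
  obtain ⟨l, hl⟩ := Module.projective_lifting_property g LinearMap.id hg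
  obtain ⟨e, _⟩ := hfg.splitSurjectiveEquiv hf ⟨l, hl⟩
  rw [← C11b_k_prod]
  exact C11b_k_iso (N := FGMod.of D (A × C)) e

theorem C11b_k_zero (M : FGMod D) [Module.Projective D M] [Subsingleton M] : C11b_k M = 0 := by
  have h := C11b_k_split (A := M) (B := M) (C := M) LinearMap.id LinearMap.id injective_id
    surjective_id (fun x => ⟨fun _ => ⟨x, rfl⟩, fun _ => Subsingleton.elim _ _⟩)
  exact left_eq_add.1 h

end monoid

section dede

variable {D : Type} [CommRing D] [IsDedekindDomain D]

/-- submodules of projective modules are projective -/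
theorem C11b_sub {M : Type} [AddCommGroup M] [Module D M] [Module.Finite D M]
    [Module.Projective D M] (N : Submodule D M) : Module.Projective D N := by
  haveI : Module.FinitePresentation D N := Module.finitePresentation_of_finite D N
  exact Module.Flat.projective_of_finitePresentation

instance C11b_inst {M : Type} [AddCommGroup M] [Module D M] [Module.Finite D M]
    [Module.Projective D M] (N : Submodule D M) : Module.Projective D (FGMod.of D N) :=
  C11b_sub N

instance C11b_inst2 {M : Type} [AddCommGroup M] [Module D M] [Module.Finite D M]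
    [h : Module.Projective D M] : Module.Projective D (FGMod.of D M) := h

/-- the fibre product -/
def C11b_fib {F F' M : Type} [AddCommGroup F] [Module D F] [AddCommGroup F'] [Module D F']
    [AddCommGroup M] [Module D M] (g : F →ₗ[D] M) (g' : F' →ₗ[D] M) : Submodule D (F × F') :=
  LinearMap.ker (g.comp (LinearMap.fst D F F') - g'.comp (LinearMap.snd D F F'))

theorem C11b_mem_fib {F F' M : Type} [AddCommGroup F] [Module D F] [AddCommGroup F'] [Module D F']
    [AddCommGroup M] [Module D M] (g : F →ₗ[D] M) (g' : F' →ₗ[D] M) (x : F × F') :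
    x ∈ C11b_fib g g' ↔ g x.1 = g' x.2 := by
  rw [C11b_fib, LinearMap.mem_ker, LinearMap.sub_apply, sub_eq_zero]
  rfl

theorem C11b_half {F F' M : Type} [AddCommGroup F] [Module D F] [AddCommGroup F'] [Module D F']
    [AddCommGroup M] [Module D M] [Module.Finite D F] [Module.Projective D F]
    [Module.Finite D F'] [Module.Projective D F'] (g : F →ₗ[D] M) (g' : F' →ₗ[D] M)
    (hg' : Surjective g') :
    C11b_k (FGMod.of D (C11b_fib g g')) =
      C11b_k (FGMod.of D (LinearMap.ker g')) + C11b_k (FGMod.of D F) := by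
  refine C11b_k_split (A := FGMod.of D (LinearMap.ker g')) (B := FGMod.of D (C11b_fib g g'))
    (C := FGMod.of D F)
    (((LinearMap.inr D F F').comp (LinearMap.ker g').subtype).codRestrict (C11b_fib g g')
      (fun y => ?_))
    ((LinearMap.fst D F F').comp (C11b_fib g g').subtype) ?_ ?_ ?_
  · rw [C11b_mem_fib]
    show g 0 = g' (y : F')
    rw [map_zero, LinearMap.mem_ker.1 y.2]
  · intro y y' h
    have h1 : ((0 : F), (y : F')) = ((0 : F), (y' : F')) := congrArg Subtype.val h
    exact Subtype.ext (Prod.ext_iff.1 h1).2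
  · intro x
    obtain ⟨y, hy⟩ := hg' (g x)
    exact ⟨⟨(x, y), (C11b_mem_fib g g' _).2 hy.symm⟩, rfl⟩
  · intro z
    constructor
    · intro hz
      have hz1 : (z : F × F').1 = 0 := hz
      have hz2 := (C11b_mem_fib g g' _).1 z.2
      rw [hz1, map_zero] at hz2
      refine ⟨⟨(z : F × F').2, LinearMap.mem_ker.2 hz2.symm⟩, ?_⟩
      exact Subtype.ext (Prod.ext hz1.symm rfl)
    · rintro ⟨y, rfl⟩
      rfl

theorem C11b_comm {F F' M : Type} [AddCommGroup F] [Module D F] [AddCommGroup F'] [Module D F']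
    [AddCommGroup M] [Module D M] [Module.Finite D F] [Module.Projective D F]
    [Module.Finite D F'] [Module.Projective D F'] (g : F →ₗ[D] M) (g' : F' →ₗ[D] M) :
    C11b_k (FGMod.of D (C11b_fib g g')) = C11b_k (FGMod.of D (C11b_fib g' g)) := by
  refine C11b_k_iso (M := FGMod.of D (C11b_fib g g')) (N := FGMod.of D (C11b_fib g' g))
    ((LinearEquiv.prodComm D F F').submoduleMap (C11b_fib g g') |>.trans
      (LinearEquiv.ofEq _ _ ?_))
  ext x
  rw [Submodule.mem_map, C11b_mem_fib]
  constructor
  · rintro ⟨y, hy, rfl⟩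
    exact ((C11b_mem_fib g g' y).1 hy).symm
  · intro hx
    exact ⟨(x.2, x.1), (C11b_mem_fib g g' _).2 hx.symm, rfl⟩

/-- Schanuel -/
theorem C11b_schan {F F' M : Type} [AddCommGroup F] [Module D F] [AddCommGroup F'] [Module D F']
    [AddCommGroup M] [Module D M] [Module.Finite D F] [Module.Projective D F]
    [Module.Finite D F'] [Module.Projective D F'] (g : F →ₗ[D] M) (g' : F' →ₗ[D] M)
    (hg : Surjective g) (hg' : Surjective g') :
    C11b_k (FGMod.of D F) - C11b_k (FGMod.of D (LinearMap.ker g)) =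
      C11b_k (FGMod.of D F') - C11b_k (FGMod.of D (LinearMap.ker g')) := by
  have h1 := C11b_half g g' hg'
  have h2 := C11b_half g' g hg
  rw [C11b_comm g g', h2] at h1
  rw [sub_eq_sub_iff_add_eq_add, add_comm (C11b_k (FGMod.of D F)), ← h1, add_comm]

/-- the class of a module -/
noncomputable def C11b_al (M : FGMod D) : Algebra.GrothendieckAddGroup (C11b_Q D) :=
  C11b_k (FGMod.of D (Fin (Module.Finite.exists_fin' D M).choose → D)) -
    C11b_k (FGMod.of D (LinearMap.ker (Module.Finite.exists_fin' D M).choose_spec.choose))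

theorem C11b_al_eq (M : FGMod D) {F : Type} [AddCommGroup F] [Module D F] [Module.Finite D F]
    [Module.Projective D F] (g : F →ₗ[D] M) (hg : Surjective g) :
    C11b_al M = C11b_k (FGMod.of D F) - C11b_k (FGMod.of D (LinearMap.ker g)) :=
  C11b_schan _ g (Module.Finite.exists_fin' D M).choose_spec.choose_spec hg

theorem C11b_al_add (M' M M'' : FGMod D) (f : M' →ₗ[D] M) (g : M →ₗ[D] M'') (hf : Injective f)
    (hg : Surjective g) (hfg : Function.Exact f g) : C11b_al M = C11b_al M' + C11b_al M'' := by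
  obtain ⟨n', π', hπ'⟩ := Module.Finite.exists_fin' D M'
  obtain ⟨n'', π'', hπ''⟩ := Module.Finite.exists_fin' D M''
  obtain ⟨h, hh⟩ := Module.projective_lifting_property g π'' hg
  have hgh : ∀ y, g (h y) = π'' y := fun y => LinearMap.congr_fun hh y
  have hgf : ∀ x, g (f x) = 0 := fun x => (hfg (f x)).2 ⟨x, rfl⟩
  let π : (Fin n' → D) × (Fin n'' → D) →ₗ[D] M := (f.comp π').coprod h
  have hπa : ∀ x y, π (x, y) = f (π' x) + h y := fun x y => rfl
  have hπ : Surjective π := by
    intro m
    obtain ⟨y, hy⟩ := hπ'' (g m)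
    have h1 : g (m - h y) = 0 := by rw [map_sub, hgh, hy, sub_self]
    obtain ⟨m', hm'⟩ := (hfg _).1 h1
    obtain ⟨x, hx⟩ := hπ' m'
    refine ⟨(x, y), ?_⟩
    rw [hπa, hx, hm', sub_add_cancel]
  rw [C11b_al_eq M π hπ, C11b_al_eq M' π' hπ', C11b_al_eq M'' π'' hπ'']
  have h1 : C11b_k (FGMod.of D ((Fin n' → D) × (Fin n'' → D))) =
      C11b_k (FGMod.of D (Fin n' → D)) + C11b_k (FGMod.of D (Fin n'' → D)) :=
    C11b_k_prod (FGMod.of D (Fin n' → D)) (FGMod.of D (Fin n'' → D))
  have h2 : C11b_k (FGMod.of D (LinearMap.ker π)) =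
      C11b_k (FGMod.of D (LinearMap.ker π')) + C11b_k (FGMod.of D (LinearMap.ker π'')) := by
    refine C11b_k_split (A := FGMod.of D (LinearMap.ker π')) (B := FGMod.of D (LinearMap.ker π))
      (C := FGMod.of D (LinearMap.ker π''))
      (((LinearMap.inl D (Fin n' → D) (Fin n'' → D)).comp
        (LinearMap.ker π').subtype).codRestrict (LinearMap.ker π) (fun x => ?_))
      (((LinearMap.snd D (Fin n' → D) (Fin n'' → D)).comp
        (LinearMap.ker π).subtype).codRestrict (LinearMap.ker π'') (fun z => ?_)) ?_ ?_ ?_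
    · rw [LinearMap.mem_ker]
      show π ((x : Fin n' → D), 0) = 0
      rw [hπa, LinearMap.mem_ker.1 x.2, map_zero, map_zero, add_zero]
    · rw [LinearMap.mem_ker]
      show π'' (z : (Fin n' → D) × (Fin n'' → D)).2 = 0
      have h3 : f (π' (z : (Fin n' → D) × (Fin n'' → D)).1) +
          h (z : (Fin n' → D) × (Fin n'' → D)).2 = 0 := LinearMap.mem_ker.1 z.2
      have h4 := congrArg g h3
      rw [map_add, hgf, hgh, zero_add, map_zero] at h4
      exact h4
    · intro x x' hx
      have h3 : ((x : Fin n' → D), (0 : Fin n'' → D)) = ((x' : Fin n' → D), (0 : Fin n'' → D)) :=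
        congrArg Subtype.val hx
      exact Subtype.ext (Prod.ext_iff.1 h3).1
    · intro y
      have h3 : g (h (y : Fin n'' → D)) = 0 := by
        rw [hgh]
        exact LinearMap.mem_ker.1 y.2
      obtain ⟨m', hm'⟩ := (hfg _).1 h3
      obtain ⟨x, hx⟩ := hπ' m'
      refine ⟨⟨(-x, (y : Fin n'' → D)), ?_⟩, rfl⟩
      rw [LinearMap.mem_ker, hπa, map_neg, map_neg, hx, hm', neg_add_cancel]
    · intro z
      constructor
      · intro hz
        have hz2 : (z : (Fin n' → D) × (Fin n'' → D)).2 = 0 := congrArg Subtype.val hz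
        have h3 : f (π' (z : (Fin n' → D) × (Fin n'' → D)).1) +
          h (z : (Fin n' → D) × (Fin n'' → D)).2 = 0 := LinearMap.mem_ker.1 z.2
        rw [hz2, map_zero, add_zero] at h3
        refine ⟨⟨(z : (Fin n' → D) × (Fin n'' → D)).1, LinearMap.mem_ker.2 ?_⟩, ?_⟩
        · exact hf (h3.trans (map_zero f).symm)
        · exact Subtype.ext (Prod.ext rfl hz2.symm)
      · rintro ⟨x, rfl⟩
        rfl
  rw [h1, h2]
  abel

theorem C11b_al_proj (M : FGMod D) [Module.Projective D M] : C11b_al M = C11b_k M := by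
  rw [C11b_al_eq M (LinearMap.id : M →ₗ[D] M) surjective_id]
  haveI : Subsingleton (FGMod.of D (LinearMap.ker (LinearMap.id : M →ₗ[D] M))) := by
    constructor
    intro x y
    have hx : (x : M) = 0 := LinearMap.mem_ker.1 x.2
    have hy : (y : M) = 0 := LinearMap.mem_ker.1 y.2
    exact Subtype.ext (hx.trans hy.symm)
  rw [C11b_k_zero (FGMod.of D (LinearMap.ker (LinearMap.id : M →ₗ[D] M))), sub_zero]

/-- the rank -/
noncomputable def C11b_rk : G0 D →+ ℤ :=
  G0.lift (fun M => (Module.finrank D M : ℤ)) (by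
    intro M' M M'' f g hf hg hfg
    have h1 := Submodule.finrank_quotient_add_finrank (R := D) (LinearMap.ker g)
    have h2 : Module.finrank D (M ⧸ LinearMap.ker g) = Module.finrank D M'' :=
      LinearEquiv.finrank_eq (g.quotKerEquivOfSurjective hg)
    have h3 : LinearMap.ker g = LinearMap.range f := by
      ext x
      exact hfg x
    have h4 : Module.finrank D (LinearMap.ker g) = Module.finrank D M' := by
      rw [h3]
      exact (LinearEquiv.finrank_eq (LinearEquiv.ofInjective f hf)).symm
    show (Module.finrank D M : ℤ) = (Module.finrank D M' : ℤ) + (Module.finrank D M'' : ℤ)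
    rw [← h1, h2, h4]
    push_cast
    ring)

theorem C11b_finrank (I : Ideal D) (hI : I ≠ ⊥) : Module.finrank D I = 1 := by
  have h1 := Submodule.finrank_quotient_add_finrank (R := D) I
  rw [Module.finrank_self] at h1
  have h2 : 0 < Module.finrank D I := by
    rw [Module.finrank_pos_iff]
    exact Submodule.nontrivial_iff_ne_bot.2 hI
  omega

open scoped nonZeroDivisors in
theorem C11b_invertible (I : Ideal D) (hI : I ≠ ⊥) : Module.Invertible D I := by
  let K := FractionRing D
  have h0 : (I : FractionalIdeal D⁰ K) ≠ 0 := FractionalIdeal.coeIdeal_ne_zero.2 hI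
  let u : (FractionalIdeal D⁰ K)ˣ := Units.mk0 _ h0
  let w : (Submodule D K)ˣ := FractionalIdeal.unitsMulEquivSubmodule u
  have hw : (w : Submodule D K) = Submodule.map (Algebra.linearMap D K) I := rfl
  have e : I ≃ₗ[D] (w : Submodule D K) := by
    rw [hw]
    exact Submodule.equivMapOfInjective (Algebra.linearMap D K)
      (FaithfulSMul.algebraMap_injective D K) I
  exact Module.Invertible.congr e.symm

theorem C11b_principal (I : Ideal D) (hI : I ≠ ⊥)
    (h : C11b_k (FGMod.of D I) = C11b_k (FGMod.of D D)) : Submodule.IsPrincipal I := by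
  obtain ⟨R, _, ⟨e⟩⟩ := C11b_k_eq h
  obtain ⟨n, f, g, hf, hg, hfg⟩ := Module.Finite.exists_comp_eq_id_of_projective D R
  haveI := C11b_invertible I hI
  obtain ⟨s, _⟩ := (LinearMap.exact_subtype_ker_map f).splitSurjectiveEquiv
    (LinearMap.ker f).subtype_injective ⟨g, hfg⟩
  haveI : Module.Free D ((Fin n → D) × I) := by
    let e1 : ((Fin n → D) × I) ≃ₗ[D] (LinearMap.ker f × (R × I)) :=
      (LinearEquiv.prodCongr s (LinearEquiv.refl D I)).trans
        (LinearEquiv.prodAssoc D (LinearMap.ker f) R I)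
    let e2 : (LinearMap.ker f × (R × D)) ≃ₗ[D] ((Fin n → D) × D) :=
      (LinearEquiv.prodAssoc D (LinearMap.ker f) R D).symm.trans
        (LinearEquiv.prodCongr s.symm (LinearEquiv.refl D D))
    let e3 : ((Fin n → D) × I) ≃ₗ[D] ((Fin n → D) × D) :=
      (e1.trans (LinearEquiv.prodCongr (LinearEquiv.refl D _) e)).trans e2
    exact Module.Free.of_equiv e3.symm
  haveI : Module.IsStablyFree D I := Module.IsStablyFree.of_free_prod' D I (Fin n → D)
  haveI : Module.Free D I := Module.free_of_isStablyFree_of_invertible D I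
  obtain ⟨t⟩ := Module.Invertible.free_iff_linearEquiv.1 (inferInstance : Module.Free D I)
  refine ⟨⟨((t.symm 1 : I) : D), ?_⟩⟩
  apply le_antisymm
  · intro x hx
    rw [Submodule.mem_span_singleton]
    refine ⟨t ⟨x, hx⟩, ?_⟩
    have h1 : t.symm (t ⟨x, hx⟩ • (1 : D)) = ⟨x, hx⟩ := by
      rw [smul_eq_mul, mul_one, LinearEquiv.symm_apply_apply]
    rw [map_smul] at h1
    exact congrArg Subtype.val h1
  · rw [Submodule.span_singleton_le_iff_mem]
    exact (t.symm 1).2

end dede

theorem thm_C11b : St_C11b := by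
  intro D _ _ z I hI h
  have hz : z = -1 := by
    have h1 := congrArg (C11b_rk (D := D)) h
    rw [map_add, map_zsmul, map_zero, C11b_rk, G0.lift_mk, G0.lift_mk] at h1
    have h2 : Module.finrank D (FGMod.of D D) = 1 := Module.finrank_self D
    have h3 : Module.finrank D (FGMod.of D I) = 1 := C11b_finrank I hI
    rw [h2, h3] at h1
    simp only [smul_eq_mul] at h1
    push_cast at h1
    linarith
  refine ⟨hz, ?_⟩
  have h1 := congrArg (G0.lift C11b_al C11b_al_add) h
  rw [map_add, map_zsmul, map_zero, G0.lift_mk, G0.lift_mk, hz, C11b_al_proj, C11b_al_proj,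
    neg_smul, one_smul, neg_add_eq_zero] at h1
  exact C11b_principal I hI h1.symm

end Pool.Agent.AQS
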