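import Pool.Agent.AQS.St2

/-!
# AQS, module C12

Statement and proof: see `St_C12` in `Pool/Agent/AQS/St2.lean`.
-/

set_option autoImplicit false
set_option linter.unusedSectionVars false

namespace Pool.Agent.AQS

open Function Pool.Agent.Helper11 Pool.Agent.HPow Pool.Agent.Helper67.Bass

section C12aux

open Polynomial

variable {p : ℕ} [hpf : Fact p.Prime]

section gen

variable {W W' : Type} [CommRing W] [CommRing W'] {h : W}

private theorem C12_cf_mk (f : W[X]) (j : ℕ) :
    AP.cf (AdjoinRoot.mk (X ^ p - X - C h) f : AP p W h) j =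
      (f %ₘ (X ^ p - X - C h)).coeff j := by
  rw [AP.cf, AdjoinRoot.modByMonicHom_mk]

private theorem C12_cf_zero (j : ℕ) : AP.cf (0 : AP p W h) j = 0 := by
  rw [AP.cf, map_zero, coeff_zero]

private theorem C12_cf_add (a b : AP p W h) (j : ℕ) :
    AP.cf (a + b) j = AP.cf a j + AP.cf b j := by
  rw [AP.cf, AP.cf, AP.cf, map_add, coeff_add]

private theorem C12_cf_smul (r : W) (a : AP p W h) (j : ℕ) :
    AP.cf (AP.o h r * a) j = r * AP.cf a j := by
  have h1 : AP.o h r * a = r • a := (Algebra.smul_def r a).symm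
  rw [h1, AP.cf, AP.cf, map_smul, coeff_smul, smul_eq_mul]

private theorem C12_cf_ext (a b : AP p W h) (hab : ∀ j, AP.cf a j = AP.cf b j) : a = b := by
  have h1 := AdjoinRoot.mk_leftInverse (AP.monic p hpf.out.two_le h)
  rw [← h1 a, ← h1 b]
  congr 1
  ext j : 1
  exact hab j

private theorem C12_map_mk (φ : W →+* W') (h : W) (f : W[X]) :
    AP.map (p := p) φ h (AdjoinRoot.mk (X ^ p - X - C h) f) =
      AdjoinRoot.mk (X ^ p - X - C (φ h)) (f.map φ) := by
  rw [AP.map, AP.lift, AdjoinRoot.lift_mk, ← AdjoinRoot.aeval_eq, aeval_def, eval₂_map]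
  rfl

private theorem C12_cf_map (φ : W →+* W') (h : W) (a : AP p W h) (j : ℕ) :
    AP.cf (AP.map (p := p) φ h a) j = φ (AP.cf a j) := by
  obtain ⟨f, rfl⟩ := AdjoinRoot.mk_surjective a
  rw [C12_map_mk, C12_cf_mk, C12_cf_mk]
  have h1 : (X ^ p - X - C (φ h) : W'[X]) = (X ^ p - X - C h : W[X]).map φ := by simp
  rw [h1, ← map_modByMonic _ (AP.monic p hpf.out.two_le h), coeff_map]

end gen

variable {F F' : Type} [Field F] [Field F'] [Algebra F F'] {P : F[X]} {n : ℕ}

/-- the base change homomorphism -/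
private noncomputable abbrev C12_f (p : ℕ) (F' : Type) {F : Type} [Field F] [Field F']
    [Algebra F F'] (P : F[X]) :
    AP p F[X] P →+* AP p F'[X] (mapRingHom (algebraMap F F') P) :=
  AP.map (p := p) (mapRingHom (algebraMap F F')) P

/-- constants -/
private noncomputable abbrev C12_c (p : ℕ) {K : Type} [Field K] (P : K[X]) : K →+* AP p K[X] P :=
  (AP.o P).comp C

/-- the linear combination -/
private noncomputable def C12_T (p : ℕ) {F F' : Type} [Field F] [Field F'] [Algebra F F']
    (P : F[X]) {n : ℕ} (e : Module.Basis (Fin n) F F') (a : Fin n → AP p F[X] P) :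
    AP p F'[X] (mapRingHom (algebraMap F F') P) :=
  ∑ i, C12_c p _ (e i) * C12_f p F' P (a i)

private theorem C12_cf_sum {W : Type} [CommRing W] {h : W} {ι : Type} (s : Finset ι)
    (a : ι → AP p W h) (j : ℕ) : AP.cf (∑ i ∈ s, a i) j = ∑ i ∈ s, AP.cf (a i) j := by
  classical
  induction s using Finset.induction_on with
  | empty => rw [Finset.sum_empty, Finset.sum_empty, C12_cf_zero]
  | insert i s hi ih => rw [Finset.sum_insert hi, Finset.sum_insert hi, C12_cf_add, ih]

private theorem C12_coeff (e : Module.Basis (Fin n) F F') (a : Fin n → AP p F[X] P) (i : Fin n)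
    (j m : ℕ) : (AP.cf (a i) j).coeff m = e.repr ((AP.cf (C12_T p P e a) j).coeff m) i := by
  have h1 : (AP.cf (C12_T p P e a) j).coeff m =
      e.equivFun.symm (fun i => (AP.cf (a i) j).coeff m) := by
    rw [C12_T, C12_cf_sum, finsetSum_coeff, Module.Basis.equivFun_symm_apply]
    refine Finset.sum_congr rfl fun i _ => ?_
    have h2 : C12_c p (mapRingHom (algebraMap F F') P) (e i) * C12_f p F' P (a i) =
      AP.o (mapRingHom (algebraMap F F') P) (C (e i)) * C12_f p F' P (a i) := rfl
    rw [h2, C12_cf_smul, C12_cf_map, coeff_C_mul, coe_mapRingHom, coeff_map, Algebra.smul_def,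
      mul_comm]
  rw [h1, ← Module.Basis.equivFun_apply, LinearEquiv.apply_symm_apply]

private theorem C12_T_inj (e : Module.Basis (Fin n) F F') (a b : Fin n → AP p F[X] P)
    (hab : C12_T p P e a = C12_T p P e b) : a = b := by
  funext i
  refine C12_cf_ext _ _ fun j => ?_
  ext m
  rw [C12_coeff e a, C12_coeff e b, hab]

private theorem C12_T_add (e : Module.Basis (Fin n) F F') (a b : Fin n → AP p F[X] P) :
    C12_T p P e (a + b) = C12_T p P e a + C12_T p P e b := by
  rw [C12_T, C12_T, C12_T, ← Finset.sum_add_distrib]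
  refine Finset.sum_congr rfl fun i _ => ?_
  rw [Pi.add_apply, map_add, mul_add]

private theorem C12_T_zero (e : Module.Basis (Fin n) F F') :
    C12_T p P e 0 = 0 := by
  rw [C12_T]
  refine Finset.sum_eq_zero fun i _ => ?_
  rw [Pi.zero_apply, map_zero, mul_zero]

private theorem C12_T_neg (e : Module.Basis (Fin n) F F') (a : Fin n → AP p F[X] P) :
    C12_T p P e (-a) = -C12_T p P e a := by
  rw [C12_T, C12_T, ← Finset.sum_neg_distrib]
  refine Finset.sum_congr rfl fun i _ => ?_
  rw [Pi.neg_apply, map_neg, mul_neg]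

private theorem C12_f_c (r : F) :
    C12_f p F' P (C12_c p P r) = C12_c p _ (algebraMap F F' r) := by
  change AP.map (p := p) (mapRingHom (algebraMap F F')) P (AP.o P (C r)) = _
  rw [AP.map, AP.lift_o, RingHom.comp_apply, coe_mapRingHom, map_C]
  rfl

private theorem C12_T_single (e : Module.Basis (Fin n) F F') (r : F') (x : AP p F[X] P) :
    C12_c p _ r * C12_f p F' P x = C12_T p P e (fun i => C12_c p P (e.repr r i) * x) := by
  have h1 : C12_c p (mapRingHom (algebraMap F F') P) r =
      ∑ i, C12_c p _ (e i) * C12_f p F' P (C12_c p P (e.repr r i)) := by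
    conv_lhs => rw [← e.sum_repr r]
    rw [map_sum]
    refine Finset.sum_congr rfl fun i _ => ?_
    rw [Algebra.smul_def, map_mul, C12_f_c, mul_comm]
  rw [h1, C12_T, Finset.sum_mul]
  refine Finset.sum_congr rfl fun i _ => ?_
  rw [map_mul, mul_assoc]

/-- the extension of an ideal -/
private noncomputable def C12_S (e : Module.Basis (Fin n) F F') (I : Ideal (AP p F[X] P)) :
    AddSubgroup (AP p F'[X] (mapRingHom (algebraMap F F') P)) where
  carrier := {x | ∃ a : Fin n → AP p F[X] P, (∀ i, a i ∈ I) ∧ x = C12_T p P e a}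
  zero_mem' := ⟨0, fun _ => I.zero_mem, (C12_T_zero e).symm⟩
  add_mem' := by
    rintro _ _ ⟨a, ha, rfl⟩ ⟨b, hb, rfl⟩
    exact ⟨a + b, fun i => I.add_mem (ha i) (hb i), (C12_T_add e a b).symm⟩
  neg_mem' := by
    rintro _ ⟨a, ha, rfl⟩
    exact ⟨-a, fun i => I.neg_mem (ha i), (C12_T_neg e a).symm⟩

private theorem C12_S_single (e : Module.Basis (Fin n) F F') (I : Ideal (AP p F[X] P)) (r : F')
    (x : AP p F[X] P) (hx : x ∈ I) : C12_c p _ r * C12_f p F' P x ∈ C12_S e I :=
  ⟨_, fun _ => I.mul_mem_left _ hx, C12_T_single e r x⟩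

/-- generators of the big ring -/
private theorem C12_ind {M : AP p F'[X] (mapRingHom (algebraMap F F') P) → Prop}
    (hadd : ∀ a b, M a → M b → M (a + b))
    (hs : ∀ (r : F') (x : AP p F[X] P), M (C12_c p _ r * C12_f p F' P x)) (x) : M x := by
  obtain ⟨f, rfl⟩ := AdjoinRoot.mk_surjective x
  induction f using Polynomial.induction_on' with
  | add f g hf hg =>
    rw [map_add]
    exact hadd _ _ hf hg
  | monomial k f =>
    induction f using Polynomial.induction_on' with
    | add f g hf hg =>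
      rw [map_add, map_add]
      exact hadd _ _ hf hg
    | monomial m r =>
      have h1 := hs r (AdjoinRoot.mk (X ^ p - X - C P) (monomial k (monomial m 1)))
      have h2 : C12_f p F' P (AdjoinRoot.mk (X ^ p - X - C P) (monomial k (monomial m 1))) =
        AdjoinRoot.mk _ (monomial k (monomial m (1 : F'))) := by
        rw [C12_f, C12_map_mk, map_monomial, coe_mapRingHom, map_monomial, map_one]
      have h3 : C12_c p (mapRingHom (algebraMap F F') P) r = AdjoinRoot.mk _ (C (C r)) := rfl
      rw [h2, h3, ← map_mul, C_mul_monomial, C_mul_monomial, mul_one] at h1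
      exact h1

private theorem C12_map_le (e : Module.Basis (Fin n) F F') (I : Ideal (AP p F[X] P))
    (x : AP p F'[X] (mapRingHom (algebraMap F F') P)) (hx : x ∈ I.map (C12_f p F' P)) :
    x ∈ C12_S e I := by
  have hmul : ∀ c, ∀ x ∈ C12_S e I, c * x ∈ C12_S e I := by
    intro c
    refine C12_ind (M := fun c => ∀ x ∈ C12_S e I, c * x ∈ C12_S e I) ?_ ?_ c
    · intro a b ha hb x hx
      rw [add_mul]
      exact AddSubgroup.add_mem _ (ha x hx) (hb x hx)
    · rintro r y _ ⟨a, ha, rfl⟩
      rw [C12_T, Finset.mul_sum]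
      refine AddSubgroup.sum_mem _ fun i _ => ?_
      have h1 : C12_c p _ r * C12_f p F' P y * (C12_c p _ (e i) * C12_f p F' P (a i)) =
          C12_c p _ (r * e i) * C12_f p F' P (y * a i) := by
        rw [map_mul, map_mul]
        ring
      rw [h1]
      exact C12_S_single e I _ _ (I.mul_mem_left _ (ha i))
  rw [Ideal.map] at hx
  refine Submodule.span_induction (p := fun x _ => x ∈ C12_S e I) ?_ ?_ ?_ ?_ hx
  · rintro _ ⟨y, hy, rfl⟩
    have h1 := C12_S_single e I 1 y hy
    rwa [map_one, one_mul] at h1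
  · exact AddSubgroup.zero_mem _
  · intro x y _ _ hx hy
    exact AddSubgroup.add_mem _ hx hy
  · intro c x _ hx
    exact hmul c x hx

private theorem C12_wt (e : Module.Basis (Fin n) F F') (a : Fin n → AP p F[X] P) (i : Fin n) :
    AP.wt (C12_f p F' P (a i)) ≤ AP.wt (C12_T p P e a) := by
  classical
  rw [AP.wt, AP.wt]
  refine Finset.sup_le fun j hj => ?_
  split_ifs with h0
  · exact Nat.zero_le _
  · have h1 : AP.cf (C12_f p F' P (a i)) j = (AP.cf (a i) j).map (algebraMap F F') :=
      C12_cf_map _ _ _ _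
    have h2 : AP.cf (a i) j ≠ 0 := by
      intro h
      rw [h1, h, Polynomial.map_zero] at h0
      exact h0 rfl
    have h3 : (AP.cf (C12_f p F' P (a i)) j).natDegree = (AP.cf (a i) j).natDegree := by
      rw [h1, natDegree_map]
    have h4 : (AP.cf (C12_T p P e a) j).coeff (AP.cf (a i) j).natDegree ≠ 0 := by
      intro h
      have h5 := C12_coeff e a i j (AP.cf (a i) j).natDegree
      rw [h, map_zero, Finsupp.zero_apply] at h5
      exact h2 (leadingCoeff_eq_zero.1 h5)
    have h5 : AP.cf (C12_T p P e a) j ≠ 0 := by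
      intro h
      rw [h, coeff_zero] at h4
      exact h4 rfl
    have h6 := le_natDegree_of_ne_zero h4
    refine le_trans ?_ (Finset.le_sup (f := fun j => if AP.cf (C12_T p P e a) j = 0 then 0 else
      p * (AP.cf (C12_T p P e a) j).natDegree +
        ((mapRingHom (algebraMap F F')) P).natDegree * j) hj)
    rw [if_neg h5, h3]
    gcongr

end C12aux

open Polynomial in
theorem thm_C12 (h1 : St_C1) : St_C12 := by
  intro p _ F F' _ _ _ _ _ P hP I hI
  by_cases hI0 : I = ⊥
  · rw [hI0]
    exact bot_isPrincipal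
  let e := Module.finBasis F F'
  have : CharP F' p := charP_of_injective_algebraMap (algebraMap F F').injective p
  have hP' : ¬ p ∣ ((mapRingHom (algebraMap F F')) P).natDegree := by
    rwa [coe_mapRingHom, natDegree_map]
  obtain ⟨hD, hw⟩ := h1 p F' (mapRingHom (algebraMap F F') P) hP'
  have hT0 : ∀ x : AP p F[X] P, C12_f p F' P x = 0 → x = 0 := by
    intro x hx
    refine C12_cf_ext _ _ fun j => ?_
    have h2 := C12_cf_map (p := p) (mapRingHom (algebraMap F F')) P x j
    have h3 : AP.map (p := p) (mapRingHom (algebraMap F F')) P x = 0 := hx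
    rw [h3, C12_cf_zero, coe_mapRingHom] at h2
    rw [C12_cf_zero]
    exact (Polynomial.map_eq_zero _).1 h2.symm
  obtain ⟨g, hg⟩ := hI.principal
  have hgI : g ∈ I.map (C12_f p F' P) := by
    have h2 : g ∈ Submodule.span (AP p F'[X] (mapRingHom (algebraMap F F') P)) {g} :=
      Submodule.mem_span_singleton_self g
    rw [← hg] at h2
    exact h2
  have hmem : ∀ x ∈ I, ∃ c, C12_f p F' P x = c * g := by
    intro x hx
    have h2 : C12_f p F' P x ∈ I.map (C12_f p F' P) := Ideal.mem_map_of_mem _ hx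
    have h3 : C12_f p F' P x ∈ Submodule.span (AP p F'[X] (mapRingHom (algebraMap F F') P)) {g} := by
      rw [← hg]
      exact h2
    obtain ⟨c, hc⟩ := Submodule.mem_span_singleton.1 h3
    exact ⟨c, hc.symm⟩
  obtain ⟨x0, hx0, hx00⟩ := Submodule.exists_mem_ne_zero_of_ne_bot hI0
  have hg0 : g ≠ 0 := by
    intro h0
    obtain ⟨c, hc⟩ := hmem x0 hx0
    rw [h0, mul_zero] at hc
    exact hx00 (hT0 _ hc)
  obtain ⟨a, ha, hga⟩ := C12_map_le e I g hgI
  obtain ⟨i, hi⟩ : ∃ i, a i ≠ 0 := by
    by_contra hc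
    push Not at hc
    have h2 : a = 0 := funext hc
    rw [h2, C12_T_zero] at hga
    exact hg0 hga
  have hwi : AP.wt (C12_f p F' P (a i)) ≤ AP.wt g := by
    rw [hga]
    exact C12_wt e a i
  obtain ⟨c, hc⟩ := hmem (a i) (ha i)
  have hfi : C12_f p F' P (a i) ≠ 0 := fun h => hi (hT0 _ h)
  have hc0 : c ≠ 0 := by
    intro h
    rw [h, zero_mul] at hc
    exact hfi hc
  have hwc : AP.wt c = 0 := by
    have h2 := hw.mul c g hc0 hg0
    rw [← hc] at h2
    omega
  have hw1 : AP.wt (1 : AP p F'[X] (mapRingHom (algebraMap F F') P)) = 0 := by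
    have h2 := hw.alg 1
    rwa [map_one] at h2
  obtain ⟨r, hr⟩ := hw.lead c 1 hc0 one_ne_zero (by rw [hwc, hw1])
  have hr' : c = C12_c p _ r := by
    rcases hr with hr | hr
    · rw [hr, Algebra.smul_def, mul_one]
      rfl
    · rw [hw1] at hr
      exact absurd hr (Nat.not_lt_zero _)
  have hr0 : r ≠ 0 := by
    intro h
    rw [h, map_zero] at hr'
    exact hc0 hr'
  have hg' : g = C12_c p _ r⁻¹ * C12_f p F' P (a i) := by
    rw [hc, hr', ← mul_assoc, ← map_mul, inv_mul_cancel₀ hr0, map_one, one_mul]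
  refine ⟨⟨a i, le_antisymm (fun b hb => ?_) ?_⟩⟩
  · obtain ⟨d, hd⟩ := hmem b hb
    -- expand `d r⁻¹`
    have hS : d * C12_c p _ r⁻¹ ∈ C12_S e (⊤ : Ideal (AP p F[X] P)) := by
      refine C12_ind (M := fun x => x ∈ C12_S e (⊤ : Ideal (AP p F[X] P))) ?_ ?_ _
      · intro x y hx hy
        exact AddSubgroup.add_mem _ hx hy
      · intro r x
        exact C12_S_single e ⊤ r x trivial
    obtain ⟨cc, -, hcc⟩ := hS
    have h2 : C12_T p P e (fun k => C12_c p P (e.repr 1 k) * b) =
        C12_T p P e (fun k => a i * cc k) := by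
      rw [← C12_T_single, map_one, one_mul, hd, hg', ← mul_assoc, hcc, C12_T, C12_T,
        Finset.sum_mul]
      refine Finset.sum_congr rfl fun k _ => ?_
      rw [map_mul]
      ring
    have h3 := C12_T_inj e _ _ h2
    obtain ⟨k, hk⟩ : ∃ k, e.repr 1 k ≠ 0 := by
      by_contra hcon
      push Not at hcon
      have h4 : e.repr 1 = 0 := Finsupp.ext hcon
      exact one_ne_zero ((LinearEquiv.map_eq_zero_iff _).1 h4)
    have h4 : C12_c p P (e.repr 1 k) * b = a i * cc k := congrFun h3 k
    rw [Submodule.mem_span_singleton]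
    refine ⟨C12_c p P (e.repr 1 k)⁻¹ * cc k, ?_⟩
    rw [smul_eq_mul, mul_assoc, mul_comm (cc k), ← h4, ← mul_assoc, ← map_mul,
      inv_mul_cancel₀ hk, map_one, one_mul]
  · rw [Submodule.span_singleton_le_iff_mem]
    exact ha i

end Pool.Agent.AQS
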