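import Pool.Agent.AQS.St2

/-!
# AQS, module C13

Statement and proof: see `St_C13` in `Pool/Agent/AQS/St2.lean`.
-/

set_option autoImplicit false
set_option linter.unusedSectionVars false

namespace Pool.Agent.AQS

open Function Pool.Agent.Helper11 Pool.Agent.HPow Pool.Agent.Helper67.Bass

/-! ### subgroups of finitely generated groups -/

private theorem C13_sub {G H : Type 1} [AddCommGroup G] [AddCommGroup H] (β : G →+ H)
    (hβ : Injective β) (Γ : AddSubgroup G) (Δ : AddSubgroup H) (hΔ : Δ.FG)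
    (h : Γ.map β ≤ Δ) : Γ.FG := by
  have h1 : (AddSubgroup.toIntSubmodule Δ).FG := by
    rw [Submodule.fg_iff_addSubgroup_fg]
    exact hΔ
  have h2 : IsNoetherian ℤ (AddSubgroup.toIntSubmodule Δ) := isNoetherian_of_fg_of_noetherian _ h1
  have h3 : ((AddSubgroup.toIntSubmodule Γ).map β.toIntLinearMap).FG := by
    refine isNoetherian_submodule.1 h2 _ ?_
    rintro _ ⟨x, hx, rfl⟩
    exact h ⟨x, hx, rfl⟩
  have h4 := Submodule.fg_of_fg_map_injective β.toIntLinearMap hβ h3
  rw [Submodule.fg_iff_addSubgroup_fg] at h4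
  exact h4

private theorem C13_good {p : ℕ} {R S : Type} [CommRing R] [CommRing S] (β : G0 R →+ G0 S)
    (hβ : Injective β) (hS : GoodP p S) : GoodP p R := by
  obtain ⟨Δ, hΔ, e, he⟩ := hS
  refine ⟨(nsmulAddMonoidHom (p ^ e) : G0 R →+ G0 R).range, ?_, e, fun x => ⟨x, rfl⟩⟩
  refine C13_sub β hβ _ Δ hΔ ?_
  rintro _ ⟨_, ⟨x, rfl⟩, rfl⟩
  have h1 : β ((nsmulAddMonoidHom (p ^ e) : G0 R →+ G0 R) x) = p ^ e • β x := by
    show β (p ^ e • x) = _
    rw [map_nsmul]
  rw [h1]
  exact he _

/-! ### flatness -/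

open Polynomial in
attribute [local instance] Polynomial.algebra in
private theorem C13_flat_poly {R R' : Type} [CommRing R] [CommRing R'] (φ : R →+* R')
    (h : φ.Flat) : (mapRingHom φ).Flat := by
  let _ : Algebra R R' := φ.toAlgebra
  have _ : Module.Flat R R' := h
  have h1 : Algebra.IsPushout R R[X] R' R'[X] := inferInstance
  have h2 : Module.Flat R[X] R'[X] := Module.Flat.isBaseChange R R[X] R' R'[X] h1.out
  exact RingHom.flat_algebraMap_iff.2 h2

open TensorProduct in
private theorem C13_flat_push {W W' S S' : Type} [CommRing W] [CommRing W'] [CommRing S]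
    [CommRing S'] (φ : W →+* W') (hφ : φ.Flat) (o : W →+* S) (o' : W' →+* S') (Φ : S →+* S')
    (hc : Φ.comp o = o'.comp φ)
    (huniv : ∀ (B : Type) [CommRing B] (f : W' →+* B) (g : S →+* B), f.comp φ = g.comp o →
      ∃ u : S' →+* B, u.comp o' = f ∧ u.comp Φ = g)
    (hext : ∀ (B : Type) [CommRing B] (u v : S' →+* B), u.comp o' = v.comp o' →
      u.comp Φ = v.comp Φ → u = v) : Φ.Flat := by
  let _ : Algebra W W' := φ.toAlgebra
  have _ : Module.Flat W W' := hφ
  let _ : Algebra W S := o.toAlgebra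
  let _ : Algebra S S' := Φ.toAlgebra
  let _ : Algebra W' S' := o'.toAlgebra
  let _ : Algebra W S' := (Φ.comp o).toAlgebra
  have _ : IsScalarTower W S S' := IsScalarTower.of_algebraMap_eq' rfl
  have _ : IsScalarTower W W' S' := IsScalarTower.of_algebraMap_eq' hc
  obtain ⟨F, hF1, hF2⟩ : ∃ F : S ⊗[W] W' →ₐ[S] S', (∀ s : S, F (s ⊗ₜ 1) = Φ s) ∧
      ∀ w : W', F (1 ⊗ₜ w) = o' w := by
    refine ⟨Algebra.TensorProduct.lift (Algebra.ofId S S') (IsScalarTower.toAlgHom W W' S')
      (fun _ _ => Commute.all _ _), fun s => ?_, fun w => ?_⟩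
    · rw [Algebra.TensorProduct.lift_tmul, map_one, mul_one]
      rfl
    · rw [Algebra.TensorProduct.lift_tmul, map_one, one_mul]
      rfl
  obtain ⟨u, hu1, hu2⟩ := huniv (S ⊗[W] W')
    (Algebra.TensorProduct.includeRight : W' →ₐ[W] S ⊗[W] W').toRingHom
    (Algebra.TensorProduct.includeLeftRingHom : S →+* S ⊗[W] W') (by
      refine RingHom.ext fun w => ?_
      show (1 : S) ⊗ₜ[W] (algebraMap W W' w) = (algebraMap W S w) ⊗ₜ[W] (1 : W')
      rw [Algebra.algebraMap_eq_smul_one, Algebra.algebraMap_eq_smul_one,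
        TensorProduct.smul_tmul])
  have hu1' : ∀ w : W', u (o' w) = 1 ⊗ₜ w := fun w => RingHom.congr_fun hu1 w
  have hu2' : ∀ s : S, u (Φ s) = s ⊗ₜ 1 := fun s => RingHom.congr_fun hu2 s
  have h1 : ∀ x : S ⊗[W] W', u (F x) = x := by
    intro x
    induction x using TensorProduct.induction_on with
    | zero => rw [map_zero, map_zero]
    | add x y hx hy => rw [map_add, map_add, hx, hy]
    | tmul s w =>
      have h2 : s ⊗ₜ[W] w = (s ⊗ₜ[W] (1 : W')) * ((1 : S) ⊗ₜ[W] w) := by
        rw [Algebra.TensorProduct.tmul_mul_tmul, mul_one, one_mul]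
      rw [h2, map_mul, map_mul, hF1, hF2, hu1', hu2']
  have h2 : (F : S ⊗[W] W' →+* S').comp u = RingHom.id S' := by
    apply hext
    · refine RingHom.ext fun w => ?_
      show F (u (o' w)) = o' w
      rw [hu1', hF2]
    · refine RingHom.ext fun s => ?_
      show F (u (Φ s)) = Φ s
      rw [hu2', hF1]
  have h3 : Module.Flat S S' :=
    Module.Flat.of_linearEquiv (M := S ⊗[W] W') (LinearEquiv.ofLinearMap
      ({ toFun := u
         map_add' := map_add u
         map_smul' := fun s x => by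
          rw [Algebra.smul_def, map_mul]
          show u (Φ s) * u x = s • u x
          rw [hu2', Algebra.smul_def s (u x)]
          rfl } : S' →ₗ[S] S ⊗[W] W') F.toLinearMap
      (LinearMap.ext h1) (LinearMap.ext fun x => RingHom.congr_fun h2 x))
  exact h3

private theorem C13_flat_AP {p : ℕ} {W W' : Type} [CommRing W] [CommRing W'] (φ : W →+* W')
    (hφ : φ.Flat) (h : W) (h' : W') (e : φ h = h') (Φ : AP p W h →+* AP p W' h')
    (h0 : ∀ w, Φ (AP.o h w) = AP.o h' (φ w)) (h1 : Φ (AP.y h) = AP.y h') : Φ.Flat := by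
  refine C13_flat_push φ hφ (AP.o h) (AP.o h') Φ (RingHom.ext h0) ?_ ?_
  · intro B _ f g hfg
    have h3 : g (AP.y h) ^ p - g (AP.y h) = f h' := by
      rw [← map_pow, ← map_sub, AP.eq, ← e]
      exact (RingHom.congr_fun hfg h).symm
    refine ⟨AP.lift f (g (AP.y h)) h3, ?_, ?_⟩
    · exact RingHom.ext fun w => AP.lift_o f (g (AP.y h)) h3 w
    · apply AP.ext
      · intro w
        rw [RingHom.comp_apply, h0, AP.lift_o]
        exact RingHom.congr_fun hfg w
      · rw [RingHom.comp_apply, h1, AP.lift_y]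
  · intro B _ u v hu hv
    apply AP.ext
    · exact fun w => RingHom.congr_fun hu w
    · rw [← h1]
      exact RingHom.congr_fun hv (AP.y h)

private theorem C13_map_o {p : ℕ} {W W' : Type} [CommRing W] [CommRing W'] (φ : W →+* W') (h : W)
    (w : W) : AP.map (p := p) φ h (AP.o h w) = AP.o (φ h) (φ w) := AP.lift_o _ _ _ w

private theorem C13_map_y {p : ℕ} {W W' : Type} [CommRing W] [CommRing W'] (φ : W →+* W')
    (h : W) : AP.map (p := p) φ h (AP.y h) = AP.y (φ h) := AP.lift_y _ _ _

private theorem C13_flat_map {p : ℕ} {W W' : Type} [CommRing W] [CommRing W'] (φ : W →+* W')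
    (hφ : φ.Flat) (h : W) : (AP.map (p := p) φ h).Flat :=
  C13_flat_AP φ hφ h (φ h) rfl _ (C13_map_o φ h) (C13_map_y φ h)

/-! ### function fields -/

open Polynomial in
attribute [local instance] Polynomial.algebra FractionRing.liftAlgebra in
private theorem C13_frac (k k' : Type) [Field k] [Field k'] [Algebra k k'] [Finite k'] :
    ∃ _ : Algebra (FractionRing k[X]) (FractionRing k'[X]),
      Module.Finite (FractionRing k[X]) (FractionRing k'[X]) ∧
      ∀ x : k[X], algebraMap (FractionRing k[X]) (FractionRing k'[X]) (algebraMap k[X] _ x) =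
        algebraMap k'[X] _ (mapRingHom (algebraMap k k') x) := by
  have h0 : Module.Finite k k' := inferInstance
  have h1 : Module.Finite k[X] k'[X] := by
    have h2 : Algebra.IsPushout k k[X] k' k'[X] := inferInstance
    exact Module.Finite.equiv (h2.out.equiv)
  refine ⟨inferInstance, inferInstance, fun x => ?_⟩
  rw [← IsScalarTower.algebraMap_apply k[X] (FractionRing k[X]) (FractionRing k'[X])]
  rw [IsScalarTower.algebraMap_apply k[X] k'[X] (FractionRing k'[X])]
  rfl

/-! ### points -/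

private theorem C13_pts (h5 : St_A5) {R S : Type} [CommRing R] [CommRing S] (e : R ≃+* S)
    (h : ∀ (E : Type) [Field E] [Finite E] (ε : R →+* E), pt ε = 0) (E : Type) [Field E]
    [Finite E] (ε : S →+* E) : pt ε = 0 := by
  have hfin : (e.symm : S →+* R).Finite := RingHom.Finite.of_surjective _ e.symm.surjective
  have h1 := h5.1 S R E (e.symm : S →+* R) hfin (ε.comp (e : R →+* S))
  rw [h E (ε.comp (e : R →+* S)), map_zero] at h1
  have h2 : (ε.comp (e : R →+* S)).comp (e.symm : S →+* R) = ε := by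
    refine RingHom.ext fun x => ?_
    show ε (e (e.symm x)) = ε x
    rw [e.apply_symm_apply]
  rw [h2] at h1
  exact h1.symm

open Polynomial in
private theorem C13_to2 (k k' : Type) [Field k] [Field k'] (ι : k →+* k')
    (f : MvPolynomial (Fin 2) k) :
    to2 k' (MvPolynomial.map ι f) = mapRingHom (mapRingHom ι) (to2 k f) := by
  have h1 : ((to2 k' : MvPolynomial (Fin 2) k' →ₐ[k'] k'[X][X]) :
      MvPolynomial (Fin 2) k' →+* k'[X][X]).comp (MvPolynomial.map ι) =
      (mapRingHom (mapRingHom ι)).comp (to2 k : MvPolynomial (Fin 2) k →+* k[X][X]) := by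
    refine MvPolynomial.ringHom_ext (fun r => ?_) (fun i => ?_)
    · show to2 k' (MvPolynomial.map ι (MvPolynomial.C r)) =
        mapRingHom (mapRingHom ι) (to2 k (MvPolynomial.C r))
      unfold to2
      rw [MvPolynomial.map_C, MvPolynomial.aeval_C, MvPolynomial.aeval_C]
      show C (C (ι r)) = mapRingHom (mapRingHom ι) (C (C r))
      rw [coe_mapRingHom, map_C, coe_mapRingHom, map_C]
    · show to2 k' (MvPolynomial.map ι (MvPolynomial.X i)) =
        mapRingHom (mapRingHom ι) (to2 k (MvPolynomial.X i))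
      unfold to2
      rw [MvPolynomial.map_X, MvPolynomial.aeval_X, MvPolynomial.aeval_X]
      fin_cases i
      · show (X : k'[X][X]) = mapRingHom (mapRingHom ι) X
        rw [coe_mapRingHom, map_X]
      · show (C X : k'[X][X]) = mapRingHom (mapRingHom ι) (C X)
        rw [coe_mapRingHom, map_C, coe_mapRingHom, map_X]
  exact RingHom.congr_fun h1 f

/-! ### the injectivity -/

private theorem C13_congr {R S : Type} [CommRing R] [CommRing S] {φ ψ : R →+* S} (h : φ = ψ)
    (hφ : φ.Flat) (hψ : ψ.Flat) (x : G0 R) : bcH φ hφ x = bcH ψ hψ x := by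
  subst h
  rfl

private theorem C13_ne {R S : Type} [CommRing R] [IsDomain R] [CommRing S] [Nontrivial S]
    (φ : R →+* S) (hφ : φ.Flat) (I : Ideal R) (hI : I ≠ ⊥) : I.map φ ≠ ⊥ := by
  let _ : Algebra R S := φ.toAlgebra
  have _ : Module.Flat R S := hφ
  obtain ⟨a, ha, ha0⟩ := Submodule.exists_mem_ne_zero_of_ne_bot hI
  intro h1
  have h2 : φ a ∈ I.map φ := Ideal.mem_map_of_mem φ ha
  rw [h1, Submodule.mem_bot] at h2
  have h3 : IsSMulRegular S a :=
    Module.Flat.isSMulRegular_of_nonZeroDivisors (mem_nonZeroDivisors_of_ne_zero ha0)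
  have h4 : a • (1 : S) = a • (0 : S) := by
    rw [Algebra.smul_def, smul_zero, mul_one]
    exact h2
  exact one_ne_zero (h3 h4)

private theorem C13_core (h11a : St_C11a) (h11b : St_C11b) (h13 : St_C13a) {V V' A A' : Type}
    [CommRing V] [CommRing V'] [CommRing A] [CommRing A'] [IsDedekindDomain A]
    [IsDedekindDomain A'] (φ : V →+* V') (hφ : φ.Flat) (a : V →+* A) (ha : a.Flat) (b : A →+* A')
    (hb : b.Flat) (ψ : V' →+* A') (hψ : ψ.Flat) (hsq : b.comp a = ψ.comp φ)
    (hinj : Injective (bcH a ha))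
    (hpr : ∀ I : Ideal A, Submodule.IsPrincipal (I.map b) → Submodule.IsPrincipal I) :
    Injective (bcH φ hφ) := by
  rw [injective_iff_map_eq_zero]
  intro x hx
  apply (injective_iff_map_eq_zero _).1 hinj
  have hc1 : (b.comp a).Flat := ha.comp hb
  have hc2 : (ψ.comp φ).Flat := hφ.comp hψ
  have h1 := h13.1 V V' A' φ ψ hφ hψ hc2 x
  rw [hx, map_zero, ← C13_congr hsq hc1 hc2] at h1
  have h2 := h13.1 V A A' a b ha hb hc1 x
  rw [h1] at h2
  obtain ⟨z, I, hI, hz⟩ := h11a A (bcH a ha x)
  rw [hz, map_add, map_zsmul, h13.2.1 A A' b hb, h13.2.2 A A' b hb I] at h2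
  obtain ⟨hz1, hp⟩ := h11b A' z (I.map b) (C13_ne b hb I hI) h2.symm
  have hp' := hpr I hp
  obtain ⟨g, hg⟩ := hp'.principal
  have hg0 : g ≠ 0 := by
    rintro rfl
    apply hI
    rw [hg, Submodule.span_zero_singleton]
  have h3 : G0.mk (FGMod.of A I) = G0.mk (FGMod.of A A) := by
    refine (mk_eq_of_iso (M := FGMod.of A A) (N := FGMod.of A I) ?_).symm
    exact (LinearEquiv.toSpanNonzeroSingleton A A g hg0).trans (LinearEquiv.ofEq _ _ hg.symm)
  rw [hz, hz1, h3, neg_one_zsmul, neg_add_cancel]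

open Polynomial in
private theorem C13_inj (hc1 : St_C1) (h10 : St_C10) (h11a : St_C11a) (h11b : St_C11b)
    (h12 : St_C12) (h13 : St_C13a) (p : ℕ) [Fact p.Prime] (k k' : Type) [Field k] [Finite k]
    [CharP k p] [Field k'] [Finite k'] [Algebra k k'] (F : k[X][X]) (hd : ¬ p ∣ F.natDegree)
    (hl : IsUnit F.leadingCoeff)
    (hpt : ∀ (E : Type) [Field E] [Finite E] (ε : AP p k[X][X] F →+* E), pt ε = 0) :
    ∃ h : (AP.map (p := p) (mapRingHom (mapRingHom (algebraMap k k'))) F).Flat,
      Injective (bcH _ h) := by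
  obtain ⟨alg, hfin, hcomm⟩ := C13_frac k k'
  obtain ⟨hVA, hinj⟩ := h10 p k F hd hl hpt
  have hι : (mapRingHom (mapRingHom (algebraMap k k'))).Flat :=
    C13_flat_poly _ (C13_flat_poly _ (RingHom.Flat.of_isField (Field.toIsField k) _))
  have hVV := C13_flat_map (p := p) _ hι F
  refine ⟨hVV, ?_⟩
  have hAA := C13_flat_map (p := p) (mapRingHom (algebraMap (FractionRing k[X])
    (FractionRing k'[X]))) (C13_flat_poly _ (RingHom.Flat.of_isField (Field.toIsField _) _))
      (mapRingHom (algebraMap k[X] (FractionRing k[X])) F)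
  have e : ∀ F, mapRingHom (algebraMap k'[X] (FractionRing k'[X]))
      (mapRingHom (mapRingHom (algebraMap k k')) F) =
      mapRingHom (algebraMap (FractionRing k[X]) (FractionRing k'[X]))
        (mapRingHom (algebraMap k[X] (FractionRing k[X])) F) := by
    intro F
    rw [coe_mapRingHom, coe_mapRingHom, coe_mapRingHom, coe_mapRingHom, map_map, map_map]
    congr 1
    exact RingHom.ext fun x => (hcomm x).symm
  have hK : CharP (FractionRing k[X]) p :=
    charP_of_injective_ringHom (f := (algebraMap k[X] (FractionRing k[X])).comp C)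
      ((IsFractionRing.injective k[X] (FractionRing k[X])).comp C_injective) p
  have hK' : CharP (FractionRing k'[X]) p :=
    charP_of_injective_ringHom (algebraMap (FractionRing k[X]) (FractionRing k'[X])).injective p
  have hdK : ¬ p ∣ (mapRingHom (algebraMap k[X] (FractionRing k[X])) F).natDegree := by
    rw [coe_mapRingHom, natDegree_map_eq_of_injective (IsFractionRing.injective k[X] _)]
    exact hd
  have hdK' : ¬ p ∣ (mapRingHom (algebraMap (FractionRing k[X]) (FractionRing k'[X]))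
      (mapRingHom (algebraMap k[X] (FractionRing k[X])) F)).natDegree := by
    rw [coe_mapRingHom, natDegree_map_eq_of_injective (RingHom.injective _)]
    exact hdK
  have hA : IsDedekindDomain (AP p (FractionRing k[X])[X]
      (mapRingHom (algebraMap k[X] (FractionRing k[X])) F)) := (hc1 p _ _ hdK).1
  have hA' : IsDedekindDomain (AP p (FractionRing k'[X])[X]
      (mapRingHom (algebraMap (FractionRing k[X]) (FractionRing k'[X]))
        (mapRingHom (algebraMap k[X] (FractionRing k[X])) F))) := (hc1 p _ _ hdK').1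
  obtain ⟨ψ, hψ0, hψ1⟩ : ∃ ψ : AP p k'[X][X] (mapRingHom (mapRingHom (algebraMap k k')) F) →+*
      AP p (FractionRing k'[X])[X] (mapRingHom (algebraMap (FractionRing k[X])
        (FractionRing k'[X])) (mapRingHom (algebraMap k[X] (FractionRing k[X])) F)),
      (∀ w, ψ (AP.o _ w) = AP.o _ (mapRingHom (algebraMap k'[X] (FractionRing k'[X])) w)) ∧
        ψ (AP.y _) = AP.y _ := by
    refine ⟨AP.lift ((AP.o _).comp (mapRingHom (algebraMap k'[X] (FractionRing k'[X]))))
      (AP.y _) ?_, fun w => AP.lift_o _ _ _ w, AP.lift_y _ _ _⟩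
    rw [AP.eq, RingHom.comp_apply, e F]
  have hψ : ψ.Flat := by
    refine C13_flat_AP (mapRingHom (algebraMap k'[X] (FractionRing k'[X]))) ?_ _ _ (e F) ψ hψ0 hψ1
    refine C13_flat_poly _ ?_
    rw [RingHom.flat_algebraMap_iff]
    exact IsLocalization.flat _ (nonZeroDivisors k'[X])
  refine C13_core h11a h11b h13 _ hVV _ hVA _ hAA ψ hψ ?_ hinj
    (fun I hI => h12 p (FractionRing k[X]) (FractionRing k'[X]) _ hdK I hI)
  apply AP.ext
  · intro w
    rw [RingHom.comp_apply, RingHom.comp_apply, C13_map_o, C13_map_o, C13_map_o, hψ0]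
    congr 1
    exact (e w).symm
  · rw [RingHom.comp_apply, RingHom.comp_apply, C13_map_y, C13_map_y, C13_map_y, hψ1]

theorem thm_C13 (h1 : St_A1) (h2 : St_B2) (hb9 : St_B9) (h0 : St_C0) (hc1 : St_C1) (h7 : St_C7)
    (hc9 : St_C9) (h10 : St_C10) (h11a : St_C11a) (h11b : St_C11b) (h12 : St_C12) (h13 : St_C13a)
    (h5 : St_A5) : St_C13 := by
  intro p _ hG1 hG0 k _ _ _ f hf hd hl
  obtain ⟨k', _, _, _, hiso⟩ := h7 p k f hf
  have hk' : CharP k' p := charP_of_injective_ringHom (algebraMap k k').injective p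
  -- the ring over `k`
  obtain ⟨e0⟩ := (h1 p (MvPolynomial (Fin 2) k)).2.1 _
    (AlgEquiv.ofBijective (to2 k) (h0 p k).1).toRingEquiv f
  have hpt := C13_pts h5 e0 (fun E _ _ ε => hc9 p k f hf hd hl k' hiso E ε)
  obtain ⟨hfl, hinj⟩ := C13_inj hc1 h10 h11a h11b h12 h13 p k k' (to2 k f) hd hl hpt
  -- the ring over `k'`
  have hAQ : AQ p (MvPolynomial.map (algebraMap k k') f) :=
    (h2 p k (Fin 2) (Fin 2)).2.2.2.2.2.1 k' (algebraMap k k') f hf
  have hg' : GoodP p (AP p (MvPolynomial (Fin 2) k') (MvPolynomial.map (algebraMap k k') f)) :=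
    hb9 p 0 hG1 hG0 k' _ hAQ hiso
  obtain ⟨e1⟩ := (h1 p (MvPolynomial (Fin 2) k')).2.1 _
    (AlgEquiv.ofBijective (to2 k') (h0 p k').1).toRingEquiv
      (MvPolynomial.map (algebraMap k k') f)
  have e2 := C13_to2 k k' (algebraMap k k') f
  have hg2 := GoodP.of_equiv e1 hg'
  have hg3 : GoodP p (AP p (Polynomial (Polynomial k'))
      (to2 k' (MvPolynomial.map (algebraMap k k') f))) := hg2
  rw [e2] at hg3
  exact GoodP.of_equiv e0.symm (C13_good _ hinj hg3)

end Pool.Agent.AQS
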