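import Pool.Agent.AQS.St2

/-!
# AQS, module C13a

Statement and proof: see `St_C13a` in `Pool/Agent/AQS/St2.lean`.
-/

set_option autoImplicit false
set_option linter.unusedSectionVars false
set_option linter.style.haveILetI false

namespace Pool.Agent.AQS

open Function Pool.Agent.Helper11 Pool.Agent.HPow Pool.Agent.Helper67.Bass
open Pool.Agent.Helper83.Bass TensorProduct

private theorem C13a_comp (R S T : Type) [CommRing R] [CommRing S] [CommRing T] [Algebra R S]
    [Algebra S T] [Algebra R T] [IsScalarTower R S T] [Module.Flat R S] [Module.Flat S T]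
    [Module.Flat R T] (x : G0 R) : bcG R T x = bcG S T (bcG R S x) := by
  refine cl_ext (bcG R T) ((bcG S T).comp (bcG R S)) (fun M => ?_) x
  rw [AddMonoidHom.comp_apply, bcG_mk, bcG_mk, bcG_mk]
  exact mk_eq_of_iso (TensorProduct.AlgebraTensorModule.cancelBaseChange R S T T M).symm

private theorem C13a_one (R S : Type) [CommRing R] [CommRing S] [Algebra R S] [Module.Flat R S] :
    bcG R S (G0.mk (FGMod.of R R)) = G0.mk (FGMod.of S S) := by
  rw [bcG_mk]
  exact mk_eq_of_iso (TensorProduct.AlgebraTensorModule.rid R S S)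

private theorem C13a_ideal (R S : Type) [CommRing R] [IsNoetherianRing R] [CommRing S]
    [IsNoetherianRing S] [Algebra R S] [Module.Flat R S] (I : Ideal R) :
    bcG R S (G0.mk (FGMod.of R I)) = G0.mk (FGMod.of S (I.map (algebraMap R S))) := by
  rw [bcG_mk]
  let f : S ⊗[R] I →ₗ[S] S :=
    (TensorProduct.AlgebraTensorModule.rid R S S).toLinearMap ∘ₗ I.subtype.baseChange S
  have hf : ∀ (s : S) (i : I), f (s ⊗ₜ i) = (i : R) • s := by
    intro s i
    show (TensorProduct.AlgebraTensorModule.rid R S S) (I.subtype.baseChange S (s ⊗ₜ i)) = _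
    rw [LinearMap.baseChange_tmul, TensorProduct.AlgebraTensorModule.rid_tmul]
    rfl
  have hinj : Injective f := by
    refine (TensorProduct.AlgebraTensorModule.rid R S S).injective.comp ?_
    exact Module.Flat.lTensor_preserves_injective_linearMap (M := S) I.subtype
      I.injective_subtype
  have hran : LinearMap.range f = I.map (algebraMap R S) := by
    refine le_antisymm ?_ ?_
    · rintro _ ⟨t, rfl⟩
      induction t using TensorProduct.induction_on with
      | zero => rw [map_zero]; exact zero_mem _
      | tmul s i =>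
        rw [hf, Algebra.smul_def]
        exact Ideal.mul_mem_right _ _ (Ideal.mem_map_of_mem _ i.2)
      | add a b ha hb => rw [map_add]; exact add_mem ha hb
    · refine Ideal.map_le_iff_le_comap.2 fun i hi => ?_
      refine ⟨(1 : S) ⊗ₜ (⟨i, hi⟩ : I), ?_⟩
      rw [hf, Algebra.smul_def, mul_one]
  exact mk_eq_of_iso ((LinearEquiv.ofInjective f hinj).trans (LinearEquiv.ofEq _ _ hran))

theorem thm_C13a : St_C13a := by
  refine ⟨?_, ?_, ?_⟩
  · intro R S T _ _ _ φ ψ h h' h'' x
    letI := φ.toAlgebra
    letI := ψ.toAlgebra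
    letI := (ψ.comp φ).toAlgebra
    haveI : IsScalarTower R S T := IsScalarTower.of_algebraMap_eq fun _ => rfl
    haveI : Module.Flat R S := h
    haveI : Module.Flat S T := h'
    haveI : Module.Flat R T := h''
    exact C13a_comp R S T x
  · intro R S _ _ φ h
    letI := φ.toAlgebra
    haveI : Module.Flat R S := h
    exact C13a_one R S
  · intro R S _ _ _ _ φ h I
    letI := φ.toAlgebra
    haveI : Module.Flat R S := h
    exact C13a_ideal R S I

end Pool.Agent.AQS
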