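import Pool.Agent.AQS.St2

/-!
# AQS, module C2

Statement and proof: see `St_C2` in `Pool/Agent/AQS/St2.lean`.
-/

set_option autoImplicit false
set_option linter.unusedSectionVars false

namespace Pool.Agent.AQS

open Function Pool.Agent.Helper11 Pool.Agent.HPow Pool.Agent.Helper67.Bass

open PowerSeries in
private lemma c2_prod_roots {ℓ : ℕ} (hℓ : 0 < ℓ) {η : ℂ} (hη : IsPrimitiveRoot η ℓ)
    (x y : PowerSeries ℂ) :
    ∏ j ∈ Finset.range ℓ, (x - C (η ^ j) * y) = x ^ ℓ - y ^ ℓ := by
  classical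
  have hC : IsPrimitiveRoot (C η : PowerSeries ℂ) ℓ :=
    hη.map_of_injective (f := (C : ℂ →+* PowerSeries ℂ)) C_injective
  rw [hC.pow_sub_pow_eq_prod_sub_mul x y hℓ]
  have him : Polynomial.nthRootsFinset ℓ (1 : PowerSeries ℂ) =
      (Finset.range ℓ).image fun j => (C η : PowerSeries ℂ) ^ j := by
    symm
    refine Finset.eq_of_subset_of_card_le ?_ ?_
    · intro z hz
      obtain ⟨j, _, rfl⟩ := Finset.mem_image.mp hz
      rw [Polynomial.mem_nthRootsFinset hℓ, ← pow_mul, mul_comm, pow_mul, hC.pow_eq_one, one_pow]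
    · rw [hC.card_nthRootsFinset, Finset.card_image_of_injOn, Finset.card_range]
      intro i hi j hj hij
      exact hC.pow_inj (Finset.mem_range.mp hi) (Finset.mem_range.mp hj) hij
  rw [him, Finset.prod_image]
  · refine Finset.prod_congr rfl fun j _ => ?_
    rw [map_pow]
  · intro i hi j hj hij
    exact hC.pow_inj (Finset.mem_range.mp hi) (Finset.mem_range.mp hj) hij

private lemma c2_finite {Pr : Type} {d : Pr → ℕ} (hd : ∀ x, 0 < d x)
    (hf : ∀ n, {x | d x = n}.Finite) (n : ℕ) :
    {s : Multiset Pr | (s.map d).sum = n}.Finite := by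
  classical
  have hF : {x | d x ≤ n}.Finite := by
    have : {x | d x ≤ n} = ⋃ m ∈ Finset.range (n + 1), {x | d x = m} := by
      ext x
      simp
    rw [this]
    exact Set.Finite.biUnion (Finset.finite_toSet _) fun m _ => hf m
  set t : Multiset Pr := n • hF.toFinset.val with ht
  refine (Set.finite_Iic t).subset ?_
  intro s hs
  simp only [Set.mem_ofPred_eq] at hs
  rw [Set.mem_Iic, Multiset.le_iff_count]
  intro x
  by_cases hx : x ∈ s
  · have h1 : d x ≤ n := by
      rw [← hs]
      exact Multiset.single_le_sum (fun _ _ => Nat.zero_le _) _ (Multiset.mem_map_of_mem d hx)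
    have h2 : s.count x ≤ n := by
      calc s.count x ≤ Multiset.card s := Multiset.count_le_card _ _
        _ = (s.map fun _ => 1).sum := by simp
        _ ≤ (s.map d).sum := Multiset.sum_map_le_sum_map _ _ fun x _ => hd x
        _ = n := hs
    have h3 : t.count x = n := by
      rw [ht, Multiset.count_nsmul, Multiset.count_eq_one_of_mem hF.toFinset.nodup]
      · simp
      · exact hF.mem_toFinset.mpr h1
    rw [h3]
    exact h2
  · rw [Multiset.count_eq_zero_of_notMem hx]
    exact Nat.zero_le _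

section

variable {ℓ : ℕ} {Pr : Type} (d : Pr → ℕ) (χ : Pr → ℂ)
  (hfin : ∀ n, {s : Multiset Pr | (s.map d).sum = n}.Finite)

/-- Multisets of degree `n` with support in `S`. -/
private noncomputable def c2T (S : Set Pr) (n : ℕ) : Finset (Multiset Pr) :=
  ((hfin n).subset (Set.inter_subset_left (t := {s | ∀ x ∈ s, x ∈ S}))).toFinset

private lemma c2_mem (S : Set Pr) (n : ℕ) (s : Multiset Pr) :
    s ∈ c2T d hfin S n ↔ (s.map d).sum = n ∧ ∀ x ∈ s, x ∈ S := by
  simp [c2T]

/-- Generating function of the multisets with support in `S`. -/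
private noncomputable def c2L (S : Set Pr) : PowerSeries ℂ :=
  PowerSeries.mk fun n => ∑ s ∈ c2T d hfin S n, (s.map χ).prod

open scoped Classical in
private lemma c2_step (S : Set Pr) (x : Pr) (hx : x ∈ S) :
    (1 - PowerSeries.C (χ x) * PowerSeries.X ^ d x) * c2L d χ hfin S =
      c2L d χ hfin (S \ {x}) := by
  ext n
  rw [sub_mul, one_mul, map_sub, mul_assoc, PowerSeries.coeff_C_mul, PowerSeries.coeff_X_pow_mul']
  simp only [c2L, PowerSeries.coeff_mk]
  have hsplit := Finset.sum_filter_add_sum_filter_not (c2T d hfin S n) (fun s => x ∈ s)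
    (fun s => (s.map χ).prod)
  have h1 : (c2T d hfin S n).filter (fun s => ¬ x ∈ s) = c2T d hfin (S \ {x}) n := by
    ext s
    rw [Finset.mem_filter, c2_mem, c2_mem]
    constructor
    · rintro ⟨⟨h1, h2⟩, h3⟩
      exact ⟨h1, fun y hy => ⟨h2 y hy, fun h => h3 (by
        rw [← (show y = x from h)]; exact hy)⟩⟩
    · rintro ⟨h1, h2⟩
      exact ⟨⟨h1, fun y hy => (h2 y hy).1⟩, fun h => (h2 x h).2 rfl⟩
  rw [h1] at hsplit
  rw [← hsplit]
  have h2 : ∑ s ∈ (c2T d hfin S n).filter (fun s => x ∈ s), (s.map χ).prod =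
      χ x * (if d x ≤ n then ∑ s ∈ c2T d hfin S (n - d x), (s.map χ).prod else 0) := by
    split_ifs with hn
    · rw [Finset.mul_sum]
      refine Finset.sum_bij' (i := fun s _ => s.erase x) (j := fun s _ => x ::ₘ s) ?_ ?_ ?_ ?_ ?_
      · intro s hs
        rw [Finset.mem_filter, c2_mem] at hs
        rw [c2_mem]
        obtain ⟨⟨h1, h2⟩, h3⟩ := hs
        refine ⟨?_, fun y hy => h2 y (Multiset.mem_of_mem_erase hy)⟩
        have h4 : ((x ::ₘ s.erase x).map d).sum = n := by rw [Multiset.cons_erase h3]; exact h1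
        rw [Multiset.map_cons, Multiset.sum_cons] at h4
        omega
      · intro s hs
        rw [c2_mem] at hs
        rw [Finset.mem_filter, c2_mem]
        obtain ⟨h1, h2⟩ := hs
        refine ⟨⟨?_, ?_⟩, Multiset.mem_cons_self _ _⟩
        · rw [Multiset.map_cons, Multiset.sum_cons, h1]
          omega
        · intro y hy
          rcases Multiset.mem_cons.mp hy with h | h
          · rw [h]; exact hx
          · exact h2 y h
      · intro s hs
        rw [Finset.mem_filter] at hs
        exact Multiset.cons_erase hs.2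
      · intro s _
        exact Multiset.erase_cons_head _ _
      · intro s hs
        rw [Finset.mem_filter] at hs
        rw [← Multiset.prod_cons, ← Multiset.map_cons, Multiset.cons_erase hs.2]
    · rw [mul_zero]
      refine Finset.sum_eq_zero fun s hs => ?_
      exfalso
      rw [Finset.mem_filter, c2_mem] at hs
      obtain ⟨⟨h1, h2⟩, h3⟩ := hs
      apply hn
      rw [← h1]
      exact Multiset.single_le_sum (fun _ _ => Nat.zero_le _) _ (Multiset.mem_map_of_mem d h3)
  rw [h2]
  exact add_sub_cancel_left _ _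

open scoped Classical in
private lemma c2_prod (F : Finset Pr) :
    (∏ x ∈ F, (1 - PowerSeries.C (χ x) * PowerSeries.X ^ d x)) * c2L d χ hfin Set.univ =
      c2L d χ hfin ((F : Set Pr)ᶜ) := by
  induction F using Finset.induction_on with
  | empty => simp
  | insert x F hx ih =>
    rw [Finset.prod_insert hx, mul_assoc, ih, c2_step d χ hfin _ x (by simpa using hx)]
    congr 1
    ext y
    simp [and_comm, not_or]

open scoped Classical in
private lemma c2_far {N : ℕ} {F : Finset Pr} (hF : ∀ x, d x ≤ N → x ∈ F) :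
    PowerSeries.X ^ (N + 1) ∣ c2L d χ hfin ((F : Set Pr)ᶜ) - 1 := by
  rw [PowerSeries.X_pow_dvd_iff]
  intro m hm
  rw [map_sub, PowerSeries.coeff_one]
  simp only [c2L, PowerSeries.coeff_mk]
  have key : ∀ s : Multiset Pr, (s.map d).sum = m → (∀ x ∈ s, x ∈ ((F : Set Pr)ᶜ)) → s = 0 := by
    intro s h1 h2
    by_contra h3
    obtain ⟨x, hx⟩ := Multiset.exists_mem_of_ne_zero h3
    have h4 : d x ≤ m := by
      rw [← h1]
      exact Multiset.single_le_sum (fun _ _ => Nat.zero_le _) _ (Multiset.mem_map_of_mem d hx)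
    exact h2 x hx (by exact_mod_cast hF x (by omega))
  by_cases h0 : m = 0
  · subst h0
    have h1 : c2T d hfin ((F : Set Pr)ᶜ) 0 = {0} := by
      ext s
      rw [c2_mem, Finset.mem_singleton]
      constructor
      · rintro ⟨h1, h2⟩
        exact key s h1 h2
      · rintro rfl
        simp
    rw [h1]
    simp
  · have h1 : c2T d hfin ((F : Set Pr)ᶜ) m = ∅ := by
      rw [Finset.eq_empty_iff_forall_notMem]
      intro s hs
      rw [c2_mem] at hs
      have := key s hs.1 hs.2
      subst this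
      have h3 := hs.1
      simp at h3
      exact h0 h3.symm
    rw [h1]
    simp [h0]

end

/-- Geometric series in `X ^ m`. -/
private noncomputable def c2H (m : ℕ) : PowerSeries ℕ := PowerSeries.mk fun n => if m ∣ n then 1 else 0

private lemma c2_geom {m : ℕ} (hm : 0 < m) :
    (1 - PowerSeries.X ^ m) * PowerSeries.map (Nat.castRingHom ℂ) (c2H m) = 1 := by
  ext n
  rw [sub_mul, one_mul, map_sub, PowerSeries.coeff_X_pow_mul', PowerSeries.coeff_one]
  simp only [c2H, PowerSeries.coeff_map, PowerSeries.coeff_mk]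
  by_cases h0 : n = 0
  · subst h0
    simp [hm.ne']
  · rw [if_neg h0]
    by_cases h1 : m ≤ n
    · rw [if_pos h1]
      have h2 : m ∣ n - m ↔ m ∣ n := (Nat.dvd_sub_iff_left h1 dvd_rfl)
      simp [h2]
    · have h3 : ¬ m ∣ n := fun h => h1 (Nat.le_of_dvd (Nat.pos_of_ne_zero h0) h)
      simp [h1, h3]

private lemma c2_coeff_mul {f g : PowerSeries ℕ} {n : ℕ} (hf : 1 ≤ PowerSeries.coeff n f)
    (hg : 1 ≤ PowerSeries.coeff 0 g) : 1 ≤ PowerSeries.coeff n (f * g) := by
  rw [PowerSeries.coeff_mul]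
  calc 1 ≤ PowerSeries.coeff n f * PowerSeries.coeff 0 g := Nat.mul_le_mul hf hg
    _ ≤ _ := Finset.single_le_sum (f := fun p : ℕ × ℕ => PowerSeries.coeff p.1 f *
        PowerSeries.coeff p.2 g) (fun _ _ => Nat.zero_le _) (a := (n, 0)) (by simp)

private lemma c2_vanish_mul {f g : PowerSeries ℂ} {a b : ℕ}
    (hf : ∀ n, a < n → PowerSeries.coeff n f = 0) (hg : ∀ n, b < n → PowerSeries.coeff n g = 0) :
    ∀ n, a + b < n → PowerSeries.coeff n (f * g) = 0 := by
  intro n hn
  rw [PowerSeries.coeff_mul]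
  refine Finset.sum_eq_zero fun p hp => ?_
  have := Finset.HasAntidiagonal.mem_antidiagonal.mp hp
  rcases lt_or_ge a p.1 with h | h
  · rw [hf _ h, zero_mul]
  · rw [hg p.2 (by omega), mul_zero]

private lemma c2_dvd_mul {f g z : PowerSeries ℂ} (hf : z ∣ f - 1) (hg : z ∣ g - 1) :
    z ∣ f * g - 1 := by
  have : f * g - 1 = (f - 1) * g + (g - 1) := by ring
  rw [this]
  exact dvd_add (hf.mul_right g) hg

private lemma c2_rescale (ζ c : ℂ) (j m : ℕ) :
    PowerSeries.rescale (ζ ^ j) (1 - PowerSeries.C c * PowerSeries.X ^ m) =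
      1 - PowerSeries.C ((ζ ^ m) ^ j) * (PowerSeries.C c * PowerSeries.X ^ m) := by
  ext n
  rw [PowerSeries.coeff_rescale, map_sub, map_sub, PowerSeries.coeff_C_mul, PowerSeries.coeff_C_mul,
    PowerSeries.coeff_C_mul, PowerSeries.coeff_X_pow, PowerSeries.coeff_one]
  have h1 : ((ζ ^ m) ^ j) = (ζ ^ j) ^ m := by rw [← pow_mul, ← pow_mul, mul_comm]
  rw [h1]
  by_cases h : n = m
  · subst h
    by_cases h0 : n = 0
    · subst h0; simp
    · simp [h0]
  · by_cases h0 : n = 0
    · subst h0; simp [h]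
    · simp [h0, h]

theorem thm_C2 : St_C2 := by
  classical
  intro ℓ hℓ Pr hne d hd hf ψ hψ n0 hcon
  have hℓp : ℓ.Prime := hℓ.out
  have hfin := c2_finite hd hf
  set ζ : ℂ := Complex.exp (2 * Real.pi * Complex.I / ℓ) with hζd
  have hζ : IsPrimitiveRoot ζ ℓ := Complex.isPrimitiveRoot_exp ℓ hℓp.ne_zero
  -- the character
  let κ : Multiplicative (ZMod ℓ) →* ℂ :=
    { toFun := fun a => ζ ^ (Multiplicative.toAdd a).val
      map_one' := by simp
      map_mul' := fun a b => by
        rw [toAdd_mul, ZMod.val_add, ← pow_add]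
        exact (pow_eq_pow_mod _ hζ.pow_eq_one).symm }
  have hκ : ∀ a : ZMod ℓ, κ (Multiplicative.ofAdd a) = ζ ^ a.val := fun a => rfl
  set χ : Pr → ℂ := fun x => ζ ^ (ψ x).val with hχ
  have hχs : ∀ s : Multiset Pr, (s.map χ).prod = ζ ^ ((s.map ψ).sum).val := by
    intro s
    rw [← hκ]
    induction s using Multiset.induction_on with
    | empty => simp
    | cons x s ih =>
      rw [Multiset.map_cons, Multiset.prod_cons, ih, Multiset.map_cons, Multiset.sum_cons,
        ofAdd_add, map_mul]
      rfl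
  have hχℓ : ∀ x, χ x ^ ℓ = 1 := fun x => by
    rw [hχ]
    simp only
    rw [← pow_mul, mul_comm, pow_mul, hζ.pow_eq_one, one_pow]
  set L := c2L d χ hfin Set.univ with hL
  -- the coefficients vanish
  have hvan : ∀ n, n0 < n → PowerSeries.coeff n L = 0 := by
    intro n hn
    simp only [hL, c2L, PowerSeries.coeff_mk]
    rw [← Finset.sum_fiberwise (c2T d hfin Set.univ n) (fun s => (s.map ψ).sum)]
    have h1 : ∀ a : ZMod ℓ, ∑ s ∈ (c2T d hfin Set.univ n).filter (fun s => (s.map ψ).sum = a),
        (s.map χ).prod = (Nat.card {s : Multiset Pr // (s.map d).sum = n ∧ (s.map ψ).sum = 0} : ℂ) *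
          ζ ^ a.val := by
      intro a
      have h2 : ∀ s ∈ (c2T d hfin Set.univ n).filter (fun s => (s.map ψ).sum = a),
          (s.map χ).prod = ζ ^ a.val := by
        intro s hs
        rw [hχs, (Finset.mem_filter.mp hs).2]
      rw [Finset.sum_congr rfl h2, Finset.sum_const, nsmul_eq_mul]
      congr 2
      rw [← hcon n (by omega) a 0]
      have h3 : Nat.card {s : Multiset Pr // (s.map d).sum = n ∧ (s.map ψ).sum = a} =
          Nat.card ((c2T d hfin Set.univ n).filter (fun s => (s.map ψ).sum = a)) := by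
        refine Nat.card_congr (Equiv.subtypeEquivRight fun s => ?_)
        rw [Finset.mem_filter, c2_mem]
        simp
      rw [h3, Nat.card_eq_fintype_card, Fintype.card_coe]
    rw [Finset.sum_congr rfl fun a _ => h1 a, ← Finset.mul_sum]
    have h4 : ∑ a : ZMod ℓ, ζ ^ a.val = 0 := by
      have h5 : ∑ a : ZMod ℓ, ζ ^ a.val = ∑ i ∈ Finset.range ℓ, ζ ^ i := by
        refine Finset.sum_bij (i := fun a _ => a.val) ?_ ?_ ?_ ?_
        · intro a _
          exact Finset.mem_range.mpr (ZMod.val_lt a)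
        · intro a _ b _ h
          exact ZMod.val_injective ℓ h
        · intro i hi
          exact ⟨(i : ZMod ℓ), Finset.mem_univ _, ZMod.val_cast_of_lt (Finset.mem_range.mp hi)⟩
        · intro a _
          rfl
      rw [h5]
      exact hζ.geom_sum_eq_zero hℓp.one_lt
    rw [h4, mul_zero]
  obtain ⟨x0⟩ := hne
  set N := ℓ * d x0 * (n0 + 1) with hN
  have hdx0 := hd x0
  have hNbig : ℓ * n0 < N := by
    rw [hN]
    have : ℓ * n0 < ℓ * (n0 + 1) := Nat.mul_lt_mul_of_pos_left (by omega) hℓp.pos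
    calc ℓ * n0 < ℓ * (n0 + 1) := this
      _ ≤ ℓ * (n0 + 1) * d x0 := Nat.le_mul_of_pos_right _ hdx0
      _ = _ := by ring
  have hFfin : {x | d x ≤ N}.Finite := by
    have : {x | d x ≤ N} = ⋃ m ∈ Finset.range (N + 1), {x | d x = m} := by
      ext x
      simp
    rw [this]
    exact Set.Finite.biUnion (Finset.finite_toSet _) fun m _ => hf m
  set F := hFfin.toFinset with hF
  have hFm : ∀ x, d x ≤ N → x ∈ F := fun x hx => hFfin.mem_toFinset.mpr hx
  have hprod := c2_prod d χ hfin F
  have hfar := c2_far d χ hfin hFm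
  rw [← hprod, ← hL] at hfar
  set P : PowerSeries ℂ := ∏ x ∈ F, (1 - PowerSeries.C (χ x) * PowerSeries.X ^ d x) with hP
  -- rescaling
  have hresc : ∀ μ : ℂ, PowerSeries.X ^ (N + 1) ∣
      PowerSeries.rescale μ P * PowerSeries.rescale μ L - 1 := by
    intro μ
    rw [← map_mul, ← map_one (PowerSeries.rescale μ), ← map_sub, PowerSeries.X_pow_dvd_iff]
    intro m hm
    rw [PowerSeries.coeff_rescale, (PowerSeries.X_pow_dvd_iff.mp hfar) m hm, mul_zero]
  set D : PowerSeries ℂ := ∏ j ∈ Finset.range ℓ, PowerSeries.rescale (ζ ^ j) L with hD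
  have hDvan : ∀ n, ℓ * n0 < n → PowerSeries.coeff n D = 0 := by
    have h1 : ∀ k : ℕ, ∀ n, k * n0 < n → PowerSeries.coeff n
        (∏ j ∈ Finset.range k, PowerSeries.rescale (ζ ^ j) L) = 0 := by
      intro k
      induction k with
      | zero =>
        intro n hn
        simp only [Finset.range_zero, Finset.prod_empty, PowerSeries.coeff_one]
        rw [if_neg (by omega)]
      | succ k ih =>
        rw [Finset.prod_range_succ, add_mul, one_mul]
        refine c2_vanish_mul ih fun n hn => ?_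
        rw [PowerSeries.coeff_rescale, hvan n hn, mul_zero]
    exact h1 ℓ
  set Pi : PowerSeries ℂ := ∏ j ∈ Finset.range ℓ, PowerSeries.rescale (ζ ^ j) P with hPi
  have hPD : PowerSeries.X ^ (N + 1) ∣ Pi * D - 1 := by
    rw [hPi, hD, ← Finset.prod_mul_distrib]
    have h1 : ∀ k : ℕ, PowerSeries.X ^ (N + 1) ∣ (∏ j ∈ Finset.range k,
        (PowerSeries.rescale (ζ ^ j) P * PowerSeries.rescale (ζ ^ j) L)) - 1 := by
      intro k
      induction k with
      | zero => simp
      | succ k ih =>
        rw [Finset.prod_range_succ]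
        exact c2_dvd_mul ih (hresc _)
    exact h1 ℓ
  -- the explicit inverse
  set kk : Pr → PowerSeries ℕ := fun x => if ℓ ∣ d x then c2H (d x) ^ ℓ else c2H (ℓ * d x) with hkk
  set G : PowerSeries ℕ := ∏ x ∈ F, kk x with hG
  have hPiG : Pi * PowerSeries.map (Nat.castRingHom ℂ) G = 1 := by
    have h1 : Pi = ∏ x ∈ F, ∏ j ∈ Finset.range ℓ,
        (1 - PowerSeries.C ((ζ ^ d x) ^ j) * (PowerSeries.C (χ x) * PowerSeries.X ^ d x)) := by
      rw [hPi, hP]
      simp only [map_prod]
      rw [Finset.prod_comm]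
      refine Finset.prod_congr rfl fun x _ => Finset.prod_congr rfl fun j _ => ?_
      exact c2_rescale _ _ _ _
    rw [h1, hG, map_prod, ← Finset.prod_mul_distrib]
    refine Finset.prod_eq_one fun x _ => ?_
    by_cases hx : ℓ ∣ d x
    · have h2 : ζ ^ d x = 1 := (hζ.pow_eq_one_iff_dvd _).mpr hx
      have h3 : χ x = 1 := by
        rw [hχ]
        simp only
        rw [hψ x hx]
        simp
      simp only [hkk, if_pos hx, h2, h3, one_pow, map_one, one_mul, Finset.prod_const,
        Finset.card_range, map_pow]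
      rw [← mul_pow, c2_geom (hd x), one_pow]
    · have h2 : IsPrimitiveRoot (ζ ^ d x) ℓ :=
        hζ.pow_of_coprime _ ((Nat.Prime.coprime_iff_not_dvd hℓp).mpr hx).symm
      rw [c2_prod_roots hℓp.pos h2, one_pow, mul_pow, ← map_pow, hχℓ, map_one, one_mul, ← pow_mul,
        mul_comm (d x) ℓ]
      simp only [hkk, if_neg hx]
      exact c2_geom (Nat.mul_pos hℓp.pos (hd x))
  have hdiff : PowerSeries.X ^ (N + 1) ∣ D - PowerSeries.map (Nat.castRingHom ℂ) G := by
    have h1 : D - PowerSeries.map (Nat.castRingHom ℂ) G =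
        PowerSeries.map (Nat.castRingHom ℂ) G * (Pi * D - 1) := by
      have h2 : PowerSeries.map (Nat.castRingHom ℂ) G * (Pi * D - 1) =
          (Pi * PowerSeries.map (Nat.castRingHom ℂ) G) * D -
            PowerSeries.map (Nat.castRingHom ℂ) G := by ring
      rw [h2, hPiG, one_mul]
    rw [h1]
    exact hPD.mul_left _
  have hcoef := (PowerSeries.X_pow_dvd_iff.mp hdiff) N (Nat.lt_succ_self N)
  rw [map_sub, hDvan N hNbig, zero_sub, neg_eq_zero, PowerSeries.coeff_map] at hcoef
  have hGN : PowerSeries.coeff N G = 0 := by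
    have : ((PowerSeries.coeff N G : ℕ) : ℂ) = 0 := hcoef
    exact_mod_cast this
  -- the coefficient is positive
  have hH0 : ∀ m, PowerSeries.coeff 0 (c2H m) = 1 := fun m => by simp [c2H]
  have hk0 : ∀ x, 1 ≤ PowerSeries.coeff 0 (kk x) := by
    intro x
    simp only [hkk]
    split_ifs
    · have : PowerSeries.coeff 0 (c2H (d x) ^ ℓ) = 1 := by
        rw [PowerSeries.coeff_zero_eq_constantCoeff, map_pow,
          ← PowerSeries.coeff_zero_eq_constantCoeff, hH0, one_pow]
      rw [this]
    · rw [hH0]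
  have hx0F : x0 ∈ F := hFm x0 (by
    rw [hN]
    calc d x0 = 1 * d x0 * 1 := by ring
      _ ≤ ℓ * d x0 * (n0 + 1) :=
        Nat.mul_le_mul (Nat.mul_le_mul hℓp.one_lt.le le_rfl) (by omega))
  have hkN : 1 ≤ PowerSeries.coeff N (kk x0) := by
    simp only [hkk]
    split_ifs with h
    · obtain ⟨k, hk⟩ : ∃ k, ℓ = k + 1 := ⟨ℓ - 1, by have := hℓp.pos; omega⟩
      rw [hk, pow_succ, mul_comm]
      refine c2_coeff_mul ?_ ?_
      · have : d x0 ∣ N := by rw [hN]; exact ⟨ℓ * (n0 + 1), by ring⟩
        simp [c2H, this]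
      · have : PowerSeries.coeff 0 (c2H (d x0) ^ k) = 1 := by
          rw [PowerSeries.coeff_zero_eq_constantCoeff, map_pow,
            ← PowerSeries.coeff_zero_eq_constantCoeff, hH0, one_pow]
        rw [this]
    · have : ℓ * d x0 ∣ N := by rw [hN]; exact ⟨n0 + 1, by ring⟩
      simp [c2H, this]
  have hG1 : 1 ≤ PowerSeries.coeff N G := by
    rw [hG, ← Finset.mul_prod_erase F kk hx0F]
    refine c2_coeff_mul hkN ?_
    have : ∀ A : Finset Pr, 1 ≤ PowerSeries.coeff 0 (∏ x ∈ A, kk x) := by
      intro A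
      rw [PowerSeries.coeff_zero_eq_constantCoeff, map_prod]
      refine Finset.one_le_prod' fun x _ => ?_
      rw [← PowerSeries.coeff_zero_eq_constantCoeff]
      exact hk0 x
    exact this _
  omega

end Pool.Agent.AQS
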