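import Pool.Agent.AQS.C3

/-!
# AQS, module C4

Statement and proof: see `St_C4` in `Pool/Agent/AQS/St2.lean`.
-/

set_option autoImplicit false
set_option linter.unusedSectionVars false

namespace Pool.Agent.AQS

open Function Pool.Agent.Helper11 Pool.Agent.HPow Pool.Agent.Helper67.Bass

/-! ### a character -/

theorem C4_dual0 (F : Type) [Field F] {V : Type} [AddCommGroup V] [Module F V]
    (v : V) (hv : v ≠ 0) : ∃ f : V →+ F, Surjective f := by
  obtain ⟨f, hf⟩ : ∃ f : V →ₗ[F] F, f v ≠ 0 := by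
    by_contra h1
    push Not at h1
    exact hv ((Module.forall_dual_apply_eq_zero_iff F v).1 h1)
  refine ⟨f.toAddMonoidHom, fun y => ⟨(y * (f v)⁻¹) • v, ?_⟩⟩
  show f ((y * (f v)⁻¹) • v) = y
  rw [map_smul, smul_eq_mul, mul_assoc, inv_mul_cancel₀ hf, mul_one]

theorem C4_dual (ℓ : ℕ) [Fact ℓ.Prime] {V : Type} [AddCommGroup V] (h : ∀ x : V, ℓ • x = 0)
    (v : V) (hv : v ≠ 0) : ∃ f : V →+ ZMod ℓ, Surjective f := by
  let _ : Module (ZMod ℓ) V := AddCommGroup.zmodModule h
  exact C4_dual0 (ZMod ℓ) v hv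

theorem C4_char (ℓ : ℕ) [Fact ℓ.Prime] {C : Type} [CommGroup C] (H : Subgroup C) (hH : H ≠ ⊤)
    (hℓ : ∀ c : C, c ^ ℓ ∈ H) : ∃ ψ : C →* Multiplicative (ZMod ℓ), Surjective ψ ∧ H ≤ ψ.ker := by
  obtain ⟨c, hc⟩ : ∃ c : C, c ∉ H := by
    by_contra h
    push Not at h
    exact hH ((Subgroup.eq_top_iff' H).2 h)
  obtain ⟨f, hf⟩ := C4_dual ℓ (V := Additive (C ⧸ H)) (by
    intro x
    obtain ⟨c, hc⟩ := QuotientGroup.mk_surjective (Additive.toMul x)
    have h1 : (Additive.toMul x) ^ ℓ = 1 := by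
      rw [← hc, ← QuotientGroup.mk_pow, QuotientGroup.eq_one_iff]
      exact hℓ c
    exact congrArg Additive.ofMul h1) (Additive.ofMul (QuotientGroup.mk c)) (by
    intro h
    have h1 : (QuotientGroup.mk c : C ⧸ H) = 1 := congrArg Additive.toMul h
    exact hc ((QuotientGroup.eq_one_iff c).1 h1))
  refine ⟨(AddMonoidHom.toMultiplicativeRight f).comp (QuotientGroup.mk' H), ?_, ?_⟩
  · intro y
    obtain ⟨x, hx⟩ := hf (Multiplicative.toAdd y)
    obtain ⟨d, hd⟩ := QuotientGroup.mk_surjective (Additive.toMul x)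
    refine ⟨d, ?_⟩
    show Multiplicative.ofAdd (f (Additive.ofMul (QuotientGroup.mk d : C ⧸ H))) = y
    rw [hd, ofMul_toMul, hx, ofAdd_toAdd]
  · intro d hd
    rw [MonoidHom.mem_ker]
    show Multiplicative.ofAdd (f (Additive.ofMul (QuotientGroup.mk d : C ⧸ H))) = 1
    rw [(QuotientGroup.eq_one_iff d).2 hd, ofMul_one, map_zero, ofAdd_zero]

/-- homomorphisms out of the class group -/
theorem C4_lift {A : Type} [CommRing A] [IsDedekindDomain A] {G : Type 1} [AddCommGroup G]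
    (f : nonZeroDivisors (Ideal A) → G) (f1 : f 1 = 0) (fm : ∀ I J, f (I * J) = f I + f J)
    (h : ∀ I : nonZeroDivisors (Ideal A), ∀ a : A, a ≠ 0 → (I : Ideal A) = Ideal.span {a} → f I = 0) :
    ∃ θ : ClassGroup A →* Multiplicative G, ∀ I, θ (ClassGroup.mk0 I) = Multiplicative.ofAdd (f I) := by
  have h1 : ∀ I J : nonZeroDivisors (Ideal A), ClassGroup.mk0 I = ClassGroup.mk0 J → f I = f J := by
    intro I J hIJ
    obtain ⟨x, y, hx, hy, hxy⟩ := ClassGroup.mk0_eq_mk0_iff.1 hIJ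
    have hs : ∀ x : A, x ≠ 0 → Ideal.span {x} ∈ nonZeroDivisors (Ideal A) := fun x hx =>
      mem_nonZeroDivisors_of_ne_zero (by
        rw [Ne, Ideal.zero_eq_bot, Ideal.span_singleton_eq_bot]; exact hx)
    have h2 : (⟨Ideal.span {x}, hs x hx⟩ * I : nonZeroDivisors (Ideal A)) =
        ⟨Ideal.span {y}, hs y hy⟩ * J := Subtype.ext hxy
    have h3 := congrArg f h2
    have h4 : f ⟨Ideal.span {x}, hs x hx⟩ = 0 := h _ x hx rfl
    have h5 : f ⟨Ideal.span {y}, hs y hy⟩ = 0 := h _ y hy rfl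
    rwa [fm, fm, h4, h5, zero_add, zero_add] at h3
  let g : ClassGroup A → nonZeroDivisors (Ideal A) := surjInv ClassGroup.mk0_surjective
  have hg : ∀ c, ClassGroup.mk0 (g c) = c := surjInv_eq _
  refine ⟨⟨⟨fun c => Multiplicative.ofAdd (f (g c)), ?_⟩, ?_⟩, ?_⟩
  · rw [h1 (g 1) 1 (by rw [hg, map_one]), f1, ofAdd_zero]
  · intro c d
    show Multiplicative.ofAdd (f (g (c * d))) = Multiplicative.ofAdd (f (g c)) *
      Multiplicative.ofAdd (f (g d))
    rw [h1 (g (c * d)) (g c * g d) (by rw [hg, map_mul, hg, hg]), fm, ofAdd_add]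
  · intro I
    show Multiplicative.ofAdd (f (g (ClassGroup.mk0 I))) = _
    rw [h1 _ _ (hg _)]

/-! ### classes of quotients -/

section

variable {A : Type} [CommRing A] [IsDedekindDomain A]

noncomputable def C4_cls (I : Ideal A) : G0 A := G0.mk (FGMod.of A (A ⧸ I))

theorem C4_cls_mul (I J : Ideal A) (hI : I ≠ ⊥) (hJ : J ≠ ⊥) :
    C4_cls (I * J) = C4_cls I + C4_cls J := by
  obtain ⟨e⟩ := C3_quot I J hI hJ
  have hle : I * J ≤ I := Ideal.mul_le_left
  have h1 := G0.mk_add (FGMod.of A (A ⧸ J)) (FGMod.of A (A ⧸ (I * J))) (FGMod.of A (A ⧸ I))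
    ((Submodule.map (Submodule.mkQ (I * J)) I).subtype.comp (e : (A ⧸ J) →ₗ[A] _))
    (Submodule.factor hle) (by
      intro x y h
      exact e.injective (Subtype.ext h)) (Submodule.factor_surjective hle) (by
      intro x
      obtain ⟨a, rfl⟩ := Submodule.Quotient.mk_surjective _ x
      constructor
      · intro h
        have h2 : a ∈ I := by
          rw [← Submodule.Quotient.mk_eq_zero I]
          exact h
        obtain ⟨y, hy⟩ := e.surjective ⟨Submodule.mkQ (I * J) a, Submodule.mem_map_of_mem h2⟩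
        exact ⟨y, congrArg Subtype.val hy⟩
      · rintro ⟨y, hy⟩
        obtain ⟨i, hi, hi2⟩ := (e y).2
        have h2 : Submodule.mkQ (I * J) i = Submodule.Quotient.mk a := by rw [hi2]; exact hy
        rw [← h2]
        show (Submodule.Quotient.mk i : A ⧸ I) = 0
        rw [Submodule.Quotient.mk_eq_zero]
        exact hi)
  rw [C4_cls, C4_cls, C4_cls, h1, add_comm]

theorem C4_cls_span (a : A) (ha : a ≠ 0) : C4_cls (Ideal.span {a}) = 0 := by
  have h1 := G0.mk_add (FGMod.of A A) (FGMod.of A A) (FGMod.of A (A ⧸ Ideal.span {a}))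
    (LinearMap.mulLeft A a) (Submodule.mkQ (Ideal.span {a}))
    (fun x y h => mul_left_cancel₀ ha h) (Submodule.mkQ_surjective _) (by
      intro x
      constructor
      · intro h
        have h2 : x ∈ Ideal.span {a} := (Submodule.Quotient.mk_eq_zero _).1 h
        obtain ⟨t, rfl⟩ := Ideal.mem_span_singleton'.1 h2
        exact ⟨t, mul_comm a t⟩
      · rintro ⟨t, rfl⟩
        exact (Submodule.Quotient.mk_eq_zero _).2
          (Ideal.mul_mem_right t _ (Ideal.mem_span_singleton_self a)))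
  rw [C4_cls]
  exact left_eq_add.1 h1

/-- the homomorphism to a quotient of `G₀` -/
theorem C4_theta {G : Type 1} [AddCommGroup G] (π : G0 A →+ G) :
    ∃ θ : ClassGroup A →* Multiplicative G, ∀ I : nonZeroDivisors (Ideal A),
      θ (ClassGroup.mk0 I) = Multiplicative.ofAdd (π (C4_cls (I : Ideal A))) := by
  refine C4_lift (A := A) (G := G)
    (fun I : nonZeroDivisors (Ideal A) => π (C4_cls (I : Ideal A))) ?_ ?_ ?_
  · show π (C4_cls ((1 : nonZeroDivisors (Ideal A)) : Ideal A)) = 0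
    rw [Submonoid.coe_one, Ideal.one_eq_top, ← Ideal.span_singleton_one, C4_cls_span 1 one_ne_zero,
      map_zero]
  · intro I J
    show π (C4_cls ((I * J : nonZeroDivisors (Ideal A)) : Ideal A)) = _
    rw [Submonoid.coe_mul, C4_cls_mul _ _ (C3_nz I) (C3_nz J), map_add]
  · intro I a ha hI
    show π (C4_cls (I : Ideal A)) = 0
    rw [hI, C4_cls_span a ha, map_zero]

/-- points -/
theorem C4_pt (h5 : St_A5) (P : Ideal A) (E : Type) [Field E] [Finite E] (ε : A →+* E)
    (hP : RingHom.ker ε = P) : P.IsMaximal ∧ Finite (A ⧸ P) ∧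
      ∃ n : ℕ, Nat.card E = Nat.card (A ⧸ P) ^ n ∧ pt ε = n • C4_cls P := by
  subst hP
  exact h5.2.2 A E ε

end

/-! ### multisets of primes -/

section

variable {A : Type} [CommRing A] [IsDedekindDomain A]

/-- nonzero primes -/
abbrev C4_Pr (A : Type) [CommRing A] [IsDedekindDomain A] : Type :=
  {P : nonZeroDivisors (Ideal A) // (P : Ideal A).IsPrime}

theorem C4_prime (P : C4_Pr A) : Prime (P.1 : Ideal A) := Ideal.prime_of_isPrime (C3_nz P.1) P.2

noncomputable def C4_f (s : Multiset (C4_Pr A)) : nonZeroDivisors (Ideal A) :=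
  (s.map Subtype.val).prod

theorem C4_f_coe (s : Multiset (C4_Pr A)) :
    ((C4_f s : nonZeroDivisors (Ideal A)) : Ideal A) = (s.map fun P => (P.1 : Ideal A)).prod := by
  rw [C4_f, Submonoid.coe_multiset_prod, Multiset.map_map]
  rfl

theorem C4_f_bij : Bijective (C4_f (A := A)) := by
  constructor
  · intro s t h
    have h1 := congrArg Subtype.val h
    rw [C4_f_coe, C4_f_coe] at h1
    have h2 : ∀ s : Multiset (C4_Pr A), UniqueFactorizationMonoid.normalizedFactors
        (s.map fun P => (P.1 : Ideal A)).prod = s.map fun P => (P.1 : Ideal A) := by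
      intro s
      apply UniqueFactorizationMonoid.normalizedFactors_prod_of_prime
      intro p hp
      obtain ⟨P, -, rfl⟩ := Multiset.mem_map.1 hp
      exact C4_prime P
    have h3 := h2 s
    rw [h1, h2 t] at h3
    have hinj : Injective (fun P : C4_Pr A => (P.1 : Ideal A)) := fun P Q h =>
      Subtype.ext (Subtype.ext h)
    exact (Multiset.map_injective hinj h3).symm
  · intro I
    have hp : ∀ p ∈ UniqueFactorizationMonoid.normalizedFactors (I : Ideal A), Prime p :=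
      fun p hp => UniqueFactorizationMonoid.prime_of_normalized_factor p hp
    refine ⟨(UniqueFactorizationMonoid.normalizedFactors (I : Ideal A)).pmap
      (fun p hp => ⟨⟨p, mem_nonZeroDivisors_of_ne_zero (Prime.ne_zero hp)⟩,
        Ideal.isPrime_of_prime hp⟩) hp, ?_⟩
    apply Subtype.ext
    rw [C4_f_coe, Multiset.map_pmap]
    have h1 : Multiset.pmap (fun (p : Ideal A) (_ : Prime p) => p)
        (UniqueFactorizationMonoid.normalizedFactors (I : Ideal A)) hp =
        UniqueFactorizationMonoid.normalizedFactors (I : Ideal A) := by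
      rw [Multiset.pmap_eq_map, Multiset.map_id']
    show (Multiset.pmap (fun (p : Ideal A) (_ : Prime p) => p)
        (UniqueFactorizationMonoid.normalizedFactors (I : Ideal A)) hp).prod = _
    rw [h1]
    exact Ideal.prod_normalizedFactors_eq_self (C3_nz I)

variable {κ : Type} [Field κ] [Finite κ] [Algebra κ A] {w : A → ℕ}

theorem C4_deg (hw : WV κ A w) (s : Multiset (C4_Pr A)) :
    Nat.card (A ⧸ (C4_f s : Ideal A)) =
      Nat.card κ ^ (s.map fun P => Module.finrank κ (A ⧸ (P.1 : Ideal A))).sum := by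
  induction s using Multiset.induction with
  | empty =>
    have h1 : ((C4_f (0 : Multiset (C4_Pr A)) : nonZeroDivisors (Ideal A)) : Ideal A) = ⊤ := by
      rw [C4_f_coe, Multiset.map_zero, Multiset.prod_zero, Ideal.one_eq_top]
    rw [h1, Multiset.map_zero, Multiset.sum_zero, pow_zero]
    have : Subsingleton (A ⧸ (⊤ : Ideal A)) := Ideal.Quotient.subsingleton_iff.2 rfl
    exact Nat.card_unique
  | cons P s ih =>
    have h1 : ((C4_f (P ::ₘ s) : nonZeroDivisors (Ideal A)) : Ideal A) =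
        (P.1 : Ideal A) * (C4_f s : Ideal A) := by
      rw [C4_f_coe, C4_f_coe, Multiset.map_cons, Multiset.prod_cons]
    rw [h1, C3_card_mul _ _ (C3_nz _) (C3_nz _), ih, Multiset.map_cons, Multiset.sum_cons, pow_add,
      (C3_card hw (P.1 : Ideal A) (C3_nz _)).2]

theorem C4_psi (ℓ : ℕ) (ψ : ClassGroup A →* Multiplicative (ZMod ℓ)) (s : Multiset (C4_Pr A)) :
    ψ (ClassGroup.mk0 (C4_f s)) = Multiplicative.ofAdd
      (s.map fun P => Multiplicative.toAdd (ψ (ClassGroup.mk0 P.1))).sum := by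
  induction s using Multiset.induction with
  | empty =>
    rw [C4_f, Multiset.map_zero, Multiset.prod_zero, map_one, map_one, Multiset.map_zero,
      Multiset.sum_zero, ofAdd_zero]
  | cons P s ih =>
    rw [C4_f] at ih ⊢
    rw [Multiset.map_cons, Multiset.prod_cons, map_mul, map_mul, ih, Multiset.map_cons,
      Multiset.sum_cons, ofAdd_add, ofAdd_toAdd]

end

theorem C4_not_field {κ A : Type} [Field κ] [CommRing A] [IsDedekindDomain A] [Algebra κ A]
    {w : A → ℕ} (hw : WV κ A w) : ¬ IsField A := by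
  intro hf
  obtain ⟨n0, h0⟩ := hw.big
  obtain ⟨a, ha, haw⟩ := h0 (n0 + 1) (by omega)
  obtain ⟨b, hb⟩ := hf.mul_inv_cancel ha
  have hb0 : b ≠ 0 := by
    rintro rfl
    rw [mul_zero] at hb
    exact zero_ne_one hb
  have h1 := hw.mul a b ha hb0
  have h2 := hw.alg 1
  rw [map_one] at h2
  rw [hb, h2] at h1
  omega

/-- the main step -/
theorem C4_main (h2 : St_C2) (h3 : St_C3) {κ A : Type} [Field κ] [Finite κ] [CommRing A]
    [IsDedekindDomain A] [Algebra κ A] {w : A → ℕ} (hw : WV κ A w) (ℓ : ℕ) [Fact ℓ.Prime]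
    {G : Type 1} [AddCommGroup G] (π : G0 A →+ G)
    (hA : ∀ P : C4_Pr A, ℓ ∣ Module.finrank κ (A ⧸ (P.1 : Ideal A)) →
      π (C4_cls (P.1 : Ideal A)) = 0)
    (hB : ∀ P : C4_Pr A, ℓ • π (C4_cls (P.1 : Ideal A)) = 0) (I : nonZeroDivisors (Ideal A)) :
    π (C4_cls (I : Ideal A)) = 0 := by
  obtain ⟨h3a, h3b, h3c⟩ := h3 κ A w hw
  obtain ⟨θ, hθ⟩ := C4_theta π
  have hθ1 : ∀ c : ClassGroup A, c ^ ℓ ∈ θ.ker := by
    have key : ∀ s : Multiset (C4_Pr A), (ClassGroup.mk0 (C4_f s)) ^ ℓ ∈ θ.ker := by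
      intro s
      induction s using Multiset.induction with
      | empty =>
        rw [C4_f, Multiset.map_zero, Multiset.prod_zero, map_one, one_pow]
        exact one_mem _
      | cons P s ih =>
        rw [C4_f] at ih ⊢
        rw [Multiset.map_cons, Multiset.prod_cons, map_mul, mul_pow]
        refine mul_mem ?_ ih
        rw [MonoidHom.mem_ker, map_pow, hθ, ← ofAdd_nsmul, hB P, ofAdd_zero]
    intro c
    obtain ⟨I, rfl⟩ := ClassGroup.mk0_surjective c
    obtain ⟨s, rfl⟩ := C4_f_bij.2 I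
    exact key s
  have hθ2 : θ.ker = ⊤ := by
    by_contra hne
    obtain ⟨ψ, hψ, hψ2⟩ := C4_char ℓ θ.ker hne hθ1
    obtain ⟨n0, hn0⟩ := h3c ℓ ψ hψ
    have hPr : Nonempty (C4_Pr A) := by
      obtain ⟨P, hP, hP2⟩ := Ring.not_isField_iff_exists_prime.1 (C4_not_field hw)
      exact ⟨⟨⟨P, mem_nonZeroDivisors_of_ne_zero hP⟩, hP2⟩⟩
    refine h2 ℓ (C4_Pr A) (fun P => Module.finrank κ (A ⧸ (P.1 : Ideal A))) ?_ ?_
      (fun P => Multiplicative.toAdd (ψ (ClassGroup.mk0 P.1))) ?_ n0 ?_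
    · intro P
      have h1 := (C3_card hw _ (C3_nz P.1)).1
      have h4 : Nontrivial (A ⧸ (P.1 : Ideal A)) :=
        Ideal.Quotient.nontrivial_iff.2 P.2.ne_top
      exact Module.finrank_pos
    · intro n
      have h1 := h3b (Nat.card κ ^ n)
      refine Set.Finite.of_finite_image (f := fun P : C4_Pr A => (P.1 : Ideal A))
        (h1.subset ?_) ?_
      · rintro _ ⟨P, hP, rfl⟩
        refine ⟨C3_nz P.1, ?_⟩
        show Nat.card (A ⧸ (P.1 : Ideal A)) = Nat.card κ ^ n
        have hP' : Module.finrank κ (A ⧸ (P.1 : Ideal A)) = n := hP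
        rw [(C3_card hw _ (C3_nz P.1)).2, hP']
      · intro P _ Q _ h
        exact Subtype.ext (Subtype.ext h)
    · intro P hP
      have h1 : ClassGroup.mk0 P.1 ∈ θ.ker := by
        rw [MonoidHom.mem_ker, hθ, hA P hP, ofAdd_zero]
      have h4 := MonoidHom.mem_ker.1 (hψ2 h1)
      show Multiplicative.toAdd (ψ (ClassGroup.mk0 P.1)) = 0
      rw [h4, toAdd_one]
    · intro n hn a b
      have hE : ∀ a : ZMod ℓ, Nat.card {s : Multiset (C4_Pr A) //
          (s.map fun P => Module.finrank κ (A ⧸ (P.1 : Ideal A))).sum = n ∧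
          (s.map fun P => Multiplicative.toAdd (ψ (ClassGroup.mk0 P.1))).sum = a} =
          Nat.card {I : nonZeroDivisors (Ideal A) // Nat.card (A ⧸ (I : Ideal A)) = Nat.card κ ^ n ∧
            ψ (ClassGroup.mk0 I) = Multiplicative.ofAdd a} := by
        intro a
        apply Nat.card_congr
        refine (Equiv.ofBijective _ (C4_f_bij (A := A))).subtypeEquiv fun s => ?_
        rw [Equiv.ofBijective_apply, C4_deg hw, C4_psi]
        refine and_congr ⟨fun h => by rw [h], fun h => C3_pow_inj (κ := κ) h⟩ ?_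
        exact ⟨fun h => by rw [h], fun h => Multiplicative.ofAdd.injective h⟩
      exact (hE a).trans ((hn0 n hn a b).trans (hE b).symm)
  have h1 : ClassGroup.mk0 I ∈ θ.ker := by rw [hθ2]; trivial
  rw [MonoidHom.mem_ker, hθ] at h1
  exact Multiplicative.ofAdd.injective h1

theorem thm_C4 (h2 : St_C2) (h3 : St_C3) (h5 : St_A5) : St_C4 := by
  intro κ A _ _ _ _ _ w hw ℓ _ E _ _ ε
  obtain ⟨h3a, -, -⟩ := h3 κ A w hw
  have hℓ : ℓ.Prime := Fact.out
  have hmem : ∀ (E : Type) [Field E] [Finite E] (ε : A →+* E) (d : ℕ),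
      Nat.card E = Nat.card κ ^ d → ℓ ∣ d → pt ε ∈ ptS A (Nat.card κ) ℓ :=
    fun E _ _ ε d h h' => AddSubgroup.subset_closure ⟨E, _, _, ε, d, h, h', rfl⟩
  have hker : ∀ P : Ideal A, RingHom.ker (Ideal.Quotient.mk P) = P := fun P => Ideal.mk_ker
  -- primes of degree divisible by ℓ
  have hA : ∀ P : C4_Pr A, ℓ ∣ Module.finrank κ (A ⧸ (P.1 : Ideal A)) →
      C4_cls (P.1 : Ideal A) ∈ ptS A (Nat.card κ) ℓ := by
    intro P hP
    have hPm : (P.1 : Ideal A).IsMaximal := P.2.isMaximal (C3_nz P.1)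
    have hfin := h3a _ (C3_nz P.1)
    let _ : Field (A ⧸ (P.1 : Ideal A)) := Ideal.Quotient.field _
    obtain ⟨-, -, n, hn, hn2⟩ := C4_pt h5 (P.1 : Ideal A) (A ⧸ (P.1 : Ideal A))
      (Ideal.Quotient.mk (P.1 : Ideal A)) (hker _)
    have hn1 : n = 1 := by
      have h1 : 1 < Nat.card (A ⧸ (P.1 : Ideal A)) := Finite.one_lt_card
      have h4 : Nat.card (A ⧸ (P.1 : Ideal A)) ^ 1 = Nat.card (A ⧸ (P.1 : Ideal A)) ^ n := by
        rw [pow_one]; exact hn
      exact (Nat.pow_right_injective h1 h4).symm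
    rw [hn1, one_smul] at hn2
    rw [← hn2]
    exact hmem _ _ _ (C3_card hw _ (C3_nz P.1)).2 hP
  -- all primes
  have hB : ∀ P : C4_Pr A, ℓ • C4_cls (P.1 : Ideal A) ∈ ptS A (Nat.card κ) ℓ := by
    intro P
    have hPm : (P.1 : Ideal A).IsMaximal := P.2.isMaximal (C3_nz P.1)
    have hfin := h3a _ (C3_nz P.1)
    let _ : Field (A ⧸ (P.1 : Ideal A)) := Ideal.Quotient.field _
    obtain ⟨p, hp⟩ := CharP.exists (A ⧸ (P.1 : Ideal A))
    have hpp : Fact p.Prime := ⟨CharP.char_is_prime (A ⧸ (P.1 : Ideal A)) p⟩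
    have : NeZero ℓ := ⟨hℓ.ne_zero⟩
    let E' := FiniteField.Extension (A ⧸ (P.1 : Ideal A)) p ℓ
    obtain ⟨-, -, n, hn, hn2⟩ := C4_pt h5 (P.1 : Ideal A) E'
      ((algebraMap (A ⧸ (P.1 : Ideal A)) E').comp (Ideal.Quotient.mk (P.1 : Ideal A))) (by
        rw [RingHom.ker_comp_of_injective _ (algebraMap (A ⧸ (P.1 : Ideal A)) E').injective, hker])
    have h1 : Nat.card E' = Nat.card (A ⧸ (P.1 : Ideal A)) ^ ℓ :=
      FiniteField.natCard_extension (A ⧸ (P.1 : Ideal A)) p ℓ
    have hn1 : n = ℓ := by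
      have h4 : 1 < Nat.card (A ⧸ (P.1 : Ideal A)) := Finite.one_lt_card
      exact Nat.pow_right_injective h4 (hn.symm.trans h1)
    rw [hn1] at hn2
    rw [← hn2]
    refine hmem E' _ (Module.finrank κ (A ⧸ (P.1 : Ideal A)) * ℓ) ?_ (dvd_mul_left _ _)
    rw [h1, (C3_card hw _ (C3_nz P.1)).2, pow_mul]
  -- conclusion
  have hε := C4_pt h5 (RingHom.ker ε) E ε rfl
  obtain ⟨hmax, -, n, -, hn⟩ := hε
  have hk0 : RingHom.ker ε ≠ ⊥ := Ring.ne_bot_of_isMaximal_of_not_isField hmax (C4_not_field hw)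
  rw [hn]
  apply AddSubgroup.nsmul_mem
  have h1 := C4_main h2 h3 hw ℓ (QuotientAddGroup.mk' (ptS A (Nat.card κ) ℓ))
    (fun P hP => (QuotientAddGroup.eq_zero_iff _).2 (hA P hP))
    (fun P => by
      rw [← map_nsmul]
      exact (QuotientAddGroup.eq_zero_iff _).2 (hB P))
    ⟨RingHom.ker ε, mem_nonZeroDivisors_of_ne_zero hk0⟩
  exact (QuotientAddGroup.eq_zero_iff _).1 h1

end Pool.Agent.AQS
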