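import Pool.Agent.AQS.St2

/-!
# AQS, module C5

Statement and proof: see `St_C5` in `Pool/Agent/AQS/St2.lean`.
-/

set_option autoImplicit false
set_option linter.unusedSectionVars false

namespace Pool.Agent.AQS

open Function Pool.Agent.Helper11 Pool.Agent.HPow Pool.Agent.Helper67.Bass

open Polynomial in
/-- polynomials over a finite ring are finite over the polynomials over any subring -/
theorem C5_mapRingHom_finite {κ K : Type} [CommRing κ] [CommRing K] [Finite K] (j : κ →+* K) :
    (mapRingHom j).Finite := by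
  letI := (mapRingHom j).toAlgebra
  change Module.Finite κ[X] K[X]
  refine ⟨⟨(Set.finite_range (C : K → K[X])).toFinset, ?_⟩⟩
  rw [Set.Finite.coe_toFinset, eq_top_iff]
  intro f _
  induction f using Polynomial.induction_on' with
  | add f g hf hg => exact Submodule.add_mem _ (hf trivial) (hg trivial)
  | monomial n a =>
    have h1 : (monomial n a : K[X]) = (X ^ n : κ[X]) • (C a : K[X]) := by
      rw [Algebra.smul_def]
      change _ = (mapRingHom j) (X ^ n) * C a
      rw [map_pow, coe_mapRingHom, map_X, ← C_mul_X_pow_eq_monomial, mul_comm]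
    rw [h1]
    exact Submodule.smul_mem _ _ (Submodule.subset_span ⟨a, rfl⟩)

/-- the homomorphism from the base ring is finite -/
theorem C5_o_finite (p : ℕ) (hp : 2 ≤ p) {W : Type} [CommRing W] (h : W) :
    (AP.o h : W →+* AP p W h).Finite := by
  have := (AP.monic p hp h).finite_adjoinRoot
  exact RingHom.finite_algebraMap.mpr this

open Polynomial in
/-- base change to a finite extension is finite -/
theorem C5_map_finite (p : ℕ) (hp : 2 ≤ p) {κ K : Type} [CommRing κ] [CommRing K] [Finite K]
    (j : κ →+* K) (P : κ[X]) : (AP.map (p := p) (mapRingHom j) P).Finite := by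
  refine RingHom.Finite.of_comp_finite (f := AP.o P) ?_
  have h1 : (AP.map (p := p) (mapRingHom j) P).comp (AP.o P) =
      (AP.o (mapRingHom j P)).comp (mapRingHom j) := by
    ext w
    · simp only [RingHom.comp_apply, AP.map, AP.lift_o]
    · simp only [RingHom.comp_apply, AP.map, AP.lift_o]
  rw [h1]
  exact (C5_o_finite p hp _).comp (C5_mapRingHom_finite j)

/-- restriction maps points to points -/
theorem C5_res_ptS (h5 : St_A5) {R S : Type} [CommRing R] [CommRing S] (φ : R →+* S)
    (h : φ.Finite) (q ℓ N : ℕ) {x : G0 S} (hx : x ∈ ptS S (q ^ ℓ) N) :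
    resH φ h x ∈ ptS R q (ℓ * N) := by
  unfold ptS at hx
  induction hx using AddSubgroup.closure_induction with
  | mem x hx =>
    obtain ⟨E, _, _, ε, d, h1, h2, rfl⟩ := hx
    rw [h5.1 R S E φ h ε]
    refine AddSubgroup.subset_closure ⟨E, inferInstance, inferInstance, ε.comp φ, ℓ * d, ?_, ?_,
      rfl⟩
    · rw [h1, pow_mul]
    · exact Nat.mul_dvd_mul_left ℓ h2
  | zero => rw [map_zero]; exact AddSubgroup.zero_mem _
  | add x y _ _ hx hy => rw [map_add]; exact AddSubgroup.add_mem _ hx hy
  | neg x _ hx => rw [map_neg]; exact AddSubgroup.neg_mem _ hx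

open Polynomial in
theorem C5_main (h1 : St_C1) (h4 : St_C4) (h5 : St_A5) (p : ℕ) [Fact p.Prime] (N : ℕ) :
    1 ≤ N → ∀ (κ : Type) [Field κ] [Finite κ] [CharP κ p] (P : κ[X]),
      ¬ p ∣ P.natDegree → ∀ (E : Type) [Field E] [Finite E]
      (ε : AP p κ[X] P →+* E), pt ε ∈ ptS (AP p κ[X] P) (Nat.card κ) N := by
  have hp2 : 2 ≤ p := (Fact.out : p.Prime).two_le
  induction N using Nat.strong_induction_on with
  | _ N ih =>
  intro hN κ _ _ _ P hP E _ _ ε
  rcases Nat.lt_or_ge 1 N with hN1 | hN1
  · -- a prime factor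
    obtain ⟨ℓ, hℓ, N1, rfl⟩ := Nat.exists_prime_and_dvd hN1.ne'
    haveI : Fact ℓ.Prime := ⟨hℓ⟩
    have hN1pos : 1 ≤ N1 := by
      rcases Nat.eq_zero_or_pos N1 with h | h
      · subst h; simp at hN
      · exact h
    have hlt : N1 < ℓ * N1 := by
      have := hℓ.two_le
      nlinarith
    obtain ⟨hD, hW⟩ := h1 p κ P hP
    have hmem := @h4 κ (AP p κ[X] P) _ _ _ hD _ _ hW ℓ _ E _ _ ε
    refine (AddSubgroup.closure_le _).2 ?_ hmem
    rintro x ⟨E', _, _, ε', d, hd1, hd2, rfl⟩
    -- the field `κ` in `E'`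
    let ρ : κ →+* E' := (ε'.comp (AP.o P)).comp C
    letI : Algebra κ E' := ρ.toAlgebra
    haveI : NeZero ℓ := ⟨hℓ.ne_zero⟩
    have hcardκ : 2 ≤ Nat.card κ := Finite.one_lt_card
    have hfin : Module.finrank κ E' = d := by
      refine Nat.pow_right_injective hcardκ ?_
      simp only [← Module.natCard_eq_pow_finrank, hd1]
    obtain ⟨j⟩ := FiniteField.nonempty_algHom_of_finrank_dvd (F := κ)
      (K := FiniteField.Extension κ p ℓ) (L := E') (by
        rw [FiniteField.finrank_extension, hfin]; exact hd2)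
    let K1 := FiniteField.Extension κ p ℓ
    haveI : CharP K1 p := charP_of_injective_algebraMap (algebraMap κ K1).injective p
    let P1 : K1[X] := mapRingHom (algebraMap κ K1) P
    have hP1 : ¬ p ∣ P1.natDegree := by
      have : P1.natDegree = P.natDegree := natDegree_map _
      rw [this]; exact hP
    let φ : AP p κ[X] P →+* AP p K1[X] P1 := AP.map (p := p) (mapRingHom (algebraMap κ K1)) P
    have hφ : φ.Finite := C5_map_finite p hp2 _ P
    let e0 : K1[X] →+* E' := eval₂RingHom (j : K1 →+* E') (ε' (AP.o P X))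
    have he0 : ∀ w : κ[X], e0 (mapRingHom (algebraMap κ K1) w) = ε' (AP.o P w) := by
      intro w
      have h2 : e0.comp (mapRingHom (algebraMap κ K1)) = ε'.comp (AP.o P) := by
        refine Polynomial.ringHom_ext ?_ ?_
        · intro a
          simp only [RingHom.comp_apply, coe_mapRingHom, map_C, e0, coe_eval₂RingHom, eval₂_C]
          exact j.commutes a
        · simp only [RingHom.comp_apply, coe_mapRingHom, map_X, e0, coe_eval₂RingHom, eval₂_X]
      exact congrArg (fun g : κ[X] →+* E' => g w) h2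
    let ε1 : AP p K1[X] P1 →+* E' := AP.lift e0 (ε' (AP.y P)) (by
      change _ = e0 (mapRingHom (algebraMap κ K1) P)
      rw [he0, ← AP.eq P, map_sub, map_pow])
    have hε1 : ε' = ε1.comp φ := by
      refine AP.ext ?_ ?_
      · intro w
        rw [RingHom.comp_apply]
        change _ = ε1 (AP.map (p := p) (mapRingHom (algebraMap κ K1)) P (AP.o P w))
        rw [AP.map, AP.lift_o]
        change _ = ε1 (AP.o P1 (mapRingHom (algebraMap κ K1) w))
        rw [AP.lift_o, he0]
      · rw [RingHom.comp_apply]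
        change _ = ε1 (AP.map (p := p) (mapRingHom (algebraMap κ K1)) P (AP.y P))
        rw [AP.map, AP.lift_y]
        change _ = ε1 (AP.y P1)
        rw [AP.lift_y]
    have h3 := ih N1 hlt hN1pos K1 P1 hP1 E' ε1
    have h6 : Nat.card K1 = Nat.card κ ^ ℓ := FiniteField.natCard_extension κ p ℓ
    rw [h6] at h3
    have h7 := C5_res_ptS h5 φ hφ _ _ _ h3
    rw [h5.1] at h7
    rw [hε1]
    exact h7
  · -- `N = 1`
    obtain rfl : N = 1 := le_antisymm hN1 hN
    let ρ : κ →+* E := (ε.comp (AP.o P)).comp C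
    letI : Algebra κ E := ρ.toAlgebra
    refine AddSubgroup.subset_closure ⟨E, inferInstance, inferInstance, ε, Module.finrank κ E,
      Module.natCard_eq_pow_finrank, one_dvd _, rfl⟩

theorem thm_C5 (h1 : St_C1) (h4 : St_C4) (h5 : St_A5) : St_C5 := by
  intro p _ κ _ _ _ P hP N hN E _ _ ε
  exact C5_main h1 h4 h5 p N hN κ P hP E ε

end Pool.Agent.AQS
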