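import Pool.Agent.AQS.St2

/-!
# AQS, module C6

Statement and proof: see `St_C6` in `Pool/Agent/AQS/St2.lean`.
-/

set_option autoImplicit false
set_option linter.unusedSectionVars false

namespace Pool.Agent.AQS

open Function Pool.Agent.Helper11 Pool.Agent.HPow Pool.Agent.Helper67.Bass

section C6aux

open MvPolynomial

variable {K : Type} [Field K] {N : ℕ}

/-- set the first `j` variables to zero -/
private noncomputable def C6_ev (K : Type) [Field K] (N j : ℕ) :
    MvPolynomial (Fin N) K →ₐ[K] MvPolynomial (Fin N) K :=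
  aeval (fun i : Fin N => if (i : ℕ) < j then 0 else X i)

private noncomputable def C6_P (K : Type) [Field K] (N j : ℕ) : Ideal (MvPolynomial (Fin N) K) :=
  RingHom.ker (C6_ev K N j)

private instance C6_prime (j : ℕ) : (C6_P K N j).IsPrime := RingHom.ker_isPrime _

private theorem C6_comp (j : ℕ) (f : MvPolynomial (Fin N) K) :
    C6_ev K N (j + 1) (C6_ev K N j f) = C6_ev K N (j + 1) f := by
  have h : (C6_ev K N (j + 1)).comp (C6_ev K N j) = C6_ev K N (j + 1) := by
    refine MvPolynomial.algHom_ext fun i => ?_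
    rw [AlgHom.comp_apply]
    by_cases hi : (i : ℕ) < j
    · have hi' : (i : ℕ) < j + 1 := by omega
      simp only [C6_ev, aeval_X, if_pos hi, if_pos hi', map_zero]
    · simp [C6_ev, hi]
  exact congrArg (fun φ => φ f) h

private theorem C6_lt (j : ℕ) (hj : j < N) : C6_P K N j < C6_P K N (j + 1) := by
  refine lt_of_le_of_ne (fun f hf => ?_) fun he => ?_
  · rw [C6_P, RingHom.mem_ker] at hf ⊢
    have h1 := C6_comp j f
    rw [hf, map_zero] at h1
    exact h1.symm
  · have h1 : (X (⟨j, hj⟩ : Fin N) : MvPolynomial (Fin N) K) ∈ C6_P K N (j + 1) := by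
      rw [C6_P, RingHom.mem_ker]
      simp [C6_ev]
    rw [← he, C6_P, RingHom.mem_ker] at h1
    have h2 : C6_ev K N j (X (⟨j, hj⟩ : Fin N)) = X (⟨j, hj⟩ : Fin N) := by
      simp [C6_ev]
    rw [h2] at h1
    exact X_ne_zero _ h1

private theorem C6_height (j : ℕ) (hj : j ≤ N) : (j : ℕ∞) ≤ (C6_P K N j).height := by
  induction j with
  | zero => simp
  | succ j ih =>
    have h1 := ih (by omega)
    have h2 : (C6_P K N j).height + 1 ≤ (C6_P K N (j + 1)).height :=
      Ideal.height_add_one_le_of_lt_of_isPrime (C6_lt j (by omega))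
    push_cast
    exact le_trans (by gcongr) h2

end C6aux

open MvPolynomial in
theorem thm_C6 : St_C6 := by
  intro K _ _ N r hr g hg
  by_contra hc
  push Not at hc
  -- the maximal ideal of the origin
  have hker : ∀ f : MvPolynomial (Fin N) K, f ∈ C6_P K N N ↔ eval (0 : Fin N → K) f = 0 := by
    intro f
    rw [C6_P, RingHom.mem_ker]
    have h1 : C6_ev K N N f = C (eval (0 : Fin N → K) f) := by
      have h2 : C6_ev K N N = (Algebra.ofId K (MvPolynomial (Fin N) K)).comp
          (aeval (0 : Fin N → K)) := by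
        refine MvPolynomial.algHom_ext fun i => ?_
        rw [AlgHom.comp_apply]
        simp [C6_ev]
      rw [h2, AlgHom.comp_apply, aeval_eq_eval]
      rfl
    rw [h1, C_eq_zero]
  have hle : Ideal.span (Set.range g) ≤ C6_P K N N := by
    rw [Ideal.span_le]
    rintro _ ⟨i, rfl⟩
    rw [SetLike.mem_coe, hker]
    have := hg i
    rw [constantCoeff_eq] at this
    rw [← this, ← constantCoeff_eq, ← eval_zero]
  obtain ⟨q, hq, hqm⟩ := Ideal.exists_minimalPrimes_le hle
  have hqp : q.IsPrime := hq.1.1
  have h1 : q.height ≤ (Set.range g).ncard :=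
    Ideal.height_le_card_of_mem_minimalPrimes_span (Set.finite_range g) hq
  have h2 : (Set.range g).ncard ≤ r := by
    have := Set.ncard_image_le (Set.finite_univ (α := Fin r)) (f := g)
    rw [Set.image_univ, Set.ncard_univ, Nat.card_eq_fintype_card, Fintype.card_fin] at this
    exact this
  have h3 : (N : ℕ∞) ≤ (C6_P K N N).height := C6_height N le_rfl
  have hz : zeroLocus K q ⊆ ({0} : Set (Fin N → K)) := by
    intro x hx
    by_contra hx0
    obtain ⟨i, hi⟩ := hc x hx0
    refine hi ?_
    have := hx (g i) (hq.1.2 (Ideal.subset_span ⟨i, rfl⟩))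
    rwa [aeval_eq_eval] at this
  have h4 : C6_P K N N ≤ q := by
    have h5 := IsPrime.vanishingIdeal_zeroLocus (K := K) q
    rw [← h5]
    intro f hf
    rw [mem_vanishingIdeal_iff]
    intro x hx
    have hx' := hz hx
    rw [Set.mem_singleton_iff] at hx'
    rw [hx', aeval_eq_eval]
    exact (hker f).1 hf
  have h5 : (N : ℕ∞) ≤ r := by
    refine le_trans h3 (le_trans (Ideal.height_mono h4) (le_trans h1 ?_))
    exact_mod_cast h2
  have h6 : N ≤ r := by exact_mod_cast h5
  omega

end Pool.Agent.AQS
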