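import Pool.Agent.AQS.St2

/-!
# AQS, module C7

Statement and proof: see `St_C7` in `Pool/Agent/AQS/St2.lean`.
-/

set_option autoImplicit false
set_option linter.unusedSectionVars false

namespace Pool.Agent.AQS

open Function Pool.Agent.Helper11 Pool.Agent.HPow Pool.Agent.Helper67.Bass

open Polynomial in
theorem C7_rho_zero (h1 : St_B1) (p : ℕ) [Fact p.Prime] (L : Type) [Field L] [Finite L] [CharP L p]
    [ExpChar L p] [PerfectRing L p] (d : ℕ) (hd : 1 ≤ d) : rho p (0 : L[X]) d = 0 := by
  have h := (h1 p L).1 0 0 d hd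
  rw [add_zero] at h
  exact left_eq_add.1 h

open Polynomial in
theorem C7_rho_sum (h1 : St_B1) (p : ℕ) [Fact p.Prime] (L : Type) [Field L] [Finite L] [CharP L p]
    [ExpChar L p] [PerfectRing L p] (d : ℕ) (hd : 1 ≤ d) {ι : Type} (s : Finset ι) (P : ι → L[X]) :
    rho p (∑ i ∈ s, P i) d = ∑ i ∈ s, rho p (P i) d := by
  classical
  induction s using Finset.induction_on with
  | empty => rw [Finset.sum_empty, Finset.sum_empty, C7_rho_zero h1 p L d hd]
  | insert i s hi ih => rw [Finset.sum_insert hi, Finset.sum_insert hi, (h1 p L).1 _ _ d hd, ih]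

open Polynomial in
theorem C7_one (h1 : St_B1) (p : ℕ) [Fact p.Prime] (L : Type) [Field L] [Finite L] [CharP L p]
    [ExpChar L p] [PerfectRing L p] (d : ℕ) (hd : 2 ≤ d) (hp : ¬ p ∣ d) (c : L) (a : ℕ) :
    rho p (C c * X ^ (p ^ a)) d = 0 := by
  have hp1 : ¬ p ∣ 1 := (Fact.out : p.Prime).one_lt.ne' ∘ Nat.dvd_one.1
  have h := (h1 p L).2.2.1 c a 1 d le_rfl hp1 (by omega) hp
  rw [mul_one, if_neg (by omega)] at h
  exact h

open Polynomial in
theorem C7_const (p : ℕ) [Fact p.Prime] (L : Type) [Field L] [Finite L] [CharP L p]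
    [ExpChar L p] [PerfectRing L p] (d : ℕ) (hd : 1 ≤ d) (c : L) : rho p (C c) d = 0 := by
  rw [rho]
  apply Finset.sum_eq_zero
  intro i _
  rw [coeff_C_of_ne_zero (by have := (Fact.out : p.Prime).pos; positivity), iterate_map_zero]

open Polynomial in
theorem C7_two (h1 : St_B1) (p : ℕ) [Fact p.Prime] (L : Type) [Field L] [Finite L] [CharP L p]
    [ExpChar L p] [PerfectRing L p] (d : ℕ) (hd : 2 ≤ d) (hp : ¬ p ∣ d) (c : L) (s t : ℕ) :
    rho p (C c * X ^ (p ^ s + p ^ t)) d =
      if d = 1 + p ^ (max s t - min s t) then ((frobeniusEquiv L p).symm)^[min s t] c else 0 := by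
  have hpp : p.Prime := Fact.out
  have e1 : p ^ s + p ^ t = p ^ (min s t) * (1 + p ^ (max s t - min s t)) := by
    rw [mul_add, mul_one, ← pow_add]
    rcases le_total s t with h | h
    · rw [min_eq_left h, max_eq_right h, Nat.add_sub_cancel' h]
    · rw [min_eq_right h, max_eq_left h, Nat.add_sub_cancel' h, add_comm]
  rw [e1]
  by_cases hr : p ∣ 1 + p ^ (max s t - min s t)
  · have h0 : max s t - min s t = 0 := by
      by_contra hne
      have h2 : p ∣ p ^ (max s t - min s t) := dvd_pow_self p hne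
      have h3 : p ∣ 1 := (Nat.dvd_add_left h2).1 hr
      exact hpp.one_lt.ne' (Nat.dvd_one.1 h3)
    rw [h0, pow_zero] at hr ⊢
    have h2 : p = 2 := (Nat.prime_dvd_prime_iff_eq hpp Nat.prime_two).1 hr
    have h3 : d ≠ 1 + 1 := by
      rintro rfl
      exact hp hr
    rw [if_neg h3]
    have h4 : p ^ (min s t) * (1 + 1) = p ^ (min s t + 1) := by
      rw [pow_succ]
      conv_rhs => rw [show p ^ min s t * p = p ^ min s t * 2 by rw [← h2]]
    rw [h4]
    exact C7_one h1 p L d hd hp c _
  · exact (h1 p L).2.2.1 c _ _ d (by omega) hr (by omega) hp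

theorem C7_frob (p : ℕ) [Fact p.Prime] (L : Type) [Field L] [ExpChar L p] [PerfectRing L p]
    (e D : ℕ) (h : e ≤ D) (c : L) :
    (((frobeniusEquiv L p).symm)^[e] c) ^ (p ^ D) = c ^ (p ^ (D - e)) := by
  obtain ⟨m, rfl⟩ := Nat.exists_eq_add_of_le h
  rw [Nat.add_sub_cancel_left, pow_add, pow_mul, iterate_frobeniusEquiv_symm_pow_p_pow]

open Polynomial in
/-- the vector of additive polynomials -/
noncomputable def C7_phi (p d : ℕ) {L : Type} [Field L] (w : Fin 2 × Fin (d + 1) → L) (i : Fin 2) :
    L[X] :=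
  ∑ u : Fin (d + 1), C (w (i, u)) * X ^ (p ^ (u : ℕ))

open Polynomial in
theorem C7_phi_pow (p d : ℕ) [Fact p.Prime] {L : Type} [Field L] [CharP L p]
    (w : Fin 2 × Fin (d + 1) → L) (i : Fin 2) (a : ℕ) : C7_phi p d w i ^ (p ^ a) =
      ∑ u : Fin (d + 1), C (w (i, u) ^ (p ^ a)) * X ^ (p ^ ((u : ℕ) + a)) := by
  rw [C7_phi, sum_pow_char_pow]
  refine Finset.sum_congr rfl fun u _ => ?_
  rw [mul_pow, ← C_pow, ← pow_mul, ← pow_add]

theorem C7_ps (p d : ℕ) {L : Type} [Field L] (w : Fin 2 × Fin (d + 1) → L) (i : Fin 2) (e : ℕ) :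
    ((Finsupp.single i e : Fin 2 →₀ ℕ).prod fun i k => C7_phi p d w i ^ k) =
      C7_phi p d w i ^ e :=
  Finsupp.prod_single_index (pow_zero _)

theorem C7_pa (p d : ℕ) {L : Type} [Field L] (w : Fin 2 × Fin (d + 1) → L) (i j : Fin 2)
    (e e' : ℕ) :
    ((Finsupp.single i e + Finsupp.single j e' : Fin 2 →₀ ℕ).prod fun i k => C7_phi p d w i ^ k) =
      C7_phi p d w i ^ e * C7_phi p d w j ^ e' := by
  rw [← C7_ps p d w i e, ← C7_ps p d w j e']
  exact Finsupp.prod_add_index' (h := fun i k => C7_phi p d w i ^ k) (fun _ => pow_zero _)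
    (fun _ _ _ => pow_add _ _ _)

/-- the condition -/
def C7_G (p d D : ℕ) {k : Type} [Field k] (f : MvPolynomial (Fin 2) k) : Prop :=
  ∃ G : ℕ → MvPolynomial (Fin 2 × Fin (d + 1)) k, (∀ r, MvPolynomial.constantCoeff (G r) = 0) ∧
    ∀ (L : Type) [Field L] [Finite L] [CharP L p] [ExpChar L p] [PerfectRing L p] [Algebra k L]
      (w : Fin 2 × Fin (d + 1) → L) (d' : ℕ), 2 ≤ d' → ¬ p ∣ d' →
      (rho p (MvPolynomial.aeval (C7_phi p d w) (MvPolynomial.map (algebraMap k L) f)) d') ^ (p ^ D) =
        ∑ r ∈ Finset.range (D + 1), if d' = 1 + p ^ r then MvPolynomial.aeval w (G r) else 0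

theorem C7_add (h1 : St_B1) (p d D : ℕ) [Fact p.Prime] {k : Type} [Field k]
    (f g : MvPolynomial (Fin 2) k) (hf : C7_G p d D f) (hg : C7_G p d D g) :
    C7_G p d D (f + g) := by
  obtain ⟨F, hF, hF2⟩ := hf
  obtain ⟨G, hG, hG2⟩ := hg
  refine ⟨fun r => F r + G r, fun r => by rw [map_add, hF, hG, add_zero], ?_⟩
  intro L _ _ _ _ _ _ w d' hd hp
  rw [map_add, map_add, (h1 p L).1 _ _ d' (by omega), add_pow_char_pow, hF2 L w d' hd hp,
    hG2 L w d' hd hp, ← Finset.sum_add_distrib]
  refine Finset.sum_congr rfl fun r _ => ?_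
  split_ifs
  · rw [map_add]
  · rw [add_zero]

theorem C7_triv (p d D : ℕ) [Fact p.Prime] {k : Type} [Field k]
    (f : MvPolynomial (Fin 2) k)
    (h : ∀ (L : Type) [Field L] [Finite L] [CharP L p] [ExpChar L p] [PerfectRing L p] [Algebra k L]
      (w : Fin 2 × Fin (d + 1) → L) (d' : ℕ), 2 ≤ d' → ¬ p ∣ d' →
      rho p (MvPolynomial.aeval (C7_phi p d w) (MvPolynomial.map (algebraMap k L) f)) d' = 0) :
    C7_G p d D f := by
  refine ⟨fun _ => 0, fun _ => map_zero _, ?_⟩
  intro L _ _ _ _ _ _ w d' hd hp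
  rw [h L w d' hd hp, zero_pow (by have := (Fact.out : p.Prime).pos; positivity)]
  symm
  apply Finset.sum_eq_zero
  intro r _
  rw [map_zero, ite_self]

theorem C7_mono (h1 : St_B1) (p d h : ℕ) [Fact p.Prime] {k : Type} [Field k]
    (m : Fin 2 →₀ ℕ) (c : k) (hm : m = 0 ∨ (∃ i a, m = Finsupp.single i (p ^ a)) ∨
      ∃ i j a b, a ≤ h ∧ b ≤ h ∧ m = Finsupp.single i (p ^ a) + Finsupp.single j (p ^ b)) :
    C7_G p d (d + h) (MvPolynomial.monomial m c) := by
  rcases hm with rfl | ⟨i, a, rfl⟩ | ⟨i, j, a, b, ha, hb, rfl⟩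
  · apply C7_triv
    intro L _ _ _ _ _ _ w d' hd hp
    rw [MvPolynomial.map_monomial, MvPolynomial.aeval_monomial, Finsupp.prod_zero_index, mul_one]
    exact C7_const p L d' (by omega) _
  · apply C7_triv
    intro L _ _ _ _ _ _ w d' hd hp
    rw [MvPolynomial.map_monomial, MvPolynomial.aeval_monomial, C7_ps,
      C7_phi_pow, Finset.mul_sum, C7_rho_sum h1 p L d' (by omega)]
    apply Finset.sum_eq_zero
    intro u _
    show rho p (Polynomial.C _ * (Polynomial.C _ * Polynomial.X ^ _)) d' = 0
    rw [← mul_assoc, ← Polynomial.C_mul]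
    exact C7_one h1 p L d' hd hp _ _
  · refine ⟨fun r => ∑ u : Fin (d + 1), ∑ v : Fin (d + 1),
      if r = max ((u : ℕ) + a) (v + b) - min ((u : ℕ) + a) (v + b) then
        (MvPolynomial.C c * (MvPolynomial.X (i, u) ^ (p ^ a) * MvPolynomial.X (j, v) ^ (p ^ b))) ^
          (p ^ (d + h - min ((u : ℕ) + a) (v + b))) else 0, ?_, ?_⟩
    · intro r
      have hp := (Fact.out : p.Prime).pos
      rw [map_sum]
      apply Finset.sum_eq_zero
      intro u _
      rw [map_sum]
      apply Finset.sum_eq_zero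
      intro v _
      split_ifs
      · rw [map_pow, map_mul, map_mul, map_pow, MvPolynomial.constantCoeff_X,
          zero_pow (by positivity), zero_mul, mul_zero, zero_pow (by positivity)]
      · rw [map_zero]
    · intro L _ _ _ _ _ _ w d' hd hp
      have h2 : MvPolynomial.aeval (C7_phi p d w) (MvPolynomial.map (algebraMap k L)
          (MvPolynomial.monomial (Finsupp.single i (p ^ a) + Finsupp.single j (p ^ b)) c)) =
          ∑ u : Fin (d + 1), ∑ v : Fin (d + 1), Polynomial.C (algebraMap k L c *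
            (w (i, u) ^ (p ^ a) * w (j, v) ^ (p ^ b))) *
            Polynomial.X ^ (p ^ ((u : ℕ) + a) + p ^ ((v : ℕ) + b)) := by
        rw [MvPolynomial.map_monomial, MvPolynomial.aeval_monomial, C7_pa,
          C7_phi_pow, C7_phi_pow, Finset.sum_mul_sum, Finset.mul_sum]
        refine Finset.sum_congr rfl fun u _ => ?_
        rw [Finset.mul_sum]
        refine Finset.sum_congr rfl fun v _ => ?_
        show Polynomial.C _ * _ = _
        rw [Polynomial.C_mul, Polynomial.C_mul, pow_add]
        ring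
      rw [h2, C7_rho_sum h1 p L d' (by omega), sum_pow_char_pow]
      have h3 : ∀ r, (if d' = 1 + p ^ r then MvPolynomial.aeval w (∑ u : Fin (d + 1), ∑ v : Fin (d + 1),
          if r = max ((u : ℕ) + a) (v + b) - min ((u : ℕ) + a) (v + b) then
          (MvPolynomial.C c * (MvPolynomial.X (i, u) ^ (p ^ a) * MvPolynomial.X (j, v) ^ (p ^ b))) ^
          (p ^ (d + h - min ((u : ℕ) + a) (v + b))) else 0) else 0) =
          ∑ u : Fin (d + 1), ∑ v : Fin (d + 1),
          if r = max ((u : ℕ) + a) (v + b) - min ((u : ℕ) + a) (v + b) then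
          (if d' = 1 + p ^ (max ((u : ℕ) + a) (v + b) - min ((u : ℕ) + a) (v + b)) then
          (algebraMap k L c * (w (i, u) ^ (p ^ a) * w (j, v) ^ (p ^ b))) ^
          (p ^ (d + h - min ((u : ℕ) + a) (v + b))) else 0) else 0 := by
        intro r
        split_ifs with hr
        · rw [map_sum]
          refine Finset.sum_congr rfl fun u _ => ?_
          rw [map_sum]
          refine Finset.sum_congr rfl fun v _ => ?_
          split_ifs with h4 h5
          · rw [map_pow, map_mul, map_mul, map_pow, map_pow, MvPolynomial.aeval_X,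
              MvPolynomial.aeval_X, MvPolynomial.aeval_C]
          · rw [← h4] at h5; exact absurd hr h5
          · rw [map_zero]
        · symm
          apply Finset.sum_eq_zero
          intro u _
          apply Finset.sum_eq_zero
          intro v _
          split_ifs with h4 h5
          · rw [← h4] at h5; exact absurd h5 hr
          · rfl
          · rfl
      simp_rw [h3]
      rw [Finset.sum_comm]
      refine Finset.sum_congr rfl fun u _ => ?_
      rw [Finset.sum_comm, C7_rho_sum h1 p L d' (by omega), sum_pow_char_pow]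
      refine Finset.sum_congr rfl fun v _ => ?_
      have hu := u.2
      have hv := v.2
      rw [Finset.sum_ite_eq', if_pos (by rw [Finset.mem_range]; omega),
        C7_two h1 p L d' hd hp]
      split_ifs
      · rw [C7_frob p L _ _ (by omega)]
      · rw [zero_pow (by have := (Fact.out : p.Prime).pos; positivity)]

theorem C7_all (h1 : St_B1) (p d h : ℕ) [Fact p.Prime] {k : Type} [Field k]
    (f : MvPolynomial (Fin 2) k) (hf : AQ p f) (hh : f.totalDegree ≤ h) : C7_G p d (d + h) f := by
  have hpp : p.Prime := Fact.out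
  have h2 : ∀ m ∈ f.support, C7_G p d (d + h) (MvPolynomial.monomial m (f.coeff m)) := by
    intro m hm
    apply C7_mono h1
    rcases hf m hm with h0 | h0 | ⟨i, j, a, b, h0⟩
    · exact Or.inl h0
    · exact Or.inr (Or.inl h0)
    · refine Or.inr (Or.inr ⟨i, j, a, b, ?_, ?_, h0⟩)
      · have h3 := MvPolynomial.le_totalDegree hm
        rw [h0, Finsupp.sum_add_index' (fun _ => rfl) (fun _ _ _ => rfl),
          Finsupp.sum_single_index rfl, Finsupp.sum_single_index rfl] at h3
        have h4 : a < p ^ a := Nat.lt_pow_self hpp.one_lt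
        omega
      · have h3 := MvPolynomial.le_totalDegree hm
        rw [h0, Finsupp.sum_add_index' (fun _ => rfl) (fun _ _ _ => rfl),
          Finsupp.sum_single_index rfl, Finsupp.sum_single_index rfl] at h3
        have h4 : b < p ^ b := Nat.lt_pow_self hpp.one_lt
        omega
  have h3 : ∀ s : Finset (Fin 2 →₀ ℕ), s ⊆ f.support →
      C7_G p d (d + h) (∑ m ∈ s, MvPolynomial.monomial m (f.coeff m)) := by
    classical
    intro s
    induction s using Finset.induction_on with
    | empty =>
      intro _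
      rw [Finset.sum_empty]
      apply C7_triv
      intro L _ _ _ _ _ _ w d' hd hp
      rw [map_zero, map_zero, C7_rho_zero h1 p L d' (by omega)]
    | insert m s hm ih =>
      intro hs
      rw [Finset.sum_insert hm]
      exact C7_add h1 p d _ _ _ (h2 m (hs (Finset.mem_insert_self m s)))
        (ih ((Finset.subset_insert m s).trans hs))
  have h4 := h3 f.support (Finset.Subset.refl _)
  rwa [← MvPolynomial.as_sum] at h4

theorem thm_C7 (h1 : St_B1) (h6 : St_C6) : St_C7 := by
  intro p _ k _ _ _ f hf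
  have hpp : p.Prime := Fact.out
  set d := f.totalDegree with hd
  obtain ⟨G, hG, hG2⟩ := C7_all h1 p d d f hf le_rfl
  let K := AlgebraicClosure k
  let e : Fin (2 * (d + 1)) ≃ Fin 2 × Fin (d + 1) := finProdFinEquiv.symm
  obtain ⟨x, hx, hx2⟩ := h6 K (2 * (d + 1)) (d + d + 1) (by omega)
    (fun r => MvPolynomial.map (algebraMap k K) (MvPolynomial.rename e.symm (G r))) (by
      intro r
      rw [MvPolynomial.constantCoeff_map, MvPolynomial.constantCoeff_rename, hG, map_zero])
  let k' : IntermediateField k K := IntermediateField.adjoin k (Set.range x)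
  have hfd : FiniteDimensional k k' := by
    have : Finite (Set.range x) := Set.finite_coe_iff.2 (Set.finite_range x)
    exact IntermediateField.finiteDimensional_adjoin fun y _ =>
      (Algebra.IsAlgebraic.isAlgebraic y).isIntegral
  have hfin : Finite k' := Module.finite_of_finite k
  have hx' : ∀ t, x t ∈ k' := fun t => IntermediateField.subset_adjoin k _ ⟨t, rfl⟩
  let w : Fin 2 × Fin (d + 1) → k' := fun s => ⟨x (e.symm s), hx' _⟩
  have hch : CharP k' p := charP_of_injective_algebraMap (algebraMap k k').injective p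
  have hex : ExpChar k' p := inferInstance
  have hpe : PerfectRing k' p := inferInstance
  have hzero : ∀ r, r < d + d + 1 → MvPolynomial.aeval w (G r) = 0 := by
    intro r hr
    have h2 := hx2 ⟨r, hr⟩
    rw [MvPolynomial.eval_map, MvPolynomial.eval₂_rename] at h2
    have h3 : algebraMap k' K (MvPolynomial.aeval w (G r)) = 0 := by
      rw [← h2, ← MvPolynomial.aeval_algebraMap_apply, MvPolynomial.aeval_def]
      rfl
    exact (map_eq_zero (algebraMap k' K)).1 h3
  refine ⟨k', inferInstance, hfin, inferInstance, C7_phi p d w, ?_, ?_, ?_⟩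
  · intro i m hm
    by_contra hne
    push Not at hne
    rw [Polynomial.mem_support_iff] at hm
    apply hm
    rw [C7_phi, Polynomial.finsetSum_coeff]
    apply Finset.sum_eq_zero
    intro u _
    rw [Polynomial.coeff_C_mul, Polynomial.coeff_X_pow, if_neg (hne u), mul_zero]
  · by_contra hne
    push Not at hne
    apply hx
    funext t
    have h2 := congrArg (fun P => Polynomial.coeff P (p ^ ((e t).2 : ℕ))) (hne (e t).1)
    simp only [C7_phi, Polynomial.finsetSum_coeff, Polynomial.coeff_C_mul, Polynomial.coeff_X_pow,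
      Polynomial.coeff_zero] at h2
    rw [Finset.sum_eq_single (e t).2] at h2
    · rw [if_pos rfl, mul_one] at h2
      have h3 := congrArg Subtype.val h2
      simpa [w] using h3
    · intro u _ hu
      rw [if_neg, mul_zero]
      intro h3
      exact hu (Fin.ext (Nat.pow_right_injective hpp.two_le h3).symm)
    · intro h3
      exact absurd (Finset.mem_univ _) h3
  · rw [(h1 p k').2.2.2]
    intro d' hd' hp'
    have h2 := hG2 k' w d' hd' hp'
    rw [Finset.sum_eq_zero] at h2
    · exact pow_eq_zero_iff (by have := hpp.pos; positivity) |>.1 h2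
    · intro r hr
      rw [Finset.mem_range] at hr
      rw [hzero r hr, ite_self]

end Pool.Agent.AQS
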