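import Pool.Agent.AQS.St2

/-!
# AQS, module C8

Statement and proof: see `St_C8` in `Pool/Agent/AQS/St2.lean`.
-/

set_option autoImplicit false
set_option linter.unusedSectionVars false

namespace Pool.Agent.AQS

open Function Pool.Agent.Helper11 Pool.Agent.HPow Pool.Agent.Helper67.Bass

section lin

open Polynomial

variable {p : ℕ} [Fact p.Prime] {E : Type} [Field E] [CharP E p]

private theorem C8_add {P Q : E[X]} (hP : LinP p P) (hQ : LinP p Q) : LinP p (P + Q) := by
  obtain ⟨l, c, g, hg⟩ := hP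
  obtain ⟨l', c', g', hg'⟩ := hQ
  refine ⟨l + l', c + c', g + g', ?_⟩
  have h1 : (g + g') ^ p = g ^ p + g' ^ p := add_pow_char g g' p
  rw [h1, C_add, C_add]
  linear_combination hg + hg'

private theorem C8_const (c : E) : LinP p (C c : E[X]) := by
  refine ⟨0, c, 0, ?_⟩
  rw [zero_pow (Fact.out : p.Prime).ne_zero]
  simp

private theorem C8_sum {α : Type} (s : Finset α) (F : α → E[X]) (h : ∀ i ∈ s, LinP p (F i)) :
    LinP p (∑ i ∈ s, F i) := by
  refine Finset.sum_induction F (LinP p) (fun _ _ => C8_add) ?_ h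
  have h1 := C8_const (p := p) (0 : E)
  rwa [C_0] at h1

private theorem C8_mono [Finite E] (u : ℕ) : ∀ c : E, LinP p (C c * X ^ (p ^ u) : E[X]) := by
  induction u with
  | zero =>
    intro c
    refine ⟨c, 0, 0, ?_⟩
    rw [zero_pow (Fact.out : p.Prime).ne_zero]
    simp
  | succ u ih =>
    intro c
    obtain ⟨c', hc'⟩ : ∃ c' : E, c' ^ p = c := by
      have hs : Surjective (frobenius E p) :=
        Finite.surjective_of_injective (frobenius_inj E p)
      obtain ⟨c', hc'⟩ := hs c
      exact ⟨c', hc'⟩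
    obtain ⟨l, d, g, hg⟩ := ih c'
    refine ⟨l, d, g + C c' * X ^ (p ^ u), ?_⟩
    have h1 : (g + C c' * X ^ (p ^ u)) ^ p = g ^ p + (C c' * X ^ (p ^ u)) ^ p :=
      add_pow_char g _ p
    have h2 : (C c' * X ^ (p ^ u) : E[X]) ^ p = C c * X ^ (p ^ (u + 1)) := by
      rw [mul_pow, ← C_pow, hc', ← pow_mul, pow_succ]
    rw [h1, h2]
    linear_combination hg

private theorem C8_addpow [Finite E] {g : E[X]} (hg : Add1 p g) (c : E) (b : ℕ) :
    LinP p (C c * g ^ (p ^ b)) := by
  have h1 : g ^ (p ^ b) = ∑ d ∈ g.support, (C (g.coeff d ^ (p ^ b)) * X ^ (d * p ^ b) : E[X]) := by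
    conv_lhs => rw [g.as_sum_support_C_mul_X_pow]
    rw [sum_pow_char_pow]
    refine Finset.sum_congr rfl fun d _ => ?_
    rw [mul_pow, ← C_pow, ← pow_mul]
  rw [h1, Finset.mul_sum]
  refine C8_sum _ _ fun d hd => ?_
  obtain ⟨a, rfl⟩ := hg d hd
  rw [← mul_assoc, ← C_mul, ← pow_add]
  exact C8_mono _ _

private theorem C8_shift [Finite E] {σ : Type} (f : MvPolynomial σ E) (hf : AQ p f) (φ : σ → E[X])
    (hφ : ∀ i, Add1 p (φ i)) (a : σ → E) (hL : LinP p (MvPolynomial.aeval φ f)) :
    LinP p (MvPolynomial.aeval (fun i => C (a i) + φ i) f) := by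
  classical
  have key : LinP p (MvPolynomial.aeval (fun i => C (a i) + φ i) f -
      MvPolynomial.aeval φ f) := by
    have e : ∀ ψ : σ → E[X], MvPolynomial.aeval ψ f =
        ∑ d ∈ f.support, C (f.coeff d) * d.prod fun i m => ψ i ^ m := by
      intro ψ
      conv_lhs => rw [f.as_sum]
      rw [map_sum]
      refine Finset.sum_congr rfl fun d _ => ?_
      rw [MvPolynomial.aeval_monomial]
      rfl
    rw [e, e, ← Finset.sum_sub_distrib]
    refine C8_sum _ _ fun d hd => ?_
    have e1 : ∀ (ψ : σ → E[X]) (i : σ) (u : ℕ),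
        ((Finsupp.single i (p ^ u)).prod fun i m => ψ i ^ m) = ψ i ^ (p ^ u) := by
      intro ψ i u
      rw [Finsupp.prod_single_index]
      rw [pow_zero]
    have e2 : ∀ (ψ : σ → E[X]) (i j : σ) (u v : ℕ),
        ((Finsupp.single i (p ^ u) + Finsupp.single j (p ^ v)).prod fun i m => ψ i ^ m) =
          ψ i ^ (p ^ u) * ψ j ^ (p ^ v) := by
      intro ψ i j u v
      rw [Finsupp.prod_add_index' (fun _ => pow_zero _) (fun _ _ _ => pow_add _ _ _), e1, e1]
    have e3 : ∀ (i : σ) (u : ℕ), (C (a i) + φ i) ^ (p ^ u) =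
        C (a i ^ (p ^ u)) + φ i ^ (p ^ u) := by
      intro i u
      rw [add_pow_char_pow, C_pow]
    rcases hf d hd with h0 | ⟨i, u, h0⟩ | ⟨i, j, u, v, h0⟩
    · rw [h0]
      simp only [Finsupp.prod_zero_index, sub_self]
      have h1 := C8_const (p := p) (0 : E)
      rwa [C_0] at h1
    · rw [h0, e1, e1, e3]
      have h1 : C (f.coeff (Finsupp.single i (p ^ u))) * (C (a i ^ (p ^ u)) + φ i ^ (p ^ u)) -
          C (f.coeff (Finsupp.single i (p ^ u))) * φ i ^ (p ^ u) =
          C (f.coeff (Finsupp.single i (p ^ u)) * a i ^ (p ^ u)) := by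
        rw [C_mul]; ring
      rw [h1]
      exact C8_const _
    · rw [h0, e2, e2, e3, e3]
      set c := f.coeff (Finsupp.single i (p ^ u) + Finsupp.single j (p ^ v)) with hc
      have h1 : C c * ((C (a i ^ (p ^ u)) + φ i ^ (p ^ u)) * (C (a j ^ (p ^ v)) + φ j ^ (p ^ v))) -
          C c * (φ i ^ (p ^ u) * φ j ^ (p ^ v)) =
          C (c * (a i ^ (p ^ u) * a j ^ (p ^ v))) + (C (c * a i ^ (p ^ u)) * φ j ^ (p ^ v) +
            C (c * a j ^ (p ^ v)) * φ i ^ (p ^ u)) := by
        simp only [C_mul]; ring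
      rw [h1]
      exact C8_add (C8_const _) (C8_add (C8_addpow (hφ j) _ _) (C8_addpow (hφ i) _ _))
  have h2 := C8_add hL key
  rwa [add_sub_cancel] at h2

end lin

section fin

open Polynomial

variable {V : Type} [CommRing V] {E : Type} [Field E] {p : ℕ} {P : E[X]}

private theorem C8_e [Finite E] (θ : V →+* AP p E[X] P) (e : E) :
    θ.IsIntegralElem (AP.o P (C e)) := by
  have := Fintype.ofFinite E
  refine ⟨X ^ Fintype.card E - X, ?_, ?_⟩
  · have h1 : 1 < Fintype.card E := Fintype.one_lt_card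
    exact monic_X_pow_sub ((degree_X_le (R := V)).trans_lt (by exact_mod_cast h1))
  · rw [eval₂_sub, eval₂_pow, eval₂_X, ← map_pow, ← map_pow, FiniteField.pow_card, sub_self]

private theorem C8_X [Nontrivial (AP p E[X] P)] (θ : V →+* AP p E[X] P)
    (hE : ∀ e : E, θ.IsIntegralElem (AP.o P (C e))) (φ : E[X]) (h0 : 0 < φ.natDegree)
    (hφ : θ.IsIntegralElem (AP.o P φ)) : θ.IsIntegralElem (AP.o P X) := by
  let _ : Algebra V (AP p E[X] P) := θ.toAlgebra
  let S := integralClosure V (AP p E[X] P)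
  let j : E →+* S := ((AP.o P).comp C).codRestrict S (fun e => hE e)
  have hne : φ ≠ 0 := by
    rintro rfl
    simp at h0
  set ψ : E[X] := C (φ.leadingCoeff⁻¹) * φ with hψ
  have hψm : ψ.Monic := by
    rw [hψ, mul_comm]
    exact monic_mul_leadingCoeff_inv hne
  have hψS : AP.o P ψ ∈ S := by
    rw [hψ, map_mul]
    exact S.mul_mem (hE _) hφ
  have hψd : 0 < ψ.natDegree := by
    rw [hψ, natDegree_C_mul (inv_ne_zero (leadingCoeff_ne_zero.2 hne))]
    exact h0
  have h2 : IsIntegral S (AP.o P X : AP p E[X] P) := by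
    refine ⟨ψ.map j - C (⟨AP.o P ψ, hψS⟩ : S), ?_, ?_⟩
    · refine Monic.sub_of_left (hψm.map j) ?_
      rw [degree_map]
      refine lt_of_le_of_lt degree_C_le ?_
      exact natDegree_pos_iff_degree_pos.1 hψd
    · rw [eval₂_sub, eval₂_map, eval₂_C]
      have h3 : ∀ q : E[X], eval₂ ((algebraMap S (AP p E[X] P)).comp j) (AP.o P X) q = AP.o P q := by
        intro q
        have h4 : (algebraMap S (AP p E[X] P)).comp j = (AP.o P).comp C := RingHom.ext fun e => rfl
        rw [h4, ← hom_eval₂, eval₂_C_X]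
      rw [h3]
      exact sub_self _
  have h5 : IsIntegral V (AP.o P X : AP p E[X] P) := isIntegral_trans (A := S) _ h2
  exact h5

private theorem C8_pow {R S : Type} [CommRing R] [CommRing S] (θ : R →+* S) {x : S}
    (h : θ.IsIntegralElem x) (n : ℕ) : θ.IsIntegralElem (x ^ n) := by
  induction n with
  | zero =>
    rw [pow_zero]
    exact θ.isIntegralElem_one
  | succ n ih =>
    rw [pow_succ]
    exact RingHom.IsIntegralElem.mul _ ih h

private theorem C8_int [Finite E] (θ : V →+* AP p E[X] P) (hX : θ.IsIntegralElem (AP.o P X))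
    (hy : ∃ v, θ v = AP.y P) : θ.IsIntegral := by
  have h1 : ∀ g : E[X], θ.IsIntegralElem (AP.o P g) := by
    intro g
    induction g using Polynomial.induction_on' with
    | add p q hp hq =>
      rw [map_add]
      exact RingHom.IsIntegralElem.add _ hp hq
    | monomial n a =>
      rw [← C_mul_X_pow_eq_monomial, map_mul, map_pow]
      exact RingHom.IsIntegralElem.mul _ (C8_e θ a) (C8_pow θ hX _)
  have h2 : θ.IsIntegralElem (AP.y P) := by
    obtain ⟨v, hv⟩ := hy
    rw [← hv]
    exact θ.isIntegralElem_map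
  intro z
  induction z using AdjoinRoot.induction_on with
  | ih q =>
    induction q using Polynomial.induction_on' with
    | add p q hp hq =>
      rw [map_add]
      exact RingHom.IsIntegralElem.add _ hp hq
    | monomial n a =>
      rw [← C_mul_X_pow_eq_monomial, map_mul, map_pow, AdjoinRoot.mk_C, AdjoinRoot.mk_X]
      exact RingHom.IsIntegralElem.mul _ (h1 a) (C8_pow θ h2 _)

end fin

open Polynomial in
theorem thm_C8 (_h1 : St_B1) (h2 : St_B2) (h8 : St_C8a) (h5 : St_A5) : St_C8 := by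
  intro p _ k _ _ _ n f hf E _ _ ε hI
  set ι : k →+* E := (ε.comp (AP.o f)).comp MvPolynomial.C with hι
  have : CharP E p := charP_of_injective_ringHom ι.injective p
  obtain ⟨φ, hφ, ⟨i0, hi0⟩, hL⟩ := hI
  set a : Fin n → E := fun i => ε (AP.o f (MvPolynomial.X i)) with ha
  set b : E := ε (AP.y f) with hb
  set P : E[X] := MvPolynomial.aeval (fun i => C (a i) + φ i) (MvPolynomial.map ι f) with hP
  have hPL : LinP p P := C8_shift _ ((h2 p k (Fin n) (Fin n)).2.2.2.2.2.1 E ι f hf) φ hφ a hL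
  let β : MvPolynomial (Fin n) k →+* E[X] :=
    MvPolynomial.eval₂Hom (C.comp ι) (fun i => C (a i) + φ i)
  have hβf : β f = P := by
    rw [hP, MvPolynomial.aeval_def, MvPolynomial.eval₂_map]
    rfl
  have hβC : ∀ c, β (MvPolynomial.C c) = C (ι c) := fun c => by
    simp only [β, MvPolynomial.coe_eval₂Hom, MvPolynomial.eval₂_C, RingHom.comp_apply]
  have hβX : ∀ i, β (MvPolynomial.X i) = C (a i) + φ i := fun i => by
    simp only [β, MvPolynomial.coe_eval₂Hom, MvPolynomial.eval₂_X]
  have h00 : ∀ i, (φ i).eval 0 = 0 := by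
    intro i
    rw [← coeff_zero_eq_eval_zero]
    by_contra hne
    obtain ⟨u, hu⟩ := hφ i 0 (mem_support_iff.2 hne)
    exact (pow_ne_zero u (Fact.out : p.Prime).ne_zero) hu.symm
  let θ : AP p (MvPolynomial (Fin n) k) f →+* AP p E[X] P :=
    AP.lift ((AP.o P).comp β) (AP.y P) (by rw [AP.eq, RingHom.comp_apply, hβf])
  have hev : (evalRingHom (0 : E)).comp β = ε.comp (AP.o f) := by
    refine MvPolynomial.ringHom_ext (fun c => ?_) fun i => ?_
    · rw [RingHom.comp_apply, hβC]
      simp [hι]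
    · rw [RingHom.comp_apply, hβX]
      simp [ha, h00]
  let εL : AP p E[X] P →+* E := AP.lift (evalRingHom (0 : E)) b (by
    rw [← hβf, ← RingHom.comp_apply, hev, RingHom.comp_apply, ← AP.eq, map_sub, map_pow])
  have hε : εL.comp θ = ε := by
    refine AP.ext (fun w => ?_) ?_
    · rw [RingHom.comp_apply, AP.lift_o, RingHom.comp_apply, AP.lift_o, ← RingHom.comp_apply, hev]
      rfl
    · rw [RingHom.comp_apply, AP.lift_y, AP.lift_y]
  have : Nontrivial (AP p E[X] P) := εL.domain_nontrivial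
  have hdeg : 0 < (φ i0).natDegree := by
    rw [Nat.pos_iff_ne_zero]
    intro h0
    have h3 := eq_C_of_natDegree_eq_zero h0
    rw [coeff_zero_eq_eval_zero, h00, C_0] at h3
    exact hi0 h3
  have hint : θ.IsIntegral := by
    refine C8_int θ (C8_X θ (C8_e θ) (φ i0) hdeg ?_) ⟨AP.y f, AP.lift_y _ _ _⟩
    have h3 : AP.o P (φ i0) = θ (AP.o f (MvPolynomial.X i0)) - AP.o P (C (a i0)) := by
      rw [AP.lift_o, RingHom.comp_apply, hβX, map_add]
      ring
    rw [h3]
    exact RingHom.IsIntegralElem.sub _ θ.isIntegralElem_map (C8_e θ _)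
  have hft : θ.FiniteType := by
    refine RingHom.FiniteType.of_comp_finiteType (f := (AP.o f).comp MvPolynomial.C) ?_
    have h3 : θ.comp ((AP.o f).comp MvPolynomial.C) = ((AP.o P).comp C).comp ι := by
      refine RingHom.ext fun c => ?_
      rw [RingHom.comp_apply, RingHom.comp_apply, AP.lift_o, RingHom.comp_apply, hβC]
      rfl
    rw [h3]
    refine RingHom.FiniteType.comp (RingHom.FiniteType.comp ?_ ?_) ?_
    · have h4 : Algebra.FiniteType E[X] (AP p E[X] P) := inferInstance
      exact (RingHom.finiteType_algebraMap (A := E[X]) (B := AP p E[X] P)).2 h4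
    · have h4 : Algebra.FiniteType E E[X] := inferInstance
      exact (RingHom.finiteType_algebraMap (A := E) (B := E[X])).2 h4
    · refine RingHom.Finite.finiteType ?_
      let _ : Algebra k E := ι.toAlgebra
      have h4 : Module.Finite k E := Module.Finite.of_finite
      exact h4
  have hfin : θ.Finite := hint.to_finite hft
  rw [← hε, ← h5.1 _ _ _ θ hfin εL, h8 p E P hPL E εL, map_zero]

end Pool.Agent.AQS
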