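import Pool.Agent.AQS.St2

/-!
# AQS, module C8a

Statement and proof: see `St_C8a` in `Pool/Agent/AQS/St2.lean`.
-/

set_option autoImplicit false
set_option linter.unusedSectionVars false
set_option linter.style.haveILetI false

namespace Pool.Agent.AQS

open Function Pool.Agent.Helper11 Pool.Agent.HPow Pool.Agent.Helper67.Bass

theorem C8a_quot (R : Type) [CommRing R] [IsDomain R] (π : R) (hπ : π ≠ 0) (I : Ideal R)
    (hI : I = Ideal.span {π}) : G0.mk (FGMod.of R (R ⧸ I)) = 0 := by
  subst hI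
  have h := G0.mk_add (FGMod.of R R) (FGMod.of R R) (FGMod.of R (R ⧸ Ideal.span {π}))
    (LinearMap.lsmul R R π) (Submodule.mkQ (Ideal.span {π})) ?_
    (Submodule.mkQ_surjective _) ?_
  · exact left_eq_add.1 h
  · intro a b hab
    exact mul_left_cancel₀ hπ hab
  · intro x
    rw [Submodule.mkQ_apply, Submodule.Quotient.mk_eq_zero, Ideal.mem_span_singleton']
    constructor
    · rintro ⟨a, rfl⟩
      exact ⟨a, mul_comm _ _⟩
    · rintro ⟨a, ha⟩
      refine ⟨a, ?_⟩
      rw [← ha]
      exact mul_comm _ _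

open Polynomial in
theorem C8a_fld (h5 : St_A5) (κ : Type) [Field κ] (E' : Type) [Field E'] [Finite E']
    (ε : κ[X] →+* E') : pt ε = 0 := by
  obtain ⟨_, _, n, _, hn⟩ := h5.2.2 κ[X] E' ε
  obtain ⟨π, hπ⟩ := (IsPrincipalIdealRing.principal (RingHom.ker ε)).principal
  have hne : π ≠ 0 := by
    rintro rfl
    have hinj : Injective ε := by
      rw [RingHom.injective_iff_ker_eq_bot, hπ]
      exact Submodule.span_zero_singleton _
    exact not_injective_infinite_finite ε hinj
  rw [hn, C8a_quot _ π hne _ hπ, smul_zero]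

/-- it is enough to factor through a finite homomorphism to a polynomial ring over a field -/
theorem C8a_red (h5 : St_A5) (L : Type) [CommRing L] (κ : Type) [Field κ] (E' : Type) [Field E']
    [Finite E'] (ε : L →+* E') (φ : L →+* Polynomial κ) (hφ : φ.Finite)
    (ε' : Polynomial κ →+* E') (h : ε'.comp φ = ε) : pt ε = 0 := by
  rw [← h, ← h5.1 L (Polynomial κ) E' φ hφ ε', C8a_fld h5, map_zero]

open Polynomial in
theorem C8a_fin (κ κ' : Type) [Field κ] [Field κ'] [Finite κ'] (ι : κ →+* κ') :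
    (mapRingHom ι).Finite := by
  letI := (mapRingHom ι).toAlgebra
  refine Module.Finite.of_fg_top (R := κ[X]) (M := κ'[X]) ?_
  refine Submodule.fg_def.2 ⟨Set.range (C : κ' → κ'[X]), Set.finite_range _, ?_⟩
  rw [eq_top_iff]
  intro f _
  induction f using Polynomial.induction_on' with
  | add a b ha hb => exact add_mem (ha trivial) (hb trivial)
  | monomial n a =>
    have h1 : monomial n a = (X ^ n : κ[X]) • (C a : κ'[X]) := by
      rw [Algebra.smul_def]
      show _ = (mapRingHom ι) (X ^ n) * C a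
      rw [coe_mapRingHom, Polynomial.map_pow, map_X, ← C_mul_X_pow_eq_monomial, mul_comm]
    rw [h1]
    exact Submodule.smul_mem _ _ (Submodule.subset_span ⟨a, rfl⟩)

open Polynomial in
theorem C8a_lin (h5 : St_A5) (p : ℕ) [Fact p.Prime] (E : Type) [Field E] [Finite E] [CharP E p]
    (l c : E) (E' : Type) [Field E'] [Finite E'] (ε : AP p E[X] (C l * X + C c) →+* E') :
    pt ε = 0 := by
  obtain ⟨h, hh⟩ : ∃ h : E[X], h = C l * X + C c := ⟨_, rfl⟩
  revert ε
  rw [← hh]
  intro ε
  let ι : E →+* E' := (ε.comp (AP.o h)).comp C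
  have hy : (ε (AP.y h)) ^ p - ε (AP.y h) = ι l * ε (AP.o h X) + ι c := by
    have hoh : (AP.o h h : AP p E[X] h) = AP.o h (C l * X + C c) := congrArg (AP.o h) hh
    rw [← map_pow, ← map_sub, AP.eq, hoh, map_add, map_mul, map_add, map_mul]
    rfl
  have hext : ∀ w : E[X], ε (AP.o h w) = eval₂ ι (ε (AP.o h X)) w := by
    intro w
    have h1 : ε.comp (AP.o h) = eval₂RingHom ι (ε (AP.o h X)) := by
      refine Polynomial.ringHom_ext (fun a => ?_) ?_
      · rw [coe_eval₂RingHom, eval₂_C]; rfl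
      · rw [coe_eval₂RingHom, eval₂_X]; rfl
    exact RingHom.congr_fun h1 w
  by_cases hl : l = 0
  · have hc : ((C (ε (AP.y h)) : E'[X]) ^ p - C (ε (AP.y h)) : E'[X]) = mapRingHom ι h := by
      have h2 : mapRingHom ι h = C (ι c) := by
        rw [hh, hl, map_zero, zero_mul, zero_add, coe_mapRingHom, map_C]
      rw [← C_pow, ← C_sub, hy, h2, hl, map_zero, zero_mul, zero_add]
    refine C8a_red h5 _ E' E' ε (AP.lift (mapRingHom ι) (C (ε (AP.y h))) hc) ?_
      (evalRingHom (ε (AP.o h X))) ?_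
    · refine RingHom.Finite.of_comp_finite (f := AP.o h) ?_
      have h2 : (AP.lift (mapRingHom ι) (C (ε (AP.y h))) hc).comp (AP.o h) = mapRingHom ι :=
        RingHom.ext fun w => AP.lift_o _ _ hc w
      rw [h2]
      exact C8a_fin E E' ι
    · refine AP.ext (fun w => ?_) ?_
      · rw [RingHom.comp_apply, AP.lift_o, hext w, coe_mapRingHom, coe_evalRingHom, eval_map]
      · rw [RingHom.comp_apply, AP.lift_y, coe_evalRingHom, eval_C]
  · let g : E[X] := C l⁻¹ * (X ^ p - X - C c)
    have hc : ((X : E[X]) ^ p - X : E[X]) = eval₂RingHom C g h := by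
      rw [hh, coe_eval₂RingHom, eval₂_add, eval₂_mul, eval₂_C, eval₂_X, eval₂_C, ← mul_assoc,
        ← C_mul, mul_inv_cancel₀ hl, C_1]
      ring
    refine C8a_red h5 _ E E' ε (AP.lift (eval₂RingHom C g) X hc) ?_
      (eval₂RingHom ι (ε (AP.y h))) ?_
    · refine RingHom.Finite.of_surjective _ (fun f => ?_)
      have h2 : (AP.lift (eval₂RingHom C g) X hc).comp
          (eval₂RingHom ((AP.o h).comp C) (AP.y h : AP p E[X] h)) = RingHom.id E[X] := by
        refine Polynomial.ringHom_ext (fun a => ?_) ?_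
        · rw [RingHom.comp_apply, coe_eval₂RingHom, eval₂_C, RingHom.comp_apply, AP.lift_o,
            coe_eval₂RingHom, eval₂_C, RingHom.id_apply]
        · rw [RingHom.comp_apply, coe_eval₂RingHom, eval₂_X, AP.lift_y, RingHom.id_apply]
      exact ⟨_, RingHom.congr_fun h2 f⟩
    · refine AP.ext (fun w => ?_) ?_
      · rw [RingHom.comp_apply, AP.lift_o, hext]
        have h3 : (eval₂RingHom ι (ε (AP.y h))).comp (eval₂RingHom C g) =
            eval₂RingHom ι (ε (AP.o h X)) := by
          refine Polynomial.ringHom_ext (fun a => ?_) ?_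
          · show eval₂ ι (ε (AP.y h)) (eval₂ C g (C a)) = eval₂ ι (ε (AP.o h X)) (C a)
            rw [eval₂_C, eval₂_C, eval₂_C]
          · show eval₂ ι (ε (AP.y h)) (eval₂ C g X) = eval₂ ι (ε (AP.o h X)) X
            rw [eval₂_X, eval₂_X]
            show eval₂ ι (ε (AP.y h)) (C l⁻¹ * (X ^ p - X - C c)) = _
            rw [eval₂_mul, eval₂_C, eval₂_sub, eval₂_sub, eval₂_pow, eval₂_X, eval₂_C, hy,
              add_sub_cancel_right, ← mul_assoc, ← map_mul, inv_mul_cancel₀ hl, map_one, one_mul]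
        exact RingHom.congr_fun h3 w
      · rw [RingHom.comp_apply, AP.lift_y, coe_eval₂RingHom, eval₂_X]

open Polynomial in
theorem thm_C8a (h1 : St_A1) (h5 : St_A5) : St_C8a := by
  intro p _ E _ _ _ P hP E' _ _ ε
  obtain ⟨l, c, hPE⟩ := hP
  obtain ⟨e⟩ := (h1 p E[X]).1 (CharP.cast_eq_zero E[X] p) P (C l * X + C c) hPE
  let φ : AP p E[X] P →+* AP p E[X] (C l * X + C c) := e
  let ψ : AP p E[X] (C l * X + C c) →+* AP p E[X] P := e.symm
  have h3 : (ε.comp ψ).comp φ = ε := RingHom.ext fun a => congrArg ε (e.symm_apply_apply a)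
  have h4 : φ.Finite := RingHom.Finite.of_surjective _ e.surjective
  rw [← h3, ← h5.1 _ _ E' φ h4 (ε.comp ψ), C8a_lin h5 p E l c E', map_zero]

end Pool.Agent.AQS
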