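import Pool.Agent.AQS.St2
import Pool.Agent.AQS.C5

/-!
# AQS, module C9

Statement and proof: see `St_C9` in `Pool/Agent/AQS/St2.lean`.
-/

set_option autoImplicit false
set_option linter.unusedSectionVars false

namespace Pool.Agent.AQS

open Function Pool.Agent.Helper11 Pool.Agent.HPow Pool.Agent.Helper67.Bass

open Polynomial in
/-- isotropy is preserved by extension of the field -/
theorem C9_isotr_map {p n : ℕ} {k K : Type} [Field k] [Field K] (j : k →+* K)
    {f : MvPolynomial (Fin n) k} (h : Isotr p f) : Isotr p (MvPolynomial.map j f) := by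
  obtain ⟨φ, h1, ⟨i0, h2⟩, l, c, g, h3⟩ := h
  refine ⟨fun i => mapRingHom j (φ i), ?_, ⟨i0, ?_⟩, j l, j c, mapRingHom j g, ?_⟩
  · intro i d hd
    refine h1 i d ?_
    rw [mem_support_iff] at hd ⊢
    intro h4
    apply hd
    rw [coe_mapRingHom, coeff_map, h4, map_zero]
  · intro h4
    apply h2
    rw [coe_mapRingHom] at h4
    exact (Polynomial.map_eq_zero j).1 h4
  · have h5 : MvPolynomial.aeval (fun i => mapRingHom j (φ i)) (MvPolynomial.map j f) =
        mapRingHom j (MvPolynomial.aeval φ f) := by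
      rw [MvPolynomial.aeval_def, MvPolynomial.aeval_def, MvPolynomial.eval₂_map,
        MvPolynomial.hom_eval₂]
      congr 1
      ext a
      simp
    rw [h5, ← map_pow, ← map_sub, ← h3, map_sub, map_add, map_mul]
    simp only [coe_mapRingHom, map_C, map_X]

/-- if all the points of `S` with values in the fields considered restrict to zero -/
theorem C9_res_zero (h5 : St_A5) {R S : Type} [CommRing R] [CommRing S] (φ : R →+* S)
    (h : φ.Finite) (q N : ℕ)
    (H : ∀ (E : Type) [Field E] [Finite E] (ε : S →+* E) (d : ℕ), Nat.card E = q ^ d → N ∣ d →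
      pt (ε.comp φ) = 0) {x : G0 S} (hx : x ∈ ptS S q N) : resH φ h x = 0 := by
  unfold ptS at hx
  induction hx using AddSubgroup.closure_induction with
  | mem x hx =>
    obtain ⟨E, _, _, ε, d, h1, h2, rfl⟩ := hx
    rw [h5.1 R S E φ h ε]
    exact H E ε d h1 h2
  | zero => rw [map_zero]
  | add x y _ _ hx hy => rw [map_add, hx, hy, add_zero]
  | neg x _ hx => rw [map_neg, hx, neg_zero]

open Polynomial in
theorem thm_C9 (h5 : St_C5) (h8 : St_C8) (hA : St_A5) : St_C9 := by
  intro p _ k _ _ _ f hf hdeg hlc k' _ _ _ hiso E _ _ ε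
  have hp2 : 2 ≤ p := (Fact.out : p.Prime).two_le
  let ι : k →+* E := (ε.comp (AP.o f)).comp MvPolynomial.C
  have hE : CharP E p := charP_of_injective_ringHom ι.injective p
  let a : E := ε (AP.o f (MvPolynomial.X 1))
  let g : k[X][X] →+* E[X] := mapRingHom (eval₂RingHom ι a)
  let P : E[X] := g (to2 k f)
  have hP : ¬ p ∣ P.natDegree := by
    have h1 : P.natDegree = (to2 k f).natDegree := by
      refine natDegree_map_of_leadingCoeff_ne_zero _ ?_
      exact (hlc.map (eval₂RingHom ι a)).ne_zero
    rw [h1]; exact hdeg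
  let θ0 : MvPolynomial (Fin 2) k →+* E[X] := g.comp (to2 k : MvPolynomial (Fin 2) k →+* k[X][X])
  let θ : AP p (MvPolynomial (Fin 2) k) f →+* AP p E[X] P :=
    AP.lift ((AP.o P).comp θ0) (AP.y P) (AP.eq P)
  have hθo : ∀ w, θ (AP.o f w) = AP.o P (θ0 w) := fun w => AP.lift_o _ _ _ w
  have hθy : θ (AP.y f) = AP.y P := AP.lift_y _ _ _
  let e0 : E[X] →+* E := eval₂RingHom (RingHom.id E) (ε (AP.o f (MvPolynomial.X 0)))
  have h0C : ∀ c : k, θ0 (MvPolynomial.C c) = C (ι c) := by
    intro c
    change g (to2 k (MvPolynomial.C c)) = _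
    have h1 : to2 k (MvPolynomial.C c) = C (C c) := (to2 k).commutes c
    rw [h1]
    simp only [g, coe_mapRingHom, map_C, coe_eval₂RingHom, eval₂_C]
  have h0X : θ0 (MvPolynomial.X 0) = X := by
    change g (to2 k (MvPolynomial.X 0)) = _
    have h1 : to2 k (MvPolynomial.X 0) = X := by
      rw [to2, MvPolynomial.aeval_X]; rfl
    rw [h1]
    simp only [g, coe_mapRingHom, map_X]
  have h0Y : θ0 (MvPolynomial.X 1) = C a := by
    change g (to2 k (MvPolynomial.X 1)) = _
    have h1 : to2 k (MvPolynomial.X 1) = C X := by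
      rw [to2, MvPolynomial.aeval_X]; rfl
    rw [h1]
    simp only [g, coe_mapRingHom, map_C, coe_eval₂RingHom, eval₂_X]
  have he0 : ∀ w, e0 (θ0 w) = ε (AP.o f w) := by
    intro w
    have h2 : e0.comp θ0 = ε.comp (AP.o f) := by
      refine MvPolynomial.ringHom_ext ?_ ?_
      · intro c
        rw [RingHom.comp_apply, h0C]
        simp only [e0, coe_eval₂RingHom, eval₂_C, RingHom.id_apply]
        rfl
      · intro i
        fin_cases i
        · change e0 (θ0 (MvPolynomial.X 0)) = ε (AP.o f (MvPolynomial.X 0))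
          rw [h0X]
          simp only [e0, coe_eval₂RingHom, eval₂_X]
        · change e0 (θ0 (MvPolynomial.X 1)) = ε (AP.o f (MvPolynomial.X 1))
          rw [h0Y]
          simp only [e0, coe_eval₂RingHom, eval₂_C, RingHom.id_apply, a]
    exact congrArg (fun g : MvPolynomial (Fin 2) k →+* E => g w) h2
  let εC : AP p E[X] P →+* E := AP.lift e0 (ε (AP.y f)) (by
    change _ = e0 (θ0 f)
    rw [he0, ← AP.eq f, map_sub, map_pow])
  have hCo : ∀ w, εC (AP.o P w) = e0 w := fun w => AP.lift_o _ _ _ w
  have hCy : εC (AP.y P) = ε (AP.y f) := AP.lift_y _ _ _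
  have hε : ε = εC.comp θ := by
    refine AP.ext ?_ ?_
    · intro w
      rw [RingHom.comp_apply, hθo, hCo, he0]
    · rw [RingHom.comp_apply, hθy, hCy]
  have hθ : θ.Finite := by
    refine RingHom.Finite.of_comp_finite
      (f := (AP.o f).comp (eval₂RingHom MvPolynomial.C (MvPolynomial.X 0) :
        k[X] →+* MvPolynomial (Fin 2) k)) ?_
    have h1 : θ.comp ((AP.o f).comp (eval₂RingHom MvPolynomial.C (MvPolynomial.X 0) :
        k[X] →+* MvPolynomial (Fin 2) k)) = (AP.o P).comp (mapRingHom ι) := by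
      refine Polynomial.ringHom_ext ?_ ?_
      · intro c
        simp only [RingHom.comp_apply, coe_eval₂RingHom, eval₂_C, coe_mapRingHom, map_C]
        rw [hθo, h0C]
      · simp only [RingHom.comp_apply, coe_eval₂RingHom, eval₂_X, coe_mapRingHom, map_X]
        rw [hθo, h0X]
    rw [h1]
    exact (C5_o_finite p hp2 _).comp (C5_mapRingHom_finite ι)
  have hN : 1 ≤ Module.finrank k k' := Module.finrank_pos
  have hmem := h5 p E P hP (Module.finrank k k') hN E εC
  have hzero := C9_res_zero hA θ hθ (Nat.card E) (Module.finrank k k') ?_ hmem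
  · rw [hA.1] at hzero
    rw [hε]
    exact hzero
  intro E' _ _ ε' d hd1 hd2
  refine h8 p k 2 f hf E' (ε'.comp θ) ?_
  -- the field `k` in `E'`
  let ι' : k →+* E' := ((ε'.comp θ).comp (AP.o f)).comp MvPolynomial.C
  have hcard : 2 ≤ Nat.card k := Finite.one_lt_card
  have hEk : Nat.card E = Nat.card k ^ (@Module.finrank k E _ _ ι.toAlgebra.toModule) := by
    let _ := ι.toAlgebra
    exact Module.natCard_eq_pow_finrank
  let _ : Algebra k E' := ι'.toAlgebra
  have hfin : Module.finrank k E' = (@Module.finrank k E _ _ ι.toAlgebra.toModule) * d := by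
    refine Nat.pow_right_injective hcard ?_
    change Nat.card k ^ _ = Nat.card k ^ _
    rw [← Module.natCard_eq_pow_finrank, hd1, hEk, pow_mul]
  obtain ⟨j⟩ := FiniteField.nonempty_algHom_of_finrank_dvd (F := k) (K := k') (L := E') (by
    rw [hfin]; exact Dvd.dvd.mul_left hd2 _)
  have h9 : MvPolynomial.map ι' f =
      MvPolynomial.map (j : k' →+* E') (MvPolynomial.map (algebraMap k k') f) := by
    rw [MvPolynomial.map_map]
    have h10 : ι' = (j : k' →+* E').comp (algebraMap k k') := by
      refine RingHom.ext fun c => ?_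
      exact (j.commutes c).symm
    rw [← h10]
  change Isotr p (MvPolynomial.map ι' f)
  rw [h9]
  exact C9_isotr_map _ hiso

end Pool.Agent.AQS
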