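import Pool.Agent.AQS.St2

/-!
# AQS, module Fin

Statement and proof: see `St_Fin` in `Pool/Agent/AQS/St2.lean`.
-/

set_option autoImplicit false
set_option linter.unusedSectionVars false

namespace Pool.Agent.AQS

open Function Pool.Agent.Helper11 Pool.Agent.HPow Pool.Agent.Helper67.Bass

open MvPolynomial in
theorem thm_Fin (h4 : St_A4) (ha : St_All) (h2 : St_B2) : St_Fin := by
  intro p _ k _ _ _ s n H f hf
  have hB := h2 p k (Fin n) (Fin n)
  have hW : GoodP p (MvPolynomial (Fin n) k) :=
    (GoodP.of_finGn p (FinGn.of_pid k)).mvPolynomial (Fin n)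
  have hspan : ∀ g ∈ Submodule.span k (Set.range f), AQ p g := by
    intro g hg
    induction hg using Submodule.span_induction with
    | mem x hx =>
      obtain ⟨i, rfl⟩ := hx
      exact hf i
    | zero =>
      intro d hd
      simp at hd
    | add x y _ _ hx hy => exact hB.2.2.2.1 x y hx hy
    | smul c x _ hx =>
      rw [smul_eq_C_mul]
      exact hB.2.2.2.2.1 c x hx
  have hmain := h4 p k (MvPolynomial (Fin n) k) s H f hW
    (fun g hg => ha p n k g (hspan g hg))
  let e : MvPolynomial (Fin s ⊕ Fin n) k ≃+* MvPolynomial (Fin s) (MvPolynomial (Fin n) k) :=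
    sumRingEquiv k (Fin s) (Fin n)
  have hr : ∀ g : MvPolynomial (Fin n) k, e (rename Sum.inr g) = C g := by
    intro g
    have h1 := AlgHom.congr_fun (sumAlgEquiv_comp_rename_inr k (Fin s) (Fin n)) g
    exact h1
  have hXl : ∀ i : Fin s, e (X (Sum.inl i)) = X i := by
    intro i
    exact sumRingEquiv_X_inl _ _ _ _
  have hC : ∀ a : k, e (C a) = C (C a) := by
    intro a
    exact sumRingEquiv_C _ _ _ _
  refine GoodP.of_equiv (Ideal.quotientEquiv _ _ e ?_).symm hmain
  rw [Ideal.map_span, ← Set.range_comp]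
  refine congrArg (fun z => Ideal.span (Set.range z)) (funext fun i => ?_)
  have h5 : e ((∏ᶠ a : H i, (X (Sum.inl i) - C (a : k))) - rename Sum.inr (f i)) =
      (∏ᶠ a : H i, (X i - C (algebraMap k (MvPolynomial (Fin n) k) (a : k)))) - C (f i) := by
    rw [map_sub, hr]
    refine congrArg (fun z => z - C (f i)) ?_
    refine (MulEquiv.map_finprod e.toMulEquiv _).trans ?_
    refine finprod_congr fun a => ?_
    show e (X (Sum.inl i) - C (a : k)) = _
    rw [map_sub, hXl, hC]
    rfl
  exact h5.symm

end Pool.Agent.AQS
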