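import Pool.Agent.AQS.St2

/-!
# AQS, module N01

Statement and proof: see `St_N01` in `Pool/Agent/AQS/St2.lean`.
-/

set_option autoImplicit false
set_option linter.unusedSectionVars false
set_option linter.style.haveILetI false

namespace Pool.Agent.AQS

open Function Pool.Agent.Helper11 Pool.Agent.HPow Pool.Agent.Helper67.Bass

open Polynomial in
/-- `AP p W h` for a quotient ring `W` of `k[X]` -/
theorem N01_gen (p : ℕ) [Fact p.Prime] (k : Type) [Field k] [Finite k] [CharP k p] (W : Type)
    [CommRing W] (φ : k[X] →+* W) (hφ : Surjective φ) (h : W) : GoodP p (AP p W h) := by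
  letI : Algebra (ZMod p) k := ZMod.algebra k p
  have hp : 2 ≤ p := (Fact.out : p.Prime).two_le
  letI : Algebra k[X] W := φ.toAlgebra
  haveI : Module.Finite k[X] W := RingHom.Finite.of_surjective φ hφ
  have hmon : (X ^ p - X - C h : W[X]).Monic := by
    have h1 : (X ^ p - X - C h : W[X]) = X ^ p + (-(X + C h)) := by ring
    rw [h1]
    rcases subsingleton_or_nontrivial W with hW | hW
    · exact Subsingleton.elim _ _
    refine monic_X_pow_add ?_
    rw [degree_neg, degree_X_add_C]
    exact_mod_cast hp
  letI : Algebra (ZMod p)[X] k[X] := (mapRingHom (algebraMap (ZMod p) k)).toAlgebra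
  let A := AP p W h
  haveI : Module.Finite W A := hmon.finite_adjoinRoot
  haveI : IsScalarTower k[X] W A := inferInstance
  haveI : Module.Finite k[X] A := Module.Finite.trans W A
  have h1 : Algebra.IsIntegral (ZMod p)[X] k[X] := by
    constructor
    intro g
    induction g using Polynomial.induction_on' with
    | add a b ha hb => exact ha.add hb
    | monomial n a =>
      rw [← C_mul_X_pow_eq_monomial]
      refine IsIntegral.mul ?_ (IsIntegral.pow ?_ n)
      · have h2 : IsIntegral (ZMod p) a := Algebra.IsIntegral.isIntegral a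
        refine IsIntegral.map_of_comp_eq (C : ZMod p →+* (ZMod p)[X]) (C : k →+* k[X]) ?_ h2
        refine RingHom.ext fun c => ?_
        show map (algebraMap (ZMod p) k) (C c) = C (algebraMap (ZMod p) k c)
        rw [map_C]
      · have h2 : (X : k[X]) = algebraMap (ZMod p)[X] k[X] X := by
          show X = map (algebraMap (ZMod p) k) X
          rw [map_X]
        rw [h2]
        exact isIntegral_algebraMap
  letI : Algebra (ZMod p)[X] A :=
    ((algebraMap k[X] A).comp (algebraMap (ZMod p)[X] k[X])).toAlgebra
  haveI : IsScalarTower (ZMod p)[X] k[X] A := IsScalarTower.of_algebraMap_eq (fun _ => rfl)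
  have h2 : Algebra.IsIntegral (ZMod p)[X] A := Algebra.IsIntegral.trans k[X]
  letI : Algebra (ZMod p) A := ((algebraMap k[X] A).comp
    (C.comp (algebraMap (ZMod p) k))).toAlgebra
  haveI := curve_ft k A
  exact GoodP.of_finGn p (finGn_curve p A (algebraMap (ZMod p)[X] A X) rfl h2)

open Polynomial in
theorem thm_N01 : St_N01 := by
  intro p _
  refine ⟨fun k _ _ _ f _ => ?_, fun k _ _ _ f _ => ?_⟩
  · refine N01_gen p k _ (((MvPolynomial.isEmptyAlgEquiv k (Fin 0)).symm : k →+*
      MvPolynomial (Fin 0) k).comp (evalRingHom 0)) ?_ f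
    intro w
    obtain ⟨c, hc⟩ := (MvPolynomial.isEmptyAlgEquiv k (Fin 0)).symm.surjective w
    refine ⟨C c, ?_⟩
    rw [← hc]
    show (MvPolynomial.isEmptyAlgEquiv k (Fin 0)).symm (eval 0 (C c)) = _
    rw [eval_C]
  · refine N01_gen p k _ ((MvPolynomial.uniqueAlgEquiv k (Fin 1)).symm : k[X] →+*
      MvPolynomial (Fin 1) k) ?_ f
    exact (MvPolynomial.uniqueAlgEquiv k (Fin 1)).symm.surjective

end Pool.Agent.AQS
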