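import Pool.Agent.AQS.St2

/-!
# AQS, module Top

Statement and proof: see `St_All` in `Pool/Agent/AQS/St2.lean`.
-/

set_option autoImplicit false
set_option linter.unusedSectionVars false

namespace Pool.Agent.AQS

open Function Pool.Agent.Helper11 Pool.Agent.HPow Pool.Agent.Helper67.Bass

private theorem Top_add1_X (p : ℕ) (k : Type) [Field k] : Add1 p (Polynomial.X : Polynomial k) := by
  intro d hd
  rw [Polynomial.mem_support_iff, Polynomial.coeff_X] at hd
  have h1 : 1 = d := by
    by_contra h
    rw [if_neg h] at hd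
    exact hd rfl
  exact ⟨0, by rw [pow_zero, ← h1]⟩

private theorem Top_add1_zero (p : ℕ) (k : Type) [Field k] : Add1 p (0 : Polynomial k) := by
  intro d hd
  rw [Polynomial.support_zero] at hd
  exact absurd hd (Finset.notMem_empty d)

private theorem Top_two (h9 : St_B9) (hc : St_C0) (h13 : St_C13) (p : ℕ) [Fact p.Prime]
    (g1 : GoodN p 1) (g0 : GoodN p 0) : GoodN p 2 := by
  intro k _ _ _ f hf
  by_cases hl : LinP p (MvPolynomial.aeval ![Polynomial.X, (0 : Polynomial k)] f)
  · refine h9 p 0 g1 g0 k f hf ⟨![Polynomial.X, 0], ?_, ⟨0, ?_⟩, hl⟩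
    · intro i
      fin_cases i
      · exact Top_add1_X p k
      · exact Top_add1_zero p k
    · exact Polynomial.X_ne_zero
  · obtain ⟨f', h1, h2, h3, h4⟩ := (hc p k).2 f hf hl
    exact h4 (h13 p g1 g0 k f' h1 h2 h3)

theorem thm_All (h0 : St_N01) (h8 : St_B8) (h9 : St_B9) (hc : St_C0) (h13 : St_C13) : St_All := by
  intro p _ n
  induction n using Nat.strong_induction_on with
  | _ n ih =>
    match n, ih with
    | 0, _ => exact (h0 p).1
    | 1, _ => exact (h0 p).2
    | 2, _ => exact Top_two h9 hc h13 p (h0 p).2 (h0 p).1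
    | n + 3, ih =>
      intro k _ _ _ f hf
      exact h9 p (n + 1) (ih (n + 2) (by omega)) (ih (n + 1) (by omega)) k f hf
        (h8 p k (n + 3) (by omega) f hf)

end Pool.Agent.AQS
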