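import Pool.Agent.AQS.A1
import Pool.Agent.AQS.A2
import Pool.Agent.AQS.A3
import Pool.Agent.AQS.A4
import Pool.Agent.AQS.A5
import Pool.Agent.AQS.B1
import Pool.Agent.AQS.B2
import Pool.Agent.AQS.B3
import Pool.Agent.AQS.B4
import Pool.Agent.AQS.B5
import Pool.Agent.AQS.B6
import Pool.Agent.AQS.B7
import Pool.Agent.AQS.B8a
import Pool.Agent.AQS.B8
import Pool.Agent.AQS.B9
import Pool.Agent.AQS.C0
import Pool.Agent.AQS.C1
import Pool.Agent.AQS.C2
import Pool.Agent.AQS.C3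
import Pool.Agent.AQS.C4
import Pool.Agent.AQS.C5
import Pool.Agent.AQS.C6
import Pool.Agent.AQS.C7
import Pool.Agent.AQS.C8a
import Pool.Agent.AQS.C8
import Pool.Agent.AQS.C9
import Pool.Agent.AQS.C10a
import Pool.Agent.AQS.C10
import Pool.Agent.AQS.C11a
import Pool.Agent.AQS.C11b
import Pool.Agent.AQS.C12
import Pool.Agent.AQS.C13a
import Pool.Agent.AQS.C13
import Pool.Agent.AQS.N01
import Pool.Agent.AQS.Top
import Pool.Agent.AQS.Fin

/-!
# AQS: the chain of all modules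
-/

set_option autoImplicit false

namespace Pool.Agent.AQS

theorem all_A4 : St_A4 := thm_A4 thm_A2 thm_A3

theorem all_B3 : St_B3 := thm_B3 thm_B1

theorem all_B9 : St_B9 :=
  thm_B9 thm_A1 (thm_B4 thm_B2 all_B3) (thm_B5 thm_A1 thm_B2) (thm_B6 thm_A1 thm_B2)
    (thm_B7 thm_A1 thm_B2)

theorem all_B8 : St_B8 := thm_B8 thm_B1 thm_B8a

theorem all_C0 : St_C0 := thm_C0 thm_A1 thm_B1 thm_B2

theorem all_C4 : St_C4 := thm_C4 thm_C2 thm_C3 thm_A5

theorem all_C5 : St_C5 := thm_C5 thm_C1 all_C4 thm_A5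

theorem all_C7 : St_C7 := thm_C7 thm_B1 thm_C6

theorem all_C8 : St_C8 := thm_C8 thm_B1 thm_B2 (thm_C8a thm_A1 thm_A5) thm_A5

theorem all_C9 : St_C9 := thm_C9 all_C5 all_C8 thm_A5

theorem all_C10 : St_C10 := thm_C10 thm_A1 thm_C1 thm_C10a

theorem all_C13 : St_C13 :=
  thm_C13 thm_A1 thm_B2 all_B9 all_C0 thm_C1 all_C7 all_C9 all_C10 thm_C11a thm_C11b
    (thm_C12 thm_C1) thm_C13a thm_A5

theorem all_All : St_All := thm_All thm_N01 all_B8 all_B9 all_C0 all_C13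

theorem all_Fin : St_Fin := thm_Fin all_A4 all_All thm_B2

end Pool.Agent.AQS
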