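import Pool.Agent.AQS.St2

/-!
# AQS, module C3

Statement and proof: see `St_C3` in `Pool/Agent/AQS/St2.lean`.
-/

set_option autoImplicit false
set_option linter.unusedSectionVars false

namespace Pool.Agent.AQS

open Function Pool.Agent.Helper11 Pool.Agent.HPow Pool.Agent.Helper67.Bass

/-- `I / I J ≅ A / J` -/
theorem C3_quot {A : Type} [CommRing A] [IsDedekindDomain A] (I J : Ideal A) (hI : I ≠ ⊥)
    (hJ : J ≠ ⊥) :
    Nonempty ((A ⧸ J) ≃ₗ[A] (Submodule.map (Submodule.mkQ (I * J)) I)) := by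
  have h0 : I * J ≠ 0 := mul_ne_zero hI hJ
  obtain ⟨a, ha⟩ := IsDedekindDomain.exists_sup_span_eq (I := I * J) (J := I) Ideal.mul_le_left h0
  have haI : a ∈ I := by
    have h1 : Ideal.span {a} ≤ I := by
      conv_rhs => rw [← ha]
      exact le_sup_right
    exact h1 (Ideal.mem_span_singleton_self a)
  let f : A →ₗ[A] A ⧸ (I * J) := LinearMap.toSpanSingleton A _ (Submodule.mkQ (I * J) a)
  have hf : ∀ r, f r = Submodule.mkQ (I * J) (r * a) := fun r => by
    simp only [f, LinearMap.toSpanSingleton_apply]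
    rw [← map_smul, smul_eq_mul]
  have hker : LinearMap.ker f = J := by
    apply le_antisymm
    · have key : ∀ K : Ideal A, (∀ r ∈ K, r * a ∈ I * J) → K ≤ J := by
        intro K hK
        have h1 : K * (I * J ⊔ Ideal.span {a}) ≤ J * I := by
          rw [Ideal.mul_sup, sup_le_iff]
          constructor
          · calc K * (I * J) ≤ I * J := Ideal.mul_le_right
              _ = J * I := mul_comm _ _
          · rw [Ideal.mul_le]
            intro r hr s hs
            obtain ⟨t, rfl⟩ := Ideal.mem_span_singleton'.1 hs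
            have h3 : r * (t * a) = t * (r * a) := by ring
            rw [h3, mul_comm J I]
            exact Ideal.mul_mem_left _ _ (hK r hr)
        rw [ha] at h1
        rw [← Ideal.dvd_iff_le] at h1 ⊢
        exact (mul_dvd_mul_iff_right hI).1 h1
      refine key _ fun r hr => ?_
      have h2 : f r = 0 := hr
      rwa [hf, Submodule.mkQ_apply, Submodule.Quotient.mk_eq_zero] at h2
    · intro r hr
      have h2 : f r = 0 := by
        rw [hf, Submodule.mkQ_apply, Submodule.Quotient.mk_eq_zero, mul_comm I J]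
        exact Ideal.mul_mem_mul hr haI
      exact h2
  have hrange : LinearMap.range f = Submodule.map (Submodule.mkQ (I * J)) I := by
    apply le_antisymm
    · rintro _ ⟨r, rfl⟩
      rw [hf]
      exact Submodule.mem_map_of_mem (I.mul_mem_left r haI)
    · rintro _ ⟨i, hi, rfl⟩
      have hi' : i ∈ I * J ⊔ Ideal.span {a} := by rw [ha]; exact hi
      obtain ⟨x, hx, y, hy, rfl⟩ := Submodule.mem_sup.1 hi'
      obtain ⟨t, rfl⟩ := Ideal.mem_span_singleton'.1 hy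
      refine ⟨t, ?_⟩
      rw [hf, map_add, Submodule.mkQ_apply (I * J) x, (Submodule.Quotient.mk_eq_zero _).2 hx,
        zero_add]
  exact ⟨(Submodule.quotEquivOfEq _ _ hker.symm).trans
    (f.quotKerEquivRange.trans (LinearEquiv.ofEq _ _ hrange))⟩

theorem C3_card_mul {A : Type} [CommRing A] [IsDedekindDomain A] (I J : Ideal A) (hI : I ≠ ⊥)
    (hJ : J ≠ ⊥) : Nat.card (A ⧸ (I * J)) = Nat.card (A ⧸ I) * Nat.card (A ⧸ J) := by
  obtain ⟨e⟩ := C3_quot I J hI hJ
  rw [← Submodule.card_quotient_mul_card_quotient I (I * J) Ideal.mul_le_left,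
    ← Nat.card_congr e.toEquiv, mul_comm]

section

variable {κ A : Type} [Field κ] [Finite κ] [CommRing A] [IsDedekindDomain A] [Algebra κ A]
    {w : A → ℕ}

theorem C3_one (hw : WV κ A w) : w 1 = 0 := by
  have h := hw.alg 1
  rwa [map_one] at h

theorem C3_smul (hw : WV κ A w) {r : κ} (hr : r ≠ 0) (a : A) : w (r • a) = w a := by
  rcases eq_or_ne a 0 with rfl | ha
  · rw [smul_zero]
  · rw [Algebra.smul_def, hw.mul _ _ _ ha, hw.alg, zero_add]
    rw [Ne, FaithfulSMul.algebraMap_eq_zero_iff]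
    exact hr

theorem C3_neg (hw : WV κ A w) (a : A) : w (-a) = w a := by
  have h := C3_smul hw (r := -1) (neg_ne_zero.2 one_ne_zero) a
  rwa [neg_smul, one_smul] at h

/-- elements of weight at most `n` -/
def C3_fil (hw : WV κ A w) (n : ℕ) : Submodule κ A where
  carrier := {a | w a ≤ n}
  add_mem' := fun {a b} ha hb => (hw.add a b).trans (max_le ha hb)
  zero_mem' := by
    show w 0 ≤ n
    rw [hw.zero]
    exact Nat.zero_le _
  smul_mem' := by
    intro r a ha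
    show w (r • a) ≤ n
    rcases eq_or_ne r 0 with rfl | hr
    · rw [zero_smul, hw.zero]
      exact Nat.zero_le _
    · rw [C3_smul hw hr]
      exact ha

theorem C3_mem (hw : WV κ A w) (n : ℕ) (a : A) : a ∈ C3_fil hw n ↔ w a ≤ n := Iff.rfl

theorem C3_mono (hw : WV κ A w) {m n : ℕ} (h : m ≤ n) : C3_fil hw m ≤ C3_fil hw n :=
  fun _ ha => le_trans ha h

theorem C3_fil_zero (hw : WV κ A w) : C3_fil hw 0 = Submodule.span κ {1} := by
  apply le_antisymm
  · intro a ha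
    rcases eq_or_ne a 0 with rfl | h0
    · exact zero_mem _
    have h1 : w a = w 1 := by rw [C3_one hw]; exact Nat.le_zero.1 ha
    obtain ⟨r, h | h⟩ := hw.lead a 1 h0 one_ne_zero h1
    · rw [h]; exact Submodule.smul_mem _ _ (Submodule.mem_span_singleton_self 1)
    · rw [C3_one hw] at h; exact absurd h (Nat.not_lt_zero _)
  · rw [Submodule.span_singleton_le_iff_mem, C3_mem, C3_one hw]

theorem C3_fil_succ (hw : WV κ A w) (n : ℕ) (e : A) (he : e ≠ 0) (h : w e = n + 1) :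
    C3_fil hw (n + 1) = C3_fil hw n ⊔ Submodule.span κ {e} := by
  apply le_antisymm
  · intro a ha
    rcases eq_or_ne a 0 with rfl | h0
    · exact zero_mem _
    rw [C3_mem] at ha
    rcases Nat.lt_or_ge (w a) (n + 1) with h1 | h1
    · exact Submodule.mem_sup_left (Nat.lt_succ_iff.1 h1)
    · obtain ⟨r, h2 | h2⟩ := hw.lead a e h0 he (by omega)
      · rw [h2]
        exact Submodule.mem_sup_right (Submodule.smul_mem _ _ (Submodule.mem_span_singleton_self e))
      · have h3 : a = (a - r • e) + r • e := by abel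
        rw [h3]
        refine Submodule.add_mem_sup ?_ (Submodule.smul_mem _ _ (Submodule.mem_span_singleton_self e))
        rw [C3_mem]; omega
  · refine sup_le (C3_mono hw (Nat.le_succ n)) ?_
    rw [Submodule.span_singleton_le_iff_mem, C3_mem, h]

theorem C3_fil_inf (hw : WV κ A w) (n : ℕ) (e : A) (h : w e = n + 1) :
    C3_fil hw n ⊓ Submodule.span κ {e} = ⊥ := by
  rw [eq_bot_iff]
  intro a ha
  obtain ⟨h1, h2⟩ := Submodule.mem_inf.1 ha
  obtain ⟨r, rfl⟩ := Submodule.mem_span_singleton.1 h2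
  rcases eq_or_ne r 0 with rfl | hr
  · rw [zero_smul]; exact zero_mem _
  · rw [C3_mem, C3_smul hw hr] at h1
    omega

theorem C3_fil_const (hw : WV κ A w) (n : ℕ) (h : ∀ e : A, e ≠ 0 → w e ≠ n + 1) :
    C3_fil hw (n + 1) = C3_fil hw n := by
  apply le_antisymm
  · intro a ha
    rw [C3_mem] at ha ⊢
    rcases eq_or_ne a 0 with rfl | h0
    · rw [hw.zero]; exact Nat.zero_le _
    · have := h a h0
      omega
  · exact C3_mono hw (Nat.le_succ n)

theorem C3_fin (hw : WV κ A w) (n : ℕ) : FiniteDimensional κ (C3_fil hw n) := by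
  induction n with
  | zero => rw [C3_fil_zero]; infer_instance
  | succ n ih =>
    by_cases h : ∃ e : A, e ≠ 0 ∧ w e = n + 1
    · obtain ⟨e, he, h⟩ := h
      rw [C3_fil_succ hw n e he h]
      infer_instance
    · rw [C3_fil_const hw n (fun e he h1 => h ⟨e, he, h1⟩)]
      exact ih

/-- dimension -/
noncomputable def C3_D (hw : WV κ A w) (n : ℕ) : ℕ := Module.finrank κ (C3_fil hw n)

theorem C3_D_succ (hw : WV κ A w) (n : ℕ) (e : A) (he : e ≠ 0) (h : w e = n + 1) :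
    C3_D hw (n + 1) = C3_D hw n + 1 := by
  have := C3_fin hw n
  have h1 := Submodule.finrank_sup_add_finrank_inf_eq (K := κ) (C3_fil hw n) (Submodule.span κ {e})
  rw [C3_fil_inf hw n e h, finrank_bot, add_zero, ← C3_fil_succ hw n e he h,
    finrank_span_singleton he] at h1
  exact h1

theorem C3_D_pos (hw : WV κ A w) (n : ℕ) : 1 ≤ C3_D hw n := by
  have := C3_fin hw n
  have : Nontrivial (C3_fil hw n) := ⟨⟨1, by rw [C3_mem, C3_one hw]; exact Nat.zero_le _⟩, 0, by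
    intro h; exact one_ne_zero (congrArg Subtype.val h)⟩
  exact Module.finrank_pos

theorem C3_D_add (hw : WV κ A w) {n0 : ℕ} (h0 : ∀ n, n0 ≤ n → ∃ a, a ≠ 0 ∧ w a = n) (n k : ℕ)
    (hn : n0 ≤ n) : C3_D hw (n + k) = C3_D hw n + k := by
  induction k with
  | zero => rfl
  | succ k ih =>
    obtain ⟨e, he, h⟩ := h0 (n + k + 1) (by omega)
    rw [← add_assoc, C3_D_succ hw (n + k) e he h, ih, add_assoc]

theorem C3_red (hw : WV κ A w) {n0 : ℕ} (h0 : ∀ n, n0 ≤ n → ∃ a, a ≠ 0 ∧ w a = n) (J : Ideal A)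
    (b : A) (hb : b ∈ J) (hb0 : b ≠ 0) (m : ℕ) (hm : n0 + w b ≤ m) :
    ∀ N : ℕ, ∀ a : A, w a ≤ N → ∃ f ∈ C3_fil hw m, a - f ∈ J := by
  intro N
  induction N with
  | zero =>
    intro a ha
    refine ⟨a, ?_, ?_⟩
    · rw [C3_mem]; omega
    · rw [sub_self]; exact zero_mem _
  | succ N ih =>
    intro a ha
    rcases Nat.lt_or_ge m (w a) with h1 | h1
    · have ha0 : a ≠ 0 := by
        rintro rfl
        rw [hw.zero] at h1
        omega
      obtain ⟨c, hc, hcw⟩ := h0 (w a - w b) (by omega)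
      have h2 : w (c * b) = w a := by rw [hw.mul _ _ hc hb0, hcw]; omega
      obtain ⟨r, h3 | h3⟩ := hw.lead a (c * b) ha0 (mul_ne_zero hc hb0) h2.symm
      · refine ⟨0, zero_mem _, ?_⟩
        rw [sub_zero, h3, Algebra.smul_def]
        exact J.mul_mem_left _ (J.mul_mem_left _ hb)
      · obtain ⟨f, hf, hf2⟩ := ih (a - r • (c * b)) (by omega)
        refine ⟨f, hf, ?_⟩
        have h4 : a - f = (a - r • (c * b) - f) + r • (c * b) := by abel
        rw [h4, Algebra.smul_def r (c * b)]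
        refine J.add_mem ?_ (J.mul_mem_left _ (J.mul_mem_left _ hb))
        rw [← Algebra.smul_def]; exact hf2
    · refine ⟨a, h1, ?_⟩
      rw [sub_self]; exact zero_mem _

/-- elements of `J` of weight at most `n` -/
def C3_X (hw : WV κ A w) (n : ℕ) (J : Ideal A) : Submodule κ A :=
  C3_fil hw n ⊓ J.restrictScalars κ

theorem C3_memX (hw : WV κ A w) (n : ℕ) (J : Ideal A) (a : A) :
    a ∈ C3_X hw n J ↔ w a ≤ n ∧ a ∈ J := Iff.rfl

/-- the map to the quotient -/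
noncomputable def C3_g (hw : WV κ A w) (n : ℕ) (J : Ideal A) : C3_fil hw n →ₗ[κ] (A ⧸ J) :=
  (Ideal.Quotient.mkₐ κ J).toLinearMap.comp (C3_fil hw n).subtype

theorem C3_g_apply (hw : WV κ A w) (n : ℕ) (J : Ideal A) (x : C3_fil hw n) :
    C3_g hw n J x = Ideal.Quotient.mk J (x : A) := rfl

theorem C3_ker (hw : WV κ A w) (n : ℕ) (J : Ideal A) :
    Module.finrank κ (LinearMap.ker (C3_g hw n J)) = Module.finrank κ (C3_X hw n J) := by
  have h1 : LinearMap.ker (C3_g hw n J) = (J.restrictScalars κ).comap (C3_fil hw n).subtype := by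
    ext x
    rw [LinearMap.mem_ker, C3_g_apply, Ideal.Quotient.eq_zero_iff_mem]
    exact Iff.rfl
  rw [h1, C3_X, ← Submodule.map_comap_subtype]
  exact (LinearEquiv.finrank_eq (Submodule.equivMapOfInjective _ (Submodule.injective_subtype _) _))

theorem C3_rank (hw : WV κ A w) {n0 : ℕ} (h0 : ∀ n, n0 ≤ n → ∃ a, a ≠ 0 ∧ w a = n) (J : Ideal A)
    (b : A) (hb : b ∈ J) (hb0 : b ≠ 0) (m : ℕ) (hm : n0 + w b ≤ m) :
    Module.Finite κ (A ⧸ J) ∧
      C3_D hw m = Module.finrank κ (A ⧸ J) + Module.finrank κ (C3_X hw m J) := by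
  have := C3_fin hw m
  have hs : Surjective (C3_g hw m J) := by
    intro y
    obtain ⟨a, rfl⟩ := Ideal.Quotient.mk_surjective y
    obtain ⟨f, hf, hf2⟩ := C3_red hw h0 J b hb hb0 m hm (w a) a le_rfl
    refine ⟨⟨f, hf⟩, ?_⟩
    rw [C3_g_apply]
    exact (Ideal.Quotient.eq.2 hf2).symm
  refine ⟨Module.Finite.of_surjective _ hs, ?_⟩
  have h1 := LinearMap.finrank_range_add_finrank_ker (C3_g hw m J)
  rw [LinearMap.range_eq_top.2 hs, finrank_top, C3_ker] at h1
  exact h1.symm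

theorem C3_pow_inj {i j : ℕ} (h : Nat.card κ ^ i = Nat.card κ ^ j) : i = j :=
  Nat.pow_right_injective (Finite.one_lt_card (α := κ)) h

theorem C3_card (hw : WV κ A w) (J : Ideal A) (hJ : J ≠ ⊥) :
    Module.Finite κ (A ⧸ J) ∧ Nat.card (A ⧸ J) = Nat.card κ ^ Module.finrank κ (A ⧸ J) := by
  obtain ⟨n0, h0⟩ := hw.big
  obtain ⟨b, hb, hb0⟩ := Submodule.exists_mem_ne_zero_of_ne_bot hJ
  obtain ⟨h1, -⟩ := C3_rank hw h0 J b hb hb0 _ le_rfl
  exact ⟨h1, Module.natCard_eq_pow_finrank⟩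

theorem C3_deg_mul (hw : WV κ A w) (I J : Ideal A) (hI : I ≠ ⊥) (hJ : J ≠ ⊥) :
    Module.finrank κ (A ⧸ (I * J)) = Module.finrank κ (A ⧸ I) + Module.finrank κ (A ⧸ J) := by
  apply C3_pow_inj (κ := κ)
  rw [pow_add, ← (C3_card hw I hI).2, ← (C3_card hw J hJ).2,
    ← (C3_card hw (I * J) (mul_ne_zero hI hJ)).2, C3_card_mul I J hI hJ]

theorem C3_deg_span (hw : WV κ A w) (a : A) (ha : a ≠ 0) :
    Module.finrank κ (A ⧸ Ideal.span {a}) = w a := by
  obtain ⟨n0, h0⟩ := hw.big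
  have h1 := (C3_rank hw h0 (Ideal.span {a}) a (Ideal.mem_span_singleton_self a) ha
    (n0 + w a) le_rfl).2
  have h2 : C3_X hw (n0 + w a) (Ideal.span {a}) =
      (C3_fil hw n0).map (LinearMap.mulLeft κ a) := by
    ext x
    rw [C3_memX, Submodule.mem_map]
    constructor
    · rintro ⟨h3, h4⟩
      obtain ⟨t, rfl⟩ := Ideal.mem_span_singleton'.1 h4
      refine ⟨t, ?_, ?_⟩
      · rw [C3_mem]
        rcases eq_or_ne t 0 with rfl | ht
        · rw [hw.zero]; exact Nat.zero_le _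
        · rw [hw.mul _ _ ht ha] at h3
          omega
      · rw [LinearMap.mulLeft_apply, mul_comm]
    · rintro ⟨t, h3, rfl⟩
      rw [LinearMap.mulLeft_apply]
      refine ⟨?_, Ideal.mul_mem_right _ _ (Ideal.mem_span_singleton_self a)⟩
      rw [C3_mem] at h3
      rcases eq_or_ne t 0 with rfl | ht
      · rw [mul_zero, hw.zero]; exact Nat.zero_le _
      · rw [hw.mul _ _ ha ht]
        omega
  have h3 : Module.finrank κ (C3_X hw (n0 + w a) (Ideal.span {a})) = C3_D hw n0 := by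
    rw [h2]
    exact (LinearEquiv.finrank_eq (Submodule.equivMapOfInjective _
      (fun x y hxy => mul_left_cancel₀ ha hxy) _)).symm
  rw [h3, C3_D_add hw h0 n0 (w a) le_rfl] at h1
  omega

/-- every nonzero ideal contains a nonzero element of small weight -/
theorem C3_small (hw : WV κ A w) {n0 : ℕ} (h0 : ∀ n, n0 ≤ n → ∃ a, a ≠ 0 ∧ w a = n) (J : Ideal A)
    (hJ : J ≠ ⊥) : ∃ a ∈ J, a ≠ 0 ∧ w a ≤ n0 + Module.finrank κ (A ⧸ J) := by
  have hf := (C3_card hw J hJ).1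
  have := C3_fin hw (n0 + Module.finrank κ (A ⧸ J))
  have h1 : Module.finrank κ (A ⧸ J) < C3_D hw (n0 + Module.finrank κ (A ⧸ J)) := by
    rw [C3_D_add hw h0 n0 _ le_rfl]
    have := C3_D_pos hw n0
    omega
  have h2 : LinearMap.ker (C3_g hw (n0 + Module.finrank κ (A ⧸ J)) J) ≠ ⊥ :=
    LinearMap.ker_ne_bot_of_finrank_lt h1
  obtain ⟨x, hx, hx0⟩ := Submodule.exists_mem_ne_zero_of_ne_bot h2
  rw [LinearMap.mem_ker, C3_g_apply, Ideal.Quotient.eq_zero_iff_mem] at hx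
  exact ⟨x, hx, fun h => hx0 (Subtype.ext h), x.2⟩

theorem C3_dvd_fin (a : A) (ha : a ≠ 0) : {I : Ideal A | a ∈ I}.Finite := by
  have h1 : (Ideal.span {a} : Ideal A) ≠ 0 := by
    rw [Ne, Ideal.zero_eq_bot, Ideal.span_singleton_eq_bot]; exact ha
  have h3 := UniqueFactorizationMonoid.fintypeSubtypeDvd (Ideal.span {a} : Ideal A) h1
  have h4 : Finite ({I : Ideal A | I ∣ Ideal.span {a}} : Set (Ideal A)) := @Finite.of_fintype _ h3
  have h2 : {I : Ideal A | I ∣ Ideal.span {a}}.Finite := Set.toFinite _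
  refine h2.subset fun I hI => ?_
  rw [Set.mem_ofPred_eq] at hI ⊢
  rw [Ideal.dvd_iff_le, Ideal.span_singleton_le_iff_mem]
  exact hI

theorem C3_fin2 (hw : WV κ A w) (n : ℕ) :
    {I : Ideal A | I ≠ ⊥ ∧ Module.finrank κ (A ⧸ I) ≤ n}.Finite := by
  obtain ⟨n0, h0⟩ := hw.big
  have h1 : (C3_fil hw (n0 + n) : Set A).Finite := by
    have := C3_fin hw (n0 + n)
    have : Finite (C3_fil hw (n0 + n)) := Module.finite_of_finite κ
    exact Set.toFinite _
  have h2 : (⋃ a ∈ {a : A | a ∈ (C3_fil hw (n0 + n) : Set A) ∧ a ≠ 0}, {I : Ideal A | a ∈ I}).Finite :=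
    (h1.subset fun a ha => ha.1).biUnion fun a ha => C3_dvd_fin a ha.2
  refine h2.subset ?_
  rintro I ⟨hI, hn⟩
  obtain ⟨a, ha, ha0, haw⟩ := C3_small hw h0 I hI
  rw [Set.mem_iUnion₂]
  refine ⟨a, ⟨?_, ha0⟩, ha⟩
  show w a ≤ n0 + n
  omega

theorem C3_fin3 (hw : WV κ A w) (n : ℕ) : {I : Ideal A | I ≠ ⊥ ∧ Nat.card (A ⧸ I) = n}.Finite := by
  refine (C3_fin2 hw n).subset ?_
  rintro I ⟨hI, hn⟩
  refine ⟨hI, ?_⟩
  rw [← hn, (C3_card hw I hI).2]
  exact (Nat.lt_pow_self (Finite.one_lt_card (α := κ))).le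

theorem C3_nz (I : nonZeroDivisors (Ideal A)) : (I : Ideal A) ≠ ⊥ := nonZeroDivisors.ne_zero I.2

/-- every class contains an ideal of small degree -/
theorem C3_cl (hw : WV κ A w) {n0 : ℕ} (h0 : ∀ n, n0 ≤ n → ∃ a, a ≠ 0 ∧ w a = n)
    (c : ClassGroup A) : ∃ I : nonZeroDivisors (Ideal A), ClassGroup.mk0 I = c ∧
      Module.finrank κ (A ⧸ (I : Ideal A)) ≤ n0 := by
  obtain ⟨J, hJ⟩ := ClassGroup.mk0_surjective c⁻¹
  obtain ⟨a, ha, ha0, haw⟩ := C3_small hw h0 (J : Ideal A) (C3_nz J)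
  have h1 : (J : Ideal A) ∣ Ideal.span {a} := by
    rw [Ideal.dvd_iff_le, Ideal.span_singleton_le_iff_mem]; exact ha
  obtain ⟨I, hI⟩ := h1
  have h2 : (Ideal.span {a} : Ideal A) ≠ ⊥ := by
    rw [Ne, Ideal.span_singleton_eq_bot]; exact ha0
  have hI0 : I ≠ ⊥ := by
    rintro rfl
    rw [Ideal.mul_bot] at hI
    exact h2 hI
  let I' : nonZeroDivisors (Ideal A) := ⟨I, mem_nonZeroDivisors_of_ne_zero hI0⟩
  refine ⟨I', ?_, ?_⟩
  · have h3 : ClassGroup.mk0 (J * I') = 1 := by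
      rw [show J * I' = ⟨J * I, (J * I').2⟩ from rfl, ClassGroup.mk0_eq_one_iff]
      exact ⟨⟨a, hI.symm⟩⟩
    rw [map_mul, hJ, inv_mul_eq_one] at h3
    exact h3.symm
  · have h3 := C3_deg_mul hw (J : Ideal A) I (C3_nz J) hI0
    rw [← hI, C3_deg_span hw a ha0] at h3
    show Module.finrank κ (A ⧸ I) ≤ n0
    omega

theorem C3_cl_fin (hw : WV κ A w) : Finite (ClassGroup A) := by
  obtain ⟨n0, h0⟩ := hw.big
  have h1 := C3_fin2 hw n0
  have : Finite {I : nonZeroDivisors (Ideal A) // Module.finrank κ (A ⧸ (I : Ideal A)) ≤ n0} := by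
    have := h1.to_subtype
    refine Finite.of_injective (β := {I : Ideal A | I ≠ ⊥ ∧ Module.finrank κ (A ⧸ I) ≤ n0})
      (fun I => ⟨(I.1 : Ideal A), C3_nz I.1, I.2⟩) ?_
    intro I J h
    have h2 := congrArg Subtype.val h
    exact Subtype.ext (Subtype.ext h2)
  refine Finite.of_surjective (α := {I : nonZeroDivisors (Ideal A) //
    Module.finrank κ (A ⧸ (I : Ideal A)) ≤ n0}) (fun I => ClassGroup.mk0 I.1) ?_
  intro c
  obtain ⟨I, hI, hI2⟩ := C3_cl hw h0 c
  exact ⟨⟨I, hI2⟩, hI⟩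

/-- ideals of given class and degree -/
abbrev C3_T (κ : Type) {A : Type} [Field κ] [CommRing A] [IsDedekindDomain A] (c : ClassGroup A)
    (n : ℕ) : Type :=
  {I : nonZeroDivisors (Ideal A) // Nat.card (A ⧸ (I : Ideal A)) = Nat.card κ ^ n ∧
    ClassGroup.mk0 I = c}

theorem C3_T_fin (hw : WV κ A w) (c : ClassGroup A) (n : ℕ) : Finite (C3_T κ c n) := by
  have := (C3_fin3 hw (Nat.card κ ^ n)).to_subtype
  refine Finite.of_injective (β := {I : Ideal A | I ≠ ⊥ ∧ Nat.card (A ⧸ I) = Nat.card κ ^ n})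
      (fun I => ⟨(I.1 : Ideal A), C3_nz I.1, I.2.1⟩) ?_
  intro I J h
  have h2 := congrArg Subtype.val h
  exact Subtype.ext (Subtype.ext h2)

theorem C3_unit (hw : WV κ A w) (u : Aˣ) : ∃ r : κ, r ≠ 0 ∧ (u : A) = algebraMap κ A r := by
  have h1 : w (u : A) = 0 := by
    have h2 := hw.mul (u : A) (u⁻¹ : Aˣ) u.ne_zero u⁻¹.ne_zero
    rw [Units.mul_inv, C3_one hw] at h2
    omega
  obtain ⟨r, h | h⟩ := hw.lead (u : A) 1 u.ne_zero one_ne_zero (by rw [h1, C3_one hw])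
  · refine ⟨r, ?_, ?_⟩
    · rintro rfl
      rw [zero_smul] at h
      exact u.ne_zero h
    · rw [h, Algebra.smul_def, mul_one]
  · rw [C3_one hw] at h
    exact absurd h (Nat.not_lt_zero _)

/-- elements of given weight in an ideal -/
theorem C3_bij (hw : WV κ A w) (J : nonZeroDivisors (Ideal A)) (n : ℕ) :
    Nonempty (C3_T κ (ClassGroup.mk0 J)⁻¹ n × κˣ ≃
      {a : A // a ∈ (J : Ideal A) ∧ a ≠ 0 ∧ w a = n + Module.finrank κ (A ⧸ (J : Ideal A))}) := by
  have hdeg : ∀ I : C3_T κ (ClassGroup.mk0 J)⁻¹ n,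
      Module.finrank κ (A ⧸ (I.1 : Ideal A)) = n := fun I => by
    apply C3_pow_inj (κ := κ)
    rw [← (C3_card hw (I.1 : Ideal A) (C3_nz I.1)).2, I.2.1]
  have hp : ∀ I : C3_T κ (ClassGroup.mk0 J)⁻¹ n,
      ∃ g : A, g ≠ 0 ∧ Ideal.span {g} = (J : Ideal A) * (I.1 : Ideal A) := by
    intro I
    have h3 : ClassGroup.mk0 (J * I.1) = 1 := by
      rw [map_mul, I.2.2, mul_inv_cancel]
    rw [show J * I.1 = ⟨J * I.1, (J * I.1).2⟩ from rfl, ClassGroup.mk0_eq_one_iff] at h3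
    obtain ⟨⟨g, hg⟩⟩ := h3
    refine ⟨g, ?_, hg.symm⟩
    rintro rfl
    have h4 : ((J : Ideal A) * (I.1 : Ideal A)) ≠ 0 := mul_ne_zero (C3_nz J) (C3_nz I.1)
    apply h4
    rw [hg, Submodule.span_zero_singleton]
    rfl
  choose g hg0 hg using hp
  have hwg : ∀ I, w (g I) = n + Module.finrank κ (A ⧸ (J : Ideal A)) := fun I => by
    rw [← C3_deg_span hw (g I) (hg0 I), hg, C3_deg_mul hw _ _ (C3_nz J) (C3_nz I.1), hdeg I,
      add_comm]
  have hsp : ∀ (r : κ) (_ : r ≠ 0) (x : A), Ideal.span {r • x} = Ideal.span {x} := by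
    intro r hr x
    rw [Algebra.smul_def]
    exact Ideal.span_singleton_mul_left_unit ((IsUnit.mk0 r hr).map (algebraMap κ A)) x
  refine ⟨Equiv.ofBijective (fun x => ⟨(x.2 : κ) • g x.1, ?_, ?_, ?_⟩) ⟨?_, ?_⟩⟩
  · rw [Algebra.smul_def]
    apply Ideal.mul_mem_left
    have h1 : g x.1 ∈ (J : Ideal A) * (x.1.1 : Ideal A) := by
      rw [← hg]; exact Ideal.mem_span_singleton_self _
    exact Ideal.mul_le_left h1
  · exact smul_ne_zero x.2.ne_zero (hg0 x.1)
  · rw [C3_smul hw x.2.ne_zero, hwg]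
  · rintro ⟨I, u⟩ ⟨I', u'⟩ h
    have h1 : (u : κ) • g I = (u' : κ) • g I' := congrArg Subtype.val h
    have h2 : (J : Ideal A) * (I.1 : Ideal A) = (J : Ideal A) * (I'.1 : Ideal A) := by
      rw [← hg, ← hg, ← hsp (u : κ) u.ne_zero, h1, hsp (u' : κ) u'.ne_zero]
    have h3 : (I.1 : Ideal A) = (I'.1 : Ideal A) := mul_left_cancel₀ (C3_nz J) h2
    have h4 : I = I' := Subtype.ext (Subtype.ext h3)
    subst h4
    have h5 : (u : κ) = (u' : κ) := smul_left_injective κ (hg0 I) h1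
    rw [Units.ext h5]
  · rintro ⟨a, ha, ha0, haw⟩
    have h1 : (J : Ideal A) ∣ Ideal.span {a} := by
      rw [Ideal.dvd_iff_le, Ideal.span_singleton_le_iff_mem]; exact ha
    obtain ⟨I, hI⟩ := h1
    have h2 : (Ideal.span {a} : Ideal A) ≠ ⊥ := by
      rw [Ne, Ideal.span_singleton_eq_bot]; exact ha0
    have hI0 : I ≠ ⊥ := by
      rintro rfl
      rw [Ideal.mul_bot] at hI
      exact h2 hI
    let I' : nonZeroDivisors (Ideal A) := ⟨I, mem_nonZeroDivisors_of_ne_zero hI0⟩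
    have h3 : ClassGroup.mk0 I' = (ClassGroup.mk0 J)⁻¹ := by
      have h3 : ClassGroup.mk0 (J * I') = 1 := by
        rw [show J * I' = ⟨J * I, (J * I').2⟩ from rfl, ClassGroup.mk0_eq_one_iff]
        exact ⟨⟨a, hI.symm⟩⟩
      rw [map_mul] at h3
      exact eq_inv_of_mul_eq_one_right h3
    have h4 : Nat.card (A ⧸ I) = Nat.card κ ^ n := by
      have h5 := C3_deg_mul hw (J : Ideal A) I (C3_nz J) hI0
      rw [← hI, C3_deg_span hw a ha0] at h5
      rw [(C3_card hw I hI0).2]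
      congr 1
      omega
    let t : C3_T κ (ClassGroup.mk0 J)⁻¹ n := ⟨I', h4, h3⟩
    have h5 : Ideal.span {g t} = Ideal.span {a} := by rw [hg, hI]
    rw [Ideal.span_singleton_eq_span_singleton] at h5
    obtain ⟨u, hu⟩ := h5
    obtain ⟨r, hr, hr2⟩ := C3_unit hw u
    refine ⟨⟨t, Units.mk0 r hr⟩, ?_⟩
    apply Subtype.ext
    show r • g t = a
    rw [Algebra.smul_def, ← hr2, mul_comm, hu]

theorem C3_count (hw : WV κ A w) (c : ClassGroup A) : ∃ n1, ∀ n, n1 ≤ n →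
    Nat.card (C3_T κ c n) * Nat.card κˣ =
      Nat.card κ ^ C3_D hw n - Nat.card κ ^ C3_D hw (n - 1) := by
  obtain ⟨n0, h0⟩ := hw.big
  obtain ⟨J, hJ⟩ := ClassGroup.mk0_surjective c⁻¹
  have hc : c = (ClassGroup.mk0 J)⁻¹ := by rw [hJ, inv_inv]
  obtain ⟨b, hb, hb0⟩ := Submodule.exists_mem_ne_zero_of_ne_bot (C3_nz J)
  set δ := Module.finrank κ (A ⧸ (J : Ideal A)) with hδ
  refine ⟨n0 + w b + 1, fun n hn => ?_⟩
  subst hc
  obtain ⟨e⟩ := C3_bij hw J n
  rw [← Nat.card_prod, Nat.card_congr e]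
  have hX : ∀ m, n0 + w b ≤ m → n0 ≤ m →
      Nat.card (C3_X hw (m + δ) (J : Ideal A)) = Nat.card κ ^ C3_D hw m := by
    intro m hm hm'
    have h1 := (C3_rank hw h0 (J : Ideal A) b hb hb0 (m + δ) (by omega)).2
    rw [C3_D_add hw h0 m δ hm'] at h1
    have h2 : Module.finrank κ (C3_X hw (m + δ) (J : Ideal A)) = C3_D hw m := by omega
    have := C3_fin hw (m + δ)
    have : Module.Finite κ (C3_X hw (m + δ) (J : Ideal A)) :=
      Submodule.finiteDimensional_of_le (inf_le_left : C3_X hw (m + δ) (J : Ideal A) ≤ _)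
    rw [← h2]
    exact Module.natCard_eq_pow_finrank
  have h3 : {a : A | a ∈ (J : Ideal A) ∧ a ≠ 0 ∧ w a = n + δ} =
      (C3_X hw (n + δ) (J : Ideal A) : Set A) \ (C3_X hw (n - 1 + δ) (J : Ideal A) : Set A) := by
    ext a
    rw [Set.mem_ofPred_eq, Set.mem_sdiff, SetLike.mem_coe, SetLike.mem_coe, C3_memX, C3_memX]
    constructor
    · rintro ⟨h1, h2, h3⟩
      exact ⟨⟨h3.le, h1⟩, fun h => by omega⟩
    · rintro ⟨⟨h1, h2⟩, h3⟩
      have h4 : ¬ w a ≤ n - 1 + δ := fun h => h3 ⟨h, h2⟩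
      refine ⟨h2, ?_, by omega⟩
      rintro rfl
      rw [hw.zero] at h4
      omega
  have h4 : Nat.card {a : A // a ∈ (J : Ideal A) ∧ a ≠ 0 ∧ w a = n + δ} =
      Set.ncard {a : A | a ∈ (J : Ideal A) ∧ a ≠ 0 ∧ w a = n + δ} := rfl
  have hsub : (C3_X hw (n - 1 + δ) (J : Ideal A) : Set A) ⊆ (C3_X hw (n + δ) (J : Ideal A) : Set A) := by
    rintro a ⟨h5, h6⟩
    refine ⟨?_, h6⟩
    have : w a ≤ n - 1 + δ := h5
    show w a ≤ n + δ
    omega
  have hfi : (C3_X hw (n - 1 + δ) (J : Ideal A) : Set A).Finite := by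
    have := C3_fin hw (n - 1 + δ)
    have : Finite (C3_fil hw (n - 1 + δ)) := Module.finite_of_finite κ
    exact (Set.toFinite (C3_fil hw (n - 1 + δ) : Set A)).subset fun a ha => ha.1
  rw [h4, h3, Set.ncard_sdiff hsub hfi]
  show Nat.card (C3_X hw (n + δ) (J : Ideal A)) - Nat.card (C3_X hw (n - 1 + δ) (J : Ideal A)) = _
  rw [hX n (by omega) (by omega), hX (n - 1) (by omega) (by omega)]

theorem C3_unif (hw : WV κ A w) : ∃ n1, ∀ n, n1 ≤ n → ∀ c d : ClassGroup A,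
    Nonempty (C3_T κ c n ≃ C3_T κ d n) := by
  have := C3_cl_fin hw
  choose N hN using C3_count hw
  obtain ⟨M, hM⟩ := (Set.finite_range N).bddAbove
  refine ⟨M, fun n hn c d => ?_⟩
  have h1 : ∀ c, N c ≤ n := fun c => (hM ⟨c, rfl⟩).trans hn
  have h2 : Nat.card (C3_T κ c n) = Nat.card (C3_T κ d n) := by
    have h3 := (hN c n (h1 c)).trans (hN d n (h1 d)).symm
    exact Nat.eq_of_mul_eq_mul_right (Nat.card_pos) h3
  have := C3_T_fin hw c n
  have := C3_T_fin hw d n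
  exact Finite.card_eq.1 h2

end

theorem thm_C3 : St_C3 := by
  intro κ A _ _ _ _ _ w hw
  refine ⟨fun I hI => ?_, C3_fin3 hw, ?_⟩
  · have := (C3_card hw I hI).1
    exact Module.finite_of_finite κ
  intro ℓ _ ψ hψ
  obtain ⟨n1, h1⟩ := C3_unif hw
  refine ⟨n1, fun n hn a b => ?_⟩
  have e : ∀ c d, C3_T κ c n ≃ C3_T κ d n := fun c d => (h1 n hn c d).some
  have hS : ∀ a : ZMod ℓ, Nonempty ({I : nonZeroDivisors (Ideal A) //
      Nat.card (A ⧸ (I : Ideal A)) = Nat.card κ ^ n ∧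
          ψ (ClassGroup.mk0 I) = Multiplicative.ofAdd a} ≃
      Σ c : {c : ClassGroup A // ψ c = Multiplicative.ofAdd a}, C3_T κ c.1 n) := by
    intro a
    refine ⟨⟨fun I => ⟨⟨ClassGroup.mk0 I.1, I.2.2⟩, ⟨I.1, I.2.1, rfl⟩⟩,
      fun x => ⟨x.2.1, x.2.2.1, by rw [x.2.2.2]; exact x.1.2⟩, ?_, ?_⟩⟩
    · intro I; rfl
    · rintro ⟨⟨c, hc⟩, ⟨I, hI, hI'⟩⟩
      change ClassGroup.mk0 I = c at hI'
      subst hI'
      rfl
  obtain ⟨δ, hδ⟩ := hψ (Multiplicative.ofAdd (b - a))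
  have hE : {c : ClassGroup A // ψ c = Multiplicative.ofAdd a} ≃
      {c : ClassGroup A // ψ c = Multiplicative.ofAdd b} := by
    refine (Equiv.mulRight δ).subtypeEquiv fun c => ?_
    rw [Equiv.coe_mulRight, map_mul, hδ, ofAdd_sub]
    constructor
    · intro h
      rw [h, mul_div_cancel]
    · intro h
      rw [← mul_div_assoc, div_eq_iff_eq_mul] at h
      rw [mul_comm] at h
      exact mul_left_cancel h
  obtain ⟨e1⟩ := hS a
  obtain ⟨e2⟩ := hS b
  exact Nat.card_congr (e1.trans ((Equiv.sigmaCongr hE fun c => e c.1 (hE c).1).trans e2.symm))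

end Pool.Agent.AQS
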