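import Pool.Agent.HPow.Curve
import Pool.Agent.HPow.Loc
import Pool.Agent.HPow.Spl
import Pool.Agent.HPow.Fre
import Mathlib.FieldTheory.Perfect

/-!
# Additive-quadratic Artin-Schreier varieties: definitions

`p` is a prime number, all rings have characteristic `p`.
-/

set_option autoImplicit false
set_option linter.unusedSectionVars false

namespace Pool.Agent.AQS

open Function Pool.Agent.Helper11 Pool.Agent.HPow Pool.Agent.Helper67.Bass

/-! ### the rings -/

open Polynomial in
/-- `W[y] / (y ^ p - y - h)` -/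
abbrev AP (p : ℕ) (W : Type) [CommRing W] (h : W) : Type := AdjoinRoot (X ^ p - X - C h)

open MvPolynomial in
/-- `W[y_1, …, y_s] / (y_i ^ p - y_i - f_i)` -/
abbrev APs (p : ℕ) (W : Type) [CommRing W] {s : ℕ} (f : Fin s → W) : Type :=
  MvPolynomial (Fin s) W ⧸ Ideal.span (Set.range fun i => X i ^ p - X i - C (f i))

/-- the element `y` -/
noncomputable def AP.y {p : ℕ} {W : Type} [CommRing W] (h : W) : AP p W h :=
  AdjoinRoot.root (Polynomial.X ^ p - Polynomial.X - Polynomial.C h)

/-- the homomorphism from `W` -/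
noncomputable def AP.o {p : ℕ} {W : Type} [CommRing W] (h : W) : W →+* AP p W h :=
  AdjoinRoot.of (Polynomial.X ^ p - Polynomial.X - Polynomial.C h)

theorem AP.eq {p : ℕ} {W : Type} [CommRing W] (h : W) :
    (AP.y h : AP p W h) ^ p - AP.y h = AP.o h h := by
  have h1 := AdjoinRoot.eval₂_root (Polynomial.X ^ p - Polynomial.X - Polynomial.C h)
  rw [Polynomial.eval₂_sub, Polynomial.eval₂_sub, Polynomial.eval₂_pow, Polynomial.eval₂_X,
    Polynomial.eval₂_C, sub_eq_zero] at h1
  exact h1

/-- the universal property -/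
noncomputable def AP.lift {p : ℕ} {W B : Type} [CommRing W] [CommRing B] {h : W} (φ : W →+* B)
    (b : B) (hb : b ^ p - b = φ h) : AP p W h →+* B :=
  AdjoinRoot.lift φ b (by
    rw [Polynomial.eval₂_sub, Polynomial.eval₂_sub, Polynomial.eval₂_pow, Polynomial.eval₂_X,
      Polynomial.eval₂_C, sub_eq_zero]
    exact hb)

theorem AP.lift_o {p : ℕ} {W B : Type} [CommRing W] [CommRing B] {h : W} (φ : W →+* B)
    (b : B) (hb : b ^ p - b = φ h) (w : W) : AP.lift φ b hb (AP.o h w) = φ w :=
  AdjoinRoot.lift_of _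

theorem AP.lift_y {p : ℕ} {W B : Type} [CommRing W] [CommRing B] {h : W} (φ : W →+* B)
    (b : B) (hb : b ^ p - b = φ h) : AP.lift φ b hb (AP.y h) = b :=
  AdjoinRoot.lift_root _

theorem AP.ext {p : ℕ} {W B : Type} [CommRing W] [CommRing B] {h : W} {φ ψ : AP p W h →+* B}
    (h0 : ∀ w, φ (AP.o h w) = ψ (AP.o h w)) (h1 : φ (AP.y h) = ψ (AP.y h)) : φ = ψ :=
  AdjoinRoot.ringHom_ext (RingHom.ext h0) h1

/-- functoriality in `W` -/
noncomputable def AP.map {p : ℕ} {W W' : Type} [CommRing W] [CommRing W'] (φ : W →+* W')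
    (h : W) : AP p W h →+* AP p W' (φ h) :=
  AP.lift ((AP.o (φ h)).comp φ) (AP.y (φ h)) (AP.eq (φ h))

/-- equivalence of right hand sides -/
def PE (p : ℕ) {W : Type} [CommRing W] (h h' : W) : Prop := ∃ g : W, h - h' = g ^ p - g

/-! ### additive-quadratic polynomials -/

/-- additive-quadratic: a linear combination of `1`, `x_i ^ (p ^ a)`,
`x_i ^ (p ^ a) x_j ^ (p ^ b)` -/
def AQ (p : ℕ) {k σ : Type} [CommSemiring k] (f : MvPolynomial σ k) : Prop :=
  ∀ d ∈ f.support, d = 0 ∨ (∃ i a, d = Finsupp.single i (p ^ a)) ∨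
    ∃ i j a b, d = Finsupp.single i (p ^ a) + Finsupp.single j (p ^ b)

/-- a linear combination of `1`, `x_i ^ (p ^ a)` -/
def AffM (p : ℕ) {k σ : Type} [CommSemiring k] (f : MvPolynomial σ k) : Prop :=
  ∀ d ∈ f.support, d = 0 ∨ ∃ i a, d = Finsupp.single i (p ^ a)

/-- the same in one variable: `1`, `X ^ (p ^ a)`, `X ^ (p ^ a + p ^ b)` -/
def AQ1 (p : ℕ) {k : Type} [CommSemiring k] (f : Polynomial k) : Prop :=
  ∀ d ∈ f.support, d = 0 ∨ (∃ a, d = p ^ a) ∨ ∃ a b, d = p ^ a + p ^ b

/-- additive polynomials in one variable: a linear combination of `X ^ (p ^ a)` -/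
def Add1 (p : ℕ) {k : Type} [CommSemiring k] (g : Polynomial k) : Prop :=
  ∀ d ∈ g.support, ∃ a, d = p ^ a

open Polynomial in
/-- equivalent to a polynomial of degree at most one -/
def LinP (p : ℕ) {k : Type} [Field k] (P : k[X]) : Prop := ∃ l c : k, PE p P (C l * X + C c)

open Polynomial in
/-- there is a nonzero vector of additive polynomials on which `f` is equivalent to a polynomial of
degree at most one -/
def Isotr (p : ℕ) {k : Type} [Field k] {n : ℕ} (f : MvPolynomial (Fin n) k) : Prop :=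
  ∃ φ : Fin n → k[X], (∀ i, Add1 p (φ i)) ∧ (∃ i, φ i ≠ 0) ∧ LinP p (MvPolynomial.aeval φ f)

/-- the theorem for one equation in `n` variables over all finite fields -/
def GoodN (p n : ℕ) : Prop :=
  ∀ (k : Type) [Field k] [Finite k] [CharP k p] (f : MvPolynomial (Fin n) k), AQ p f →
    GoodP p (AP p (MvPolynomial (Fin n) k) f)

open Polynomial in
/-- the reduced coefficient `∑_i (coeff (p ^ i d)) ^ (1 / p ^ i)` -/
noncomputable def rho (p : ℕ) {k : Type} [Field k] [ExpChar k p] [PerfectRing k p] (P : k[X])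
    (d : ℕ) : k :=
  ∑ i ∈ Finset.range (P.natDegree + 1), ((frobeniusEquiv k p).symm)^[i] (P.coeff (p ^ i * d))

open Polynomial in
/-- `k[x_0, x_1] → k[x_1][x_0]`, `x_0 ↦ X`, `x_1 ↦ C X` -/
noncomputable def to2 (k : Type) [Field k] : MvPolynomial (Fin 2) k →ₐ[k] k[X][X] :=
  MvPolynomial.aeval ![X, C X]

/-! ### points -/

/-- the finite field (or ring) `E` as a module over `R` through `ε : R → E` -/
noncomputable def ptM {R E : Type} [CommRing R] [CommRing E] [Finite E] (ε : R →+* E) : FGMod R :=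
  letI : Module R E := Module.compHom E ε
  haveI : Module.Finite R E := Module.Finite.of_finite
  FGMod.of R E

/-- the class of a point -/
noncomputable def pt {R E : Type} [CommRing R] [CommRing E] [Finite E] (ε : R →+* E) : G0 R :=
  G0.mk (ptM ε)

/-- the subgroup generated by the points of `R` with values in the finite fields with
`q ^ d` elements, `N ∣ d` -/
noncomputable def ptS (R : Type) [CommRing R] (q N : ℕ) : AddSubgroup (G0 R) :=
  AddSubgroup.closure {x | ∃ (E : Type) (_ : Field E) (_ : Finite E) (ε : R →+* E) (d : ℕ),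
    Nat.card E = q ^ d ∧ N ∣ d ∧ x = pt ε}

/-- flat base change along a ring homomorphism -/
noncomputable def bcH {R S : Type} [CommRing R] [CommRing S] (φ : R →+* S) (h : φ.Flat) :
    G0 R →+ G0 S :=
  letI := φ.toAlgebra
  haveI : Module.Flat R S := h
  bcG R S

/-- restriction along a finite ring homomorphism -/
noncomputable def resH {R S : Type} [CommRing R] [CommRing S] (φ : R →+* S) (h : φ.Finite) :
    G0 S →+ G0 R :=
  letI := φ.toAlgebra
  haveI : Module.Finite R S := h
  resG R S

/-! ### degree functions -/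

/-- `w` is a degree function on the `F`-algebra `A` with one dimensional graded pieces, with values
all large integers (pole order at a rational point at infinity) -/
structure WV (F A : Type) [Field F] [CommRing A] [Algebra F A] (w : A → ℕ) : Prop where
  zero : w 0 = 0
  mul : ∀ a b, a ≠ 0 → b ≠ 0 → w (a * b) = w a + w b
  add : ∀ a b, w (a + b) ≤ max (w a) (w b)
  alg : ∀ r : F, w (algebraMap F A r) = 0
  lead : ∀ a b, a ≠ 0 → b ≠ 0 → w a = w b → ∃ r : F, a = r • b ∨ w (a - r • b) < w b
  big : ∃ n0, ∀ n, n0 ≤ n → ∃ a, a ≠ 0 ∧ w a = n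

end Pool.Agent.AQS
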