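import Pool.Agent.AQS.Defs

/-!
# Additive-quadratic Artin-Schreier varieties: the weight on a curve
-/

set_option autoImplicit false
set_option linter.unusedSectionVars false

namespace Pool.Agent.AQS

open Function Polynomial

theorem AP.monic (p : ℕ) (hp : 2 ≤ p) {W : Type} [CommRing W] (h : W) :
    (X ^ p - X - C h : W[X]).Monic := by
  have h1 : (X ^ p - X - C h : W[X]) = X ^ p + (-(X + C h)) := by ring
  rw [h1]
  rcases subsingleton_or_nontrivial W with hW | hW
  · exact Subsingleton.elim _ _
  refine monic_X_pow_add ?_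
  rw [degree_neg, degree_X_add_C]
  exact_mod_cast hp

/-- the coefficient of `y ^ j` -/
noncomputable def AP.cf {p : ℕ} [Fact p.Prime] {W : Type} [CommRing W] {h : W} (a : AP p W h)
    (j : ℕ) : W :=
  (AdjoinRoot.modByMonicHom (AP.monic p (Fact.out : p.Prime).two_le h) a).coeff j

/-- the weight `max (p deg a_j + m j)` of `∑ a_j y ^ j` (`a_j ≠ 0`), `m` the degree of `P` -/
noncomputable def AP.wt {p : ℕ} [Fact p.Prime] {F : Type} [Field F] {P : F[X]}
    (a : AP p F[X] P) : ℕ := by
  classical
  exact (Finset.range p).sup fun j =>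
    if AP.cf a j = 0 then 0 else p * (AP.cf a j).natDegree + P.natDegree * j

end Pool.Agent.AQS
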