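import Pool.Agent.AQS.All

/-!
# Finite generation of `K'₀`, up to bounded `p`-torsion, for additive-quadratic Artin-Schreier
varieties over finite fields
-/

namespace Pool.Agent.AQS.OldAQ

open Pool.Agent.AQS Pool.Agent.Helper11 MvPolynomial

/-- Let `k` be a finite field of characteristic `p`, `H_1, …, H_s` additive subgroups of `k`,
`A_i(y) = ∏_{h ∈ H_i} (y - h)`, and let the polynomials `f_1, …, f_s ∈ k[x_1, …, x_n]` be
`k`-linear combinations of the monomials `1`, `x_j ^ (p ^ a)`, `x_j ^ (p ^ a) x_l ^ (p ^ b)`. For the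
étale covering `V : A_i(y_i) = f_i(x)` of affine `n`-space there are a finitely generated subgroup
`Γ` of `G₀(V)` and `e` with `p ^ e G₀(V) ⊆ Γ`. -/
theorem result {p : ℕ} [Fact p.Prime] {k : Type} [Field k] [Finite k] [CharP k p] {s n : ℕ}
    (H : Fin s → AddSubgroup k) (f : Fin s → MvPolynomial (Fin n) k)
    (hf : ∀ i, ∀ d ∈ (f i).support, d = 0 ∨ (∃ j a, d = Finsupp.single j (p ^ a)) ∨
      ∃ j l a b, d = Finsupp.single j (p ^ a) + Finsupp.single l (p ^ b)) :
    ∃ Γ : AddSubgroup (G0 (MvPolynomial (Fin s ⊕ Fin n) k ⧸ Ideal.span (Set.range fun i =>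
      (∏ᶠ a : H i, (X (Sum.inl i) - C (a : k))) - rename Sum.inr (f i)))),
      Γ.FG ∧ ∃ e : ℕ, ∀ x, p ^ e • x ∈ Γ :=
  all_Fin p k s n H f hf

end Pool.Agent.AQS.OldAQ
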