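import Pool.Agent.AQS.Defs

/-!
# Additive-quadratic Artin-Schreier varieties: statements

Theorem S: for a finite field `k` of characteristic `p` and additive-quadratic `f_i ∈ k[x]` the group
`G₀` of `k[x, y] / (A_i(y_i) - f_i(x))`, `A_i(y) = ∏_{h ∈ H_i} (y - h)`, is finitely generated up to
a bounded power of `p`. Paper proof: `helper67_Bass_S_paper.md` in the team store, with the
simplifications made here.
The library `Pool/Agent/HPow` proves the special case of powers of the Hermitian curve; it contains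
`GoodP` (`Cl.lean`, `Fre.lean`, `Loc.lean`, `Spl.lean`) and the curve case (`Curve.lean`).
-/

set_option autoImplicit false
set_option linter.unusedSectionVars false

namespace Pool.Agent.AQS

open Function Pool.Agent.Helper11 Pool.Agent.HPow Pool.Agent.Helper67.Bass

/-! ## Part A: Artin-Schreier extensions -/

/-- **A1** (1.5 h). Basic isomorphisms. Proof. (1) `y ↦ y + g` (`W` has characteristic `p`:
`(y + g) ^ p = y ^ p + g ^ p`), inverse `y ↦ y - g`. (2) `AdjoinRoot.mapRingEquiv` (see `stp_congr` in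
`Pool/Agent/HPow/Stp.lean`). (3) `AP p W[σ] (C h) ≅ (AP p W h)[σ]` (`stp_iso` in `Stp.lean` does it for
one variable), then `GoodP.mvPolynomial`. (4) both sides are `W[y] / (I, y ^ p - y - h)`
(`AP.lift`, `Ideal.Quotient.lift`). (5) `AP p W' h` is free over `AP p W h` of rank `p ^ e`
(a basis is given by the images of `b`: both are free over `W` with the basis `y ^ i`, `b_j y ^ i`; or
`AP p W' h ≅ W' ⊗[W] AP p W h`, `Algebra.TensorProduct.basis`), then `res_bc_free` and
`GoodP.of_map` (`Pool/Agent/HPow/Fre.lean`, `Cl.lean`). (6) `AP p V h` is the localisation of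
`AP p W h` away from `s`; `GoodP.of_away` and (4). (7) as `spl_mul` in `Spl.lean`, with (4). -/
def St_A1 : Prop :=
  ∀ (p : ℕ) [Fact p.Prime] (W : Type) [CommRing W],
    ((p : W) = 0 → ∀ h h' : W, PE p h h' → Nonempty (AP p W h ≃+* AP p W h')) ∧
    (∀ (W' : Type) [CommRing W'] (e : W ≃+* W') (h : W),
      Nonempty (AP p W h ≃+* AP p W' (e h))) ∧
    (IsNoetherianRing W → ∀ (σ : Type) [Finite σ] (h : W), GoodP p (AP p W h) →
      GoodP p (AP p (MvPolynomial σ W) (MvPolynomial.C h))) ∧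
    (∀ (I : Ideal W) (h : W), Nonempty ((AP p W h ⧸ I.map (AP.o h : W →+* AP p W h)) ≃+*
      AP p (W ⧸ I) (Ideal.Quotient.mk I h))) ∧
    (∀ (W' : Type) [CommRing W'] [Algebra W W'] (e : ℕ) (_ : Module.Basis (Fin (p ^ e)) W W')
      (h : W), GoodP p (AP p W' (algebraMap W W' h)) → GoodP p (AP p W h)) ∧
    (IsNoetherianRing W → ∀ (V : Type) [CommRing V] [Algebra W V] (s : W)
      [IsLocalization.Away s V] (h : W),
      GoodP p (AP p (W ⧸ Ideal.span {s}) (Ideal.Quotient.mk _ h)) →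
      GoodP p (AP p V (algebraMap W V h)) → GoodP p (AP p W h)) ∧
    (IsNoetherianRing W → ∀ s t h : W,
      GoodP p (AP p (W ⧸ Ideal.span {s}) (Ideal.Quotient.mk _ h)) →
      GoodP p (AP p (W ⧸ Ideal.span {t}) (Ideal.Quotient.mk _ h)) →
      GoodP p (AP p (W ⧸ Ideal.span {s * t}) (Ideal.Quotient.mk _ h)))

/-- **A2** (2 h). From several equations to one. Proof: adapt `IsoL.lean`, `Gal.lean`, `Line.lean`,
`ASr.lean` of `Pool/Agent/HPow` (there: `y ^ q + y`, translations by the `b` with `b ^ q + b = 0`,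
multipliers `c ^ q = c`; here: `y ^ p - y`, translations by `b ∈ ZMod p`, multipliers
`c ∈ ZMod p`); the counting identity is the same with `q = p`. -/
def St_A2 : Prop :=
  ∀ (p : ℕ) [Fact p.Prime] (W : Type) [CommRing W] [IsNoetherianRing W] [Algebra (ZMod p) W]
    (s : ℕ) (f : Fin s → W), GoodP p W →
    (∀ c : Fin s → ZMod p, GoodP p (AP p W (∑ i, algebraMap (ZMod p) W (c i) * f i))) →
    GoodP p (APs p W f)

open Polynomial in
/-- **A3** (2.5 h). The polynomial `A(y) = ∏_{h ∈ H} (y - h)` of a finite additive subgroup `H` of `k`.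
Proof. `H` is an `F_p`-vector space; let `h_1, …, h_r` be a basis and `λ_j : H → F_p` the dual
basis. `A` is additive (`A(x + y) = A(x) + A(y)` as polynomials: for `x = h ∈ H` this is clear, so
`A(X + y) - A(X) - A(y)`, a polynomial in `X` of degree less than `|H| = p ^ r` over `k[y]`, vanishes on
`H`; or induct on `r`: `A_(H + F_p h) = A_H ^ p - A_H(h) ^ (p-1) A_H`).
Every `F_p`-linear map `H → F_p ⊆ k` is the restriction of a unique additive polynomial
`L_j = ∑_{a < r} l_ja X ^ (p ^ a)` (the matrix `(h_i ^ (p ^ a))_(i, a)` is invertible, Moore; or by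
induction on `r`; or `L_j` = interpolation polynomial of degree `< p ^ r`, which is additive by the
argument above). `L_j ^ p - L_j` vanishes on `H` and has degree at most `p ^ r`, so it is `c_j A` with
`c_j ∈ k`. The polynomial `∑ h_j L_j(X) - X` vanishes on `H` and has degree `< p ^ r`, so it is zero.
Now let `z` be a root: `A(z) = f`. Then `y_j = L_j(z)` satisfy `y_j ^ p - y_j = c_j f` and
`∑ h_j y_j = z`. Conversely let `y_j ^ p - y_j = c_j f` in a `k`-algebra `B` and `z = ∑ h_j y_j`.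
The polynomial `A(h_j Y)` is additive and vanishes on `F_p`, so `A(h_j Y) = N_j(Y ^ p - Y)` with `N_j`
additive; `A(z) = ∑ A(h_j y_j) = ∑ N_j(c_j f)`, and `∑ N_j(c_j T) = T` because this is true for
`T = A(X)` (apply it to `y_j = L_j(X)`). In the same way `L_i(h_j Y) - δ_ij Y = K_ij(Y ^ p - Y)`,
`L_i(z) = y_i + ∑_j K_ij(c_j f)` and `∑_j K_ij(c_j T) = 0`.
(For `H = ⊥` one has `r = 0`, `A = X`: this is the reason for the constant `e`, `e = 1` for `H = ⊥` and
`e = 0` otherwise.) -/
def St_A3 : Prop :=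
  ∀ (p : ℕ) [Fact p.Prime] (k : Type) [Field k] [Finite k] [CharP k p]
    (H : AddSubgroup k), ∃ (r : ℕ) (e : k) (c h : Fin r → k) (L : Fin r → k[X]),
    ∀ (B : Type) [CommRing B] [Algebra k B] (f : B),
      (∀ z : B, aeval z (∏ᶠ a : H, (X - C (a : k))) = f →
        (∀ j, aeval z (L j) ^ p - aeval z (L j) = c j • f) ∧
          ∑ j, h j • aeval z (L j) + e • f = z) ∧
      (∀ y : Fin r → B, (∀ j, y j ^ p - y j = c j • f) →
        aeval (∑ j, h j • y j + e • f) (∏ᶠ a : H, (X - C (a : k))) = f ∧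
        ∀ i, aeval (∑ j, h j • y j + e • f) (L i) = y i)

open MvPolynomial in
/-- **A4** (1.5 h), with the hypotheses `St_A2`, `St_A3`. Proof. With the data `r_i, c_i, h_i, L_i` of
`St_A3` for `H i` the ring is isomorphic to `APs p W f'`, where `f'` has the entries
`c_ij f_i` (`i : Fin s`, `j : Fin (r_i)`; reindex the sigma type by `Fin R`): both represent functors,
the maps are `y_ij ↦ L_ij(z_i)`, `z_i ↦ ∑_j h_ij y_ij + e_i f_i`. Then `St_A2`. -/
def St_A4 : Prop :=
  ∀ (p : ℕ) [Fact p.Prime] (k : Type) [Field k] [Finite k] [CharP k p] (W : Type) [CommRing W]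
    [IsNoetherianRing W] [Algebra k W] (s : ℕ) (H : Fin s → AddSubgroup k) (f : Fin s → W),
    GoodP p W → (∀ g ∈ Submodule.span k (Set.range f), GoodP p (AP p W g)) →
    GoodP p (MvPolynomial (Fin s) W ⧸ Ideal.span (Set.range fun i =>
      (∏ᶠ a : H i, (X i - C (algebraMap k W (a : k)))) - C (f i)))

/-- **A5** (1 h). Functoriality of points. Proof: directly from the definitions (`resG_mk`,
`mk_eq_of_iso`; the two module structures on `E` agree; for the third statement `E` is a vector space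
over the field `R ⧸ ker ε`, which is finite, so `E ≅ (R ⧸ ker ε) ^ n` as an `R`-module). -/
def St_A5 : Prop :=
  (∀ (R S E : Type) [CommRing R] [CommRing S] [CommRing E] [Finite E] (φ : R →+* S)
    (h : φ.Finite) (ε : S →+* E), resH φ h (pt ε) = pt (ε.comp φ)) ∧
  (∀ (R E E' : Type) [CommRing R] [CommRing E] [CommRing E'] [Finite E] [Finite E']
    (ε : R →+* E) (e : E ≃+* E'), pt ((e : E →+* E').comp ε) = pt ε) ∧
  (∀ (R E : Type) [CommRing R] [Field E] [Finite E] (ε : R →+* E), (RingHom.ker ε).IsMaximal ∧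
    Finite (R ⧸ RingHom.ker ε) ∧ ∃ n : ℕ, Nat.card E = Nat.card (R ⧸ RingHom.ker ε) ^ n ∧
      pt ε = n • G0.mk (FGMod.of R (R ⧸ RingHom.ker ε)))

/-! ## Part B: additive-quadratic polynomials, isotropic case -/

open Polynomial in
/-- **B1** (1.5 h). Reduced coefficients. Proof. (1) additivity: `frobeniusEquiv.symm` is additive,
`coeff` is additive; the sum may be extended to any larger range since
`p ^ i d > natDegree` for `i ≥ natDegree`, `d ≥ 1`. (2) `rho (g ^ p) d = rho g d` because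
`coeff (g ^ p) (p ^ (i+1) d) = (coeff g (p ^ i d)) ^ p` and `coeff (g ^ p) d = 0` for `p ∤ d`
(`Polynomial.expand`, `map_frobenius_expand`). (3) monomials. (4) `→` by (2) and (3). `←`: every
monomial `c X ^ (p ^ i d)` is equivalent to `c ^ (1 / p ^ i) X ^ d` (`PE` is an equivalence relation
compatible with sums), so `P` is equivalent to `∑_{p ∤ d} rho P d X ^ d + P_0`, and only `d = 1`
contributes. -/
def St_B1 : Prop :=
  ∀ (p : ℕ) [Fact p.Prime] (k : Type) [Field k] [Finite k] [CharP k p] [ExpChar k p]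
    [PerfectRing k p],
    (∀ (P Q : k[X]) (d : ℕ), 1 ≤ d → rho p (P + Q) d = rho p P d + rho p Q d) ∧
    (∀ (P Q : k[X]) (d : ℕ), 1 ≤ d → ¬ p ∣ d → PE p P Q → rho p P d = rho p Q d) ∧
    (∀ (c : k) (i d d' : ℕ), 1 ≤ d → ¬ p ∣ d → 1 ≤ d' → ¬ p ∣ d' →
      rho p (C c * X ^ (p ^ i * d)) d' = if d' = d then ((frobeniusEquiv k p).symm)^[i] c else 0) ∧
    (∀ P : k[X], LinP p P ↔ ∀ d, 2 ≤ d → ¬ p ∣ d → rho p P d = 0)

open MvPolynomial in
/-- **B2** (1.5 h). Stability properties. Proof. In characteristic `p`, `φ ^ (p ^ a)` is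
again in `AffM` for `φ` in `AffM` (Frobenius), and a product of two elements of `AffM` is in `AQ`.
`aeval φ f = ∑ coeff_d ∏ φ_i ^ (d i)`. The sets of `AQ`, `AffM`, `AQ1`, `Add1` polynomials are closed
under sums and scalar multiplication (support of a sum). -/
def St_B2 : Prop :=
  ∀ (p : ℕ) [Fact p.Prime] (k : Type) [Field k] [CharP k p] (σ τ : Type),
    (∀ (f : MvPolynomial σ k) (φ : σ → MvPolynomial τ k), AQ p f → (∀ i, AffM p (φ i)) →
      AQ p (aeval φ f)) ∧
    (∀ (f : MvPolynomial σ k) (φ : σ → MvPolynomial τ k), AffM p f → (∀ i, AffM p (φ i)) →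
      AffM p (aeval φ f)) ∧
    (∀ (f : MvPolynomial σ k) (φ : σ → Polynomial k), AQ p f →
      (∀ i, ∃ c, Add1 p (φ i - Polynomial.C c)) → AQ1 p (aeval φ f)) ∧
    (∀ f g : MvPolynomial σ k, AQ p f → AQ p g → AQ p (f + g)) ∧
    (∀ (c : k) (f : MvPolynomial σ k), AQ p f → AQ p (C c * f)) ∧
    (∀ (K : Type) [Field K] (ι : k →+* K) (f : MvPolynomial σ k), AQ p f →
      AQ p (MvPolynomial.map ι f)) ∧
    (∀ f : MvPolynomial σ k, AffM p f → AQ p f)

open Polynomial in
/-- **B3** (1.5 h), with the hypothesis `St_B1`. Proof. Suppose `P` is not `LinP`. By `St_B1` (4) and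
`AQ1` there is a largest `h` with `C_h := rho P (1 + p ^ h) ≠ 0` and `p ∤ 1 + p ^ h` (the exponents
`p ^ a + p ^ b = p ^ a (1 + p ^ (b-a))`, `a ≤ b`, have the part prime to `p` equal to `1 + p ^ (b-a)`, and
for `p = 2`, `a = b`, equal to `1`). `P` is equivalent to `∑_{a ≤ h} C_a X ^ (1 + p ^ a) + l X + c`
(sum over `a` with `p ∤ 1 + p ^ a`), so `P(g)` is equivalent to
`∑ C_a g ^ (1 + p ^ a) + l g + c`. Let `g = ∑_{i ≤ u ≤ e} g_u X ^ (p ^ u)`, `g_i, g_e ≠ 0`. The term
`C_a g_u g_v ^ (p ^ a) X ^ (p ^ u + p ^ (v + a))` has reduced exponent `1 + p ^ |v + a - u|` (`1` if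
`p = 2` and `v + a = u`), and `|v + a - u| ≤ h + e - i` with equality only for `a = h`, `v = e`,
`u = i`, or `h = a = 0`, `{u, v} = {i, e}`. So `rho (P(g)) (1 + p ^ (h + e - i))` is a `p`-power root
of `C_h g_i g_e ^ (p ^ h)`, resp. (`h = 0`, `e > i`, `p` odd) of `2 C_0 g_i g_e`, hence not zero
(`1 + p ^ (h+e-i) ≥ 2` is prime to `p`). This contradicts `LinP (P(g))`. -/
def St_B3 : Prop :=
  ∀ (p : ℕ) [Fact p.Prime] (k : Type) [Field k] [Finite k] [CharP k p] (P g : k[X]), AQ1 p P →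
    Add1 p g → g ≠ 0 → LinP p (P.comp g) → LinP p P

open Polynomial in
/-- **B4** (2 h), with the hypotheses `St_B2`, `St_B3`. Row reduction. Proof. Induction on
`∑ natDegree (φ i)`. For an automorphism `E : x_i ↦ x_i + c x_j ^ (p ^ m)` (`i ≠ j`, other variables
fixed; inverse with `-c`) of `k[x]`: `AP p _ f ≅ AP p _ (E f)`, `E f` is `AQ` (`St_B2`), and
`E f` is isotropic with `φ'_i = φ_i - c φ_j ^ (p ^ m)`, `φ'_l = φ_l` otherwise
(`aeval φ' (E f) = aeval φ f`). If two of the `φ_i` are not zero, say `deg φ_i = p ^ u ≥ deg φ_j = p ^ v`,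
choose `m = u - v` and `c` such that the leading terms cancel (`c = lc φ_i / (lc φ_j) ^ (p ^ m)`); the sum
of the degrees decreases (also if `φ'_i = 0`, as `deg φ_i ≥ 1`). If only `φ_i = g ≠ 0`, rename the
variables such that `i = 0`. Then `f(g, 0, …, 0)` is `LinP`, `P = f(X, 0, …, 0)` is `AQ1` and
`P.comp g = f(g, 0, …, 0)`; so `P` is `LinP` by `St_B3`. -/
def St_B4 : Prop :=
  ∀ (p : ℕ) [Fact p.Prime] (k : Type) [Field k] [Finite k] [CharP k p] (n : ℕ)
    (f : MvPolynomial (Fin (n + 1)) k), AQ p f → Isotr p f →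
    ∃ f' : MvPolynomial (Fin (n + 1)) k, AQ p f' ∧
      LinP p (MvPolynomial.aeval (Fin.cons X 0 : Fin (n + 1) → k[X]) f') ∧
      Nonempty (AP p (MvPolynomial (Fin (n + 1)) k) f ≃+* AP p (MvPolynomial (Fin (n + 1)) k) f')

open Polynomial in
/-- **B5** (2 h), with the hypotheses `St_A1`, `St_B2`. The purely inseparable twist. Proof. Write
`f = P(x_0) + ∑_{j ≥ 1} ∑_{a,b} c_jab x_0 ^ (p ^ a) x_j ^ (p ^ b) + f_1(x_1, …, x_n)`, where
`P(X) = f(X, 0, …, 0) - f(0)` or so is `LinP`. Let `A` be at least all the `a` occurring. The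
substitution `x_j ↦ x_j ^ (p ^ A)` for `j ≥ 1`, `x_0 ↦ x_0` makes `k[x]` a free module of rank
`p ^ (A n)` over itself (basis: monomials in `x_1, …, x_n` with exponents `< p ^ A`), so by
`St_A1` (5) it is enough that `GoodP` holds for
`f~ = P(x_0) + ∑ c_jab x_0 ^ (p ^ a) x_j ^ (p ^ (A + b)) + f_1(x_1 ^ (p ^ A), …)`. The monomial
`c x_0 ^ (p ^ a) x_j ^ (p ^ (A+b))` is equivalent to `c ^ (1 / p ^ a) x_0 x_j ^ (p ^ (A+b-a))`
(`k` is perfect), and `P(x_0)` to `l x_0 + c`. So `f~` is equivalent to `x_0 S + f''`,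
`S = l + ∑ c_jab ^ (1 / p ^ a) x_j ^ (p ^ (A+b-a))`, `f'' = c + f_1(x_1 ^ (p ^ A), …)`. Finally
`k[x_0, …, x_n] ≅ k[x_1, …, x_n][x_0]` (`MvPolynomial.finSuccEquiv`). -/
def St_B5 : Prop :=
  ∀ (p : ℕ) [Fact p.Prime] (k : Type) [Field k] [Finite k] [CharP k p] (n : ℕ)
    (f : MvPolynomial (Fin (n + 1)) k), AQ p f →
    LinP p (MvPolynomial.aeval (Fin.cons X 0 : Fin (n + 1) → k[X]) f) →
    ∃ S f' : MvPolynomial (Fin n) k, AffM p S ∧ AQ p f' ∧
      (GoodP p (AP p (MvPolynomial (Fin n) k)[X] (C S * X + C f')) →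
        GoodP p (AP p (MvPolynomial (Fin (n + 1)) k) f))

open Polynomial in
/-- **B6** (2 h), with the hypotheses `St_A1`, `St_B2`. Column reduction. Proof. Let
`S = l + ∑_j β_j(x_j)`, `β_j` additive polynomials in one variable. Induction on
`∑_j natDegree β_j`. If `β_i, β_j ≠ 0`, `i ≠ j`, `deg β_i = p ^ u ≥ deg β_j = p ^ v`, use the automorphism
`E : x_j ↦ x_j + a x_i ^ (p ^ (u-v))` of `k[x]`: `E S = l + ∑_(l ≠ i) β_l(x_l) + β'_i(x_i)` with
`β'_i(x) = β_i(x) + β_j(a x ^ (p ^ (u-v)))`, and `a` is chosen such that the leading terms cancel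
(`lc β_i + lc β_j a ^ (p ^ v) = 0`; `k` is perfect). `E f'` is `AQ`. The isomorphism of rings is
`St_A1` (2) for the automorphism of `k[x][X]` induced by `E`. At the end at most one `β_j` is not zero;
rename the variables such that `j = 0`. -/
def St_B6 : Prop :=
  ∀ (p : ℕ) [Fact p.Prime] (k : Type) [Field k] [Finite k] [CharP k p] (n : ℕ)
    (S f : MvPolynomial (Fin (n + 1)) k), AffM p S → AQ p f →
    ∃ (S' : k[X]) (f' : MvPolynomial (Fin (n + 1)) k), AQ p f' ∧
      Nonempty (AP p (MvPolynomial (Fin (n + 1)) k)[X] (C S * X + C f) ≃+*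
        AP p (MvPolynomial (Fin (n + 1)) k)[X]
          (C (aeval (MvPolynomial.X 0 : MvPolynomial (Fin (n + 1)) k) S') * X + C f'))

open Polynomial in
/-- **B7** (2.5 h), with the hypotheses `St_A1`, `St_B2`. Proof. Let `W = k[x_0, …, x_n]`,
`s = S(x_0)`. If `S = 0`: `AP p W[X] (C f)` is good by `GoodN (n+1)` and `St_A1` (3) (one variable:
`Polynomial W ≅ MvPolynomial Unit W` or `stp_iso` in `Stp.lean`).
If `S ≠ 0` use `St_A1` (6) for the element `C s` of `W[X]`. Localised at `s`: over `V = W[1/s]` the ring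
`AP p V[X] (s X + f)` is isomorphic to `V[Y]` (`X = s⁻¹ (Y ^ p - Y - f)`), which is `FinGn`
(`FinGn.of_pid` for `k`, `FinGn.mvPolynomial`, `FinGn.away`, `GoodP.of_finGn`). Modulo `s`: by
`St_A1` (7) and induction on the number of irreducible factors of `S` in `k[X]` it is enough to
consider `W[X] / (C π(x_0))`, `π` irreducible (units: the zero ring). With
`k' = AdjoinRoot π` (a finite field) it is isomorphic to `k'[x_1, …, x_n][X]`, and `AP` of it to
`AP p k'[x_1, …, x_n][X] (C f_1)`, `f_1(x_1, …) = f(r, x_1, …)`, `r` the root, which is `AQ` by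
`St_B2` (base change to `k'` and substitution `x_0 ↦ C r`). So it is good by `GoodN n`, `St_A1` (3). -/
def St_B7 : Prop :=
  ∀ (p : ℕ) [Fact p.Prime] (n : ℕ), GoodN p (n + 1) → GoodN p n →
    ∀ (k : Type) [Field k] [Finite k] [CharP k p] (S : k[X])
      (f : MvPolynomial (Fin (n + 1)) k), AQ p f →
      GoodP p (AP p (MvPolynomial (Fin (n + 1)) k)[X]
        (C (aeval (MvPolynomial.X 0 : MvPolynomial (Fin (n + 1)) k) S) * X + C f))

/-- **B8a** (1 h). Chevalley's theorem for quadratic forms. Proof. Choose a basis of `W`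
(`N` elements); `φ ↦ B_i(φ, φ)` is given by a polynomial of total degree `≤ 2` in the coordinates.
`char_dvd_card_solutions_of_fintype_sum_lt`: the number of common zeros is divisible by `p`; `0` is
one of them. -/
def St_B8a : Prop :=
  ∀ (p : ℕ) [Fact p.Prime] (W : Type) [AddCommGroup W] [Module (ZMod p) W]
    [Module.Finite (ZMod p) W] (I : Type) [Fintype I] (B : I → W →+ W →+ ZMod p),
    2 * Fintype.card I < Module.finrank (ZMod p) W → ∃ w : W, w ≠ 0 ∧ ∀ i, B i w w = 0

/-- **B8** (2 h), with the hypotheses `St_B1`, `St_B8a`. Proof. Let `h` be an upper bound for the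
exponents `a`, `b` occurring in `f`, `d = 2 h`. Let `W = Fin n → Fin (d + 1) → k`; to `w ∈ W` belongs
the vector `φ_i = ∑_{u ≤ d} w i u X ^ (p ^ u)` (`w ≠ 0` iff some `φ_i ≠ 0`). For
`r ≤ d + h` with `p ∤ 1 + p ^ r` the map `R_r(w) = rho (aeval φ f) (1 + p ^ r) ∈ k` is of the form
`B_r(w, w)` with `B_r : W →+ W →+ k` biadditive: the monomial `c x_i ^ (p ^ a) x_j ^ (p ^ b)` contributes
`∑_{u, v} c w_iu ^ (p ^ a) w_jv ^ (p ^ b) X ^ (p ^ (u+a) + p ^ (v+b))`, whose reduced
exponent is `1 + p ^ |u + a - v - b|` (`St_B1` (3)), with coefficient the `p ^ min`-th root; the other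
monomials only contribute to the reduced exponent `1`. All other `rho (aeval φ f) d'`, `d' ≥ 2`,
`p ∤ d'`, vanish. Composing with the coordinates of `k` over `F_p` (dimension `M`) one gets at most
`(d + h + 1) M` forms on a space of dimension `n (d + 1) M > 2 (d + h + 1) M` since
`n ≥ 3`, `d = 2 h`. By `St_B8a` there is `w ≠ 0` with `R_r(w) = 0` for all `r`, so `LinP (aeval φ f)`
by `St_B1` (4). -/
def St_B8 : Prop :=
  ∀ (p : ℕ) [Fact p.Prime] (k : Type) [Field k] [Finite k] [CharP k p] (n : ℕ), 3 ≤ n →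
    ∀ f : MvPolynomial (Fin n) k, AQ p f → Isotr p f

/-- **B9** (20 min), with the hypotheses `St_A1`, `St_B4`, `St_B5`, `St_B6`, `St_B7`: assembly. -/
def St_B9 : Prop :=
  ∀ (p : ℕ) [Fact p.Prime] (n : ℕ), GoodN p (n + 1) → GoodN p n →
    ∀ (k : Type) [Field k] [Finite k] [CharP k p] (f : MvPolynomial (Fin (n + 2)) k), AQ p f →
      Isotr p f → GoodP p (AP p (MvPolynomial (Fin (n + 2)) k) f)

end Pool.Agent.AQS
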