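import Pool.Agent.AQS.St
import Pool.Agent.AQS.Defs2

/-!
# Additive-quadratic Artin-Schreier varieties: statements, part C (surfaces)

The case of two variables. After `St_C0` one has `f = Q(x_0) + x_0 β(x_1) + f_2(x_1)` with `Q` of degree
`m = 1 + p ^ h` prime to `p`, with constant leading coefficient: the fibres over the `x_1`-line are
Artin-Schreier curves with one rational point at infinity.
-/

set_option autoImplicit false
set_option linter.unusedSectionVars false

namespace Pool.Agent.AQS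

open Function Pool.Agent.Helper11 Pool.Agent.HPow Pool.Agent.Helper67.Bass

open Polynomial in
/-- **C0** (2 h), with the hypotheses `St_A1`, `St_B1`. Normal form. Proof. First part: `to2 k` is
bijective (`finSuccEquiv` and `MvPolynomial.pUnitAlgEquiv` or directly: the inverse is
`X ↦ x_0`, `C X ↦ x_1`). Second part. Write
`f = P(x_0) + ∑ c_ab x_0 ^ (p ^ a) x_1 ^ (p ^ b) + f_1(x_1)` with `P = f(X, 0)`. As `P` is not `LinP`, by
`St_B1` (4) it is equivalent to `Q + l X + c`, `Q = ∑_{a ≤ h} C_a X ^ (1 + p ^ a)` (sum over the `a`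
with `p ∤ 1 + p ^ a`, `C_a = rho P (1 + p ^ a)`), `C_h ≠ 0`. Let `A` be at least all the `a` occurring in
the mixed terms. The substitution `x_1 ↦ x_1 ^ (p ^ A)` makes `k[x_0, x_1]` free of rank `p ^ A` over
itself, so by `St_A1` (5) it is enough to consider
`P(x_0) + ∑ c_ab x_0 ^ (p ^ a) x_1 ^ (p ^ (A + b)) + f_1(x_1 ^ (p ^ A))`, which is equivalent to
`f' = Q(x_0) + x_0 (l + ∑ c_ab ^ (1 / p ^ a) x_1 ^ (p ^ (A + b - a))) + c + f_1(x_1 ^ (p ^ A))`
(`St_A1` (1)). `to2 k f'` has degree `1 + p ^ h ≥ 2` in `X`, with leading coefficient the constant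
`C_h`. -/
def St_C0 : Prop :=
  ∀ (p : ℕ) [Fact p.Prime] (k : Type) [Field k] [Finite k] [CharP k p], Bijective (to2 k) ∧
    ∀ f : MvPolynomial (Fin 2) k, AQ p f → ¬ LinP p (MvPolynomial.aeval ![X, (0 : k[X])] f) →
      ∃ f' : MvPolynomial (Fin 2) k, AQ p f' ∧ ¬ p ∣ (to2 k f').natDegree ∧
        IsUnit (to2 k f').leadingCoeff ∧
        (GoodP p (AP p (MvPolynomial (Fin 2) k) f') → GoodP p (AP p (MvPolynomial (Fin 2) k) f))

open Polynomial in
/-- **C1** (3 h). Artin-Schreier curves over a field `F` (not necessarily perfect), `m = deg P` prime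
to `p`. Proof. `A` has the `F`-basis `x ^ i y ^ j`, `j < p`, of weight `p i + m j`; these weights are
distinct. (a) `wt` is multiplicative: the product of the leading monomials is `x ^ (i+i') y ^ (j+j')`,
and for `j + j' ≥ p`, `y ^ (j+j') = y ^ (j+j'-p) (y + P)` is `lc(P) x ^ m y ^ (j+j'-p)` plus terms of
smaller weight; so the leading coefficient of a product is not zero and the weights add. (Use
`AdjoinRoot.modByMonicHom`, `powerBasis'`; it may be convenient to prove first that `wt (x ^ i y ^ j a) =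
p i + m j + wt a`, `j < p`, by induction on `j` from `wt (y a) = m + wt a`.) In particular `A` is a
domain. `lead`: subtract a multiple to cancel the leading monomials (the same monomial, since the
weights of the monomials are distinct). `big`: `p i + m j`, `j < p`, takes all large values
(`gcd(p, m) = 1`). (b) Dedekind: `A` is finite over `F[x]`, so noetherian and of dimension at most one
(`Ring.DimensionLEOne` of an integral extension). Integrally closed: let `K = F(x)`,
`L = Frac A = K(y)`, `g = Y ^ p - Y - P`, `g' = -1` (`p = 0`). If `z ∈ L` is integral over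
`F[x]` then `discr • z ∈ F[x][y]` (`Algebra.discr_mul_isIntegral_mem_adjoin` for the power basis of
`y`), and the discriminant is `± N(g'(y)) = ±1` (`Algebra.discr_powerBasis_eq_norm`). -/
def St_C1 : Prop :=
  ∀ (p : ℕ) [Fact p.Prime] (F : Type) [Field F] [CharP F p] (P : F[X]), ¬ p ∣ P.natDegree →
    IsDedekindDomain (AP p F[X] P) ∧ WV F (AP p F[X] P) (fun a => AP.wt a)

/-- **C2** (2 h). A combinatorial lemma (nonexistence of a nontrivial character with polynomial
`L`-function). Proof. Suppose the counts are equal for all `n ≥ n0`. Let `ζ` be a primitive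
`ℓ`-th root of unity in `ℂ`, `χ(x) = ζ ^ ψ(x)`. For multisets `s` put `d(s) = ∑ d`, `χ(s) = ∏ χ`.
There are only finitely many `s` with `d(s) = n` (at most `n` elements, from a finite set). Let
`a_n = ∑_{d(s) = n} χ(s)` and `L = ∑ a_n t ^ n ∈ ℂ⟦t⟧`. By hypothesis `a_n = 0` for `n ≥ n0` (a sum over all
`ζ ^ a` with equal multiplicities), so `L` is a polynomial; `a_0 = 1`. For `n ≥ 1` let
`Λ_n = ∑_{x : d(x) ∣ n} d(x) χ(x) ^ (n / d(x))`. Then `n a_n = ∑_{i=1}^n Λ_i a_(n-i)`:
for a multiset `s` with `d(s) = n` one has `n = ∑_x d(x) count_x(s)`, and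
`count_x(s)` is the number of `k ≥ 1` with `k • {x} ≤ s`; sum over pairs `(x, k)`,
`s = k • {x} + s'`. In other words `t L' = L Λ`, `Λ = ∑ Λ_n t ^ n`. Let
`D = ∏_{j < ℓ} L(ζ ^ j t)` (`PowerSeries.rescale`), a polynomial with `D_0 = 1`. Then
`t D' = D ∑_j Λ(ζ ^ j t) = D λ`, where `λ_n = ℓ Λ_n` if `ℓ ∣ n` and `λ_n = 0` otherwise.
If `ℓ ∣ n` then `Λ_n` is a nonnegative integer: for `ℓ ∣ d(x)` one has `χ(x) = 1`, otherwise
`ℓ ∣ n / d(x)` and `χ(x) ^ (n / d(x)) = 1`. Hence by `n D_n = ∑_{i=1}^n λ_i D_(n-i)` all `D_n` are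
nonnegative reals and `n D_n ≥ λ_n`. For one `x ∈ Pr` and `n = ℓ d(x) r`, `r ≥ 1` arbitrary, `λ_n > 0`,
so `D_n ≠ 0`: contradiction. -/
def St_C2 : Prop :=
  ∀ (ℓ : ℕ) [Fact ℓ.Prime] (Pr : Type) [Nonempty Pr] (d : Pr → ℕ), (∀ x, 0 < d x) →
    (∀ n, {x | d x = n}.Finite) → ∀ ψ : Pr → ZMod ℓ, (∀ x, ℓ ∣ d x → ψ x = 0) → ∀ n0 : ℕ,
    ¬ ∀ n, n0 ≤ n → ∀ a b : ZMod ℓ,
      Nat.card {s : Multiset Pr // (s.map d).sum = n ∧ (s.map ψ).sum = a} =
        Nat.card {s : Multiset Pr // (s.map d).sum = n ∧ (s.map ψ).sum = b}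

/-- **C3** (3 h). Counting ideals. Proof. `q = |κ|`, `Fil n = {a | a = 0 ∨ w a ≤ n}`, a `κ`-subspace,
`Fil 0 = κ`, `|Fil (n+1)|` is `|Fil n|` or `q |Fil n|` (`lead`), and `q |Fil n|` for `n ≥ n0` (`big`). So
there is `g` with `|Fil n| ≥ q ^ (n + 1) / q ^ g` for all `n` and `|Fil n| = C q ^ n` for `n ≥ n0`.
(1) For `b ≠ 0`: every `a` with `w a ≥ n0 + w b` can be decreased by a multiple of `b`
(`big`, `lead`, `mul`), so `A = Fil (n0 + w b) + (b)` and `A ⧸ (b)` is finite; so `A ⧸ J` is finite for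
`J ≠ ⊥`, its cardinality is a power `q ^ (deg J)`. For `n` large `Fil n → A ⧸ J` is surjective with
kernel `J ∩ Fil n`, so `|J ∩ Fil n| = |Fil n| / q ^ (deg J)`. For `J = (a)`:
`J ∩ Fil n = a Fil (n - w a)`, so `deg (a) = w a`. `deg (I J) = deg I + deg J` for nonzero ideals
(`I ⧸ I J ≅ A ⧸ J`, Dedekind domains).
(2) Finitely many ideals of given degree: let `x ∈ A` with `w x > 0` (`big`). If `A ⧸ I` has `N` elements
then `x ^ i - x ^ j ∈ I` for some `i < j ≤ N`, so `I` contains the nonzero element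
`b_N = ∏_{i < j ≤ N} (x ^ i - x ^ j)` (distinct weights), and `A ⧸ (b_N)` is finite.
(3) Every class contains an ideal of degree at most `g`: for `J ≠ ⊥`, `n = deg J + g` one has
`|Fil n| > q ^ (deg J)`, so there is `0 ≠ a ∈ J ∩ Fil n`, `(a) = I J`, `deg I = w a - deg J ≤ g`.
So the class group is finite.
(4) Let `c` be a class and `J ≠ ⊥` in `c⁻¹`. The nonzero ideals `I` in `c` with `deg I = n` correspond to
the principal ideals `(a) = I J ⊆ J` with `w a = n + deg J =: N`; generators are unique up to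
`κ ^ ×` (units have weight `0`, so are in `κ` by `lead`). So their number is
`(|J ∩ Fil N| - |J ∩ Fil (N-1)|) / (q - 1) = C q ^ (n - 1)` for `n` large, for every class `c`.
(5) Sum over the classes `c` with `ψ c = a`; the number of these does not depend on `a`, since
`ψ` is a surjective homomorphism. -/
def St_C3 : Prop :=
  ∀ (κ A : Type) [Field κ] [Finite κ] [CommRing A] [IsDedekindDomain A] [Algebra κ A]
    (w : A → ℕ), WV κ A w →
    (∀ I : Ideal A, I ≠ ⊥ → Finite (A ⧸ I)) ∧
    (∀ n, {I : Ideal A | I ≠ ⊥ ∧ Nat.card (A ⧸ I) = n}.Finite) ∧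
    ∀ (ℓ : ℕ) [Fact ℓ.Prime] (ψ : ClassGroup A →* Multiplicative (ZMod ℓ)), Surjective ψ →
      ∃ n0, ∀ n, n0 ≤ n → ∀ a b : ZMod ℓ,
        Nat.card {I : nonZeroDivisors (Ideal A) // Nat.card (A ⧸ (I : Ideal A)) = Nat.card κ ^ n ∧
          ψ (ClassGroup.mk0 I) = Multiplicative.ofAdd a} =
        Nat.card {I : nonZeroDivisors (Ideal A) // Nat.card (A ⧸ (I : Ideal A)) = Nat.card κ ^ n ∧
          ψ (ClassGroup.mk0 I) = Multiplicative.ofAdd b}

/-- **C4** (2.5 h), with the hypotheses `St_C2`, `St_C3`, `St_A5`. Norms, prime degree.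
Proof. Let `q = |κ|`, `T = ptS A q ℓ`. There is a homomorphism
`θ : ClassGroup A → G0 A ⧸ T` (written additively), the class of a nonzero ideal `I` goes to `[A ⧸ I]`:
`[A ⧸ I J] = [A ⧸ I] + [A ⧸ J]` (`I ⧸ I J ≅ A ⧸ J`) and `[A ⧸ (a)] = 0` for `a ≠ 0`. Let `G` be its image.
`G` is killed by `ℓ`: it is generated by the `[A ⧸ 𝔭]`, `𝔭` nonzero primes; with `d(𝔭)` such that
`|A ⧸ 𝔭| = q ^ d(𝔭)`, if `ℓ ∣ d(𝔭)` then `[A ⧸ 𝔭] ∈ T`; otherwise let `E` be an extension of degree `ℓ` of
`A ⧸ 𝔭`; its class is `ℓ [A ⧸ 𝔭]` (`St_A5` (3)) and lies in `T`. Suppose `G ≠ 0`. Then `G` is a nonzero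
vector space over `ZMod ℓ`, so there is a surjective homomorphism `G → ZMod ℓ`, hence
`ψ : ClassGroup A →* Multiplicative (ZMod ℓ)` surjective with `ψ [𝔭] = 0` if `ℓ ∣ d(𝔭)`. Let `Pr` be the
set of nonzero primes of `A` (it is not empty: `A` is not a field by `big`; primes of given degree are
finite in number, `St_C3`). Nonzero ideals correspond to multisets of elements of `Pr`
(unique factorisation; `normalizedFactors`), so `St_C3` says that the hypothesis of `St_C2` is satisfied
for large `n`: contradiction. So `G = 0`: `[A ⧸ 𝔭] ∈ T` for all `𝔭`. Finally `ε : A → E` has as kernel a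
maximal ideal, nonzero since `A` is not a field, and `pt ε` is a multiple of `[A ⧸ ker ε]`
(`St_A5` (3)). -/
def St_C4 : Prop :=
  ∀ (κ A : Type) [Field κ] [Finite κ] [CommRing A] [IsDedekindDomain A] [Algebra κ A]
    (w : A → ℕ), WV κ A w → ∀ (ℓ : ℕ) [Fact ℓ.Prime] (E : Type) [Field E] [Finite E]
    (ε : A →+* E), pt ε ∈ ptS A (Nat.card κ) ℓ

open Polynomial in
/-- **C5** (2 h), with the hypotheses `St_C1`, `St_C4`, `St_A5`. Norms, arbitrary degree.
Proof by induction on `N`, for all `κ, P, E, ε`. `N = 1`: `pt ε` itself. Let `N = ℓ N_1`, `ℓ` prime,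
`q = |κ|`, `A = AP p κ[X] P`. By `St_C4` (with `St_C1`) `pt ε ∈ ptS A q ℓ`, so it is enough to show
`pt ε' ∈ ptS A q N` for `ε' : A → E'`, `|E'| = q ^ (ℓ c)`. Let `κ_1 ⊆ E'` be the subfield with `q ^ ℓ`
elements (the fixed points of `x ↦ x ^ (q ^ ℓ)`); it contains the image of `κ`, `ι : κ → κ_1`. Let
`A_1 = AP p κ_1[X] (P.map ι)`. `ε'` extends to `ε_1 : A_1 → E'` (`AP.lift`; on `κ_1[X]` use
`eval₂`), i.e. `ε' = ε_1 ∘ φ`, `φ : A → A_1` the canonical homomorphism `AP.map`, which is finite. By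
induction `pt ε_1 ∈ ptS A_1 (q ^ ℓ) N_1`. Apply `resH φ` and `St_A5` (1):
`|E''| = (q ^ ℓ) ^ d`, `N_1 ∣ d` gives `|E''| = q ^ (ℓ d)`, `N ∣ ℓ d`. -/
def St_C5 : Prop :=
  ∀ (p : ℕ) [Fact p.Prime] (κ : Type) [Field κ] [Finite κ] [CharP κ p] (P : κ[X]),
    ¬ p ∣ P.natDegree → ∀ N : ℕ, 1 ≤ N → ∀ (E : Type) [Field E] [Finite E]
      (ε : AP p κ[X] P →+* E), pt ε ∈ ptS (AP p κ[X] P) (Nat.card κ) N

open MvPolynomial in
/-- **C6** (2 h). `r < N` polynomials in `N` variables without constant term over an algebraically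
closed field have a common zero different from the origin. Proof. Let `𝔪 = (X_1, …, X_N)` (the kernel of
evaluation at `0`), `I = (g_1, …, g_r) ⊆ 𝔪`. The height of `𝔪` is at least `N`: the ideals
`(X_1, …, X_i)` are prime and form a strictly increasing chain. So `𝔪` is not minimal over `I`: by
Krull's theorem (`Ideal.height_le_spanFinrank`, `Ideal.height_le_spanRank_toENat_of_mem_minimalPrimes`)
minimal primes over `I` have height at most `r < N`. Let `𝔮 ⊆ 𝔪` be a minimal prime over `I`
(`Ideal.exists_minimalPrimes_le`), `𝔮 ≠ 𝔪`. If `0` were the only common zero of `𝔮` then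
`𝔮 = vanishingIdeal (zeroLocus 𝔮)` (Nullstellensatz,
`MvPolynomial.vanishingIdeal_zeroLocus_eq_radical`) would contain `𝔪`. -/
def St_C6 : Prop :=
  ∀ (K : Type) [Field K] [IsAlgClosed K] (N r : ℕ), r < N → ∀ g : Fin r → MvPolynomial (Fin N) K,
    (∀ i, constantCoeff (g i) = 0) → ∃ x : Fin N → K, x ≠ 0 ∧ ∀ i, eval x (g i) = 0

/-- **C7** (2.5 h), with the hypotheses `St_B1`, `St_C6`. Isotropy over a finite extension.
Proof. Let `K` be an algebraic closure of `k`, `h` an upper bound for the exponents `a`, `b` occurring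
in `f`, `d ≥ h`, `d ≥ 1`. Unknowns: `w_iu`, `i < 2`, `u ≤ d`, `N = 2 (d + 1)` of them, `φ_i =
∑_u w_iu X ^ (p ^ u)`. For `r ≤ d + h` the reduced coefficient of `f(φ_0, φ_1)` for the exponent
`1 + p ^ r` is a sum of terms `(c w_iu ^ (p ^ a) w_jv ^ (p ^ b)) ^ (1 / p ^ e)` with
`e ≤ d + h` (the terms of the monomial `c x_i ^ (p ^ a) x_j ^ (p ^ b)` with
`|u + a - v - b| = r`, `e = min (u + a) (v + b)`); its `p ^ (d + h)`-th power is the value of a polynomial
`g_r(w)` over `k` without constant term. The number of these polynomials is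
`d + h + 1 < 2 (d + 1)`. By `St_C6` there is a common zero `w ≠ 0` in `K`. The subfield `k' = k(w)` of
`K` is a finite field. Over `k'` the reduced coefficients `rho (aeval φ f) (1 + p ^ r)` vanish, and
all others with `d' ≥ 2`, `p ∤ d'` vanish trivially, so `LinP` by `St_B1` (4). -/
def St_C7 : Prop :=
  ∀ (p : ℕ) [Fact p.Prime] (k : Type) [Field k] [Finite k] [CharP k p]
    (f : MvPolynomial (Fin 2) k), AQ p f →
    ∃ (k' : Type) (_ : Field k') (_ : Finite k') (_ : Algebra k k'),
      Isotr p (MvPolynomial.map (algebraMap k k') f)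

open Polynomial in
/-- **C8a** (1.5 h), with the hypotheses `St_A1`, `St_A5`. Proof. By `St_A1` (1) (2) (transport of points
along ring isomorphisms: `resH` for an isomorphism and `St_A5` (1)) one may assume
`P = l X + c`. If `l ≠ 0` then `L = AP p E[X] P` is isomorphic to `E[Y]` (`X = l⁻¹ (Y ^ p - Y - c)`). If
`l = 0` then `L ≅ B[X]`, `B = E[y] / (y ^ p - y - c)` a finite ring. In both cases `L ≅ B[X]` for a
finite ring `B` (`B = E` in the first case). Let `𝔫` be the kernel of `B → L → E'`, a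
maximal ideal (`B ⧸ 𝔫` is a finite domain), `M = (B ⧸ 𝔫)[X]`, a quotient ring of `B[X]`, a PID. `ε`
factors through `M`, its kernel there is generated by some `π ≠ 0`, and
`0 → M → M → M ⧸ (π) → 0` shows `[M ⧸ (π)] = 0` in `G0 (B[X])`; `pt ε` is a multiple of it
(`St_A5` (3)). -/
def St_C8a : Prop :=
  ∀ (p : ℕ) [Fact p.Prime] (E : Type) [Field E] [Finite E] [CharP E p] (P : E[X]), LinP p P →
    ∀ (E' : Type) [Field E'] [Finite E'] (ε : AP p E[X] P →+* E'), pt ε = 0

open Polynomial in
/-- **C8** (2 h), with the hypotheses `St_B1`, `St_B2`, `St_C8a`, `St_A5`. Points lie on isotropic lines.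
Proof. Let `ι : k → E` be the composition in the statement (`E` has characteristic `p`),
`a i = ε (AP.o f (X i)) ∈ E`, `b = ε (AP.y f)`, `b ^ p - b = f(a)`. Let `φ` be isotropic for
`f_E = map ι f`. Put `P = aeval (fun i => C (a i) + φ i) f_E ∈ E[X]`. It is `LinP`: by `St_B1` (4) one
has to compare reduced coefficients for `d ≥ 2`, `p ∤ d`; expanding each monomial of `f_E`,
`P - aeval φ f_E` is a linear combination of `1` and `X ^ (p ^ u)` (`a` constants), whose reduced
coefficients vanish. Let `L = AP p E[X] P` and `θ : V → L`,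
`V = AP p (MvPolynomial (Fin n) k) f`, `c ↦ C (ι c)`, `x_i ↦ C (a i) + φ i`, `y ↦ y` (`AP.lift`). `θ` is
finite: `L` is finite over `E[X]`, and `X` is integral over the image of `V` (some `φ i ≠ 0`, a
polynomial of positive degree with leading coefficient a unit, `X` satisfies `φ i(X) = θ(x_i) - a i`
with coefficients in the finite extension `E` of `ι k`; e.g. show that `L` is generated as a `V`-module
by the `e X ^ j y ^ l`, `e ∈ E`, `j < deg φ i`, `l < p`, or use `RingHom.Finite` of a finitely generated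
integral extension). Let `ε_L : L → E`, `X ↦ 0`, `y ↦ b`, identity on `E` (`φ i (0) = 0`). Then
`ε = ε_L ∘ θ`, so `pt ε = resH θ (pt ε_L) = 0` by `St_A5` (1), `St_C8a`. -/
def St_C8 : Prop :=
  ∀ (p : ℕ) [Fact p.Prime] (k : Type) [Field k] [Finite k] [CharP k p] (n : ℕ)
    (f : MvPolynomial (Fin n) k), AQ p f → ∀ (E : Type) [Field E] [Finite E]
    (ε : AP p (MvPolynomial (Fin n) k) f →+* E),
    Isotr p (MvPolynomial.map ((ε.comp (AP.o f)).comp MvPolynomial.C) f) → pt ε = 0

open Polynomial in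
/-- **C9** (2 h), with the hypotheses `St_C5`, `St_C8`, `St_A5`. All points vanish.
Proof. Let `V = AP p (MvPolynomial (Fin 2) k) f`, `ι : k → E` induced by `ε`, `a = ε(x_1) ∈ E`. Let
`P ∈ E[X]` be the image of `to2 k f` under `C X ↦ a`, `k → E`, i.e. `f(X, a)`; its degree is that of
`to2 k f` (the leading coefficient is a unit of `k[X]`, so maps to a nonzero element), prime to `p`. Let
`C = AP p E[X] P`, `θ : V → C`, `x_0 ↦ X`, `x_1 ↦ a`, `y ↦ y`; it is finite (`C` is generated by
the elements of `E` as a `V`-module), and `ε = ε_C ∘ θ` with `ε_C : C → E`, `X ↦ ε(x_0)`,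
`y ↦ ε(y)`. Let `N = [k' : k]`. By `St_C5` (for `κ = E`) `pt ε_C ∈ ptS C |E| N`, so by `St_A5` (1)
`pt ε` is a combination of `pt (ε' ∘ θ)`, `ε' : C → E'`, `|E'| = |E| ^ d`, `N ∣ d`. Now `k → E'` makes
`E'` an extension of `k` of degree divisible by `N`, so there is a `k`-homomorphism `k' → E'`, and
`f` is isotropic over `E'` (push `φ` and the relation `PE` forward along `k' → E'`). By `St_C8`
`pt (ε' ∘ θ) = 0`. -/
def St_C9 : Prop :=
  ∀ (p : ℕ) [Fact p.Prime] (k : Type) [Field k] [Finite k] [CharP k p]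
    (f : MvPolynomial (Fin 2) k), AQ p f → ¬ p ∣ (to2 k f).natDegree →
    IsUnit (to2 k f).leadingCoeff → ∀ (k' : Type) [Field k'] [Finite k'] [Algebra k k'],
    Isotr p (MvPolynomial.map (algebraMap k k') f) → ∀ (E : Type) [Field E] [Finite E]
    (ε : AP p (MvPolynomial (Fin 2) k) f →+* E), pt ε = 0

/-- **C10a** (1.5 h). Exactness of `⊕ G_0(R / s) → G_0(R) → G_0(W⁻¹ R)` for a multiplicative set `W`.
Proof: adapt `Pool/Agent/HPow/Loc.lean` (`loc_killed`, …, `loc_exact`, the case of the powers of one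
element) and the part of `Pool/Agent/Helper67/Bass/Away.lean` it uses. -/
def St_C10a : Prop :=
  ∀ (R R' : Type) [CommRing R] [IsNoetherianRing R] [CommRing R'] [Algebra R R'] (W : Submonoid R)
    [IsLocalization W R'] [Module.Flat R R'] (x : G0 R), bcG R R' x = 0 →
    x ∈ AddSubgroup.closure {y | ∃ M : FGMod R, (∃ s ∈ W, ∀ m : M, s • m = 0) ∧ y = G0.mk M}

open Polynomial in
/-- **C10** (2.5 h), with the hypotheses `St_A1`, `St_C1`, `St_C10a`. The generic fibre.
Proof. `ι` makes `A = AP p K[X] _` the localisation of `V` at the image `W` of the nonzero elements of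
`k[X]` (the inner variable `t`), so it is flat. Let `x` be in the kernel. By `St_C10a` `x` is a
combination of classes of modules killed by some nonzero `s ∈ k[t]`. Let `H` be the set of modules with
class `0`; it is enough to show `[M] = 0` if `M` is killed by `s ≠ 0`; by induction on the number
of irreducible factors of `s` (`M ⊇ π M`) one may assume that `s = π` is irreducible (or a unit). Then
`M` is a module over `V ⧸ (π)`, isomorphic by `St_A1` (4) to `D = AP p κ[X] P`,
`κ = k[t] / (π)` a finite field, `P` the image of `F`, of degree prime to `p` (the leading coefficient of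
`F` is a unit). By `St_C1` `D` is a Dedekind domain; its nonzero prime ideals are maximal with finite
residue field (`D` is finitely generated over `κ`). So `M` has a filtration with quotients `D` or
finite fields `D ⧸ 𝔭` (prime filtration of finitely generated modules). The class of `D ≅ V ⧸ (π)`
in `G0 V` is `0`, by `0 → V → V → V ⧸ (π) → 0` (`π` is a nonzero divisor of `V`, which is free over
`k[t][X]`), and the classes of the finite fields are `0` by hypothesis. -/
def St_C10 : Prop :=
  ∀ (p : ℕ) [Fact p.Prime] (k : Type) [Field k] [Finite k] [CharP k p] (F : k[X][X]),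
    ¬ p ∣ F.natDegree → IsUnit F.leadingCoeff →
    (∀ (E : Type) [Field E] [Finite E] (ε : AP p k[X][X] F →+* E), pt ε = 0) →
    ∃ h : (AP.map (p := p) (mapRingHom (algebraMap k[X] (FractionRing k[X]))) F).Flat,
      Injective (bcH _ h)

/-- **C11a** (1.5 h). Proof. The subgroup of the elements of this form contains all `[M]`: by prime
filtration `G0 D` is generated by `[D]` and `[D ⧸ 𝔭] = [D] - [𝔭]`, `𝔭 ≠ 0`. The set of the
`z [D] + [I]` is closed under addition: `[I] + [J] = [D] + [I J]` (`[I] - [I J] = [I ⧸ I J] =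
[D ⧸ J] = [D] - [J]`), and under negation: if `I J = (a)`, `a ≠ 0`, then `[I] + [J] = [D] + [(a)] =
2 [D]`. -/
def St_C11a : Prop :=
  ∀ (D : Type) [CommRing D] [IsDedekindDomain D] (x : G0 D), ∃ (z : ℤ) (I : Ideal D), I ≠ ⊥ ∧
    x = z • G0.mk (FGMod.of D D) + G0.mk (FGMod.of D I)

/-- **C11b** (3 h). Proof. Let `K_0` be the Grothendieck group of the commutative monoid of isomorphism
classes of finitely generated projective `D`-modules (e.g. of the finitely generated submodules
of `D ^ n`, to stay in one universe; `Algebra.GrothendieckAddGroup`, or work with the statement: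
`P ~ Q` if `P × D ^ n ≅ Q × D ^ n` for some `n`). For a finitely generated `M` choose a surjection
`D ^ n → M` with kernel `P` (finitely generated torsion free, so projective over the Dedekind
domain) and put `α(M) = [D ^ n] - [P]`. Schanuel: `P × D ^ n' ≅ P' × D ^ n`, so this is well defined. It
is additive in short exact sequences (horseshoe: surjections for `M'`, `M''` give one for `M` with
kernel an extension of `P''` by `P'`, which splits). So `α : G0 D → K_0`. `α(I) = [I]` for an ideal `I`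
(`I` is projective, `D ^ n ≅ I × P`). Hence `z [D] + [I] = 0` in `G0 D` gives (rank: tensor with the
fraction field, `z = -1`) `[I] = [D]` in `K_0`, so `I × Q ≅ D × Q` with `Q` projective, and,
adding a complement, `Φ : I × D ^ n ≅ D × D ^ n`. For a finitely generated `D`-submodule `M` of
`K ^ (n+1)` let `δ(M) ⊆ K` be the `D`-submodule generated by the determinants of the matrices with
rows in `M`. `δ(I × D ^ n) = I` and `δ(D ^ (n+1)) = D`, and `Φ` is the restriction of a
matrix `Φ ∈ GL_(n+1)(K)`, so `δ(D ^ (n+1)) = det Φ δ(I × D ^ n)`, i.e. `D = det Φ I`: `I` is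
principal. -/
def St_C11b : Prop :=
  ∀ (D : Type) [CommRing D] [IsDedekindDomain D] (z : ℤ) (I : Ideal D), I ≠ ⊥ →
    z • G0.mk (FGMod.of D D) + G0.mk (FGMod.of D I) = 0 → z = -1 ∧ Submodule.IsPrincipal I

open Polynomial in
/-- **C12** (2.5 h), with the hypothesis `St_C1`. Descent of principality. Proof. Let
`A = AP p F[X] P`, `A' = AP p F'[X] _`, `φ = AP.map _ P : A → A'`. Let `e_1, …, e_n` be a basis of `F'` over
`F` with `e_1 = 1`; then `A'` is free over `A` with the basis `e_i`, and
`wt (∑ e_i φ(a_i)) = max_i wt (a_i)` (compare the coefficients `AP.cf`; the leading coefficients are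
combinations of the `e_i` with coefficients in `F`). If `I = ⊥` fine. Let `I A' = (g)`, `g ≠ 0`. All
nonzero elements of `I A'` have weight `≥ wt g`, and those of weight `wt g` are the `r g`, `r ∈ F'`,
`r ≠ 0` (`WV.mul`, `WV.lead` for `A'`, `St_C1`). Since `g ∈ I A'`, `g = ∑ e_i φ(a_i)` with
`a_i ∈ I` (`I A' = ⊕ e_i I`), and `wt g = max wt a_i`, so there is `a = a_i ∈ I`, `a ≠ 0`,
`wt φ(a) = wt a ≤ wt g`, hence `φ(a) = r g` and `I A' = φ(a) A'`. Then `I = a A`: if `b ∈ I` then
`φ(b) = φ(a) ∑ e_i φ(c_i)`, and comparing the coefficients of `e_1 = 1`, `b = a c_1`. -/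
def St_C12 : Prop :=
  ∀ (p : ℕ) [Fact p.Prime] (F F' : Type) [Field F] [Field F'] [CharP F p] [Algebra F F']
    [FiniteDimensional F F'] (P : F[X]), ¬ p ∣ P.natDegree → ∀ I : Ideal (AP p F[X] P),
    Submodule.IsPrincipal (I.map (AP.map (p := p) (mapRingHom (algebraMap F F')) P)) →
    Submodule.IsPrincipal I

/-- **C13a** (1 h). Functoriality of flat base change. Proof: `bcG_mk`, `mk_eq_of_iso`, associativity of
base change, `S ⊗[R] R ≅ S`, and `S ⊗[R] I ≅ I S` by flatness. -/
def St_C13a : Prop :=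
  (∀ (R S T : Type) [CommRing R] [CommRing S] [CommRing T] (φ : R →+* S) (ψ : S →+* T)
    (h : φ.Flat) (h' : ψ.Flat) (h'' : (ψ.comp φ).Flat) (x : G0 R),
    bcH (ψ.comp φ) h'' x = bcH ψ h' (bcH φ h x)) ∧
  (∀ (R S : Type) [CommRing R] [CommRing S] (φ : R →+* S) (h : φ.Flat),
    bcH φ h (G0.mk (FGMod.of R R)) = G0.mk (FGMod.of S S)) ∧
  (∀ (R S : Type) [CommRing R] [IsNoetherianRing R] [CommRing S] [IsNoetherianRing S] (φ : R →+* S)
    (h : φ.Flat) (I : Ideal R),
    bcH φ h (G0.mk (FGMod.of R I)) = G0.mk (FGMod.of S (I.map φ)))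

open Polynomial in
/-- **C13** (2.5 h), with the hypotheses `St_A1`, `St_B9`, `St_C0`, `St_C1`, `St_C7`, `St_C9`,
`St_C10`, `St_C11a`, `St_C11b`, `St_C12`, `St_C13a`. The case of two variables with a reduced quadratic part.
Proof. Let `k'` be as in `St_C7`, `F = to2 k f`, `V = AP p k[X][X] F ≅ AP p (MvPolynomial (Fin 2) k) f`
(`St_A1` (2), `St_C0` (1)); the points of `V` vanish by `St_C9` (transported). Let `F' ∈ k'[X][X]` be the
image of `F`, `V' = AP p k'[X][X] F'`, isomorphic to the ring of `map _ f` over `k'`; it is good by `St_B9`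
(`n = 0`). Let `K = FractionRing k[X]`, `K' = FractionRing k'[X]`, `A = AP p K[X] F_K`,
`A' = AP p K'[X] F'_K'`. There is a field homomorphism `K → K'` of finite degree, and the square
`V → A → A'`, `V → V' → A'` commutes. `V → V'` and `A → A'` are flat (free). Claim: `V → V'` induces an
injective map on `G0`. Let `x ∈ G0 V` map to `0` in `G0 V'`, hence in `G0 A'`. By `St_C10` it is
enough that the image `x_A` of `x` in `G0 A` is `0`. By `St_C11a` `x_A = z [A] + [I]`, `A` is a Dedekind
domain by `St_C1`. Its image `z [A'] + [I A'] = 0` (`St_C13a`), so `z = -1` and `I A'` is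
principal (`St_C11b`), so `I` is principal (`St_C12`), `I ≅ A`, `x_A = 0`. Now `GoodP p V'` gives
`Γ', e` with `p ^ e G0(V') ⊆ Γ'` finitely generated. So `p ^ e G0(V)` is isomorphic to a subgroup of a
finitely generated abelian group, hence finitely generated, and `Γ = p ^ e G0(V)` works. -/
def St_C13 : Prop :=
  ∀ (p : ℕ) [Fact p.Prime], GoodN p 1 → GoodN p 0 → ∀ (k : Type) [Field k] [Finite k] [CharP k p]
    (f : MvPolynomial (Fin 2) k), AQ p f → ¬ p ∣ (to2 k f).natDegree →
    IsUnit (to2 k f).leadingCoeff → GoodP p (AP p (MvPolynomial (Fin 2) k) f)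

/-- **N01** (1 h). Dimension at most one. Proof. `finGn_curve` and `curve_good`
(`Pool/Agent/HPow/Curve.lean`), `GoodP.of_finGn`. -/
def St_N01 : Prop := ∀ (p : ℕ) [Fact p.Prime], GoodN p 0 ∧ GoodN p 1

/-- **All** (30 min), with the hypotheses `St_N01`, `St_B8`, `St_B9`, `St_C0`, `St_C13`. Proof by strong
induction on `n`. `n = 2`: if `f(X, 0)` is `LinP` then `f` is isotropic (`φ = ![X, 0]`), `St_B9`;
otherwise `St_C0`, `St_C13`. `n ≥ 3`: `St_B8`, `St_B9`. -/
def St_All : Prop := ∀ (p : ℕ) [Fact p.Prime] (n : ℕ), GoodN p n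

open MvPolynomial in
/-- **Fin** (1 h), with the hypotheses `St_A4`, `St_All`, `St_B2`. The final theorem. Proof. `St_A4` for
`W = MvPolynomial (Fin n) k` (`GoodP` for `W`: `GoodP.mvPolynomial`), and the isomorphism of
`MvPolynomial (Fin s ⊕ Fin n) k` with `MvPolynomial (Fin s) (MvPolynomial (Fin n) k)`
(`sumAlgEquiv`; see `herm_iso` in `Pool/Agent/HPow/Fin.lean`). -/
def St_Fin : Prop :=
  ∀ (p : ℕ) [Fact p.Prime] (k : Type) [Field k] [Finite k] [CharP k p] (s n : ℕ)
    (H : Fin s → AddSubgroup k) (f : Fin s → MvPolynomial (Fin n) k), (∀ i, AQ p (f i)) →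
    GoodP p (MvPolynomial (Fin s ⊕ Fin n) k ⧸ Ideal.span (Set.range fun i =>
      (∏ᶠ a : H i, (X (Sum.inl i) - C (a : k))) - rename Sum.inr (f i)))

end Pool.Agent.AQS
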